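import Pool.Agent.Work.MP_90e0ad_ag.Hs.Fun
import Pool.Agent.Work.MP_e97a4d_nt.Hyp.GenL

/-!
MP_90e0ad_ag/Hs, module GenX (size M). The explicit family of linear forms L_p(k) = 2^(m1^p k),
k < m1, p ∈ ℕ is generic.

g1: det (x_i^k)_{i,k} with x_i = 2^(m1^(p i)) is a Vandermonde determinant (Matrix.det_vandermonde_ne_zero_iff)
with pairwise different x_i (m1 >= 2: p -> m1^p is injective; m1 = 1: the matrix is 1 by 1; m1 = 0: trivial).
Note (2^(A))^k = 2^(A k).
g2: expand the determinant over Perm (Pair m1), and each of the factors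
L_{q_s}(t1) L_{p_s}(t2) - L_{q_s}(t2) L_{p_s}(t1) into two terms (Finset.prod_sub or prod_add over
subsets): the determinant is a sum over (σ, ε), ε : Pair m1 → Bool, of ± 2^(E(σ, ε)),
E(σ, ε) = Σ_s (m1^(q_s) a_s + m1^(p_s) b_s), (a_s, b_s) = (t1, t2) or (t2, t1) for t = σ s. The positions
q_s, p_s are pairwise different and the digits a_s, b_s are < m1, so E determines all digits (uniqueness
of the base m1 expansion), i.e. the pair {a_s, b_s} = σ s and ε s: t1 < t2. So the exponents E are pairwise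
different, and a nonempty sum of ± different powers of 2 is not 0 (divide by the smallest power: the
rest is even).
Useful general lemmas: (a) for a finite injective family E : ι → ℕ, ι nonempty, and signs η i = ±1,
Σ η_i 2^(E_i) ≠ 0; (b) for pairwise different positions P : κ → ℕ and digits x, y : κ → ℕ smaller than
B, Σ B^(P i) x_i = Σ B^(P i) y_i implies x = y (both by strong induction / smallest or largest position).
m1 <= 1: Pair m1 is empty and the determinant is 1.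
-/

namespace Pool.Agent.Work.MP_90e0ad_ag.Hs

open Pool.Agent.Work.MP_90e0ad_ag Pool.Agent.Work.MP_e97a4d_nt.Hyp

private theorem digit_zero {κ : Type} [Fintype κ] (B : ℕ) (hB : 0 < B) (P : κ → ℕ)
    (hP : Function.Injective P) (D : κ → ℤ) (hD : ∀ k, |D k| < B)
    (h : ∑ k, D k * (B : ℤ) ^ P k = 0) : ∀ k, D k = 0 := by
  classical
  by_contra hcon
  push Not at hcon
  obtain ⟨k₁, hk₁⟩ := hcon
  set S : Finset κ := Finset.univ.filter fun k => D k ≠ 0 with hS
  have hSne : S.Nonempty := ⟨k₁, by rw [hS, Finset.mem_filter]; exact ⟨Finset.mem_univ _, hk₁⟩⟩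
  obtain ⟨k₀, hk₀, hmin⟩ := Finset.exists_min_image S P hSne
  have hk₀' : D k₀ ≠ 0 := (Finset.mem_filter.1 hk₀).2
  have h1 : (B : ℤ) ^ (P k₀ + 1) ∣ ∑ k ∈ Finset.univ.erase k₀, D k * (B : ℤ) ^ P k := by
    refine Finset.dvd_sum fun k hk => ?_
    by_cases hDk : D k = 0
    · rw [hDk, zero_mul]; exact dvd_zero _
    · have h2 : P k₀ ≤ P k := hmin k (by rw [hS, Finset.mem_filter]; exact ⟨Finset.mem_univ _, hDk⟩)
      have h3 : P k₀ ≠ P k := fun h3 => (Finset.ne_of_mem_erase hk) (hP h3).symm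
      exact Dvd.dvd.mul_left (pow_dvd_pow _ (by omega)) _
  rw [← Finset.add_sum_erase _ _ (Finset.mem_univ k₀)] at h
  have h2 : (B : ℤ) ^ (P k₀ + 1) ∣ D k₀ * (B : ℤ) ^ P k₀ := by
    have h3 : D k₀ * (B : ℤ) ^ P k₀ = -∑ k ∈ Finset.univ.erase k₀, D k * (B : ℤ) ^ P k := by
      linarith
    rw [h3]
    exact (dvd_neg).2 h1
  have hBz : (B : ℤ) ^ P k₀ ≠ 0 := pow_ne_zero _ (by exact_mod_cast hB.ne')
  rw [pow_succ, mul_comm (D k₀)] at h2
  have h3 : (B : ℤ) ∣ D k₀ := (mul_dvd_mul_iff_left hBz).1 h2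
  exact hk₀' (Int.eq_zero_of_abs_lt_dvd h3 (hD k₀))

private theorem signed_ne {ι : Type} [Fintype ι] [Nonempty ι] (E : ι → ℕ) (hE : Function.Injective E)
    (c : ι → ℤ) (hc : ∀ i, c i = 1 ∨ c i = -1) : ∑ i, c i * (2 : ℤ) ^ E i ≠ 0 := by
  intro h
  have h1 := digit_zero 2 (by norm_num) E hE c (fun i => by rcases hc i with h | h <;> rw [h] <;> norm_num)
    (by exact_mod_cast h)
  obtain ⟨i⟩ := ‹Nonempty ι›
  rcases hc i with h2 | h2 <;> rw [h1 i] at h2 <;> norm_num at h2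

private theorem sign_pm {α : Type} [Fintype α] [DecidableEq α] (σ : Equiv.Perm α) :
    ((Equiv.Perm.sign σ : ℤˣ) : ℤ) = 1 ∨ ((Equiv.Perm.sign σ : ℤˣ) : ℤ) = -1 := by
  rcases Int.units_eq_one_or (Equiv.Perm.sign σ) with h | h <;> rw [h]
  · left; rfl
  · right; rfl

private theorem gen_g1 (m1 : ℕ) (p : Fin m1 → ℕ) (hp : Function.Injective p) :
    (Matrix.of fun (i k : Fin m1) => ((Lx m1 (p i) k : ℕ) : ℤ)).det ≠ 0 := by
  classical
  rcases Nat.eq_zero_or_pos m1 with h0 | hpos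
  · subst h0
    rw [Matrix.det_fin_zero]
    exact one_ne_zero
  rw [← Matrix.det_transpose, Matrix.det_apply']
  simp only [Int.cast_id]
  set E : Equiv.Perm (Fin m1) → ℕ := fun σ => ∑ i, m1 ^ p i * (σ i : ℕ) with hE
  have h1 : ∀ σ : Equiv.Perm (Fin m1), ((Equiv.Perm.sign σ : ℤˣ) : ℤ) *
      ∏ i, (Matrix.of fun (i k : Fin m1) => ((Lx m1 (p i) k : ℕ) : ℤ)).transpose (σ i) i =
      ((Equiv.Perm.sign σ : ℤˣ) : ℤ) * (2 : ℤ) ^ E σ := by
    intro σ
    congr 1
    rw [hE]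
    simp only [Matrix.transpose_apply, Matrix.of_apply, Lx]
    push_cast
    rw [Finset.prod_pow_eq_pow_sum]
  rw [Finset.sum_congr rfl fun σ _ => h1 σ]
  refine signed_ne E ?_ _ fun σ => sign_pm σ
  intro σ τ hst
  apply Equiv.ext
  intro i
  have h2 := digit_zero m1 hpos p hp (fun i => ((σ i : ℕ) : ℤ) - ((τ i : ℕ) : ℤ)) (fun k => by
      have a1 := (σ k).2
      have a2 := (τ k).2
      rw [abs_lt]
      constructor <;> omega) (by
      have h3 : ((E σ : ℕ) : ℤ) = ((E τ : ℕ) : ℤ) := by rw [hst]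
      rw [hE] at h3
      push_cast at h3
      simp only [sub_mul, Finset.sum_sub_distrib]
      rw [sub_eq_zero]
      simp only [mul_comm ((m1 : ℤ) ^ _)] at h3
      exact h3) i
  apply Fin.ext
  omega

private theorem gen_g2 (m1 : ℕ) (p q : Pair m1 → ℕ) (hpq : Function.Injective (Sum.elim p q)) :
    (Matrix.of fun s t : Pair m1 =>
      ((Lx m1 (q s) t.1.1 : ℕ) : ℤ) * ((Lx m1 (p s) t.1.2 : ℕ) : ℤ) -
        ((Lx m1 (q s) t.1.2 : ℕ) : ℤ) * ((Lx m1 (p s) t.1.1 : ℕ) : ℤ)).det ≠ 0 := by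
  classical
  rcases Nat.eq_zero_or_pos m1 with h0 | hpos
  · subst h0
    have : IsEmpty (Pair 0) := ⟨fun t => t.1.1.elim0⟩
    rw [Matrix.det_isEmpty]
    exact one_ne_zero
  rw [← Matrix.det_transpose, Matrix.det_apply']
  simp only [Int.cast_id]
  -- digits
  set A : Bool → Pair m1 → Fin m1 := fun b t => if b then t.1.1 else t.1.2 with hA
  set Ex : Pair m1 → Bool → Pair m1 → ℕ := fun s b t =>
    m1 ^ q s * (A b t : ℕ) + m1 ^ p s * (A (!b) t : ℕ) with hEx
  set E : Equiv.Perm (Pair m1) × (Pair m1 → Bool) → ℕ := fun x => ∑ s, Ex s (x.2 s) (x.1 s) with hE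
  set c : Equiv.Perm (Pair m1) × (Pair m1 → Bool) → ℤ := fun x =>
    ((Equiv.Perm.sign x.1 : ℤˣ) : ℤ) * ∏ s, (if x.2 s then (1 : ℤ) else -1) with hc
  have h1 : ∀ σ : Equiv.Perm (Pair m1), ((Equiv.Perm.sign σ : ℤˣ) : ℤ) *
      ∏ s, (Matrix.of fun s t : Pair m1 =>
      ((Lx m1 (q s) t.1.1 : ℕ) : ℤ) * ((Lx m1 (p s) t.1.2 : ℕ) : ℤ) -
        ((Lx m1 (q s) t.1.2 : ℕ) : ℤ) * ((Lx m1 (p s) t.1.1 : ℕ) : ℤ)).transpose (σ s) s =
      ∑ ε : Pair m1 → Bool, c (σ, ε) * (2 : ℤ) ^ E (σ, ε) := by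
    intro σ
    have h2 : ∀ s, (Matrix.of fun s t : Pair m1 =>
      ((Lx m1 (q s) t.1.1 : ℕ) : ℤ) * ((Lx m1 (p s) t.1.2 : ℕ) : ℤ) -
        ((Lx m1 (q s) t.1.2 : ℕ) : ℤ) * ((Lx m1 (p s) t.1.1 : ℕ) : ℤ)).transpose (σ s) s =
        ∑ b : Bool, (if b then (1 : ℤ) else -1) * (2 : ℤ) ^ Ex s b (σ s) := by
      intro s
      rw [Fintype.sum_bool]
      simp only [Matrix.transpose_apply, Matrix.of_apply, Lx, hEx, hA]
      push_cast
      simp only [if_true, Bool.not_true, Bool.not_false, Bool.false_eq_true, if_false, pow_add]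
      ring
    rw [Finset.prod_congr rfl fun s _ => h2 s, Finset.prod_univ_sum, Fintype.piFinset_univ,
      Finset.mul_sum]
    refine Finset.sum_congr rfl fun ε _ => ?_
    rw [Finset.prod_mul_distrib, Finset.prod_pow_eq_pow_sum, hc, hE]
    ring
  rw [Finset.sum_congr rfl fun σ _ => h1 σ, ← Finset.sum_product' (f := fun σ ε => c (σ, ε) * (2 : ℤ) ^ E (σ, ε)),
    Finset.univ_product_univ]
  refine signed_ne E ?_ c ?_
  · rintro ⟨σ, ε⟩ ⟨τ, ε'⟩ hst
    have key := digit_zero m1 hpos (Sum.elim p q) hpq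
      (Sum.elim (fun s => ((A (!(ε s)) (σ s) : ℕ) : ℤ) - ((A (!(ε' s)) (τ s) : ℕ) : ℤ))
        (fun s => ((A (ε s) (σ s) : ℕ) : ℤ) - ((A (ε' s) (τ s) : ℕ) : ℤ))) (by
        rintro (s | s)
        · have a1 := (A (!(ε s)) (σ s)).2
          have a2 := (A (!(ε' s)) (τ s)).2
          rw [Sum.elim_inl, abs_lt]
          constructor <;> omega
        · have a1 := (A (ε s) (σ s)).2
          have a2 := (A (ε' s) (τ s)).2
          rw [Sum.elim_inr, abs_lt]
          constructor <;> omega) (by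
        rw [Fintype.sum_sum_type]
        simp only [Sum.elim_inl, Sum.elim_inr, sub_mul, Finset.sum_sub_distrib]
        have h3 : ((E (σ, ε) : ℕ) : ℤ) = ((E (τ, ε') : ℕ) : ℤ) := by rw [hst]
        rw [hE, hEx] at h3
        push_cast at h3
        simp only [Finset.sum_add_distrib, mul_comm ((m1 : ℤ) ^ _)] at h3
        linarith)
    have hs : ∀ s, σ s = τ s ∧ ε s = ε' s := by
      intro s
      have k1 := key (Sum.inl s)
      have k2 := key (Sum.inr s)
      rw [Sum.elim_inl, hA] at k1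
      rw [Sum.elim_inr, hA] at k2
      have hlt1 : ((σ s).1.1 : ℕ) < ((σ s).1.2 : ℕ) := (σ s).2
      have hlt2 : ((τ s).1.1 : ℕ) < ((τ s).1.2 : ℕ) := (τ s).2
      cases h5 : ε s <;> cases h6 : ε' s <;> rw [h5, h6] at k1 k2 <;>
        simp only [if_true, Bool.not_true, Bool.not_false, Bool.false_eq_true, if_false] at k1 k2
      · refine ⟨Subtype.ext (Prod.ext (Fin.ext ?_) (Fin.ext ?_)), rfl⟩ <;> omega
      · omega
      · omega
      · refine ⟨Subtype.ext (Prod.ext (Fin.ext ?_) (Fin.ext ?_)), rfl⟩ <;> omega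
    rw [Prod.mk.injEq]
    exact ⟨Equiv.ext fun s => (hs s).1, funext fun s => (hs s).2⟩
  · rintro ⟨σ, ε⟩
    have h4 : ∀ S : Finset (Pair m1), (∏ s ∈ S, (if ε s then (1 : ℤ) else -1)) = 1 ∨
        (∏ s ∈ S, (if ε s then (1 : ℤ) else -1)) = -1 := by
      intro S
      induction S using Finset.induction_on with
      | empty => left; rfl
      | insert a S ha ih =>
        rw [Finset.prod_insert ha]
        rcases ih with ih | ih <;> rw [ih] <;> cases ε a <;> simp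
    rw [hc]
    simp only
    rcases sign_pm σ with h5 | h5 <;> rcases h4 Finset.univ with h6 | h6 <;> rw [h5, h6] <;> simp

theorem gen_Lx (m1 : ℕ) : Gen (P := ℕ) (R := ℤ) fun (p : ℕ) (k : Fin m1) => ((Lx m1 p k : ℕ) : ℤ) :=
  ⟨gen_g1 m1, gen_g2 m1⟩

theorem gen_comp {P Q R : Type} [CommRing R] {n : ℕ} {L : P → Fin n → R} (hL : Gen L) (φ : Q → P)
    (hφ : Function.Injective φ) : Gen fun q k => L (φ q) k := by
  constructor
  · intro p hp
    exact hL.g1 (fun i => φ (p i)) (hφ.comp hp)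
  · intro p q hpq
    refine hL.g2 (fun i => φ (p i)) (fun i => φ (q i)) ?_
    have h : Sum.elim (fun i => φ (p i)) (fun i => φ (q i)) = φ ∘ Sum.elim p q := by
      funext x
      rcases x with x | x <;> rfl
    rw [h]
    exact hφ.comp hpq

end Pool.Agent.Work.MP_90e0ad_ag.Hs
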