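import Pool.Agent.Work.MP_90e0ad_ag.Hs.Fun
import Pool.Agent.Work.MP_e97a4d_nt.Hyp.ThmA

/-!
MP_90e0ad_ag/Hs, module RankX (size S-M). The rank condition for a general family G which contains the
forms y_k X_l^(e-1). Adapt the proof of thmA_rank in Hyp/ThmA.lean: replace thmA_G M e E (Sum.inr q) by
G (idx q) (case 1, some G_i(v) ≠ 0, is unchanged; in case 2 only the forms G (idx q) are used; injectivity
of idx is not needed), and there is no ring homomorphism φ (everything is over ℂ).
-/

set_option autoImplicit false

noncomputable section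

namespace Pool.Agent.Work.MP_90e0ad_ag.Hs

open Pool.Agent.Work.MP_90e0ad_ag Pool.Agent.Work.MP_e97a4d_nt.Hyp MvPolynomial

theorem rankX {ι : Type} [Fintype ι] (M e N J : ℕ) (he : 1 ≤ e) (hN : 0 < N)
    (hJ : 2 * (2 * M + 1) + 1 ≤ J)
    (G : ι → MvPolynomial (Fin (2 * M + 1 + 1)) ℂ) (hG : ∀ i, (G i).IsHomogeneous e)
    (idx : Fin (M + 1) × Fin (2 * M + 1 + 1) → ι)
    (hidx : ∀ q, G (idx q) = X (thmA_y M q.1) * X q.2 ^ (e - 1))
    (L : ι × Fin J → Fin (2 * M + 1 + 1) → ℂ) (hL : Gen L)
    (T : Set (Fin (2 * M + 1 + 1))) (hT : ∀ t ∈ T, (t : ℕ) ≤ M)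
    (v : Fin (2 * M + 1 + 1) → ℂ) (hv : v ≠ 0) (hvT : ∀ t ∈ T, v t = 0) :
    ∃ (t : ℕ) (y : Fin t → Fin (2 * M + 1 + 1)) (l₀ : Fin (2 * M + 1 + 1)), v l₀ ≠ 0 ∧
        (∀ k, v k ≠ 0 → k = l₀ ∨ k ∈ Set.range y) ∧
        ∃ c : Fin (t + 1) → Fin (2 * M + 1 + 1), (∀ k, c k ∉ T) ∧
          LinearIndependent ℂ fun (k : Fin (t + 1)) (p : ι × Fin J) =>
            eval v (pderiv (c k) (G p.1 * linPoly (L p) ^ N)) := by
  classical
  by_cases hcase : ∃ i, eval v (G i) ≠ 0
  · obtain ⟨i, hi⟩ := hcase
    obtain ⟨l₀, hl₀⟩ : ∃ l, v l ≠ 0 := Function.ne_iff.mp hv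
    have hl₀T : l₀ ∉ T := fun h => hl₀ (hvT l₀ h)
    set A : Finset (Fin (2 * M + 1 + 1)) := Finset.univ.filter fun k => k ∉ T ∧ k ≠ l₀ with hA
    set B : Finset (Fin (2 * M + 1 + 1)) := Finset.univ.filter fun k => k ∉ T with hB
    have hBA : B = insert l₀ A := by
      ext k
      simp only [hA, hB, Finset.mem_insert, Finset.mem_filter, Finset.mem_univ, true_and]
      constructor
      · intro h
        by_cases hk : k = l₀
        · exact Or.inl hk
        · exact Or.inr ⟨h, hk⟩
      · rintro (rfl | h)
        · exact hl₀T
        · exact h.1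
    have hBc : B.card = A.card + 1 := by
      rw [hBA, Finset.card_insert_of_notMem]
      simp [hA]
    refine ⟨A.card, fun s => A.orderEmbOfFin rfl s, l₀, hl₀, ?_, fun s => B.orderEmbOfFin hBc s, ?_, ?_⟩
    · intro k hk
      by_cases h : k = l₀
      · exact Or.inl h
      · right
        have hkA : k ∈ A := by
          rw [hA, Finset.mem_filter]
          exact ⟨Finset.mem_univ _, fun h' => hk (hvT k h'), h⟩
        have h2 : k ∈ Set.range (A.orderEmbOfFin rfl) := by
          rw [Finset.range_orderEmbOfFin]
          exact hkA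
        exact h2
    · intro k
      have h2 : B.orderEmbOfFin hBc k ∈ B := Finset.orderEmbOfFin_mem B hBc k
      exact (Finset.mem_filter.mp h2).2
    · have h1 := rank_out (n := 2 * M + 1) (J := J) (e := e) (N := N) hJ (G i)
        (hG i) (fun j k => L (i, j) k) (by
          intro p hp
          exact hL.g1 (fun s => (i, p s)) (fun x y h => hp (Prod.mk.inj h).2)) hN v hv hi
      have h2 := h1.comp (fun s => B.orderEmbOfFin hBc s) (B.orderEmbOfFin hBc).injective
      refine LinearIndependent.of_comp (LinearMap.funLeft ℂ ℂ (fun j : Fin J => (i, j))) ?_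
      exact h2
  · push Not at hcase
    have hy : ∀ k : Fin (M + 1), v (thmA_y M k) = 0 := by
      intro k
      obtain ⟨l, hl⟩ : ∃ l, v l ≠ 0 := Function.ne_iff.mp hv
      have h1 := hcase (idx (k, l))
      rw [hidx] at h1
      simp only [map_mul, map_pow, eval_X] at h1
      rcases mul_eq_zero.mp h1 with h2 | h2
      · exact h2
      · exact absurd h2 (pow_ne_zero _ hl)
    obtain ⟨l₀, hl₀⟩ : ∃ l, v l ≠ 0 := Function.ne_iff.mp hv
    have hbig : ∀ k : Fin (2 * M + 1 + 1), M < (k : ℕ) → v k = 0 := by
      intro k hk
      have h1 : k = thmA_y M ⟨(k : ℕ) - (M + 1), by omega⟩ := by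
        apply Fin.ext
        rw [thmA_y_val]
        simp only
        omega
      rw [h1]
      exact hy _
    have hl₀M : (l₀ : ℕ) ≤ M := by
      by_contra h
      exact hl₀ (hbig l₀ (by omega))
    set A : Finset (Fin (2 * M + 1 + 1)) := Finset.univ.filter fun k => (k : ℕ) ≤ M ∧ k ≠ l₀ with hA
    have hAc : A.card = M := by
      have h1 : insert l₀ A = Finset.univ.image (Fin.castLE (by omega) : Fin (M + 1) →
          Fin (2 * M + 1 + 1)) := by
        ext k
        simp only [hA, Finset.mem_insert, Finset.mem_filter, Finset.mem_univ, true_and,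
          Finset.mem_image]
        constructor
        · rintro (rfl | h)
          · exact ⟨⟨k, by omega⟩, rfl⟩
          · exact ⟨⟨k, by omega⟩, rfl⟩
        · rintro ⟨k', rfl⟩
          by_cases h : (Fin.castLE (by omega) k' : Fin (2 * M + 1 + 1)) = l₀
          · exact Or.inl h
          · refine Or.inr ⟨?_, h⟩
            have := k'.2
            simp only [Fin.val_castLE]
            omega
      have h2 : (insert l₀ A).card = M + 1 := by
        rw [h1, Finset.card_image_of_injective _ (Fin.castLE_injective _), Finset.card_univ,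
          Fintype.card_fin]
      rw [Finset.card_insert_of_notMem (by simp [hA])] at h2
      omega
    refine ⟨M, fun s => A.orderEmbOfFin hAc s, l₀, hl₀, ?_, thmA_y M, ?_, ?_⟩
    · intro k hk
      by_cases h : k = l₀
      · exact Or.inl h
      · right
        have hkA : k ∈ A := by
          rw [hA, Finset.mem_filter]
          refine ⟨Finset.mem_univ _, ?_, h⟩
          by_contra h'
          exact hk (hbig k (by omega))
        have h2 : k ∈ Set.range (A.orderEmbOfFin hAc) := by
          rw [Finset.range_orderEmbOfFin]
          exact hkA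
        exact h2
    · intro k hk
      have := hT _ hk
      rw [thmA_y_val] at this
      omega
    · -- a form which does not vanish at v
      have hj : ∀ k : Fin (M + 1), ∃ j : Fin J,
          ∑ l, (L (idx (k, l₀), j) l) * v l ≠ 0 := by
        intro k
        by_contra hcon
        push Not at hcon
        have h1 := hL.card_zero v hv
          (Finset.univ.image fun j : Fin J =>
            ((idx (k, l₀), j) : ι × Fin J)) (by
            intro p hp
            rw [Finset.mem_image] at hp
            obtain ⟨j, -, rfl⟩ := hp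
            exact hcon j)
        rw [Finset.card_image_of_injective _ (fun x y h => (Prod.mk.inj h).2), Finset.card_univ,
          Fintype.card_fin] at h1
        omega
      choose j hj using hj
      rw [Fintype.linearIndependent_iff]
      intro g hg k'
      have h1 := congrFun hg (idx (k', l₀), j k')
      simp only [Finset.sum_apply, Pi.smul_apply, smul_eq_mul, Pi.zero_apply] at h1
      have h2 : ∀ k, eval v (pderiv (thmA_y M k) (G ((idx (k', l₀))) *
          linPoly (fun l => (L (idx (k', l₀), j k') l)) ^ N)) =
          if k = k' then (∑ l, (L (idx (k', l₀), j k') l) * v l) ^ N * v l₀ ^ (e - 1)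
          else 0 := by
        intro k
        rw [rank_on (n := 2 * M + 1) _ _ v (hcase _)]
        have h3 : thmA_y M k ≠ l₀ := by
          intro h
          have := congrArg Fin.val h
          rw [thmA_y_val] at this
          omega
        have h4 : eval v (pderiv (thmA_y M k) (G ((idx (k', l₀))))) =
            if k = k' then v l₀ ^ (e - 1) else 0 := by
          rw [hidx]
          simp only [Derivation.leibniz, Derivation.leibniz_pow,
            pderiv_X_of_ne h3.symm, smul_zero, zero_add, pderiv_X]
          by_cases hk : k = k'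
          · subst hk
            simp
          · have h5 : thmA_y M k' ≠ thmA_y M k := by
              intro h
              have := congrArg Fin.val h
              rw [thmA_y_val, thmA_y_val] at this
              exact hk (Fin.ext (by omega))
            simp [hk, h5]
        rw [h4]
        by_cases hk : k = k'
        · simp [hk]
        · simp [hk]
      simp only [h2] at h1
      rw [Finset.sum_eq_single k'] at h1
      · rw [if_pos rfl] at h1
        rcases mul_eq_zero.mp h1 with h6 | h6
        · exact h6
        · exact absurd h6 (mul_ne_zero (pow_ne_zero _ (hj k')) (pow_ne_zero _ hl₀))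
      · intro k _ hk
        rw [if_neg hk, mul_zero]
      · intro h
        exact absurd (Finset.mem_univ _) h


end Pool.Agent.Work.MP_90e0ad_ag.Hs
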