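import Pool.Agent.Work.MP_90e0ad_ag.Hs.Fun
import Pool.Agent.Work.MP_e97a4d_nt.Hyp.Smooth

/-!
MP_90e0ad_ag/Hs, module SmoothZ (size S). Hyp.exists_smooth for integral polynomials: apply it to
F₀ = ℚ, σ = Rat.castHom ℂ (or algebraMap ℚ ℂ) and the polynomials
map (Int.castRingHom (𝓞 ℚ)) (φ p) : MvPolynomial _ (𝓞 ℚ); pderiv commutes with map
(MvPolynomial.pderiv_map), eval₂ of map is eval₂ for the composed homomorphism (eval₂_map), and any two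
ring homomorphisms ℤ →+* ℂ are equal (RingHom.ext_int / Subsingleton).
(NumberField ℚ is an instance.)
-/

namespace Pool.Agent.Work.MP_90e0ad_ag.Hs

open Pool.Agent.Work.MP_90e0ad_ag Pool.Agent.Work.MP_e97a4d_nt.Hyp MvPolynomial

open NumberField in
private theorem smz_map (m : ℕ) (σ : ℚ →+* ℂ) (k : Fin (m + 1)) (p : MvPolynomial (Fin (m + 1)) ℤ)
    (v : Fin (m + 1) → ℂ) :
    (pderiv k (map (Int.castRingHom (𝓞 ℚ)) p)).eval₂ (σ.comp (algebraMap (𝓞 ℚ) ℚ)) v =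
      (pderiv k p).eval₂ (Int.castRingHom ℂ) v := by
  rw [pderiv_map, eval₂_map]
  congr 1
  exact Subsingleton.elim _ _

theorem exists_smoothZ {m : ℕ} {P : Type} [Fintype P] (φ : P → MvPolynomial (Fin (m + 1)) ℤ)
    (d : ℕ) (hφ : ∀ p, (φ p).IsHomogeneous d) (TT : Set (Set (Fin (m + 1))))
    (h : ∀ T ∈ TT, ∀ v : Fin (m + 1) → ℂ, v ≠ 0 → (∀ t ∈ T, v t = 0) →
      ∃ (t : ℕ) (y : Fin t → Fin (m + 1)) (l₀ : Fin (m + 1)), v l₀ ≠ 0 ∧
        (∀ k, v k ≠ 0 → k = l₀ ∨ k ∈ Set.range y) ∧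
        ∃ c : Fin (t + 1) → Fin (m + 1), (∀ k, c k ∉ T) ∧
          LinearIndependent ℂ fun (k : Fin (t + 1)) (p : P) =>
            (pderiv (c k) (φ p)).eval₂ (Int.castRingHom ℂ) v) :
    ∃ a : P → ℤ, (∀ p, a p ≠ 0) ∧ ∀ T ∈ TT, ∀ x : Fin (m + 1) → ℂ, (∀ t ∈ T, x t = 0) →
      (∀ k ∉ T, (pderiv k (∑ p, C (a p) * φ p)).eval₂ (Int.castRingHom ℂ) x = 0) → x = 0 := by
  set σ : ℚ →+* ℂ := algebraMap ℚ ℂ with hσ
  obtain ⟨a, ha, hsm⟩ := exists_smooth σ (fun p => map (Int.castRingHom (NumberField.RingOfIntegers ℚ)) (φ p)) d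
    (fun p => (hφ p).map _) TT (by
      intro T hT v hv hvT
      obtain ⟨t, y, l₀, h1, h2, c, h3, h4⟩ := h T hT v hv hvT
      refine ⟨t, y, l₀, h1, h2, c, h3, ?_⟩
      simp only [smz_map]
      exact h4)
  refine ⟨a, ha, fun T hT x hx hk => hsm T hT x hx fun k hkT => ?_⟩
  have h1 : (∑ p, C ((a p : ℤ) : NumberField.RingOfIntegers ℚ) *
      map (Int.castRingHom (NumberField.RingOfIntegers ℚ)) (φ p)) =
      map (Int.castRingHom (NumberField.RingOfIntegers ℚ)) (∑ p, C (a p) * φ p) := by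
    rw [map_sum]
    refine Finset.sum_congr rfl fun p _ => ?_
    rw [map_mul, map_C]
    rfl
  rw [h1, smz_map]
  exact hk k hkT

end Pool.Agent.Work.MP_90e0ad_ag.Hs
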