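import Pool.Agent.Work.MP_90e0ad_ag.Hs.FEv
import Pool.Agent.Work.MP_90e0ad_ag.Hs.GenX
import Pool.Agent.Work.MP_90e0ad_ag.Hs.RankX
import Pool.Agent.Work.MP_90e0ad_ag.Hs.SmoothZ

/-!
MP_90e0ad_ag/Hs, module ExistsA (size M). Coefficients for which the hypersurface is smooth.

m = 2 M + 1, m1 = 2 M + 2, Gs := gens M E, e := eOf E, J := JJ M, ι := Fin Gs.length,
G i := map (Int.castRingHom ℂ) (poly m Gs[i]), L (i, j) k := Lx m1 (j + J i) k (generic: gen_Lx, gen_comp
with the injective map (i, j) -> j + J i, i.e. finProdFinEquiv, then Gen.map for ℤ → ℂ), idx from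
gens_getD (choose) and evR_yMon at v = X. rankX (2 (2 M + 1) + 1 <= J is clear) gives the hypothesis of
exists_smoothZ for P := ι × Fin J and φ (i, j) := poly m Gs[i] * linPoly (Lx m1 (j + J i) ·) ^ N over ℤ
(pderiv_map, eval_map, thmA_linPoly_map), homogeneous of degree e + N, and
TT := {T | ∃ s <= M + 1, T = {t | t < s}}. For existsT add one more index (P := Option (ι × Fin J) or
(ι × Fin J) ⊕ Unit) with φ = X 0 ^ (e + N): the linear independence of the bigger family follows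
from the smaller one (LinearIndependent.of_comp with LinearMap.funLeft). Convert the result a : P → ℤ to a
list of length Gs.length * J (+ 1) (List.ofFn, finProdFinEquiv) and compare with evR_fForm at v = X:
poly m (fForm ..) = ∑_p C (a_p) * φ p. Derivatives: poly_der and poly_eval₂ (evR_C).
SmoothAlong: by contradiction from the last conclusion of exists_smoothZ.
-/

namespace Pool.Agent.Work.MP_90e0ad_ag.Hs

open Pool.Agent.Work.MP_90e0ad_ag Pool.Agent.Work.MP_e97a4d_nt.Hyp MvPolynomial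

/-- the integral polynomials of the linear system -/
noncomputable def exPg (M : ℕ) (E : List Form) (i : Fin (gens M E).length) :
    MvPolynomial (Fin (2 * M + 1 + 1)) ℤ := poly (2 * M + 1) ((gens M E).getD i [])

noncomputable def exL (M : ℕ) (E : List Form) (p : Fin (gens M E).length × Fin (JJ M))
    (k : Fin (2 * M + 1 + 1)) : ℤ := ((Lx (2 * M + 2) (finProdFinEquiv p : ℕ) k : ℕ) : ℤ)

noncomputable def exφ (M : ℕ) (E : List Form) (N : ℕ) (p : Fin (gens M E).length × Fin (JJ M)) :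
    MvPolynomial (Fin (2 * M + 1 + 1)) ℤ := exPg M E p.1 * linPoly (exL M E p) ^ N

theorem exPg_homog (M : ℕ) (E : List Form) (hE : ∀ P ∈ E, IsForm M P) (i : Fin (gens M E).length) :
    (exPg M E i).IsHomogeneous (eOf E) := by
  unfold exPg
  refine poly_homog _ _ _ ?_
  rw [List.getD_eq_getElem _ _ i.2]
  exact gens_hasDeg M E hE _ (List.getElem_mem i.2)

theorem exL_gen (M : ℕ) (E : List Form) :
    Gen fun (p : Fin (gens M E).length × Fin (JJ M)) (k : Fin (2 * M + 1 + 1)) =>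
      (Int.castRingHom ℂ) (exL M E p k) := by
  have h1 := gen_comp (gen_Lx (2 * M + 2))
    (fun p : Fin (gens M E).length × Fin (JJ M) => (finProdFinEquiv p : ℕ))
    (Fin.val_injective.comp finProdFinEquiv.injective)
  exact h1.map (Int.castRingHom ℂ) Int.cast_injective

theorem exφ_homog (M : ℕ) (E : List Form) (hE : ∀ P ∈ E, IsForm M P) (N : ℕ)
    (p : Fin (gens M E).length × Fin (JJ M)) : (exφ M E N p).IsHomogeneous (eOf E + N) := by
  have h1 := (exPg_homog M E hE p.1).mul ((thmA_linPoly_homog (exL M E p)).pow N)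
  rwa [one_mul] at h1

theorem exφ_eval (M : ℕ) (E : List Form) (N : ℕ) (p : Fin (gens M E).length × Fin (JJ M))
    (k : Fin (2 * M + 1 + 1)) (v : Fin (2 * M + 1 + 1) → ℂ) :
    (pderiv k (exφ M E N p)).eval₂ (Int.castRingHom ℂ) v =
      eval v (pderiv k (map (Int.castRingHom ℂ) (exPg M E p.1) *
        linPoly (fun k => (Int.castRingHom ℂ) (exL M E p k)) ^ N)) := by
  rw [thmA_pderiv]
  unfold exφ
  rw [map_mul, map_pow, thmA_linPoly_map]

theorem ex_rank (M : ℕ) (E : List Form) (hE : ∀ P ∈ E, IsForm M P) (N : ℕ) (hN : 0 < N)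
    (T : Set (Fin (2 * M + 1 + 1))) (hT : ∀ t ∈ T, (t : ℕ) ≤ M)
    (v : Fin (2 * M + 1 + 1) → ℂ) (hv : v ≠ 0) (hvT : ∀ t ∈ T, v t = 0) :
    ∃ (t : ℕ) (y : Fin t → Fin (2 * M + 1 + 1)) (l₀ : Fin (2 * M + 1 + 1)), v l₀ ≠ 0 ∧
        (∀ k, v k ≠ 0 → k = l₀ ∨ k ∈ Set.range y) ∧
        ∃ c : Fin (t + 1) → Fin (2 * M + 1 + 1), (∀ k, c k ∉ T) ∧
          LinearIndependent ℂ fun (k : Fin (t + 1)) (p : Fin (gens M E).length × Fin (JJ M)) =>
            (pderiv (c k) (exφ M E N p)).eval₂ (Int.castRingHom ℂ) v := by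
  have hJ : 2 * (2 * M + 1) + 1 ≤ JJ M := by
    unfold JJ
    have h1 : 2 * M + 2 ≤ (2 * M + 2) ^ 3 := Nat.le_self_pow (by norm_num) _
    omega
  have hidx : ∀ q : Fin (M + 1) × Fin (2 * M + 1 + 1), ∃ i : Fin (gens M E).length,
      map (Int.castRingHom ℂ) (exPg M E i) = X (thmA_y M q.1) * X q.2 ^ (eOf E - 1) := by
    intro q
    obtain ⟨i, hi, h1⟩ := gens_getD M E q.1 q.2 q.1.2 q.2.2
    refine ⟨⟨i, hi⟩, ?_⟩
    unfold exPg
    simp only
    rw [h1]
    unfold poly
    rw [evR_yMon M (eOf E) q.1 q.2 q.1.2 q.2.2, map_mul, map_pow, map_X, map_X]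
    rfl
  choose idx hidx using hidx
  have h := rankX M (eOf E) N (JJ M) (eOf_pos E) hN hJ
    (fun i => map (Int.castRingHom ℂ) (exPg M E i)) (fun i => (exPg_homog M E hE i).map _) idx hidx
    (fun p k => (Int.castRingHom ℂ) (exL M E p k)) (exL_gen M E) T hT v hv hvT
  obtain ⟨t, y, l₀, h1, h2, c, h3, h4⟩ := h
  refine ⟨t, y, l₀, h1, h2, c, h3, ?_⟩
  simp only [exφ_eval]
  exact h4

theorem poly_fForm (M : ℕ) (E : List Form) (hE : ∀ P ∈ E, IsForm M P) (N : ℕ)
    (a : Fin (gens M E).length × Fin (JJ M) → ℤ) (aL : List ℤ)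
    (haL : ∀ p, aL.getD (finProdFinEquiv p : ℕ) 0 = a p) :
    poly (2 * M + 1) (fForm (2 * M + 2) (JJ M) N (gens M E) aL) = ∑ p, C (a p) * exφ M E N p := by
  have h := evR_fForm (R := MvPolynomial (Fin (2 * M + 1 + 1)) ℤ) (2 * M + 1) (JJ M) N (gens M E) aL
    (fun G hG ce hce => (gens_hasDeg M E hE G hG ce hce).1) X
  unfold poly
  refine Eq.trans h ?_
  rw [Finset.sum_range, ← Equiv.sum_comp finProdFinEquiv]
  refine Finset.sum_congr rfl fun p _ => ?_
  have h1 : (finProdFinEquiv p : ℕ) / JJ M = (p.1 : ℕ) := by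
    have h2 : (finProdFinEquiv p : ℕ) = (p.2 : ℕ) + JJ M * (p.1 : ℕ) := rfl
    have h3 := p.2.2
    rw [h2, Nat.add_mul_div_left _ _ (by omega), Nat.div_eq_of_lt h3, zero_add]
  rw [haL p, h1, mul_assoc]
  unfold exφ exPg poly linPoly exL
  have h4 : ((a p : ℤ) : MvPolynomial (Fin (2 * M + 1 + 1)) ℤ) = C (a p) := by simp
  rw [h4]
  congr 3

private theorem smooth_of (M s : ℕ) (f : Form) (hf : ∀ ce ∈ f, ce.2.length = 2 * M + 1 + 1)
    (h : ∀ x : Fin (2 * M + 1 + 1) → ℂ, (∀ t ∈ {t : Fin (2 * M + 1 + 1) | (t : ℕ) < s}, x t = 0) →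
      (∀ k ∉ {t : Fin (2 * M + 1 + 1) | (t : ℕ) < s},
        (pderiv k (poly (2 * M + 1) f)).eval₂ (Int.castRingHom ℂ) x = 0) → x = 0) :
    SmoothAlong (2 * M + 1) s f := by
  intro v hv hvs
  by_contra hcon
  push Not at hcon
  refine hv (h v (fun t ht => hvs t ht) fun k hk => ?_)
  have hk' : s ≤ (k : ℕ) := by
    by_contra h'
    exact hk (by show (k : ℕ) < s; omega)
  have h1 := hcon k hk'
  have h2 := poly_der (2 * M + 1) k k.2 f hf
  have h3 : (⟨(k : ℕ), k.2⟩ : Fin (2 * M + 1 + 1)) = k := rfl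
  rw [h3] at h2
  rw [h2, poly_eval₂, evR_C]
  exact h1

theorem existsH (M : ℕ) (E : List Form) (hE : ∀ P ∈ E, IsForm M P) (N : ℕ) (hN : 0 < N) :
    ∃ a : List ℤ, (∀ p < (gens M E).length * JJ M, a.getD p 0 ≠ 0) ∧
      ∀ s ≤ M + 1, SmoothAlong (2 * M + 1) s (fForm (2 * M + 2) (JJ M) N (gens M E) a) := by
  obtain ⟨a, ha, hsm⟩ := exists_smoothZ (exφ M E N) (eOf E + N) (exφ_homog M E hE N)
    {T | ∀ t ∈ T, (t : ℕ) ≤ M} (fun T hT v hv hvT => ex_rank M E hE N hN T hT v hv hvT)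
  set aL : List ℤ := List.ofFn fun q : Fin ((gens M E).length * JJ M) => a (finProdFinEquiv.symm q)
    with haL
  have hget : ∀ q : Fin ((gens M E).length * JJ M), aL.getD (q : ℕ) 0 = a (finProdFinEquiv.symm q) := by
    intro q
    rw [List.getD_eq_getElem _ _ (by rw [haL, List.length_ofFn]; exact q.2)]
    simp [haL]
  refine ⟨aL, fun p hp => ?_, fun s hs => ?_⟩
  · rw [hget ⟨p, hp⟩]
    exact ha _
  · refine smooth_of M s _ (fun ce hce => (fForm_hasDeg (2 * M + 1) (JJ M) N (eOf E) (gens M E) aL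
      (gens_hasDeg M E hE) ce hce).1) ?_
    rw [poly_fForm M E hE N a aL (fun p => by rw [hget, Equiv.symm_apply_apply])]
    exact hsm {t | (t : ℕ) < s} (fun t ht => by
      have : (t : ℕ) < s := ht
      omega)

theorem existsT (M : ℕ) (E : List Form) (hE : ∀ P ∈ E, IsForm M P) (N : ℕ) (hN : 0 < N) :
    ∃ a : List ℤ, (∀ p < (gens M E).length * JJ M + 1, a.getD p 0 ≠ 0) ∧
      ∀ s ≤ M + 1, SmoothAlong (2 * M + 1) s
        (tForm (2 * M + 2) (JJ M) N (eOf E) (gens M E) a) := by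
  obtain ⟨a, ha, hsm⟩ := exists_smoothZ
    (P := (Fin (gens M E).length × Fin (JJ M)) ⊕ Unit)
    (Sum.elim (exφ M E N) (fun _ => X (0 : Fin (2 * M + 1 + 1)) ^ (eOf E + N))) (eOf E + N)
    (by
      rintro (p | p)
      · exact exφ_homog M E hE N p
      · exact isHomogeneous_X_pow _ _)
    {T | ∀ t ∈ T, (t : ℕ) ≤ M} (fun T hT v hv hvT => by
      obtain ⟨t, y, l₀, h1, h2, c, h3, h4⟩ := ex_rank M E hE N hN T hT v hv hvT
      refine ⟨t, y, l₀, h1, h2, c, h3, ?_⟩
      refine LinearIndependent.of_comp (LinearMap.funLeft ℂ ℂ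
        (Sum.inl : Fin (gens M E).length × Fin (JJ M) → _)) ?_
      exact h4)
  set K := (gens M E).length * JJ M with hK
  set aL : List ℤ := (List.ofFn fun q : Fin K => a (Sum.inl (finProdFinEquiv.symm q))) ++
    [a (Sum.inr ())] with haL
  have hlen : aL.length = K + 1 := by rw [haL, List.length_append, List.length_ofFn]; rfl
  have hget : ∀ q : Fin K, aL.getD (q : ℕ) 0 = a (Sum.inl (finProdFinEquiv.symm q)) := by
    intro q
    rw [List.getD_eq_getElem _ _ (by rw [hlen]; omega)]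
    simp [haL]
  have hlast : aL.getD K 0 = a (Sum.inr ()) := by
    rw [List.getD_eq_getElem _ _ (by rw [hlen]; omega)]
    simp [haL]
  refine ⟨aL, fun p hp => ?_, fun s hs => ?_⟩
  · by_cases hpK : p < K
    · rw [hget ⟨p, hpK⟩]
      exact ha _
    · have : p = K := by omega
      rw [this, hlast]
      exact ha _
  · refine smooth_of M s _ (fun ce hce => (tForm_hasDeg (2 * M + 1) (JJ M) N (eOf E) (gens M E) aL
      (gens_hasDeg M E hE) ce hce).1) ?_
    have hpoly : poly (2 * M + 1) (tForm (2 * M + 2) (JJ M) N (eOf E) (gens M E) aL) =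
        ∑ p, C (a p) * (Sum.elim (exφ M E N) (fun _ => X (0 : Fin (2 * M + 1 + 1)) ^ (eOf E + N))) p := by
      have h1 := evR_tForm (R := MvPolynomial (Fin (2 * M + 1 + 1)) ℤ) (2 * M + 1) (JJ M) N (eOf E)
        (gens M E) aL (fun G hG ce hce => (gens_hasDeg M E hE G hG ce hce).1) X
      have h2 := poly_fForm M E hE N (fun p => a (Sum.inl p)) aL
        (fun p => by rw [hget, Equiv.symm_apply_apply])
      have h3 : poly (2 * M + 1) (tForm (2 * M + 2) (JJ M) N (eOf E) (gens M E) aL) =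
          ((aL.getD K 0 : ℤ) : MvPolynomial (Fin (2 * M + 1 + 1)) ℤ) * X 0 ^ (eOf E + N) +
            poly (2 * M + 1) (fForm (2 * M + 2) (JJ M) N (gens M E) aL) := h1
      rw [h3, h2, hlast, Fintype.sum_sum_type]
      simp only [Sum.elim_inl, Sum.elim_inr, Finset.univ_unique, Finset.sum_singleton]
      refine (add_comm _ _).trans (congrArg₂ (· + ·) rfl ?_)
      have h4 : ((a (Sum.inr ()) : ℤ) : MvPolynomial (Fin (2 * M + 1 + 1)) ℤ) =
        C (a (Sum.inr ())) := by simp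
      rw [h4]
    rw [hpoly]
    exact hsm {t | (t : ℕ) < s} (fun t ht => by
      have : (t : ℕ) < s := ht
      omega)

end Pool.Agent.Work.MP_90e0ad_ag.Hs
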