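import Pool.Agent.Work.MP_90e0ad_ag.Hs.Forms

/-!
MP_90e0ad_ag/Hs, module FEv (size M): the value and the degree of fForm.

evR_fForm: List.flatMap / List.map sums (List.sum_flatMap or induction; List.sum over List.range is a
Finset.sum over Finset.range: Finset.sum_range / List.sum_range ...). For fixed p and fixed monomial
(c, ε) of G = Gs[p/J] the sum over w < m1^N of
a_p c 2^(m1^p sum(digs w)) ev v (word ε ++ digs w) = a_p c ev v (word ε) * ∏-sum, and
pow_lin: ∑_{w < m1^N} 2^(m1^p (digs m1 N w).sum) ev v (digs m1 N w) = (∑_k Lx m1 p k v_k)^N.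
pow_lin by induction on N: digs_succ, w = d + m1 w' (Finset.sum over range (m1 * m1^N): use
Finset.sum_nbij' or Nat.sum_range_mul / finProdFinEquiv), (digs (N+1) w).sum = d + (digs N w').sum,
2^(A (x + y)) = 2^(A x) 2^(A y), ev_cons.
fForm_hasDeg: exps_length, exps_sum with length (word ε ++ digs w) = ε.sum + N, indices < m1.
-/

namespace Pool.Agent.Work.MP_90e0ad_ag.Hs

open Pool.Agent.Work.MP_90e0ad_ag

private theorem fev_sum_range {R : Type} [AddCommMonoid R] (k : ℕ) (f : ℕ → R) :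
    ((List.range k).map f).sum = ∑ i ∈ Finset.range k, f i := by
  induction k with
  | zero => simp
  | succ k ih => rw [List.range_succ, List.map_append, List.sum_append, ih, Finset.sum_range_succ]; simp

private theorem fev_range_mul {R : Type} [AddCommMonoid R] (b K : ℕ) (f : ℕ → R) :
    ∑ w ∈ Finset.range (b * K), f w = ∑ w' ∈ Finset.range K, ∑ d ∈ Finset.range b, f (d + b * w') := by
  induction K with
  | zero => simp
  | succ K ih =>
    rw [Nat.mul_succ, Finset.sum_range_add, ih, Finset.sum_range_succ]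
    congr 1
    refine Finset.sum_congr rfl fun d _ => ?_
    rw [add_comm]

private theorem fev_pow (R : Type) [CommRing R] (m A N : ℕ) (v : Fin (m + 1) → R) :
    ∑ w ∈ Finset.range ((m + 1) ^ N),
      (((2 ^ (A * (digs (m + 1) N w).sum) : ℕ) : ℤ) : R) * ev v (digs (m + 1) N w) =
      (∑ k : Fin (m + 1), ((2 ^ (A * (k : ℕ)) : ℕ) : R) * v k) ^ N := by
  induction N with
  | zero => simp [digs, ev_nil]
  | succ N ih =>
    rw [pow_succ' (m + 1) N, fev_range_mul]
    have h1 : ∀ w' d : ℕ, d < m + 1 → digs (m + 1) (N + 1) (d + (m + 1) * w') =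
        d :: digs (m + 1) N w' := by
      intro w' d hd
      rw [digs_succ, Nat.add_mul_mod_self_left, Nat.mod_eq_of_lt hd,
        Nat.add_mul_div_left _ _ (Nat.succ_pos m), Nat.div_eq_of_lt hd, zero_add]
    have h2 : ∀ w' : ℕ, ∑ d ∈ Finset.range (m + 1),
        (((2 ^ (A * (digs (m + 1) (N + 1) (d + (m + 1) * w')).sum) : ℕ) : ℤ) : R) *
          ev v (digs (m + 1) (N + 1) (d + (m + 1) * w')) =
        (∑ k : Fin (m + 1), ((2 ^ (A * (k : ℕ)) : ℕ) : R) * v k) *
          ((((2 ^ (A * (digs (m + 1) N w').sum) : ℕ) : ℤ) : R) * ev v (digs (m + 1) N w')) := by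
      intro w'
      rw [Finset.sum_range, Finset.sum_mul]
      refine Finset.sum_congr rfl fun d _ => ?_
      rw [h1 w' d d.2, List.sum_cons, ev_cons v d d.2, mul_add, pow_add]
      push_cast
      ring
    rw [Finset.sum_congr rfl fun w' _ => h2 w', ← Finset.mul_sum, ih, pow_succ']

theorem pow_lin {R : Type} [CommRing R] (m p N : ℕ) (v : Fin (m + 1) → R) :
    ((List.range ((m + 1) ^ N)).map fun w =>
      (((2 ^ ((m + 1) ^ p * (digs (m + 1) N w).sum) : ℕ) : ℤ) : R) * ev v (digs (m + 1) N w)).sum =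
      (∑ k : Fin (m + 1), ((Lx (m + 1) p k : ℕ) : R) * v k) ^ N := by
  rw [fev_sum_range]
  exact fev_pow R m ((m + 1) ^ p) N v

private theorem fev_flatMap {R : Type} [CommRing R] {ι : Type} (m : ℕ) (l : List ι) (f : ι → Form)
    (v : Fin (m + 1) → R) : evR m (l.flatMap f) v = (l.map fun x => evR m (f x) v).sum := by
  induction l with
  | nil => simp [evR_nil]
  | cons x l ih => rw [List.flatMap_cons, evR_append, ih, List.map_cons, List.sum_cons]

private theorem fev_G {R : Type} [CommRing R] (m p N : ℕ) (a : ℤ) (G : Form)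
    (hG : ∀ ce ∈ G, ce.2.length = m + 1) (v : Fin (m + 1) → R) :
    (G.map fun ce => evR m ((List.range ((m + 1) ^ N)).map fun w =>
        (a * ce.1 * ((2 ^ ((m + 1) ^ p * (digs (m + 1) N w).sum) : ℕ) : ℤ),
          exps (m + 1) (word ce.2 ++ digs (m + 1) N w))) v).sum =
      (a : R) * evR m G v * (∑ k : Fin (m + 1), ((Lx (m + 1) p k : ℕ) : R) * v k) ^ N := by
  induction G with
  | nil => simp [evR_nil]
  | cons ce G ih =>
    rw [List.map_cons, List.sum_cons, ih fun x hx => hG x (List.mem_cons_of_mem _ hx), evR_cons,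
      evR_mon m _ (fun w => a * ce.1 * ((2 ^ ((m + 1) ^ p * (digs (m + 1) N w).sum) : ℕ) : ℤ))
        (fun w => word ce.2 ++ digs (m + 1) N w) v]
    have h1 : ∀ w, ((a * ce.1 * ((2 ^ ((m + 1) ^ p * (digs (m + 1) N w).sum) : ℕ) : ℤ) : ℤ) : R) *
        ev v (word ce.2 ++ digs (m + 1) N w) =
        ((a : R) * (ce.1 : R) * ∏ i : Fin (m + 1), v i ^ ce.2.getD (i : ℕ) 0) *
          ((((2 ^ ((m + 1) ^ p * (digs (m + 1) N w).sum) : ℕ) : ℤ) : R) * ev v (digs (m + 1) N w)) := by
      intro w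
      rw [ev_append, ev_word v _ (hG ce (by simp)), Int.cast_mul, Int.cast_mul]
      ring
    rw [List.map_congr_left fun w _ => h1 w, List.sum_map_mul_left, pow_lin]
    ring

theorem evR_fForm {R : Type} [CommRing R] (m J N : ℕ) (Gs : List Form) (a : List ℤ)
    (hG : ∀ G ∈ Gs, ∀ ce ∈ G, ce.2.length = m + 1) (v : Fin (m + 1) → R) :
    evR m (fForm (m + 1) J N Gs a) v = ∑ p ∈ Finset.range (Gs.length * J),
      ((a.getD p 0 : ℤ) : R) * evR m (Gs.getD (p / J) []) v *
        (∑ k : Fin (m + 1), ((Lx (m + 1) p k : ℕ) : R) * v k) ^ N := by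
  unfold fForm
  rw [fev_flatMap, fev_sum_range]
  refine Finset.sum_congr rfl fun p hp => ?_
  rw [fev_flatMap]
  have hp' := Finset.mem_range.1 hp
  have hlt : p / J < Gs.length := Nat.div_lt_of_lt_mul (by rwa [mul_comm] at hp')
  refine fev_G m p N (a.getD p 0) (Gs.getD (p / J) []) ?_ v
  rw [List.getD_eq_getElem _ _ hlt]
  exact hG _ (List.getElem_mem hlt)

theorem fForm_hasDeg (m J N e : ℕ) (Gs : List Form) (a : List ℤ) (hG : ∀ G ∈ Gs, HasDeg m e G) :
    HasDeg m (e + N) (fForm (m + 1) J N Gs a) := by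
  intro x hx
  unfold fForm at hx
  obtain ⟨p, hp, hx⟩ := List.mem_flatMap.1 hx
  obtain ⟨ce, hce, hx⟩ := List.mem_flatMap.1 hx
  obtain ⟨w, hw, rfl⟩ := List.mem_map.1 hx
  have hp' := List.mem_range.1 hp
  have hlt : p / J < Gs.length := Nat.div_lt_of_lt_mul (by rwa [mul_comm] at hp')
  rw [List.getD_eq_getElem _ _ hlt] at hce
  obtain ⟨h1, h2⟩ := hG _ (List.getElem_mem hlt) ce hce
  refine ⟨exps_length _ _, ?_⟩
  simp only
  rw [exps_sum, List.length_append, word_length, digs_length, h2]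
  intro y hy
  rcases List.mem_append.1 hy with hy | hy
  · rw [← h1]; exact word_lt hy
  · exact digs_lt (Nat.succ_pos m) hy

theorem evR_tForm {R : Type} [CommRing R] (m J N e : ℕ) (Gs : List Form) (a : List ℤ)
    (hG : ∀ G ∈ Gs, ∀ ce ∈ G, ce.2.length = m + 1) (v : Fin (m + 1) → R) :
    evR m (tForm (m + 1) J N e Gs a) v =
      ((a.getD (Gs.length * J) 0 : ℤ) : R) * v 0 ^ (e + N) + evR m (fForm (m + 1) J N Gs a) v := by
  unfold tForm
  rw [evR_cons, prod_exps, ev_rep v _ 0 (Nat.succ_pos m)]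
  rfl

theorem tForm_hasDeg (m J N e : ℕ) (Gs : List Form) (a : List ℤ) (hG : ∀ G ∈ Gs, HasDeg m e G) :
    HasDeg m (e + N) (tForm (m + 1) J N e Gs a) := by
  intro x hx
  unfold tForm at hx
  rcases List.mem_cons.1 hx with rfl | hx
  · refine ⟨exps_length _ _, ?_⟩
    simp only
    rw [exps_sum, rep_length]
    intro y hy
    rw [mem_rep hy]
    exact Nat.succ_pos m
  · exact fForm_hasDeg m J N e Gs a hG x hx

end Pool.Agent.Work.MP_90e0ad_ag.Hs
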