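import Pool.Agent.Work.MP_90e0ad_ag.Hs.EmbX
import Pool.Agent.Work.MP_90e0ad_ag.Hs.FEv

/-!
MP_90e0ad_ag/Hs, module LowX (size M). The linear embedding x -> (x, 0) of P^M in P^(2M+1) and the
varieties of step B.

lowE M: W x = (x, 0), δ = 1, ι = Unit, R () u = first M + 1 coordinates, c = 1.
low_mem: for x ∈ P^M: emb x ∈ Locus (gens M E) iff x ∈ Locus E (gens_locus, mk_mem_Locus); every point of
Locus (gens M E) is emb x for some x (gens_locus: the last coordinates vanish; the first ones are then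
not all 0). On Locus (gens M E) the form fForm vanishes (evR_fForm; Gs.getD (p / J) [] is a member of Gs
because p / J < length) and tForm equals a_P v_0^(e+N) (evR_tForm), a_P ≠ 0.
-/

namespace Pool.Agent.Work.MP_90e0ad_ag.Hs

open Pool.Agent.Work.MP_90e0ad_ag

noncomputable def lowE (M : ℕ) : EmbData M (2 * M + 1) where
  W x := fun j => if h : (j : ℕ) < M + 1 then x ⟨j, h⟩ else 0
  δ := 1
  W_ne := by
    intro x hx h0
    apply hx
    funext i
    have h1 := congrFun h0 ⟨i, by omega⟩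
    rw [dif_pos (show (i : ℕ) < M + 1 from i.2)] at h1
    exact h1
  W_smul := by
    intro c x
    funext j
    by_cases h : (j : ℕ) < M + 1
    · simp [h]
    · simp [h]
  W_diff := by
    rw [differentiable_pi]
    intro j
    by_cases h : (j : ℕ) < M + 1
    · simp only [h, dif_pos]
      exact differentiable_apply _
    · simp only [h, dif_neg, not_false_eq_true]
      exact differentiable_const _
  ι := Unit
  R _ u := fun i => u (Fin.castLE (by omega) i)
  R_diff := by
    intro _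
    rw [differentiable_pi]
    intro i
    exact differentiable_apply _
  R_smul := by
    intro _ c u
    rfl
  c _ _ := 1
  R_W := by
    intro _ x
    funext j
    have h : ((Fin.castLE (by omega : M + 1 ≤ 2 * M + 1 + 1) j : Fin (2 * M + 1 + 1)) : ℕ) < M + 1 := j.2
    rw [one_mul]
    exact dif_pos h
  c_ne := by
    intro x _
    exact ⟨(), one_ne_zero⟩

private theorem low_W_lt (M : ℕ) (x : Fin (M + 1) → ℂ) (k : Fin (2 * M + 1 + 1)) (h : (k : ℕ) < M + 1) :
    (lowE M).W x k = x ⟨k, h⟩ := dif_pos h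

private theorem low_W_ge (M : ℕ) (x : Fin (M + 1) → ℂ) (k : Fin (2 * M + 1 + 1)) (h : ¬ (k : ℕ) < M + 1) :
    (lowE M).W x k = 0 := dif_neg h

private theorem gens_isForm (M : ℕ) (E : List Form) (hE : ∀ P ∈ E, IsForm M P) :
    ∀ P ∈ gens M E, IsForm (2 * M + 1) P := fun P hP => ⟨_, gens_hasDeg M E hE P hP⟩

private theorem low_locus_iff (M : ℕ) (E : List Form) (hE : ∀ P ∈ E, IsForm M P)
    (v : Fin (2 * M + 1 + 1) → ℂ) (hv : v ≠ 0) :
    Projectivization.mk ℂ v hv ∈ Locus (2 * M + 1) (gens M E) ↔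
      (∀ k : Fin (2 * M + 1 + 1), M < (k : ℕ) → v k = 0) ∧
        ∀ P ∈ E, evalC M P (fun i => v (Fin.castLE (by omega) i)) = 0 := by
  rw [mk_mem_Locus _ _ (gens_isForm M E hE)]
  exact gens_locus M E hE v hv

theorem low_mem (M : ℕ) (E : List Form) (hE : ∀ P ∈ E, IsForm M P) (x : PP M) :
    (lowE M).emb x ∈ Locus (2 * M + 1) (gens M E) ↔ x ∈ Locus M E := by
  unfold EmbData.emb
  rw [low_locus_iff M E hE]
  have h2 : (fun i => (lowE M).W x.rep (Fin.castLE (by omega : M + 1 ≤ 2 * M + 1 + 1) i)) = x.rep := by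
    funext i
    exact low_W_lt M x.rep _ i.2
  rw [h2]
  constructor
  · intro h
    exact h.2
  · intro h
    refine ⟨fun k hk => low_W_ge M x.rep k (by omega), h⟩

theorem low_Lam (M s : ℕ) (hs : s ≤ M + 1) (x : PP M) :
    (lowE M).emb x ∈ Lam (2 * M + 1) s ↔ x ∈ Lam M s := by
  unfold EmbData.emb
  rw [mk_mem_Lam]
  constructor
  · intro h i hi
    have h1 := h ⟨i, by omega⟩ hi
    rw [low_W_lt M x.rep _ i.2] at h1
    exact h1
  · intro h i hi
    rw [low_W_lt M x.rep i (by omega)]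
    exact h ⟨i, by omega⟩ hi

theorem low_surj (M : ℕ) (E : List Form) (hE : ∀ P ∈ E, IsForm M P) (y : PP (2 * M + 1))
    (hy : y ∈ Locus (2 * M + 1) (gens M E)) : ∃ x : PP M, (lowE M).emb x = y := by
  have hy' := hy
  rw [← Projectivization.mk_rep y, low_locus_iff M E hE] at hy'
  have hx : (fun i : Fin (M + 1) => y.rep (Fin.castLE (by omega) i)) ≠ 0 := by
    intro h0
    apply y.rep_nonzero
    funext k
    by_cases hk : M < (k : ℕ)
    · exact hy'.1 k hk
    · exact congrFun h0 ⟨k, by omega⟩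
  refine ⟨Projectivization.mk ℂ _ hx, ?_⟩
  rw [EmbData.emb_mk]
  conv_rhs => rw [← Projectivization.mk_rep y]
  congr 1
  funext k
  by_cases hk : M < (k : ℕ)
  · rw [low_W_ge M _ k (by omega), hy'.1 k hk]
  · rw [low_W_lt M _ k (by omega)]
    rfl

theorem locus_fForm (M : ℕ) (E : List Form) (hE : ∀ P ∈ E, IsForm M P) (N : ℕ) (a : List ℤ)
    (y : PP (2 * M + 1)) (hy : y ∈ Locus (2 * M + 1) (gens M E)) :
    y ∈ Locus (2 * M + 1) [fForm (2 * M + 2) (JJ M) N (gens M E) a] := by
  intro P hP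
  rw [List.mem_singleton] at hP
  subst hP
  unfold VanishAt
  have h := evR_fForm (2 * M + 1) (JJ M) N (gens M E) a
    (fun G hG ce hce => (gens_hasDeg M E hE G hG ce hce).1) y.rep
  refine h.trans (Finset.sum_eq_zero fun p hp => ?_)
  have hp' := Finset.mem_range.1 hp
  have hlt : p / JJ M < (gens M E).length := Nat.div_lt_of_lt_mul (by rwa [mul_comm] at hp')
  rw [List.getD_eq_getElem _ _ hlt]
  have h1 : evR (2 * M + 1) (gens M E)[p / JJ M] y.rep = 0 := hy _ (List.getElem_mem hlt)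
  rw [h1, mul_zero, zero_mul]

theorem locus_tForm (M : ℕ) (E : List Form) (hE : ∀ P ∈ E, IsForm M P) (N : ℕ) (a : List ℤ)
    (ha : a.getD ((gens M E).length * JJ M) 0 ≠ 0)
    (y : PP (2 * M + 1)) (hy : y ∈ Locus (2 * M + 1) (gens M E)) :
    y ∈ Locus (2 * M + 1) [tForm (2 * M + 2) (JJ M) N (eOf E) (gens M E) a] ↔
      y ∈ Lam (2 * M + 1) 1 := by
  have h0 : evR (2 * M + 1) (fForm (2 * M + 2) (JJ M) N (gens M E) a) y.rep = 0 :=
    locus_fForm M E hE N a y hy _ (List.mem_singleton_self _)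
  have h1 : evR (2 * M + 1) (tForm (2 * M + 2) (JJ M) N (eOf E) (gens M E) a) y.rep =
      ((a.getD ((gens M E).length * JJ M) 0 : ℤ) : ℂ) * y.rep 0 ^ (eOf E + N) := by
    have h := evR_tForm (2 * M + 1) (JJ M) N (eOf E) (gens M E) a
      (fun G hG ce hce => (gens_hasDeg M E hE G hG ce hce).1) y.rep
    have h' : evR (2 * M + 1) (fForm (2 * M + 1 + 1) (JJ M) N (gens M E) a) y.rep = 0 := h0
    rw [h', add_zero] at h
    exact h
  have hpos : eOf E + N ≠ 0 := by have := eOf_pos E; omega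
  have ha' : ((a.getD ((gens M E).length * JJ M) 0 : ℤ) : ℂ) ≠ 0 := by exact_mod_cast ha
  constructor
  · intro h i hi
    have h2 : evR (2 * M + 1) (tForm (2 * M + 2) (JJ M) N (eOf E) (gens M E) a) y.rep = 0 :=
      h _ (List.mem_singleton_self _)
    rw [h1] at h2
    have h3 := (mul_eq_zero.1 h2).resolve_left ha'
    have h4 : i = 0 := Fin.ext (by simp only [Fin.val_zero]; omega)
    rw [h4]
    exact (pow_eq_zero_iff hpos).1 h3
  · intro h P hP
    rw [List.mem_singleton] at hP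
    subst hP
    have h2 : y.rep 0 = 0 := h 0 (by simp)
    show evR (2 * M + 1) (tForm (2 * M + 2) (JJ M) N (eOf E) (gens M E) a) y.rep = 0
    rw [h1, h2, zero_pow hpos, mul_zero]

end Pool.Agent.Work.MP_90e0ad_ag.Hs
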