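import Pool.Agent.Work.MP_90e0ad_ag.Hs.Fun
import Pool.Agent.Work.MP_e97a4d_nt.Hyp.Defs
import Pool.Agent.Work.MP_e97a4d_nt.Hyp.Smooth

/-!
MP_90e0ad_ag/Hs, module MeroX (size M-L). From holomorphic curves in projective space (Stmt.lean) to
tuples of meromorphic functions.

(1) Fix l. For every z take a local lift F (IsHolo); for w near z, (g w).rep = c F w with c ≠ 0
(Projectivization.mk_eq_mk_iff, mk_rep), so (g w).rep k / (g w).rep l = F w k / F w l when F w l ≠ 0.
The set A_l := {z | (g z).rep l ≠ 0} is open; if it is nonempty, its complement is discrete: for the local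
lift F at z either F · l vanishes near z or vanishes nowhere in a punctured neighbourhood
(AnalyticAt.eventually_eq_zero_or_eventually_ne_zero); the set of z of the first kind is clopen
(as for the identity theorem), hence empty. So pick l with A_l nonempty (as (g 0).rep ≠ 0) and put
u_k w := (g w).rep k / (g w).rep l: meromorphic at every z since it agrees with F k / F l on a punctured
neighbourhood. ξ_k := mk u_k.
(2) aeval ξ P = mk of (w ↦ eval (u · w) P) (induction on P as in the lemmas of Mero: mk_add, mk_mul,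
mk_const), and eval (u · w) P = (rep l)^(-d) eval (g w).rep P for w ∈ A_l. So aeval ξ P = 0 iff
eval (g w).rep P = 0 for all w outside a discrete closed set (mk_eq_zero_iff), iff for all w: near z it
equals c^d eval (F w) P, F w continuous, c ≠ 0, so the vanishing passes to the limit point z.
(3) RatioConst ξ: ξ_k = c_k • h; ξ_l = 1, so c_l ≠ 0 and u_k = c_k / c_l outside a discrete set, thus
g w = [c] there, and everywhere by continuity of the 2 x 2 minors F_i c_j - F_j c_i: g constant.
(4) Orders: near z, with the local lift F₀ of g, aeval ξ F = mk of w ↦ eval (F₀ w) F / (F₀ w l)^d (up to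
equality outside a discrete set), eval (F₀ z) F ≠ 0, so the order at z is -d ord_z(F₀ · l), and
ord_z(F₀ · l) is a natural number.
-/

namespace Pool.Agent.Work.MP_90e0ad_ag.Hs

open Pool.Agent.Work.MP_90e0ad_ag Pool.Agent.Work.MP_e97a4d_nt.Hyp

open Filter Topology

private theorem lift_at (m : ℕ) (g : ℂ → PP m) (hg : IsHolo m g) (z : ℂ) :
    ∃ F : ℂ → Fin (m + 1) → ℂ, (∀ i, AnalyticAt ℂ (fun w => F w i) z) ∧
      ∀ᶠ w in 𝓝 z, ∃ c : ℂ, c ≠ 0 ∧ (g w).rep = fun i => c * F w i := by
  obtain ⟨F, U, hU, hd, h⟩ := hg z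
  refine ⟨F, fun i => ((differentiableOn_pi.1 hd) i).analyticAt hU, ?_⟩
  filter_upwards [hU] with w hw
  obtain ⟨h0, h1⟩ := h w hw
  rw [← Projectivization.mk_rep (g w), Projectivization.mk_eq_mk_iff] at h1
  obtain ⟨a, ha⟩ := h1
  refine ⟨a, a.ne_zero, ?_⟩
  rw [← ha]
  funext i
  rfl

private theorem aeval_mk (m : ℕ) (u : Fin (m + 1) → ℂ → ℂ) (hu : ∀ k, Meromorphic (u k))
    (P : MvPolynomial (Fin (m + 1)) ℂ) :
    ∃ h : Meromorphic (fun w => MvPolynomial.eval (fun k => u k w) P),
      MvPolynomial.aeval (fun k => mk (u k) (hu k)) P = mk _ h := by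
  induction P using MvPolynomial.induction_on with
  | C a =>
    simp only [MvPolynomial.eval_C]
    exact ⟨Meromorphic.const a, by rw [MvPolynomial.aeval_C, ← mk_const]⟩
  | add p q hp hq =>
    obtain ⟨h1, h2⟩ := hp
    obtain ⟨h3, h4⟩ := hq
    simp only [map_add]
    refine ⟨h1.add h3, ?_⟩
    rw [h2, h4, mk_add]
    rfl
  | mul_X p i hp =>
    obtain ⟨h1, h2⟩ := hp
    simp only [map_mul, MvPolynomial.eval_X, MvPolynomial.aeval_X]
    refine ⟨h1.mul (hu i), ?_⟩
    rw [h2, mk_mul]
    rfl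

private theorem eval_smul' (m d : ℕ) (P : MvPolynomial (Fin (m + 1)) ℂ) (hP : P.IsHomogeneous d)
    (c : ℂ) (v : Fin (m + 1) → ℂ) :
    MvPolynomial.eval (fun i => c * v i) P = c ^ d * MvPolynomial.eval v P := by
  have h := smooth_eval₂_smul P d hP (RingHom.id ℂ) c v
  simpa [MvPolynomial.eval₂_id] using h

theorem curve_to_mero_all (m : ℕ) (g : ℂ → PP m) (hg : IsHolo m g) (hne : ∃ z w, g z ≠ g w) :
    ∃ ξ : Fin (m + 1) → Mero, ¬ RatioConst ξ ∧
      (∀ (P : MvPolynomial (Fin (m + 1)) ℂ) (d : ℕ), P.IsHomogeneous d →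
        (MvPolynomial.aeval ξ P = 0 ↔ ∀ z, MvPolynomial.eval (g z).rep P = 0)) ∧
      ∀ (F : MvPolynomial (Fin (m + 1)) ℂ) (d : ℕ), F.IsHomogeneous d →
        (∀ z, MvPolynomial.eval (g z).rep F ≠ 0) →
        ∀ z, ∃ k : ℤ, ord z (MvPolynomial.aeval ξ F) = ((d * k : ℤ) : WithTop ℤ) := by
  obtain ⟨l, hl⟩ : ∃ l, (g 0).rep l ≠ 0 := Function.ne_iff.1 (g 0).rep_nonzero
  -- the quotients
  set u : Fin (m + 1) → ℂ → ℂ := fun k w => (g w).rep k / (g w).rep l with hu
  have hloc : ∀ z, ∃ F : ℂ → Fin (m + 1) → ℂ, (∀ i, AnalyticAt ℂ (fun w => F w i) z) ∧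
      (∀ᶠ w in 𝓝 z, ∃ c : ℂ, c ≠ 0 ∧ (g w).rep = fun i => c * F w i) ∧
      ∀ᶠ w in 𝓝 z, ∀ k, u k w = F w k / F w l := by
    intro z
    obtain ⟨F, h1, h2⟩ := lift_at m g hg z
    refine ⟨F, h1, h2, ?_⟩
    filter_upwards [h2] with w hw k
    obtain ⟨c, hc, hr⟩ := hw
    rw [hu]
    simp only
    rw [hr]
    exact mul_div_mul_left _ _ hc
  have humer : ∀ k, Meromorphic (u k) := by
    intro k z
    obtain ⟨F, h1, -, h3⟩ := hloc z
    have h4 : MeromorphicAt (fun w => F w k / F w l) z :=
      (h1 k).meromorphicAt.div (h1 l).meromorphicAt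
    refine h4.congr ?_
    filter_upwards [h3.filter_mono nhdsWithin_le_nhds] with w hw
    rw [hw k]
  -- the l-th coordinate does not vanish near any point
  have hl0 : ∀ z, ∀ᶠ w in 𝓝[≠] z, (g w).rep l ≠ 0 := by
    have h0 : ¬ u l =ᶠ[codiscrete ℂ] 0 := by
      intro h
      have h1 := eq_nhdsNE h 0
      obtain ⟨F, h2, h3, -⟩ := hloc 0
      have h4 : F 0 l ≠ 0 := by
        obtain ⟨c, hc, hr⟩ := h3.self_of_nhds
        intro h5
        apply hl
        rw [hr]
        simp only
        rw [h5, mul_zero]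
      have h5 : ∀ᶠ w in 𝓝 (0 : ℂ), F w l ≠ 0 := (h2 l).continuousAt.eventually_ne h4
      obtain ⟨w, hw1, hw2, c, hc, hr⟩ :=
        (h1.and ((h5.and h3).filter_mono nhdsWithin_le_nhds)).exists
      have h6 : (g w).rep l ≠ 0 := by
        rw [hr]
        exact mul_ne_zero hc hw2
      rw [hu] at hw1
      simp only [Pi.zero_apply] at hw1
      rw [div_self h6] at hw1
      exact one_ne_zero hw1
    intro z
    filter_upwards [(meromorphicOrderAt_ne_top_iff_eventually_ne_zero (humer l z)).1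
      (order_ne_top (humer l) h0 z)] with w hw h1
    apply hw
    rw [hu]
    simp only
    rw [h1, div_zero]
  have huev : ∀ (P : MvPolynomial (Fin (m + 1)) ℂ) (d : ℕ), P.IsHomogeneous d → ∀ w,
      MvPolynomial.eval (fun k => u k w) P =
        ((g w).rep l)⁻¹ ^ d * MvPolynomial.eval (g w).rep P := by
    intro P d hP w
    rw [← eval_smul' m d P hP]
    congr 1
    congr 1
    funext k
    rw [hu]
    simp only
    rw [div_eq_mul_inv, mul_comm]
  set ξ : Fin (m + 1) → Mero := fun k => mk (u k) (humer k) with hξ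
  have hvan : ∀ (P : MvPolynomial (Fin (m + 1)) ℂ) (d : ℕ), P.IsHomogeneous d →
      (MvPolynomial.aeval ξ P = 0 ↔ ∀ z, MvPolynomial.eval (g z).rep P = 0) := by
    intro P d hP
    obtain ⟨h1, h2⟩ := aeval_mk m u humer P
    rw [hξ, h2, mk_eq_zero_iff, Filter.EventuallyEq, eventually_codiscrete]
    constructor
    · intro h z
      obtain ⟨F, hF1, hF2, -⟩ := hloc z
      have h3 : ∀ᶠ w in 𝓝[≠] z, MvPolynomial.eval (F w) P = 0 := by
        filter_upwards [h z, hl0 z, hF2.filter_mono nhdsWithin_le_nhds] with w hw1 hw2 hw3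
        obtain ⟨c, hc, hr⟩ := hw3
        simp only [Pi.zero_apply] at hw1
        rw [huev P d hP w, mul_eq_zero] at hw1
        rcases hw1 with hw1 | hw1
        · exact absurd hw1 (pow_ne_zero _ (inv_ne_zero hw2))
        · rw [hr, eval_smul' m d P hP, mul_eq_zero] at hw1
          exact hw1.resolve_left (pow_ne_zero _ hc)
      have h4 : ContinuousAt (fun w => MvPolynomial.eval (F w) P) z := by
        have h5 : ContinuousAt F z := continuousAt_pi.2 fun i => (hF1 i).continuousAt
        exact (MvPolynomial.continuous_eval P).continuousAt.comp h5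
      have h5 : MvPolynomial.eval (F z) P = 0 := by
        have h6 : Tendsto (fun w => MvPolynomial.eval (F w) P) (𝓝[≠] z)
          (𝓝 (MvPolynomial.eval (F z) P)) := h4.tendsto.mono_left nhdsWithin_le_nhds
        have h7 : Tendsto (fun w => MvPolynomial.eval (F w) P) (𝓝[≠] z) (𝓝 0) :=
          tendsto_const_nhds.congr' (h3.mono fun w hw => hw.symm)
        exact tendsto_nhds_unique h6 h7
      obtain ⟨c, hc, hr⟩ := hF2.self_of_nhds
      rw [hr, eval_smul' m d P hP, h5, mul_zero]
    · intro h z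
      refine Filter.Eventually.of_forall fun w => ?_
      rw [huev P d hP w, h w, mul_zero]
      rfl
  refine ⟨ξ, ?_, hvan, ?_⟩
  · rintro ⟨h, c, hc⟩
    obtain ⟨z₀, w₀, hzw⟩ := hne
    have hl1 : ξ l = 1 := by
      rw [hξ]
      simp only
      rw [← mk_one, mk_eq_iff, Filter.EventuallyEq, eventually_codiscrete]
      intro z
      filter_upwards [hl0 z] with w hw
      rw [hu]
      exact div_self hw
    have hcl : c l ≠ 0 := by
      intro h0
      have h1 := hc l
      rw [h0, zero_smul, hl1] at h1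
      exact one_ne_zero h1
    have hrel : ∀ k, ξ k = algebraMap ℂ Mero (c k / c l) := by
      intro k
      have h1 := hc l
      rw [hl1] at h1
      rw [hc k, Algebra.algebraMap_eq_smul_one, h1, smul_smul, div_mul_cancel₀ _ hcl]
    have hval : ∀ k z, (g z).rep k = c k / c l * (g z).rep l := by
      intro k
      have h1 : (MvPolynomial.X k - MvPolynomial.C (c k / c l) * MvPolynomial.X l :
          MvPolynomial (Fin (m + 1)) ℂ).IsHomogeneous 1 := by
        refine (MvPolynomial.isHomogeneous_X ℂ k).sub ?_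
        have h2 := (MvPolynomial.isHomogeneous_C (Fin (m + 1)) (c k / c l)).mul
          (MvPolynomial.isHomogeneous_X ℂ l)
        simpa using h2
      have h2 := (hvan _ 1 h1).1 (by
        simp only [map_sub, map_mul, MvPolynomial.aeval_X, MvPolynomial.aeval_C]
        rw [hl1, mul_one, hrel k, sub_self])
      intro z
      have h3 := h2 z
      simp only [map_sub, map_mul, MvPolynomial.eval_X, MvPolynomial.eval_C] at h3
      exact sub_eq_zero.1 h3
    have hlne : ∀ z, (g z).rep l ≠ 0 := by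
      intro z h0
      apply (g z).rep_nonzero
      funext k
      rw [hval k z, h0, mul_zero]
      rfl
    apply hzw
    rw [← Projectivization.mk_rep (g z₀), ← Projectivization.mk_rep (g w₀),
      Projectivization.mk_eq_mk_iff']
    refine ⟨(g z₀).rep l / (g w₀).rep l, ?_⟩
    funext k
    rw [Pi.smul_apply, smul_eq_mul, hval k w₀, hval k z₀]
    field_simp [hlne w₀]
  · intro F d hF hnz z
    obtain ⟨h1, h2⟩ := aeval_mk m u humer F
    rw [hξ, h2, ord_mk]
    obtain ⟨G, hG1, hG2, hG3⟩ := hloc z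
    have h3 : (fun w => MvPolynomial.eval (fun k => u k w) F) =ᶠ[𝓝[≠] z]
        ((fun w => G w l) ^ d)⁻¹ * (fun w => MvPolynomial.eval (G w) F) := by
      filter_upwards [hG3.filter_mono nhdsWithin_le_nhds] with w hw
      have h4 : (fun k => u k w) = fun k => (G w l)⁻¹ * G w k := by
        funext k
        rw [hw k, div_eq_mul_inv, mul_comm]
      rw [h4, eval_smul' m d F hF]
      simp only [Pi.mul_apply, Pi.inv_apply, Pi.pow_apply, inv_pow]
    have hGan : AnalyticAt ℂ (fun w => MvPolynomial.eval (G w) F) z := by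
      have h4 : ∀ Q : MvPolynomial (Fin (m + 1)) ℂ,
          AnalyticAt ℂ (fun w => MvPolynomial.eval (G w) Q) z := by
        intro Q
        induction Q using MvPolynomial.induction_on with
        | C a => simp only [MvPolynomial.eval_C]; exact analyticAt_const
        | add p q hp hq => simp only [map_add]; exact hp.add hq
        | mul_X p i hp => simp only [map_mul, MvPolynomial.eval_X]; exact hp.mul (hG1 i)
      exact h4 F
    have hGz : MvPolynomial.eval (G z) F ≠ 0 := by
      obtain ⟨c, hc, hr⟩ := hG2.self_of_nhds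
      have h4 := hnz z
      rw [hr, eval_smul' m d F hF] at h4
      exact right_ne_zero_of_mul h4
    rw [meromorphicOrderAt_congr h3, mul_comm (((fun w => G w l) ^ d)⁻¹),
      meromorphicOrderAt_mul_of_ne_zero hGan hGz, meromorphicOrderAt_inv,
      meromorphicOrderAt_pow (hG1 l).meromorphicAt]
    have hGl : meromorphicOrderAt (fun w => G w l) z ≠ ⊤ := by
      rw [meromorphicOrderAt_ne_top_iff_eventually_ne_zero (hG1 l).meromorphicAt]
      filter_upwards [hl0 z, hG2.filter_mono nhdsWithin_le_nhds] with w hw1 hw2 h0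
      obtain ⟨c, hc, hr⟩ := hw2
      apply hw1
      rw [hr]
      simp only
      rw [h0, mul_zero]
    lift meromorphicOrderAt (fun w => G w l) z to ℤ using hGl with n
    refine ⟨-n, ?_⟩
    have : (d : WithTop ℤ) * (n : WithTop ℤ) = ((d * n : ℤ) : WithTop ℤ) := by push_cast; rfl
    rw [this, ← WithTop.LinearOrderedAddCommGroup.coe_neg]
    congr 1
    ring

theorem curve_to_mero (m : ℕ) (g : ℂ → PP m) (hg : IsHolo m g) (hne : ∃ z w, g z ≠ g w) :
    ∃ ξ : Fin (m + 1) → Mero, ¬ RatioConst ξ ∧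
      ∀ (P : MvPolynomial (Fin (m + 1)) ℂ) (d : ℕ), P.IsHomogeneous d →
        (MvPolynomial.aeval ξ P = 0 ↔ ∀ z, MvPolynomial.eval (g z).rep P = 0) := by
  obtain ⟨ξ, h1, h2, -⟩ := curve_to_mero_all m g hg hne
  exact ⟨ξ, h1, h2⟩

/-- the orders of a form without zeros on the curve -/
theorem curve_to_mero_ord (m : ℕ) (g : ℂ → PP m) (hg : IsHolo m g) (hne : ∃ z w, g z ≠ g w)
    (F : MvPolynomial (Fin (m + 1)) ℂ) (d : ℕ) (hF : F.IsHomogeneous d)
    (hnz : ∀ z, MvPolynomial.eval (g z).rep F ≠ 0) :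
    ∃ ξ : Fin (m + 1) → Mero, ¬ RatioConst ξ ∧
      (∀ (P : MvPolynomial (Fin (m + 1)) ℂ) (d : ℕ), P.IsHomogeneous d →
        (MvPolynomial.aeval ξ P = 0 ↔ ∀ z, MvPolynomial.eval (g z).rep P = 0)) ∧
      ∀ z, ∃ k : ℤ, ord z (MvPolynomial.aeval ξ F) = ((d * k : ℤ) : WithTop ℤ) := by
  obtain ⟨ξ, h1, h2, h3⟩ := curve_to_mero_all m g hg hne
  exact ⟨ξ, h1, h2, h3 F d hF hnz⟩

end Pool.Agent.Work.MP_90e0ad_ag.Hs
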