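import Pool.Agent.Work.MP_90e0ad_ag.Hs.ClaimAX
import Pool.Agent.Work.MP_90e0ad_ag.Hs.ExistsA
import Pool.Agent.Work.MP_90e0ad_ag.Hs.MeroX
import Pool.Agent.Work.MP_90e0ad_ag.Hs.LowX

/-!
MP_90e0ad_ag/Hs, module CoreH (size M). Nonconstant entire curves in the hypersurface lie in the variety.

curve_to_mero gives ξ. f := fForm ..., poly f over ℂ: evalC f (g z).rep = eval (g z).rep (map poly f)
(poly_eval₂, evR_C, eval_map), so aeval ξ (map (Int.castRingHom ℂ) (poly f)) = 0, i.e. evR f ξ = 0 in Mero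
(poly_eval₂ with φ = Int.castRingHom Mero), i.e. by evR_fForm
∑_{p < |Gs| J} a_p evR Gs[p/J] ξ (∑_k Lx p k ξ_k)^N = 0. Reindex by ι × Fin J, ι = Fin Gs.length
(finProdFinEquiv, Finset.sum_range), apply claimAX with n = 2 M + 1, e = eOf E,
G i := map (Int.castRingHom ℂ) (poly Gs[i]), L p k := Lx (2M+2) (j + J i) k (gen_Lx, gen_comp, Gen.map),
lin (L p) ξ = ∑ L p k • ξ k. Then aeval ξ (G i) = 0 and curve_to_mero again.
stepB_hyp: EmbData.hyp for lowE M with low_mem, low_Lam, low_surj, locus_fForm: for (⟸)-type sets take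
A := Locus E \ Lam, B := Locus f \ Lam; B may contain points outside the image, so argue:
Hyperbolic B iff Hyperbolic (B ∩ Locus gens): a nonconstant curve in B lies in Locus gens by coreH.
-/

namespace Pool.Agent.Work.MP_90e0ad_ag.Hs

open Pool.Agent.Work.MP_90e0ad_ag Pool.Agent.Work.MP_e97a4d_nt.Hyp

theorem aeval_poly (m : ℕ) (P : Form) (ξ : Fin (m + 1) → Mero) :
    MvPolynomial.aeval ξ (MvPolynomial.map (Int.castRingHom ℂ) (poly m P)) = evR m P ξ := by
  rw [MvPolynomial.aeval_def, MvPolynomial.eval₂_map]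
  exact poly_eval₂ _ m P ξ

theorem eval_poly (m : ℕ) (P : Form) (v : Fin (m + 1) → ℂ) :
    MvPolynomial.eval v (MvPolynomial.map (Int.castRingHom ℂ) (poly m P)) = evalC m P v := by
  rw [MvPolynomial.eval_map, poly_eval₂, evR_C]

theorem core_sum (M : ℕ) (E : List Form) (hE : ∀ P ∈ E, IsForm M P) (N : ℕ) (aL : List ℤ)
    (ξ : Fin (2 * M + 1 + 1) → Mero) :
    evR (2 * M + 1) (fForm (2 * M + 2) (JJ M) N (gens M E) aL) ξ =
      ∑ p : Fin (gens M E).length × Fin (JJ M),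
        algebraMap ℂ Mero ((aL.getD (finProdFinEquiv p : ℕ) 0 : ℤ) : ℂ) *
        MvPolynomial.aeval ξ (MvPolynomial.map (Int.castRingHom ℂ) (exPg M E p.1)) *
        (lin (fun k => (Int.castRingHom ℂ) (exL M E p k)) ξ) ^ N := by
  have h := evR_fForm (R := Mero) (2 * M + 1) (JJ M) N (gens M E) aL
    (fun G hG ce hce => (gens_hasDeg M E hE G hG ce hce).1) ξ
  refine Eq.trans h ?_
  rw [Finset.sum_range, ← Equiv.sum_comp finProdFinEquiv]
  refine Finset.sum_congr rfl fun p _ => ?_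
  have h1 : (finProdFinEquiv p : ℕ) / JJ M = (p.1 : ℕ) := by
    have h2 : (finProdFinEquiv p : ℕ) = (p.2 : ℕ) + JJ M * (p.1 : ℕ) := rfl
    have h3 := p.2.2
    rw [h2, Nat.add_mul_div_left _ _ (by omega), Nat.div_eq_of_lt h3, zero_add]
  rw [h1]
  unfold exPg
  rw [aeval_poly, map_intCast]
  congr 2

theorem coreH (M : ℕ) (E : List Form) (hE : ∀ P ∈ E, IsForm M P) (N : ℕ)
    (hN : N0x (2 * M + 1) (eOf E) ((gens M E).length * JJ M) ≤ N) (a : List ℤ)
    (ha : ∀ p < (gens M E).length * JJ M, a.getD p 0 ≠ 0)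
    (g : ℂ → PP (2 * M + 1)) (hg : IsHolo (2 * M + 1) g)
    (hf : ∀ z, g z ∈ Locus (2 * M + 1) [fForm (2 * M + 2) (JJ M) N (gens M E) a])
    (hne : ∃ z w, g z ≠ g w) : ∀ z, g z ∈ Locus (2 * M + 1) (gens M E) := by
  obtain ⟨ξ, hξ, hP⟩ := curve_to_mero (2 * M + 1) g hg hne
  set f := fForm (2 * M + 2) (JJ M) N (gens M E) a with hfdef
  have hfd : HasDeg (2 * M + 1) (eOf E + N) f :=
    fForm_hasDeg (2 * M + 1) (JJ M) N (eOf E) (gens M E) a (gens_hasDeg M E hE)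
  have h1 : MvPolynomial.aeval ξ (MvPolynomial.map (Int.castRingHom ℂ) (poly (2 * M + 1) f)) = 0 := by
    refine (hP _ (eOf E + N) ((poly_homog _ _ f hfd).map _)).2 fun z => ?_
    rw [eval_poly]
    exact hf z f (List.mem_singleton_self _)
  rw [aeval_poly, hfdef, core_sum M E hE N a ξ] at h1
  have hJ : (2 * M + 1 + 1) ^ 3 + (2 * M + 1) + 2 ≤ JJ M := by
    unfold JJ
    exact Nat.add_le_add_left (by norm_num) _
  have hG : ∀ i, (MvPolynomial.map (Int.castRingHom ℂ) (exPg M E i)).IsHomogeneous (eOf E) :=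
    fun i => (exPg_homog M E hE i).map _
  have h2 := claimAX (2 * M + 1) (eOf E) (JJ M) (Fin (gens M E).length) hJ N
    (by rw [Fintype.card_fin]; exact hN)
    (fun i => MvPolynomial.map (Int.castRingHom ℂ) (exPg M E i)) hG
    (fun p k => (Int.castRingHom ℂ) (exL M E p k)) (exL_gen M E)
    (fun p => ((a.getD (finProdFinEquiv p : ℕ) 0 : ℤ) : ℂ))
    (fun p => by
      have := ha (finProdFinEquiv p : ℕ) (finProdFinEquiv p).2
      exact_mod_cast this) ξ hξ h1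
  intro z G hGm
  obtain ⟨i, hi, rfl⟩ := List.getElem_of_mem hGm
  have h3 := (hP _ (eOf E) (hG ⟨i, hi⟩)).1 (h2 ⟨i, hi⟩) z
  unfold exPg at h3
  rw [eval_poly] at h3
  simp only at h3
  rw [List.getD_eq_getElem _ _ hi] at h3
  exact h3

/-- adding a subvariety which contains all nonconstant curves -/
theorem hyp_inter (m : ℕ) (B C : Set (PP m)) (h : ∀ g : ℂ → PP m, IsHolo m g → (∀ z, g z ∈ B) →
    (∃ z w, g z ≠ g w) → ∀ z, g z ∈ C) : Hyperbolic m B ↔ Hyperbolic m (B ∩ C) := by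
  constructor
  · intro hB g hg hgB
    exact hB g hg fun z => (hgB z).1
  · intro hB g hg hgB
    by_contra hcon
    push Not at hcon
    have h1 := h g hg hgB hcon
    obtain ⟨z, w, hzw⟩ := hcon
    exact hzw (hB g hg (fun z => ⟨hgB z, h1 z⟩) z w)

theorem stepB_hyp (M : ℕ) (E : List Form) (hE : ∀ P ∈ E, IsForm M P) (N : ℕ)
    (hN : N0x (2 * M + 1) (eOf E) ((gens M E).length * JJ M) ≤ N) (a : List ℤ)
    (ha : ∀ p < (gens M E).length * JJ M, a.getD p 0 ≠ 0) :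
    (∀ s ≤ M + 1, Hyperbolic M (Locus M E \ Lam M s) ↔
      Hyperbolic (2 * M + 1) (Locus (2 * M + 1) [fForm (2 * M + 2) (JJ M) N (gens M E) a] \
        Lam (2 * M + 1) s)) ∧
    (Hyperbolic M (Locus M E) ↔
      Hyperbolic (2 * M + 1) (Locus (2 * M + 1) [fForm (2 * M + 2) (JJ M) N (gens M E) a])) := by
  constructor
  · intro s hs
    rw [hyp_inter (2 * M + 1) _ (Locus (2 * M + 1) (gens M E)) fun g hg hgB hne =>
      coreH M E hE N hN a ha g hg (fun z => (hgB z).1) hne]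
    refine (lowE M).hyp _ _ ?_ ?_
    · rintro x ⟨hx1, hx2⟩
      have h1 := (low_mem M E hE x).2 hx1
      exact ⟨⟨locus_fForm M E hE N a _ h1, fun h => hx2 ((low_Lam M s hs x).1 h)⟩, h1⟩
    · rintro y ⟨⟨-, hy2⟩, hy3⟩
      obtain ⟨x, rfl⟩ := low_surj M E hE y hy3
      exact ⟨x, ⟨(low_mem M E hE x).1 hy3, fun h => hy2 ((low_Lam M s hs x).2 h)⟩, rfl⟩
  · rw [hyp_inter (2 * M + 1) _ (Locus (2 * M + 1) (gens M E)) fun g hg hgB hne =>
      coreH M E hE N hN a ha g hg hgB hne]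
    refine (lowE M).hyp _ _ ?_ ?_
    · intro x hx1
      have h1 := (low_mem M E hE x).2 hx1
      exact ⟨locus_fForm M E hE N a _ h1, h1⟩
    · rintro y ⟨-, hy3⟩
      obtain ⟨x, rfl⟩ := low_surj M E hE y hy3
      exact ⟨x, (low_mem M E hE x).1 hy3, rfl⟩

end Pool.Agent.Work.MP_90e0ad_ag.Hs
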