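import Pool.Agent.Work.MP_90e0ad_ag.Hs.Fun
import Pool.Agent.Work.MP_e97a4d_nt.Hyp.Defs

/-!
MP_90e0ad_ag/Hs, module RootX (size M-L). A meromorphic function on the plane all of whose orders are
divisible by d has a d-th root.

Let Φ = mk f, f meromorphic, Φ ≠ 0 (the orders are finite). On the disc of radius n + 1 there are only
finitely many zeros and poles (the orders ord z are 0 outside a closed discrete set: compactness; see
MeromorphicOn.divisor and its local finiteness, or Hyp/Growth). Put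
R_n := ∏ (z - z_i)^(k_i), k_i = ord_{z_i} Φ / d (over the zeros and poles in the closed disc of radius n+1);
then E := f / R_n^d has order 0 everywhere in the disc, so it agrees outside a discrete set with a
function h_n analytic and without zeros on the open disc B(0, n+1) (toMeromorphicNFOn, or the values
of limits), and h_n = exp (d ℓ_n) with ℓ_n analytic on the disc (an analytic function without zeros on a disc
has an analytic logarithm: primitive of h'/h by DifferentiableOn.isExactOn_ball / Complex primitives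
(HolomorphicOn.. on balls); search Mathlib for exists_primitive / isExactOn). Put η_n := R_n exp ℓ_n:
meromorphic on the ball, η_n^d = f outside a discrete set. Two d-th roots on a ball differ by a constant
d-th root of unity (the quotient is meromorphic with d-th power 1 outside a discrete set, hence of
order 0, and locally constant), so after multiplication by constants η_{n+1} = η_n on B(0, n+1) minus a
discrete set. Define η z := η_n z for n = ⌈‖z‖⌉₊ (or any n >= ‖z‖): meromorphic, mk η ^ d = Φ.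
Alternative for the gluing: normalise at a point z₀ where f is analytic and not 0: require
η_n(z₀) = c for a fixed c with c^d = f(z₀).
-/

namespace Pool.Agent.Work.MP_90e0ad_ag.Hs

open Pool.Agent.Work.MP_90e0ad_ag Pool.Agent.Work.MP_e97a4d_nt.Hyp

open Filter Topology Metric

private theorem log_ball (g : ℂ → ℂ) (R : ℝ) (hR : 0 < R) (hg : DifferentiableOn ℂ g (ball 0 R))
    (hg0 : ∀ z ∈ ball (0 : ℂ) R, g z ≠ 0) :
    ∃ L : ℂ → ℂ, DifferentiableOn ℂ L (ball 0 R) ∧ ∀ z ∈ ball (0 : ℂ) R, g z = Complex.exp (L z) := by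
  have h1 : DifferentiableOn ℂ (fun z => deriv g z / g z) (ball 0 R) :=
    (hg.deriv isOpen_ball).div hg hg0
  obtain ⟨L, hL⟩ := h1.isExactOn_ball
  have hG : ∀ z ∈ ball (0 : ℂ) R, HasDerivAt (fun w => g w * Complex.exp (- L w)) 0 z := by
    intro z hz
    have h2 : HasDerivAt g (deriv g z) z :=
      ((hg z hz).differentiableAt (isOpen_ball.mem_nhds hz)).hasDerivAt
    have h3 := h2.mul ((hL z hz).neg.cexp)
    have hne := hg0 z hz
    have h4 : (0 : ℂ) = deriv g z * Complex.exp (- L z) +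
        g z * (Complex.exp (- L z) * -(deriv g z / g z)) := by
      field_simp
      ring
    rw [h4]
    exact h3
  have hc : ∀ z ∈ ball (0 : ℂ) R, g z * Complex.exp (- L z) = g 0 * Complex.exp (- L 0) := by
    intro z hz
    have h2 := isOpen_ball.is_const_of_deriv_eq_zero (convex_ball (0 : ℂ) R).isPreconnected
      (f := fun w => g w * Complex.exp (- L w))
      (fun w hw => (hG w hw).differentiableAt.differentiableWithinAt)
      (fun w hw => (hG w hw).deriv) hz (mem_ball_self hR)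
    exact h2
  have h0 : g 0 * Complex.exp (- L 0) ≠ 0 :=
    mul_ne_zero (hg0 0 (mem_ball_self hR)) (Complex.exp_ne_zero _)
  refine ⟨fun z => Complex.log (g 0 * Complex.exp (- L 0)) + L z, ?_, fun z hz => ?_⟩
  · exact (differentiableOn_const _).add
      fun z hz => (hL z hz).differentiableAt.differentiableWithinAt
  · rw [Complex.exp_add, Complex.exp_log h0, ← hc z hz, mul_assoc, ← Complex.exp_add]
    simp

private theorem disc_root (f : ℂ → ℂ) (hf : Meromorphic f) (d : ℕ) (hd : 0 < d)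
    (h : ∀ z, ∃ k : ℤ, meromorphicOrderAt f z = ((d * k : ℤ) : WithTop ℤ)) (R : ℝ) (hR : 0 < R) :
    ∃ η : ℂ → ℂ, MeromorphicOn η (ball 0 R) ∧ ∀ z ∈ ball (0 : ℂ) R, η ^ d =ᶠ[𝓝[≠] z] f := by
  set U : Set ℂ := closedBall 0 R with hU
  have hfU : MeromorphicOn f U := fun z _ => hf z
  have hfin : (MeromorphicOn.divisor f U).support.Finite :=
    (MeromorphicOn.divisor f U).finiteSupport (isCompact_closedBall _ _)
  obtain ⟨g, hg1, hg2, hg3⟩ := hfU.extract_zeros_poles
    (fun u => by obtain ⟨k, hk⟩ := h u; rw [hk]; exact WithTop.coe_ne_top) hfin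
  set D := MeromorphicOn.divisor f U with hD
  have hDd : ∀ u, D u = (D u / d) * d := by
    intro u
    by_cases hu : u ∈ U
    · obtain ⟨k, hk⟩ := h u
      rw [hD, MeromorphicOn.divisor_apply hfU hu, hk, WithTop.untop₀_coe, mul_comm (d : ℤ) k,
        Int.mul_ediv_cancel _ (by exact_mod_cast hd.ne')]
    · have : D u = 0 := Function.locallyFinsuppWithin.apply_eq_zero_of_notMem D hu
      rw [this]
      simp
  set D' : ℂ → ℤ := fun u => D u / d with hD'
  have hfin' : D'.HasFiniteSupport := by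
    refine hfin.subset fun u hu => ?_
    simp only [hD', Function.mem_support] at hu ⊢
    intro h0
    apply hu
    rw [h0]
    simp
  set R₁ : ℂ → ℂ := ∏ᶠ u, (· - u) ^ D' u with hR₁
  have hpow : R₁ ^ d = ∏ᶠ u, (· - u) ^ D u := by
    rw [hR₁, finprod_pow]
    · refine finprod_congr fun u => ?_
      funext z
      simp only [Pi.pow_apply]
      rw [← zpow_natCast, ← zpow_mul, ← hDd u]
    · show (Function.mulSupport fun u : ℂ => (fun x : ℂ => x - u) ^ D' u).Finite
      rw [Function.FactorizedRational.mulSupport]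
      exact hfin'
  have hgd : DifferentiableOn ℂ g (ball 0 R) := fun z hz =>
    (hg1 z (ball_subset_closedBall hz)).differentiableAt.differentiableWithinAt
  obtain ⟨L, hL1, hL2⟩ := log_ball g R hR hgd fun z hz => hg2 ⟨z, ball_subset_closedBall hz⟩
  refine ⟨R₁ * fun z => Complex.exp (L z / d), ?_, fun z hz => ?_⟩
  · intro z hz
    have h1 : MeromorphicAt R₁ z :=
      ((Function.FactorizedRational.meromorphicNFOn_univ D').meromorphicOn) z (Set.mem_univ z)
    have h2 : AnalyticAt ℂ (fun z => Complex.exp (L z / d)) z := by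
      have h3 : DifferentiableOn ℂ (fun z => Complex.exp (L z / d)) (ball 0 R) :=
        (hL1.div_const _).cexp
      exact h3.analyticAt (isOpen_ball.mem_nhds hz)
    exact h1.mul h2.meromorphicAt
  · have h1 := hg3
    rw [Filter.EventuallyEq, Filter.Eventually, mem_codiscreteWithin_iff_forall_mem_nhdsNE] at h1
    have h2 := h1 z (ball_subset_closedBall hz)
    have h3 : ball (0 : ℂ) R ∈ 𝓝[≠] z := mem_nhdsWithin_of_mem_nhds (isOpen_ball.mem_nhds hz)
    filter_upwards [h2, h3] with w hw hwR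
    have h4 : f w = ((∏ᶠ u, (· - u) ^ D u) • g) w := by
      rcases hw with hw | hw
      · exact hw
      · exact absurd (ball_subset_closedBall hwR) hw
    rw [h4, ← hpow]
    simp only [Pi.pow_apply, Pi.mul_apply, Pi.smul_apply', smul_eq_mul]
    rw [mul_pow, hL2 w hwR, ← Complex.exp_nat_mul]
    congr 2
    have hd0 : (d : ℂ) ≠ 0 := by exact_mod_cast hd.ne'
    field_simp

private theorem root_unique (f : ℂ → ℂ) (hf : Meromorphic f) (d : ℕ) (hd : 0 < d)
    (h : ∀ z, meromorphicOrderAt f z ≠ ⊤) (R : ℝ) (hR : 0 < R)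
    (η η' : ℂ → ℂ) (h1 : MeromorphicOn η (ball 0 R)) (h1' : MeromorphicOn η' (ball 0 R))
    (h2 : ∀ z ∈ ball (0 : ℂ) R, η ^ d =ᶠ[𝓝[≠] z] f)
    (h2' : ∀ z ∈ ball (0 : ℂ) R, η' ^ d =ᶠ[𝓝[≠] z] f) :
    ∃ c : ℂ, c ^ d = 1 ∧ ∀ z ∈ ball (0 : ℂ) R, η =ᶠ[𝓝[≠] z] fun w => c * η' w := by
  have hq : MeromorphicOn (η / η') (ball 0 R) := fun z hz => (h1 z hz).div (h1' z hz)
  have hf0 : ∀ z, ∀ᶠ w in 𝓝[≠] z, f w ≠ 0 := fun z =>
    (meromorphicOrderAt_ne_top_iff_eventually_ne_zero (hf z)).1 (h z)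
  have h0 : (0 : ℂ) ∈ ball (0 : ℂ) R := mem_ball_self hR
  have hne : ∀ c : ℂ, MeromorphicOn (η / η' - fun _ => c) (ball 0 R) := fun c z hz =>
    (hq z hz).sub (MeromorphicAt.const c z)
  obtain ⟨c, hc, hc0⟩ : ∃ c : ℂ, c ^ d = 1 ∧ meromorphicOrderAt (η / η' - fun _ => c) 0 = ⊤ := by
    by_contra hcon
    push Not at hcon
    have h3 : ∀ c ∈ Polynomial.nthRootsFinset d (1 : ℂ),
        ∀ᶠ w in 𝓝[≠] (0 : ℂ), (η / η' - fun _ => c : ℂ → ℂ) w ≠ 0 := by
      intro c hc
      exact (meromorphicOrderAt_ne_top_iff_eventually_ne_zero (hne c 0 h0)).1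
        (hcon c ((Polynomial.mem_nthRootsFinset hd _).1 hc))
    have h4 := (Filter.eventually_all_finset _).2 h3
    obtain ⟨w, hw1, hw2, hw3, hw4⟩ := (h4.and ((h2 0 h0).and ((h2' 0 h0).and (hf0 0)))).exists
    have h5 : (η / η') w ^ d = 1 := by
      simp only [Pi.pow_apply] at hw2 hw3
      simp only [Pi.div_apply]
      rw [div_pow, hw2, hw3, div_self hw4]
    exact hw1 _ ((Polynomial.mem_nthRootsFinset hd _).2 h5) (sub_self _)
  refine ⟨c, hc, fun z hz => ?_⟩
  have h3 : meromorphicOrderAt (η / η' - fun _ => c) z = ⊤ := by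
    by_contra hcon
    exact (hne c).meromorphicOrderAt_ne_top_of_isPreconnected
      (convex_ball (0 : ℂ) R).isPreconnected hz h0 hcon hc0
  filter_upwards [meromorphicOrderAt_eq_top_iff.1 h3, h2' z hz, hf0 z] with w hw1 hw2 hw3
  have h4 : η' w ≠ 0 := by
    intro h5
    apply hw3
    rw [← hw2]
    simp only [Pi.pow_apply]
    rw [h5, zero_pow hd.ne']
  have h5 : η w / η' w - c = 0 := hw1
  rw [sub_eq_zero, div_eq_iff h4] at h5
  exact h5

private theorem glue (f : ℂ → ℂ) (hf : Meromorphic f) (d : ℕ) (hd : 0 < d)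
    (h : ∀ z, ∃ k : ℤ, meromorphicOrderAt f z = ((d * k : ℤ) : WithTop ℤ)) :
    ∃ η : ℂ → ℂ, Meromorphic η ∧ ∀ z, η ^ d =ᶠ[𝓝[≠] z] f := by
  have htop : ∀ z, meromorphicOrderAt f z ≠ ⊤ := fun z => by
    obtain ⟨k, hk⟩ := h z
    rw [hk]
    exact WithTop.coe_ne_top
  let P : ℕ → (ℂ → ℂ) → Prop := fun n η => MeromorphicOn η (ball 0 (n + 1)) ∧
    ∀ z ∈ ball (0 : ℂ) (n + 1), η ^ d =ᶠ[𝓝[≠] z] f
  have hex : ∀ n : ℕ, ∃ η, P n η := fun n =>
    disc_root f hf d hd h (n + 1) (by positivity)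
  have hstep : ∀ (n : ℕ) (η : {η // P n η}), ∃ η' : {η // P (n + 1) η},
      ∀ z ∈ ball (0 : ℂ) (n + 1), η.1 =ᶠ[𝓝[≠] z] η'.1 := by
    intro n η
    obtain ⟨η', h1, h2⟩ := hex (n + 1)
    have hsub : ball (0 : ℂ) ((n : ℝ) + 1) ⊆ ball 0 (((n + 1 : ℕ) : ℝ) + 1) :=
      ball_subset_ball (by push_cast; linarith)
    obtain ⟨c, hc, hc2⟩ := root_unique f hf d hd htop (n + 1) (by positivity) η.1 η' η.2.1
      (h1.mono_set hsub) η.2.2 (fun z hz => h2 z (hsub hz))
    refine ⟨⟨fun w => c * η' w, ?_, fun z hz => ?_⟩, hc2⟩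
    · exact fun z hz => (MeromorphicAt.const c z).mul (h1 z hz)
    · filter_upwards [h2 z hz] with w hw
      simp only [Pi.pow_apply] at hw ⊢
      rw [mul_pow, hc, one_mul, hw]
  let E' : ∀ n : ℕ, {η // P n η} := fun n =>
    Nat.rec (motive := fun n => {η // P n η}) ⟨(hex 0).choose, (hex 0).choose_spec⟩
      (fun n η => (hstep n η).choose) n
  have hE' : ∀ n : ℕ, ∀ z ∈ ball (0 : ℂ) (n + 1), (E' n).1 =ᶠ[𝓝[≠] z] (E' (n + 1)).1 :=
    fun n => (hstep n (E' n)).choose_spec
  have hE : ∀ j N : ℕ, j ≤ N → ∀ z ∈ ball (0 : ℂ) (j + 1), (E' j).1 =ᶠ[𝓝[≠] z] (E' N).1 := by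
    intro j N hjN z hz
    induction N, hjN using Nat.le_induction with
    | base => exact Filter.EventuallyEq.rfl
    | succ N hN ih =>
      refine ih.trans (hE' N z ?_)
      refine ball_subset_ball ?_ hz
      have : (j : ℝ) ≤ N := by exact_mod_cast hN
      linarith
  set η : ℂ → ℂ := fun w => (E' ⌈‖w‖⌉₊).1 w with hη
  have hloc : ∀ z : ℂ, η =ᶠ[𝓝[≠] z] (E' (⌈‖z‖⌉₊ + 1)).1 := by
    intro z
    set N := ⌈‖z‖⌉₊ + 1 with hN
    have hzN : ‖z‖ + 1 ≤ N := by
      rw [hN]
      push_cast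
      linarith [Nat.le_ceil ‖z‖]
    have h1 : ∀ᶠ w in 𝓝[≠] z, ⌈‖w‖⌉₊ ≤ N := by
      have h2 : ∀ᶠ w in 𝓝 z, ‖w‖ < ‖z‖ + 1 :=
        (continuous_norm.tendsto z).eventually (gt_mem_nhds (by linarith))
      filter_upwards [h2.filter_mono nhdsWithin_le_nhds] with w hw
      exact Nat.ceil_le.2 (by linarith)
    have h2 : ∀ j ∈ Finset.range (N + 1), ∀ᶠ w in 𝓝[≠] z, ⌈‖w‖⌉₊ = j → (E' j).1 w = (E' N).1 w := by
      intro j hj
      by_cases hzj : z ∈ ball (0 : ℂ) (j + 1)
      · filter_upwards [hE j N (by have := Finset.mem_range.1 hj; omega) z hzj] with w hw _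
        exact hw
      · rw [mem_ball_zero_iff, not_lt] at hzj
        have h3 : ∀ᶠ w in 𝓝 z, (j : ℝ) < ‖w‖ :=
          (continuous_norm.tendsto z).eventually (lt_mem_nhds (by linarith))
        filter_upwards [h3.filter_mono nhdsWithin_le_nhds] with w hw hwj
        exfalso
        have := Nat.le_ceil ‖w‖
        rw [hwj] at this
        linarith
    filter_upwards [h1, (Filter.eventually_all_finset _).2 h2] with w hw1 hw2
    exact hw2 ⌈‖w‖⌉₊ (Finset.mem_range.2 (by omega)) rfl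
  have hzmem : ∀ z : ℂ, z ∈ ball (0 : ℂ) (((⌈‖z‖⌉₊ + 1 : ℕ) : ℝ) + 1) := by
    intro z
    rw [mem_ball_zero_iff]
    push_cast
    linarith [Nat.le_ceil ‖z‖]
  refine ⟨η, fun z => ?_, fun z => ?_⟩
  · exact ((E' (⌈‖z‖⌉₊ + 1)).2.1 z (hzmem z)).congr (hloc z).symm
  · filter_upwards [hloc z, (E' (⌈‖z‖⌉₊ + 1)).2.2 z (hzmem z)] with w hw1 hw2
    simp only [Pi.pow_apply] at hw2 ⊢
    rw [hw1, hw2]

theorem exists_root (Φ : Mero) (d : ℕ) (hd : 0 < d)
    (h : ∀ z, ∃ k : ℤ, ord z Φ = ((d * k : ℤ) : WithTop ℤ)) : ∃ η : Mero, η ^ d = Φ := by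
  obtain ⟨f, hf, rfl⟩ := exists_rep Φ
  obtain ⟨η, hη, hη2⟩ := glue f hf d hd fun z => by
    obtain ⟨k, hk⟩ := h z
    exact ⟨k, by rw [← ord_mk z hf, hk]⟩
  refine ⟨mk η hη, ?_⟩
  rw [mk_pow, mk_eq_iff, Filter.EventuallyEq, eventually_codiscrete]
  exact hη2

end Pool.Agent.Work.MP_90e0ad_ag.Hs
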