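import Pool.Agent.Work.MP_90e0ad_ag.Hs.MeroX
import Pool.Agent.Work.MP_90e0ad_ag.Hs.RootX

/-!
MP_90e0ad_ag/Hs, module MeroT (size S). Take ξ from curve_to_mero_ord and η with η^d = aeval ξ F
(exists_root; η ≠ 0 as the orders of aeval ξ F are finite, ord_eq_top_iff), u_k := ξ_k / η. For P
homogeneous of degree d', aeval u P = η^(-d') aeval ξ P (Hyp.claimA_aeval_smul in Hyp/ClaimA, or directly).
If all u_k were constant, u_k = algebraMap c_k, then ξ_k = c_k • η and RatioConst ξ.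
-/

namespace Pool.Agent.Work.MP_90e0ad_ag.Hs

open Pool.Agent.Work.MP_90e0ad_ag Pool.Agent.Work.MP_e97a4d_nt.Hyp

private theorem aeval_scale (m d : ℕ) (P : MvPolynomial (Fin (m + 1)) ℂ) (hP : P.IsHomogeneous d)
    (c : Mero) (ξ : Fin (m + 1) → Mero) :
    MvPolynomial.aeval (fun k => c * ξ k) P = c ^ d * MvPolynomial.aeval ξ P := by
  rw [MvPolynomial.aeval_def, MvPolynomial.aeval_def, MvPolynomial.eval₂_eq, MvPolynomial.eval₂_eq,
    Finset.mul_sum]
  refine Finset.sum_congr rfl fun e he => ?_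
  have hd : ∑ i ∈ e.support, e i = d := (hP.degree_eq_sum_deg_support he).symm
  simp_rw [mul_pow, Finset.prod_mul_distrib, Finset.prod_pow_eq_pow_sum, hd]
  ring

theorem curve_to_mero_compl (m : ℕ) (g : ℂ → PP m) (hg : IsHolo m g) (hne : ∃ z w, g z ≠ g w)
    (F : MvPolynomial (Fin (m + 1)) ℂ) (d : ℕ) (hd : 0 < d) (hF : F.IsHomogeneous d)
    (hnz : ∀ z, MvPolynomial.eval (g z).rep F ≠ 0) :
    ∃ u : Fin (m + 1) → Mero, (∃ k, u k ∉ Set.range (algebraMap ℂ Mero)) ∧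
      MvPolynomial.aeval u F = 1 ∧
      ∀ (P : MvPolynomial (Fin (m + 1)) ℂ) (d' : ℕ), P.IsHomogeneous d' →
        (MvPolynomial.aeval u P = 0 ↔ ∀ z, MvPolynomial.eval (g z).rep P = 0) := by
  obtain ⟨ξ, h1, h2, h3⟩ := curve_to_mero_ord m g hg hne F d hF hnz
  obtain ⟨η, hη⟩ := exists_root _ d hd h3
  have hne0 : MvPolynomial.aeval ξ F ≠ 0 := by
    intro h0
    have h4 := (h2 F d hF).1 h0 0
    exact hnz 0 h4
  have hη0 : η ≠ 0 := by
    intro h0
    rw [h0, zero_pow hd.ne'] at hη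
    exact hne0 hη.symm
  refine ⟨fun k => η⁻¹ * ξ k, ?_, ?_, ?_⟩
  · by_contra hcon
    push Not at hcon
    apply h1
    choose c hc using hcon
    refine ⟨η, c, fun k => ?_⟩
    have h4 := hc k
    rw [Algebra.smul_def, h4]
    field_simp
  · rw [aeval_scale m d F hF, ← hη, ← mul_pow, inv_mul_cancel₀ hη0, one_pow]
  · intro P d' hP
    rw [aeval_scale m d' P hP, mul_eq_zero, ← h2 P d' hP]
    constructor
    · rintro (h4 | h4)
      · exact absurd h4 (pow_ne_zero _ (inv_ne_zero hη0))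
      · exact h4
    · exact Or.inr

end Pool.Agent.Work.MP_90e0ad_ag.Hs
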