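import Pool.Agent.Work.MP_90e0ad_ag.Hs.ClaimTX
import Pool.Agent.Work.MP_90e0ad_ag.Hs.CoreH
import Pool.Agent.Work.MP_90e0ad_ag.Hs.MeroT
import Pool.Agent.Work.MP_90e0ad_ag.Hs.LowX

/-!
MP_90e0ad_ag/Hs, module CoreT (size M). Nonconstant entire curves in the complement of the hypersurface
tForm = 0 lie in the variety. As CoreH, with curve_to_mero_compl (F := map (Int.castRingHom ℂ) (poly
tForm), homogeneous of degree eOf E + N > 0 by tForm_hasDeg, poly_homog; it has no zero on the curve),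
evR_tForm and claimTX with t = 0, c = a_{|Gs| J}.
stepT_hyp: EmbData.hyp for lowE M, A := Locus E \ Lam M 1, B := the complement of Locus [tForm]; use
locus_tForm: emb x ∈ Locus [tForm] iff x ∈ Lam M 1 for x ∈ Locus E.
-/

namespace Pool.Agent.Work.MP_90e0ad_ag.Hs

open Pool.Agent.Work.MP_90e0ad_ag Pool.Agent.Work.MP_e97a4d_nt.Hyp

theorem coreT (M : ℕ) (E : List Form) (hE : ∀ P ∈ E, IsForm M P) (N : ℕ)
    (hN : N0t (2 * M + 1) (eOf E) ((gens M E).length * JJ M) ≤ N) (a : List ℤ)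
    (ha : ∀ p < (gens M E).length * JJ M + 1, a.getD p 0 ≠ 0)
    (g : ℂ → PP (2 * M + 1)) (hg : IsHolo (2 * M + 1) g)
    (hf : ∀ z, g z ∉ Locus (2 * M + 1) [tForm (2 * M + 2) (JJ M) N (eOf E) (gens M E) a])
    (hne : ∃ z w, g z ≠ g w) : ∀ z, g z ∈ Locus (2 * M + 1) (gens M E) := by
  set f := tForm (2 * M + 2) (JJ M) N (eOf E) (gens M E) a with hfdef
  have hfd : HasDeg (2 * M + 1) (eOf E + N) f :=
    tForm_hasDeg (2 * M + 1) (JJ M) N (eOf E) (gens M E) a (gens_hasDeg M E hE)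
  have hd0 : 0 < eOf E + N := by have := eOf_pos E; omega
  obtain ⟨u, hu, hu1, hP⟩ := curve_to_mero_compl (2 * M + 1) g hg hne
    (MvPolynomial.map (Int.castRingHom ℂ) (poly (2 * M + 1) f)) (eOf E + N) hd0
    ((poly_homog _ _ f hfd).map _) (fun z h0 => by
      rw [eval_poly] at h0
      apply hf z
      intro P hPm
      rw [List.mem_singleton] at hPm
      rw [hPm]
      exact h0)
  rw [aeval_poly] at hu1
  have h1 : evR (2 * M + 1) f u = ((a.getD ((gens M E).length * JJ M) 0 : ℤ) : Mero) *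
      u 0 ^ (eOf E + N) + evR (2 * M + 1) (fForm (2 * M + 2) (JJ M) N (gens M E) a) u :=
    evR_tForm (R := Mero) (2 * M + 1) (JJ M) N (eOf E) (gens M E) a
      (fun G hG ce hce => (gens_hasDeg M E hE G hG ce hce).1) u
  rw [h1, core_sum M E hE N a u] at hu1
  have hJ : (2 * M + 1 + 1) ^ 3 + (2 * M + 1) + 4 ≤ JJ M := le_rfl
  have hG : ∀ i, (MvPolynomial.map (Int.castRingHom ℂ) (exPg M E i)).IsHomogeneous (eOf E) :=
    fun i => (exPg_homog M E hE i).map _
  have hc : ((a.getD ((gens M E).length * JJ M) 0 : ℤ) : Mero) =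
      algebraMap ℂ Mero ((a.getD ((gens M E).length * JJ M) 0 : ℤ) : ℂ) := by rw [map_intCast]
  rw [hc] at hu1
  have h2 := claimTX (2 * M + 1) (eOf E) (JJ M) (Fin (gens M E).length) hJ N
    (by rw [Fintype.card_fin]; exact hN)
    (fun i => MvPolynomial.map (Int.castRingHom ℂ) (exPg M E i)) hG
    (fun p k => (Int.castRingHom ℂ) (exL M E p k)) (exL_gen M E)
    (fun p => ((a.getD (finProdFinEquiv p : ℕ) 0 : ℤ) : ℂ))
    (fun p => by
      have := ha (finProdFinEquiv p : ℕ) (Nat.lt_succ_of_lt (finProdFinEquiv p).2)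
      exact_mod_cast this) _ 0 u hu hu1
  intro z G hGm
  obtain ⟨i, hi, rfl⟩ := List.getElem_of_mem hGm
  have h3 := (hP _ (eOf E) (hG ⟨i, hi⟩)).1 (h2 ⟨i, hi⟩) z
  unfold exPg at h3
  rw [eval_poly] at h3
  simp only at h3
  rw [List.getD_eq_getElem _ _ hi] at h3
  exact h3

theorem stepT_hyp (M : ℕ) (E : List Form) (hE : ∀ P ∈ E, IsForm M P) (N : ℕ)
    (hN : N0t (2 * M + 1) (eOf E) ((gens M E).length * JJ M) ≤ N) (a : List ℤ)
    (ha : ∀ p < (gens M E).length * JJ M + 1, a.getD p 0 ≠ 0) :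
    Hyperbolic M (Locus M E \ Lam M 1) ↔
      Hyperbolic (2 * M + 1)
        (Locus (2 * M + 1) [tForm (2 * M + 2) (JJ M) N (eOf E) (gens M E) a])ᶜ := by
  have ha0 := ha ((gens M E).length * JJ M) (Nat.lt_succ_self _)
  rw [hyp_inter (2 * M + 1) _ (Locus (2 * M + 1) (gens M E)) fun g hg hgB hne =>
    coreT M E hE N hN a ha g hg hgB hne]
  refine (lowE M).hyp _ _ ?_ ?_
  · rintro x ⟨hx1, hx2⟩
    have h1 := (low_mem M E hE x).2 hx1
    refine ⟨fun h => hx2 ?_, h1⟩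
    exact (low_Lam M 1 (by omega) x).1 ((locus_tForm M E hE N a ha0 _ h1).1 h)
  · rintro y ⟨hy2, hy3⟩
    obtain ⟨x, rfl⟩ := low_surj M E hE y hy3
    refine ⟨x, ⟨(low_mem M E hE x).1 hy3, fun h => hy2 ?_⟩, rfl⟩
    exact (locus_tForm M E hE N a ha0 _ hy3).2 ((low_Lam M 1 (by omega) x).2 h)

end Pool.Agent.Work.MP_90e0ad_ag.Hs
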