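import Pool.Agent.Work.MP_90e0ad_ag.Hs.MainH
import Pool.Agent.Work.MP_90e0ad_ag.Hs.CoreT

/-!
MP_90e0ad_ag/Hs: main theorem T (assembly, helper85).
-/

namespace Pool.Agent.Work.MP_90e0ad_ag.Hs

open Pool.Agent.Work.MP_90e0ad_ag

/-- the form computed from M, E, N, a -/
def fT (x : ℕ × List Form × ℕ × List ℤ) : Form :=
  tForm (2 * x.1 + 2) (JJ x.1) x.2.2.1 (eOf x.2.1) (gens x.1 x.2.1) x.2.2.2

theorem primrec_fT : Primrec fT := by
  have h1 : Primrec fun x : ℕ × List Form × ℕ × List ℤ => x.1 := Primrec.fst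
  have h2 : Primrec fun x : ℕ × List Form × ℕ × List ℤ => x.2.1 := Primrec.fst.comp Primrec.snd
  have h3 : Primrec fun x : ℕ × List Form × ℕ × List ℤ => x.2.2.1 :=
    Primrec.fst.comp (Primrec.snd.comp Primrec.snd)
  have h4 : Primrec fun x : ℕ × List Form × ℕ × List ℤ => x.2.2.2 :=
    Primrec.snd.comp (Primrec.snd.comp Primrec.snd)
  have hg : Primrec fun x : ℕ × List Form × ℕ × List ℤ => gens x.1 x.2.1 :=
    primrec_gens.comp (h1.pair h2)
  exact primrec_tForm.comp (((primrec_two_mul_add 2).comp h1).pair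
    ((primrec_JJ.comp h1).pair (h3.pair ((primrec_eOf.comp h2).pair (hg.pair h4)))))

/-- the relation for the search -/
def relT (y : ℕ × List Form × ℕ) (b : List ℤ × ℕ) : Prop :=
  (∀ P ∈ y.2.1, IsForm y.1 P) → 1 ≤ y.2.2 →
    (∀ p < nP y.1 y.2.1 + 1, b.1.getD p 0 ≠ 0) ∧
      Cert (2 * y.1 + 1) 0 (fT (y.1, y.2.1, y.2.2, b.1)) b.2

theorem primrecRel_relT : PrimrecRel relT := by
  have hM : Primrec fun q : (ℕ × List Form × ℕ) × (List ℤ × ℕ) => q.1.1 :=
    Primrec.fst.comp Primrec.fst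
  have hE : Primrec fun q : (ℕ × List Form × ℕ) × (List ℤ × ℕ) => q.1.2.1 :=
    Primrec.fst.comp (Primrec.snd.comp Primrec.fst)
  have hN : Primrec fun q : (ℕ × List Form × ℕ) × (List ℤ × ℕ) => q.1.2.2 :=
    Primrec.snd.comp (Primrec.snd.comp Primrec.fst)
  have ha : Primrec fun q : (ℕ × List Form × ℕ) × (List ℤ × ℕ) => q.2.1 :=
    Primrec.fst.comp Primrec.snd
  have hK : Primrec fun q : (ℕ × List Form × ℕ) × (List ℤ × ℕ) => q.2.2 :=
    Primrec.snd.comp Primrec.snd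
  have hf := primrec_fT.comp (hM.pair (hE.pair (hN.pair ha)))
  have hm := (primrec_two_mul_add 1).comp hM
  have c1 : PrimrecPred fun q : (ℕ × List Form × ℕ) × (List ℤ × ℕ) =>
      ∀ P ∈ q.1.2.1, IsForm q.1.1 P := PrimrecPred.comp primrec_isForm (hM.pair hE)
  have c2 : PrimrecPred fun q : (ℕ × List Form × ℕ) × (List ℤ × ℕ) => 1 ≤ q.1.2.2 :=
    PrimrecRel.comp Primrec.nat_le (Primrec.const 1) hN
  have c3 : PrimrecPred fun q : (ℕ × List Form × ℕ) × (List ℤ × ℕ) =>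
      ∀ p < nP q.1.1 q.1.2.1 + 1, q.2.1.getD p 0 ≠ 0 :=
    PrimrecPred.comp primrec_nonzero ((Primrec.succ.comp (primrec_nP.comp hM hE)).pair ha)
  have c4 : PrimrecPred fun q : (ℕ × List Form × ℕ) × (List ℤ × ℕ) =>
      Cert (2 * q.1.1 + 1) 0 (fT (q.1.1, q.1.2.1, q.1.2.2, q.2.1)) q.2.2 :=
    PrimrecPred.comp primrec_cert (hm.pair ((Primrec.const 0).pair (hf.pair hK)))
  exact primrecPred_imp c1 (primrecPred_imp c2 (c3.and c4))

theorem fT_hasDeg (M : ℕ) (E : List Form) (hE : ∀ P ∈ E, IsForm M P) (N : ℕ) (a : List ℤ) :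
    HasDeg (2 * M + 1) (eOf E + N) (fT (M, E, N, a)) :=
  tForm_hasDeg (2 * M + 1) (JJ M) N (eOf E) (gens M E) a (gens_hasDeg M E hE)

theorem relT_total (y : ℕ × List Form × ℕ) : ∃ b, relT y b := by
  obtain ⟨M, E, N⟩ := y
  by_cases hE : ∀ P ∈ E, IsForm M P
  · by_cases h2 : 1 ≤ N
    · obtain ⟨a, ha, hsm⟩ := existsT M E hE N h2
      obtain ⟨K₀, hK₀⟩ := cert_complete' (2 * M + 1) 0 _ (fT (M, E, N, a))
        (fT_hasDeg M E hE N a) (hsm 0 (Nat.zero_le _))
      exact ⟨(a, K₀), fun _ _ => ⟨ha, hK₀ _ le_rfl⟩⟩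
    · exact ⟨([], 0), fun _ h => absurd h h2⟩
  · exact ⟨([], 0), fun h => absurd h hE⟩

/-- the exponent -/
def NT (D : ℕ → ℕ) (x : ℕ × List Form) : ℕ :=
  N0t (2 * x.1 + 1) (eOf x.2) (nP x.1 x.2) + (D (2 * x.1 + 1) + 1)

theorem computable_NT (D : ℕ → ℕ) (hD : Computable D) : Computable (NT D) := by
  have hM : Computable fun x : ℕ × List Form => x.1 := Computable.fst
  have hE : Computable fun x : ℕ × List Form => x.2 := Computable.snd
  have h2M : Computable fun x : ℕ × List Form => 2 * x.1 + 1 :=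
    (primrec_two_mul_add 1).to_comp.comp hM
  have hN0 : Computable fun x : ℕ × List Form =>
      N0t (2 * x.1 + 1) (eOf x.2) (nP x.1 x.2) :=
    primrec_N0t.to_comp.comp (h2M.pair ((primrec_eOf.to_comp.comp hE).pair
      (primrec_nP.to_comp.comp hM hE)))
  have h3 : Computable fun x : ℕ × List Form => D (2 * x.1 + 1) + 1 :=
    Computable.succ.comp (hD.comp h2M)
  exact (Primrec.nat_add.to_comp.comp hN0 h3 : Computable fun x : ℕ × List Form =>
    N0t (2 * x.1 + 1) (eOf x.2) (nP x.1 x.2) + (D (2 * x.1 + 1) + 1))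

/-- the reduction, from a search function -/
def rT (D : ℕ → ℕ) (g : ℕ × List Form × ℕ → List ℤ × ℕ) (x : ℕ × List Form) : ℕ × Form :=
  (2 * x.1 + 1, fT (x.1, x.2, NT D x, (g (x.1, x.2, NT D x)).1))

theorem computable_rT (D : ℕ → ℕ) (hD : Computable D)
    (g : ℕ × List Form × ℕ → List ℤ × ℕ) (hg : Computable g) : Computable (rT D g) := by
  have hM : Computable fun x : ℕ × List Form => x.1 := Computable.fst
  have hE : Computable fun x : ℕ × List Form => x.2 := Computable.snd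
  have h2M : Computable fun x : ℕ × List Form => 2 * x.1 + 1 :=
    (primrec_two_mul_add 1).to_comp.comp hM
  have hN : Computable fun x : ℕ × List Form => NT D x := computable_NT D hD
  have hy : Computable fun x : ℕ × List Form => (x.1, x.2, NT D x) := hM.pair (hE.pair hN)
  have ha : Computable fun x : ℕ × List Form => (g (x.1, x.2, NT D x)).1 :=
    Computable.fst.comp (hg.comp hy)
  exact h2M.pair (primrec_fT.to_comp.comp (hM.pair (hE.pair (hN.pair ha))))

theorem stepT_comp (D : ℕ → ℕ) (hD : Computable D) :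
    ∃ r : ℕ × List Form → ℕ × Form, Computable r ∧
      ∀ M E, (∀ P ∈ E, IsForm M P) → Good D (r (M, E)).1 0 (r (M, E)).2 ∧
        (Hyperbolic M (Locus M E \ Lam M 1) ↔
          Hyperbolic (r (M, E)).1 (Locus (r (M, E)).1 [(r (M, E)).2])ᶜ) := by
  obtain ⟨g, hg, hgp⟩ := exists_search relT primrecRel_relT relT_total
  refine ⟨rT D g, computable_rT D hD g hg, ?_⟩
  intro M E hEf
  have hN1 : 1 ≤ NT D (M, E) := by unfold NT; exact le_add_left (Nat.le_add_left _ _)
  have hN2 : N0t (2 * M + 1) (eOf E) ((gens M E).length * JJ M) ≤ NT D (M, E) := by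
    unfold NT nP; exact Nat.le_add_right _ _
  have hN3 : D (2 * M + 1) ≤ NT D (M, E) := by
    unfold NT
    exact le_add_left (Nat.le_succ _)
  have hr1 : (rT D g (M, E)).1 = 2 * M + 1 := rfl
  have hr : (rT D g (M, E)).2 = fT (M, E, NT D (M, E), (g (M, E, NT D (M, E))).1) := rfl
  rw [hr1, hr]
  generalize NT D (M, E) = N at *
  obtain ⟨h1, h2⟩ := hgp (M, E, N) hEf hN1
  have hd := fT_hasDeg M E hEf N (g (M, E, N)).1
  have hB := stepT_hyp M E hEf N hN2 (g (M, E, N)).1 h1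
  have hc := cert_sound' _ _ _ _ _ hd h2
  exact ⟨⟨by omega, ⟨eOf E + N, by omega, hd⟩, hc, hc⟩, hB⟩

theorem good_deg_pos {D : ℕ → ℕ} {m : ℕ} {f : Form} (h : Good D m 0 f) :
    f ≠ [] ∧ 1 ≤ deg0 f ∧ HasDeg m (deg0 f) f := by
  obtain ⟨d, -, hd⟩ := h.form
  have hv : (fun _ : Fin (m + 1) => (1 : ℂ)) ≠ 0 := fun h0 => one_ne_zero (congrFun h0 0)
  obtain ⟨k, -, hk⟩ := h.smooth _ hv (fun i hi => absurd hi (Nat.not_lt_zero _))
  have hne : f ≠ [] := by
    rintro rfl
    exact hk (by simp [evalC, der])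
  have hd0 : d = deg0 f := deg0_of_hasDeg hd hne
  refine ⟨hne, ?_, hd0 ▸ hd⟩
  by_contra h0
  have hd1 : d = 0 := by omega
  apply hk
  have hz : ∀ ce ∈ f, ce.2.getD (k : ℕ) 0 = 0 := by
    intro ce hce
    have h1 := (hd ce hce).2
    rw [hd1, List.sum_eq_zero_iff] at h1
    rw [List.getD_eq_getElem?_getD]
    cases h2 : ce.2[(k : ℕ)]? with
    | none => rfl
    | some x => exact h1 x (List.mem_of_getElem? h2)
  unfold evalC der
  rw [List.map_map]
  apply List.sum_eq_zero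
  intro x hx
  obtain ⟨ce, hce, rfl⟩ := List.mem_map.1 hx
  simp only [Function.comp]
  rw [hz ce hce]
  simp

theorem mainT (D : ℕ → ℕ) (hD : Computable D) :
    (∃ r : ℕ × List Form → ℕ × Form, Computable r ∧
      ∀ n L, (∀ P ∈ L, IsForm n P) → ∀ m f, r (n, L) = (m, f) →
        Good D m 0 f ∧
        (Hyperbolic n (Locus n L \ Lam n 1) ↔ Hyperbolic m (Locus m [f])ᶜ)) ∧
    (Dec (fun I : ℕ × List Form => ∀ P ∈ I.2, IsForm I.1 P)
        (fun I => Hyperbolic I.1 (Locus I.1 I.2 \ Lam I.1 1)) ↔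
      Dec (fun x : ℕ × Form => Good D x.1 0 x.2)
        (fun x => Hyperbolic x.1 (Locus x.1 [x.2])ᶜ)) := by
  obtain ⟨r, hr, hrp⟩ := stepT_comp D hD
  refine ⟨⟨r, hr, ?_⟩, ?_, ?_⟩
  · intro n L h m f he
    have := hrp n L h
    rw [he] at this
    exact this
  · refine Dec.of_reduction (fun x : ℕ × Form =>
      (mA x.1 (deg0 x.2) 1, stepA x.1 (deg0 x.2) [] [x.2])) ?_ ?_ ?_
    · have h1 : Primrec fun x : ℕ × Form => deg0 x.2 := primrec_deg0.comp Primrec.snd
      have h2 : Primrec fun x : ℕ × Form => [x.2] :=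
        Primrec.list_cons.comp Primrec.snd (Primrec.const [])
      exact ((primrec_mA.comp (Primrec.fst.pair (h1.pair (Primrec.const 1)))).pair
        (primrec_stepA.comp (Primrec.fst.pair (h1.pair ((Primrec.const []).pair h2))))).to_comp
    · rintro ⟨m, f⟩ hx
      obtain ⟨-, h1, h2⟩ := good_deg_pos hx
      refine stepA_isForm m (deg0 f) h1 [] [f] (by simp) ?_
      intro P hP
      rw [List.mem_singleton] at hP
      rw [hP]
      exact h2
    · rintro ⟨m, f⟩ hx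
      obtain ⟨-, h1, h2⟩ := good_deg_pos hx
      have hH : ∀ P ∈ [f], HasDeg m (deg0 f) P := by
        intro P hP
        rw [List.mem_singleton] at hP
        rw [hP]
        exact h2
      refine (nuE m (deg0 f) h1 [f] hH).hyp _ _ ?_ ?_
      · intro x hx
        refine ⟨(stepA_mem m _ h1 [] [f] (by simp) hH x).2 (by intro P hP; simp at hP), fun h => hx ?_⟩
        exact (stepA_Lam m _ h1 [f] hH x).1 h
      · rintro y ⟨hy1, hy2⟩
        obtain ⟨x, rfl⟩ := stepA_surj m _ h1 [] [f] (by simp) hH y hy1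
        refine ⟨x, fun h => hy2 ?_, rfl⟩
        exact (stepA_Lam m _ h1 [f] hH x).2 h
  · exact Dec.of_reduction r hr (fun x hx => (hrp x.1 x.2 hx).1) (fun x hx => (hrp x.1 x.2 hx).2)

end Pool.Agent.Work.MP_90e0ad_ag.Hs
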