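import Pool.Agent.Work.MP_90e0ad_ag.Hs.StepB

/-!
MP_90e0ad_ag/Hs: main theorem H (assembly, helper85).
-/

namespace Pool.Agent.Work.MP_90e0ad_ag.Hs

open Pool.Agent.Work.MP_90e0ad_ag

/-- the boundary forms, made of equal degree -/
def hA (I : ℕ × List Form × List Form) : List Form := eqDeg (I.1 + 1) (eOf I.2.2) I.2.2

/-- step A: number of variables (minus one), number of vanishing coordinates, equations -/
def rA (I : ℕ × List Form × List Form) : ℕ × ℕ × List Form :=
  (mA I.1 (eOf I.2.2) (hA I).length, (hA I).length, stepA I.1 (eOf I.2.2) I.2.1 (hA I))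

theorem primrec_hA : Primrec hA := by
  have h1 : Primrec fun I : ℕ × List Form × List Form => I.1 + 1 :=
    Primrec.succ.comp Primrec.fst
  have h2 : Primrec fun I : ℕ × List Form × List Form => I.2.2 := Primrec.snd.comp Primrec.snd
  exact primrec_eqDeg.comp (h1.pair ((primrec_eOf.comp h2).pair h2))

theorem primrec_rA : Primrec rA := by
  have hn : Primrec fun I : ℕ × List Form × List Form => I.1 := Primrec.fst
  have hL : Primrec fun I : ℕ × List Form × List Form => I.2.1 := Primrec.fst.comp Primrec.snd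
  have hG : Primrec fun I : ℕ × List Form × List Form => I.2.2 := Primrec.snd.comp Primrec.snd
  have he : Primrec fun I : ℕ × List Form × List Form => eOf I.2.2 := primrec_eOf.comp hG
  have hr : Primrec fun I : ℕ × List Form × List Form => (hA I).length :=
    Primrec.list_length.comp primrec_hA
  exact (primrec_mA.comp (hn.pair (he.pair hr))).pair (hr.pair
    (primrec_stepA.comp (hn.pair (he.pair (hL.pair primrec_hA)))))

theorem hA_hasDeg (n : ℕ) (L G : List Form) (hG : ∀ P ∈ G, IsForm n P) :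
    ∀ P ∈ hA (n, L, G), HasDeg n (eOf G) P := by
  refine eqDeg_hasDeg n (eOf G) G fun P hP => ?_
  obtain ⟨d, hd, hPd⟩ := hasDeg_lt_eOf n G hG P hP
  exact ⟨d, hd.le, hPd⟩

theorem hA_locus (n : ℕ) (L G : List Form) (hG : ∀ P ∈ G, IsForm n P) (x : PP n) :
    x ∈ Locus n (hA (n, L, G)) ↔ x ∈ Locus n G :=
  eqDeg_zero n (eOf G) G hG x.rep x.rep_nonzero

theorem rA_le (n : ℕ) (L G : List Form) : (hA (n, L, G)).length ≤ mA n (eOf G) (hA (n, L, G)).length := by
  have h1 : 0 < (n + 1) ^ (eOf G) := Nat.pos_of_ne_zero (pow_ne_zero _ (Nat.succ_ne_zero n))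
  unfold mA
  omega

theorem rA_hyp (n : ℕ) (L G : List Form) (hL : ∀ P ∈ L, IsForm n P) (hG : ∀ P ∈ G, IsForm n P) :
    (∀ P ∈ (rA (n, L, G)).2.2, IsForm (rA (n, L, G)).1 P) ∧
    (Hyperbolic n (Locus n L \ Locus n G) ↔
      Hyperbolic (rA (n, L, G)).1
        (Locus (rA (n, L, G)).1 (rA (n, L, G)).2.2 \ Lam (rA (n, L, G)).1 (rA (n, L, G)).2.1)) := by
  have hH := hA_hasDeg n L G hG
  have he := eOf_pos G
  refine ⟨stepA_isForm n (eOf G) he L _ hL hH, ?_⟩
  refine (nuE n (eOf G) he (hA (n, L, G)) hH).hyp _ _ ?_ ?_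
  · rintro x ⟨hx1, hx2⟩
    refine ⟨(stepA_mem n _ he L _ hL hH x).2 hx1, fun h => hx2 ?_⟩
    exact (hA_locus n L G hG x).1 ((stepA_Lam n _ he _ hH x).1 h)
  · rintro y ⟨hy1, hy2⟩
    obtain ⟨x, rfl⟩ := stepA_surj n _ he L _ hL hH y hy1
    refine ⟨x, ⟨(stepA_mem n _ he L _ hL hH x).1 hy1, fun h => hy2 ?_⟩, rfl⟩
    exact (stepA_Lam n _ he _ hH x).2 ((hA_locus n L G hG x).2 h)

/-- the coordinate forms x_0, ..., x_{s-1} -/
def coords (m s : ℕ) : List Form := (List.range s).map fun i => [((1 : ℤ), exps (m + 1) [i])]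

theorem primrec_coords : Primrec₂ coords := by
  refine Primrec.list_map (Primrec.list_range.comp Primrec.snd) ?_
  have h1 : Primrec fun q : (ℕ × ℕ) × ℕ => exps (q.1.1 + 1) [q.2] :=
    primrec_exps.comp (Primrec.succ.comp (Primrec.fst.comp Primrec.fst))
      (Primrec.list_cons.comp Primrec.snd (Primrec.const []))
  exact Primrec.list_cons.comp ((Primrec.const (1 : ℤ)).pair h1) (Primrec.const [])

theorem coords_isForm (m s : ℕ) (hs : s ≤ m + 1) : ∀ P ∈ coords m s, IsForm m P := by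
  intro P hP
  obtain ⟨i, hi, rfl⟩ := List.mem_map.1 hP
  refine ⟨1, fun ce hce => ?_⟩
  rw [List.mem_singleton] at hce
  subst hce
  refine ⟨exps_length _ _, ?_⟩
  rw [exps_sum]
  · rfl
  · intro x hx
    rw [List.mem_singleton] at hx
    have := List.mem_range.1 hi
    omega

theorem coords_locus (m s : ℕ) (hs : s ≤ m + 1) : Locus m (coords m s) = Lam m s := by
  ext x
  have h1 : ∀ i (hi : i < m + 1), evalC m [((1 : ℤ), exps (m + 1) [i])] x.rep = x.rep ⟨i, hi⟩ := by
    intro i hi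
    rw [← evR_C, evR_cons, evR_nil, prod_exps, ev_cons _ i hi, ev_nil]
    simp
  constructor
  · intro hx i his
    have h2 := hx [((1 : ℤ), exps (m + 1) [(i : ℕ)])]
      (List.mem_map.2 ⟨i, List.mem_range.2 his, rfl⟩)
    have h3 := h1 i i.2
    unfold VanishAt at h2
    rw [h3] at h2
    exact h2
  · intro hx P hP
    obtain ⟨i, hi, rfl⟩ := List.mem_map.1 hP
    have hi' := List.mem_range.1 hi
    unfold VanishAt
    rw [h1 i (by omega)]
    exact hx ⟨i, by omega⟩ hi'

/-- a promise problem with a computable reduction -/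
theorem Dec.of_reduction {α β : Type} [Primcodable α] [Primcodable β] {v p : α → Prop}
    {v' p' : β → Prop} (r : α → β) (hr : Computable r) (h1 : ∀ x, v x → v' (r x))
    (h2 : ∀ x, v x → (p x ↔ p' (r x))) (h : Dec v' p') : Dec v p := by
  obtain ⟨g, hg, hgp⟩ := h
  refine ⟨fun x => g (r x), hg.comp hr, fun x hx => ?_⟩
  rw [hgp _ (h1 x hx), h2 x hx]

theorem mainH (D : ℕ → ℕ) (hD : Computable D) :
    (∃ r : ℕ × List Form × List Form → ℕ × ℕ × Form, Computable r ∧
      ∀ n L G, (∀ P ∈ L ++ G, IsForm n P) → ∀ m s f, r (n, L, G) = (m, s, f) →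
        Good D m s f ∧
        (Hyperbolic n (Locus n L \ Locus n G) ↔ Hyperbolic m (Locus m [f] \ Lam m s))) ∧
    (∃ r : ℕ × List Form → ℕ × Form, Computable r ∧
      ∀ n L, (∀ P ∈ L, IsForm n P) → ∀ m f, r (n, L) = (m, f) →
        Good D m 1 f ∧
        (Hyperbolic n (Locus n L \ Lam n 1) ↔ Hyperbolic m (Locus m [f] \ Lam m 1))) ∧
    (∃ r : ℕ × List Form → ℕ × Form, Computable r ∧
      ∀ n L, (∀ P ∈ L, IsForm n P) → ∀ m f, r (n, L) = (m, f) →
        Good D m 0 f ∧ (Hyperbolic n (Locus n L) ↔ Hyperbolic m (Locus m [f]))) ∧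
    (Dec (fun I : ℕ × List Form × List Form => ∀ P ∈ I.2.1 ++ I.2.2, IsForm I.1 P)
        (fun I => Hyperbolic I.1 (Locus I.1 I.2.1 \ Locus I.1 I.2.2)) ↔
      Dec (fun x : ℕ × ℕ × Form => Good D x.1 x.2.1 x.2.2)
        (fun x => Hyperbolic x.1 (Locus x.1 [x.2.2] \ Lam x.1 x.2.1))) ∧
    (Dec (fun I : ℕ × List Form => ∀ P ∈ I.2, IsForm I.1 P)
        (fun I => Hyperbolic I.1 (Locus I.1 I.2 \ Lam I.1 1)) ↔
      Dec (fun x : ℕ × Form => Good D x.1 1 x.2)
        (fun x => Hyperbolic x.1 (Locus x.1 [x.2] \ Lam x.1 1))) ∧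
    (Dec (fun I : ℕ × List Form => ∀ P ∈ I.2, IsForm I.1 P)
        (fun I => Hyperbolic I.1 (Locus I.1 I.2)) ↔
      Dec (fun x : ℕ × Form => Good D x.1 0 x.2)
        (fun x => Hyperbolic x.1 (Locus x.1 [x.2]))) := by
  obtain ⟨r, hr, hrp⟩ := stepB_comp D hD
  -- the three reductions
  have cA : Computable rA := primrec_rA.to_comp
  have c1 : Computable fun I : ℕ × List Form × List Form =>
      (2 * (rA I).1 + 1, (rA I).2.1, r (rA I)) :=
    ((primrec_two_mul_add 1).to_comp.comp (Computable.fst.comp cA)).pair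
      ((Computable.fst.comp (Computable.snd.comp cA)).pair (hr.comp cA))
  have p1 : ∀ n L G, (∀ P ∈ L ++ G, IsForm n P) →
      Good D (2 * (rA (n, L, G)).1 + 1) (rA (n, L, G)).2.1 (r (rA (n, L, G))) ∧
        (Hyperbolic n (Locus n L \ Locus n G) ↔
          Hyperbolic (2 * (rA (n, L, G)).1 + 1) (Locus (2 * (rA (n, L, G)).1 + 1) [r (rA (n, L, G))] \
            Lam (2 * (rA (n, L, G)).1 + 1) (rA (n, L, G)).2.1)) := by
    intro n L G h
    have hL : ∀ P ∈ L, IsForm n P := fun P hP => h P (List.mem_append_left _ hP)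
    have hG : ∀ P ∈ G, IsForm n P := fun P hP => h P (List.mem_append_right _ hP)
    obtain ⟨h1, h2⟩ := rA_hyp n L G hL hG
    have h3 : (rA (n, L, G)).2.1 ≤ (rA (n, L, G)).1 + 1 := Nat.le_succ_of_le (rA_le n L G)
    obtain ⟨h4, h5, -⟩ := hrp (rA (n, L, G)).1 (rA (n, L, G)).2.1 (rA (n, L, G)).2.2 h1 h3
    exact ⟨h4, h2.trans h5⟩
  have c2 : Computable fun I : ℕ × List Form => (2 * I.1 + 1, r (I.1, 1, I.2)) :=
    ((primrec_two_mul_add 1).to_comp.comp Computable.fst).pair
      (hr.comp (Computable.fst.pair ((Computable.const 1).pair Computable.snd)))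
  have c3 : Computable fun I : ℕ × List Form => (2 * I.1 + 1, r (I.1, 0, I.2)) :=
    ((primrec_two_mul_add 1).to_comp.comp Computable.fst).pair
      (hr.comp (Computable.fst.pair ((Computable.const 0).pair Computable.snd)))
  refine ⟨⟨_, c1, ?_⟩, ⟨_, c2, ?_⟩, ⟨_, c3, ?_⟩, ?_, ?_, ?_⟩
  · intro n L G h m s f he
    simp only [Prod.mk.injEq] at he
    obtain ⟨rfl, rfl, rfl⟩ := he
    exact p1 n L G h
  · intro n L h m f he
    simp only [Prod.mk.injEq] at he
    obtain ⟨rfl, rfl⟩ := he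
    obtain ⟨h4, h5, -⟩ := hrp n 1 L h (by omega)
    exact ⟨h4, h5⟩
  · intro n L h m f he
    simp only [Prod.mk.injEq] at he
    obtain ⟨rfl, rfl⟩ := he
    obtain ⟨h4, -, h5⟩ := hrp n 0 L h (by omega)
    exact ⟨h4, h5⟩
  · constructor
    · refine Dec.of_reduction (fun x : ℕ × ℕ × Form => (x.1, [x.2.2], coords x.1 x.2.1)) ?_ ?_ ?_
      · exact Computable.fst.pair ((Computable.list_cons.comp (Computable.snd.comp Computable.snd)
          (Computable.const [])).pair (primrec_coords.to_comp.comp Computable.fst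
            (Computable.fst.comp Computable.snd)))
      · rintro ⟨m, s, f⟩ hx P hP
        rcases List.mem_append.1 hP with hP | hP
        · rw [List.mem_singleton] at hP
          subst hP
          obtain ⟨d, -, hd⟩ := hx.form
          exact ⟨d, hd⟩
        · exact coords_isForm m s (Nat.le_succ_of_le hx.hs) P hP
      · rintro ⟨m, s, f⟩ hx
        simp only
        rw [coords_locus m s (Nat.le_succ_of_le hx.hs)]
    · exact Dec.of_reduction _ c1 (fun x hx => (p1 x.1 x.2.1 x.2.2 hx).1)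
        (fun x hx => (p1 x.1 x.2.1 x.2.2 hx).2)
  · constructor
    · refine Dec.of_reduction (fun x : ℕ × Form => (x.1, [x.2])) ?_ ?_ ?_
      · exact Computable.fst.pair (Computable.list_cons.comp Computable.snd (Computable.const []))
      · rintro ⟨m, f⟩ hx P hP
        rw [List.mem_singleton] at hP
        subst hP
        obtain ⟨d, -, hd⟩ := hx.form
        exact ⟨d, hd⟩
      · rintro ⟨m, f⟩ hx
        exact Iff.rfl
    · exact Dec.of_reduction _ c2 (fun x hx => (hrp x.1 1 x.2 hx (by omega)).1)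
        (fun x hx => (hrp x.1 1 x.2 hx (by omega)).2.1)
  · constructor
    · refine Dec.of_reduction (fun x : ℕ × Form => (x.1, [x.2])) ?_ ?_ ?_
      · exact Computable.fst.pair (Computable.list_cons.comp Computable.snd (Computable.const []))
      · rintro ⟨m, f⟩ hx P hP
        rw [List.mem_singleton] at hP
        subst hP
        obtain ⟨d, -, hd⟩ := hx.form
        exact ⟨d, hd⟩
      · rintro ⟨m, f⟩ hx
        exact Iff.rfl
    · exact Dec.of_reduction _ c3 (fun x hx => (hrp x.1 0 x.2 hx (by omega)).1)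
        (fun x hx => (hrp x.1 0 x.2 hx (by omega)).2.2)

end Pool.Agent.Work.MP_90e0ad_ag.Hs
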