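import Pool.Agent.Work.MP_90e0ad_ag.Hs.Fun

/-!
MP_90e0ad_ag/Hs, module Basic (size M): lists of indices, exponents, values of forms in any
commutative ring. Everything is elementary.

* ev v l = product of the coordinates v_i, i in l (indices which are too large count as 1).
* prod_exps: both sides are multiplicative in l: cnt (x :: l) i = (if x = i then 1 else 0) + cnt l i;
  induction on l, using Finset.prod_mul_distrib, pow_add and Finset.prod_ite_eq.
  getD of a List.map over List.range: List.getD_eq_getElem?_getD, List.getElem?_map, List.getElem?_range.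
* exps_sum: double counting, induction on l (sum over range m1 of (if x = i then 1 else 0) is 1 if x < m1).
* word_length, ev_word: induction on e is awkward because of List.range; use List.flatMap/List.map
  lemmas: (word e).map f has product (over j in range e.length) of f j ^ e.getD j 0
  (List.prod_flatMap or List.map_flatMap, List.prod of rep), then List.prod over List.range equals
  Finset.prod over range (List.prod_range / Finset.prod_range) and Fin.prod_univ_eq_prod_range.
* ofD_digs, digs_ofD, ofD_lt: induction on k resp. l: digs b (k+1) w = (w % b) :: digs b k (w / b)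
  (List.range_succ_eq_map, Nat.div_div_eq_div_mul, pow_succ').
* evR_map: map_list_sum, map_mul, map_prod, map_intCast. poly_eval₂: evR_map for the ring
  homomorphism MvPolynomial.eval₂Hom φ v (Int.castRingHom is the only homomorphism: eq_intCast).
* evR_smul: each monomial has degree d.
-/

namespace Pool.Agent.Work.MP_90e0ad_ag.Hs

open Pool.Agent.Work.MP_90e0ad_ag

/-! ### products of coordinates -/

def ev {R : Type} [CommSemiring R] {n : ℕ} (v : Fin (n + 1) → R) (l : List ℕ) : R :=
  (l.map fun i => if h : i < n + 1 then v ⟨i, h⟩ else 1).prod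

section

variable {R : Type} [CommSemiring R] {n : ℕ} (v : Fin (n + 1) → R)

theorem ev_nil : ev v [] = 1 := by simp [ev]

private theorem ev_cons_gen (i : ℕ) (l : List ℕ) :
    ev v (i :: l) = (if h : i < n + 1 then v ⟨i, h⟩ else 1) * ev v l := by
  simp [ev]

theorem ev_cons (i : ℕ) (hi : i < n + 1) (l : List ℕ) : ev v (i :: l) = v ⟨i, hi⟩ * ev v l := by
  rw [ev_cons_gen, dif_pos hi]

theorem ev_append (l l' : List ℕ) : ev v (l ++ l') = ev v l * ev v l' := by
  simp [ev]

private theorem rep_succ (k j : ℕ) : rep (k + 1) j = j :: rep k j := by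
  unfold rep
  rw [List.range_succ_eq_map, List.map_cons, List.map_map]
  rfl

theorem ev_rep (k j : ℕ) (hj : j < n + 1) : ev v (rep k j) = v ⟨j, hj⟩ ^ k := by
  induction k with
  | zero => simp [rep, ev_nil]
  | succ k ih => rw [rep_succ, ev_cons v j hj, ih, pow_succ']

private theorem exps_getD (m1 : ℕ) (l : List ℕ) (i : ℕ) (hi : i < m1) :
    (exps m1 l).getD i 0 = cnt l i := by
  unfold exps
  rw [List.getD_eq_getElem?_getD]
  simp [hi]

private theorem cnt_cons (x : ℕ) (l : List ℕ) (i : ℕ) :
    cnt (x :: l) i = (if x = i then 1 else 0) + cnt l i := by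
  simp [cnt]

theorem prod_exps (l : List ℕ) :
    ∏ i : Fin (n + 1), v i ^ (exps (n + 1) l).getD (i : ℕ) 0 = ev v l := by
  have h : ∀ i : Fin (n + 1), (exps (n + 1) l).getD (i : ℕ) 0 = cnt l i :=
    fun i => exps_getD _ _ _ i.2
  simp only [h]
  clear h
  induction l with
  | nil => simp [cnt, ev_nil]
  | cons x l ih =>
    rw [ev_cons_gen, ← ih]
    simp only [cnt_cons, pow_add, Finset.prod_mul_distrib]
    congr 1
    by_cases hx : x < n + 1
    · rw [dif_pos hx]
      rw [Finset.prod_eq_single ⟨x, hx⟩]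
      · simp
      · intro b _ hb
        have : x ≠ (b : ℕ) := fun h => hb (Fin.ext h.symm)
        simp [this]
      · simp
    · rw [dif_neg hx]
      refine Finset.prod_eq_one fun i _ => ?_
      have : x ≠ (i : ℕ) := by have := i.2; omega
      simp [this]

end

theorem exps_length (m1 : ℕ) (l : List ℕ) : (exps m1 l).length = m1 := by simp [exps]

private theorem sum_ind (m1 x : ℕ) (h : x < m1) :
    ((List.range m1).map fun i => if x = i then 1 else 0).sum = 1 := by
  induction m1 with
  | zero => omega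
  | succ m ih =>
    rw [List.range_succ, List.map_append, List.sum_append]
    by_cases hx : x = m
    · subst hx
      have : ((List.range x).map fun i => if x = i then 1 else 0).sum = 0 := by
        apply List.sum_eq_zero
        intro y hy
        obtain ⟨i, hi, rfl⟩ := List.mem_map.1 hy
        have := List.mem_range.1 hi
        rw [if_neg (by omega)]
      rw [this]
      simp
    · rw [ih (by omega)]
      simp [hx]

theorem exps_sum (m1 : ℕ) (l : List ℕ) (h : ∀ x ∈ l, x < m1) : (exps m1 l).sum = l.length := by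
  induction l with
  | nil => simp [exps, cnt]
  | cons x l ih =>
    have h1 : exps m1 (x :: l) = (List.range m1).map fun i => (if x = i then 1 else 0) + cnt l i := by
      unfold exps
      exact List.map_congr_left fun i _ => cnt_cons x l i
    have h2 := ih fun y hy => h y (List.mem_cons_of_mem _ hy)
    unfold exps at h2
    rw [h1, List.sum_map_add, sum_ind m1 x (h x (by simp)), h2, List.length_cons]
    omega

theorem rep_length (k j : ℕ) : (rep k j).length = k := by simp [rep]

theorem mem_rep {k j x : ℕ} (h : x ∈ rep k j) : x = j := by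
  unfold rep at h
  obtain ⟨i, -, rfl⟩ := List.mem_map.1 h
  rfl

private theorem word_aux (e : List ℕ) (k : ℕ) :
    ((List.range k).flatMap fun j => rep (e.getD j 0) j).length =
      ∑ j ∈ Finset.range k, e.getD j 0 := by
  induction k with
  | zero => simp
  | succ k ih =>
    rw [List.range_succ, List.flatMap_append, List.length_append, ih, Finset.sum_range_succ]
    simp [rep_length]

private theorem getD_sum (e : List ℕ) : ∑ j ∈ Finset.range e.length, e.getD j 0 = e.sum := by
  induction e with
  | nil => simp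
  | cons a e ih =>
    rw [List.length_cons, Finset.sum_range_succ']
    simp only [List.getD_cons_succ, List.getD_cons_zero, List.sum_cons]
    rw [ih]
    omega

theorem word_length (e : List ℕ) : (word e).length = e.sum := by
  unfold word
  rw [word_aux, getD_sum]

theorem word_lt {e : List ℕ} {x : ℕ} (h : x ∈ word e) : x < e.length := by
  unfold word at h
  obtain ⟨j, hj, hx⟩ := List.mem_flatMap.1 h
  rw [mem_rep hx]
  exact List.mem_range.1 hj

section

variable {R : Type} [CommSemiring R] {n : ℕ} (v : Fin (n + 1) → R)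

private theorem ev_word_aux (e : List ℕ) (k : ℕ) (hk : k ≤ n + 1) :
    ev v ((List.range k).flatMap fun j => rep (e.getD j 0) j) =
      ∏ j ∈ Finset.range k, (if h : j < n + 1 then v ⟨j, h⟩ else 1) ^ e.getD j 0 := by
  induction k with
  | zero => simp [ev_nil]
  | succ k ih =>
    rw [List.range_succ, List.flatMap_append, ev_append, ih (by omega), Finset.prod_range_succ]
    congr 1
    have hk' : k < n + 1 := by omega
    simp only [List.flatMap_cons, List.flatMap_nil, List.append_nil]
    rw [ev_rep v _ k hk', dif_pos hk']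

theorem ev_word (e : List ℕ) (he : e.length = n + 1) :
    ev v (word e) = ∏ i : Fin (n + 1), v i ^ e.getD (i : ℕ) 0 := by
  unfold word
  rw [he, ev_word_aux v e (n + 1) le_rfl, ← Fin.prod_univ_eq_prod_range
    (fun j => (if h : j < n + 1 then v ⟨j, h⟩ else 1) ^ e.getD j 0)]
  refine Finset.prod_congr rfl fun i _ => ?_
  simp only [dif_pos i.2]

end

theorem digs_length (b k w : ℕ) : (digs b k w).length = k := by simp [digs]

theorem digs_lt {b k w x : ℕ} (hb : 0 < b) (h : x ∈ digs b k w) : x < b := by
  unfold digs at h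
  obtain ⟨j, -, rfl⟩ := List.mem_map.1 h
  exact Nat.mod_lt _ hb

theorem digs_succ (b k w : ℕ) : digs b (k + 1) w = w % b :: digs b k (w / b) := by
  unfold digs
  rw [List.range_succ_eq_map]
  simp only [List.map_cons, List.map_map, pow_zero, Nat.div_one]
  congr 1
  refine List.map_congr_left fun j _ => ?_
  simp only [Function.comp]
  rw [Nat.div_div_eq_div_mul, Nat.succ_eq_add_one, pow_succ']

private theorem ofD_cons (b x : ℕ) (l : List ℕ) : ofD b (x :: l) = x + b * ofD b l := rfl

theorem ofD_digs (b k w : ℕ) (hw : w < b ^ k) : ofD b (digs b k w) = w := by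
  induction k generalizing w with
  | zero =>
    rw [pow_zero] at hw
    have : w = 0 := by omega
    subst this
    rfl
  | succ k ih =>
    rw [digs_succ, ofD_cons, ih]
    · exact Nat.mod_add_div w b
    · rw [pow_succ'] at hw
      exact Nat.div_lt_of_lt_mul hw

theorem digs_ofD (b : ℕ) (l : List ℕ) (hl : ∀ x ∈ l, x < b) : digs b l.length (ofD b l) = l := by
  induction l with
  | nil => rfl
  | cons x l ih =>
    have hx := hl x (by simp)
    rw [List.length_cons, digs_succ, ofD_cons]
    have h1 : (x + b * ofD b l) % b = x := by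
      rw [Nat.add_mul_mod_self_left, Nat.mod_eq_of_lt hx]
    have h2 : (x + b * ofD b l) / b = ofD b l := by
      rw [Nat.add_mul_div_left _ _ (by omega), Nat.div_eq_of_lt hx, zero_add]
    rw [h1, h2, ih fun y hy => hl y (List.mem_cons_of_mem _ hy)]

theorem ofD_lt (b : ℕ) (l : List ℕ) (hl : ∀ x ∈ l, x < b) : ofD b l < b ^ l.length := by
  induction l with
  | nil => simp [ofD]
  | cons x l ih =>
    have hx := hl x (by simp)
    have h1 := ih fun y hy => hl y (List.mem_cons_of_mem _ hy)
    rw [List.length_cons, ofD_cons, pow_succ']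
    calc x + b * ofD b l < b + b * ofD b l := by omega
      _ = b * (ofD b l + 1) := by ring
      _ ≤ b * b ^ l.length := Nat.mul_le_mul_left _ h1

/-! ### values of forms -/

def evR {R : Type} [CommRing R] (n : ℕ) (P : Form) (v : Fin (n + 1) → R) : R :=
  (P.map fun ce => (ce.1 : R) * ∏ i : Fin (n + 1), v i ^ ce.2.getD (i : ℕ) 0).sum

theorem evR_C (n : ℕ) (P : Form) (v : Fin (n + 1) → ℂ) : evR n P v = evalC n P v := rfl

section

variable {R S : Type} [CommRing R] [CommRing S]

theorem evR_nil (n : ℕ) (v : Fin (n + 1) → R) : evR n [] v = 0 := by simp [evR]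

theorem evR_cons (n : ℕ) (ce : ℤ × List ℕ) (P : Form) (v : Fin (n + 1) → R) :
    evR n (ce :: P) v = (ce.1 : R) * (∏ i : Fin (n + 1), v i ^ ce.2.getD (i : ℕ) 0) + evR n P v := by
  simp [evR]

theorem evR_append (n : ℕ) (P Q : Form) (v : Fin (n + 1) → R) :
    evR n (P ++ Q) v = evR n P v + evR n Q v := by simp [evR]

/-- the value of a list of monomials built from lists of indices -/
theorem evR_mon {ι : Type} (n : ℕ) (l : List ι) (c : ι → ℤ) (w : ι → List ℕ) (v : Fin (n + 1) → R) :
    evR n (l.map fun x => (c x, exps (n + 1) (w x))) v = (l.map fun x => (c x : R) * ev v (w x)).sum := by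
  unfold evR
  rw [List.map_map]
  congr 1
  refine List.map_congr_left fun x _ => ?_
  simp only [Function.comp]
  rw [prod_exps]

theorem evR_map (φ : R →+* S) (n : ℕ) (P : Form) (v : Fin (n + 1) → R) :
    φ (evR n P v) = evR n P fun i => φ (v i) := by
  induction P with
  | nil => simp [evR_nil]
  | cons ce P ih =>
    rw [evR_cons, evR_cons, map_add, ih, map_mul, map_intCast, map_prod]
    simp only [map_pow]

private theorem fin_getD_sum (n : ℕ) (e : List ℕ) (he : e.length = n + 1) :
    ∑ i : Fin (n + 1), e.getD (i : ℕ) 0 = e.sum := by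
  rw [Fin.sum_univ_eq_sum_range (fun i => e.getD i 0) (n + 1), ← he, getD_sum]

theorem evR_smul (n d : ℕ) (P : Form) (hP : ∀ ce ∈ P, ce.2.length = n + 1 ∧ ce.2.sum = d) (c : R)
    (v : Fin (n + 1) → R) : evR n P (fun i => c * v i) = c ^ d * evR n P v := by
  induction P with
  | nil => simp [evR_nil]
  | cons ce P ih =>
    obtain ⟨h1, h2⟩ := hP ce (by simp)
    rw [evR_cons, evR_cons, ih fun x hx => hP x (List.mem_cons_of_mem _ hx)]
    have h3 : ∏ i : Fin (n + 1), (c * v i) ^ ce.2.getD (i : ℕ) 0 =
        c ^ d * ∏ i : Fin (n + 1), v i ^ ce.2.getD (i : ℕ) 0 := by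
      simp only [mul_pow]
      rw [Finset.prod_mul_distrib, Finset.prod_pow_eq_pow_sum, fin_getD_sum n _ h1, h2]
    rw [h3]
    ring

end

/-- the polynomial -/
noncomputable def poly (n : ℕ) (P : Form) : MvPolynomial (Fin (n + 1)) ℤ := evR n P MvPolynomial.X

theorem poly_eval₂ {R : Type} [CommRing R] (φ : ℤ →+* R) (n : ℕ) (P : Form) (v : Fin (n + 1) → R) :
    (poly n P).eval₂ φ v = evR n P v := by
  have h := evR_map (MvPolynomial.eval₂Hom φ v) n P MvPolynomial.X
  simp only [MvPolynomial.coe_eval₂Hom, MvPolynomial.eval₂_X] at h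
  exact h

theorem poly_homog (n d : ℕ) (P : Form) (hP : ∀ ce ∈ P, ce.2.length = n + 1 ∧ ce.2.sum = d) :
    (poly n P).IsHomogeneous d := by
  unfold poly
  induction P with
  | nil => rw [evR_nil]; exact MvPolynomial.isHomogeneous_zero _ _ _
  | cons ce P ih =>
    obtain ⟨h1, h2⟩ := hP ce (by simp)
    rw [evR_cons]
    refine MvPolynomial.IsHomogeneous.add ?_ (ih fun x hx => hP x (List.mem_cons_of_mem _ hx))
    have h3 : (∏ i : Fin (n + 1), (MvPolynomial.X i : MvPolynomial (Fin (n + 1)) ℤ) ^
        ce.2.getD (i : ℕ) 0).IsHomogeneous (∑ i : Fin (n + 1), ce.2.getD (i : ℕ) 0) :=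
      MvPolynomial.IsHomogeneous.prod _ _ _ fun i _ => MvPolynomial.isHomogeneous_X_pow i _
    rw [fin_getD_sum n _ h1, h2] at h3
    have h4 : ((ce.1 : ℤ) : MvPolynomial (Fin (n + 1)) ℤ) = MvPolynomial.C ce.1 := by simp
    rw [h4]
    have h5 := (MvPolynomial.isHomogeneous_C (Fin (n + 1)) ce.1).mul h3
    rwa [zero_add] at h5

private theorem set_getD (e : List ℕ) (k x i : ℕ) (hk : k < e.length) :
    (e.set k x).getD i 0 = if i = k then x else e.getD i 0 := by
  rw [List.getD_eq_getElem?_getD, List.getD_eq_getElem?_getD, List.getElem?_set]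
  by_cases h : k = i
  · subst h
    simp [hk]
  · rw [if_neg h, if_neg (fun h' => h h'.symm)]

/-- formal derivatives -/
theorem poly_der (n k : ℕ) (hk : k < n + 1) (P : Form) (hP : ∀ ce ∈ P, ce.2.length = n + 1) :
    MvPolynomial.pderiv (⟨k, hk⟩ : Fin (n + 1)) (poly n P) = poly n (der k P) := by
  unfold poly
  induction P with
  | nil => simp [evR_nil, der]
  | cons ce P ih =>
    have h1 := hP ce (by simp)
    have h2 : der k (ce :: P) = (ce.1 * (ce.2.getD k 0 : ℤ), ce.2.set k (ce.2.getD k 0 - 1)) :: der k P :=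
      rfl
    rw [h2, evR_cons, evR_cons, map_add, ih fun x hx => hP x (List.mem_cons_of_mem _ hx)]
    congr 1
    have h4 : ((ce.1 : ℤ) : MvPolynomial (Fin (n + 1)) ℤ) = MvPolynomial.C ce.1 := by simp
    rw [h4, MvPolynomial.pderiv_C_mul]
    have h5 : ∏ i : Fin (n + 1), (MvPolynomial.X i : MvPolynomial (Fin (n + 1)) ℤ) ^
        ce.2.getD (i : ℕ) 0 = MvPolynomial.X ⟨k, hk⟩ ^ ce.2.getD k 0 *
          ∏ i ∈ Finset.univ.erase (⟨k, hk⟩ : Fin (n + 1)),
            (MvPolynomial.X i : MvPolynomial (Fin (n + 1)) ℤ) ^ ce.2.getD (i : ℕ) 0 :=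
      (Finset.mul_prod_erase _ _ (Finset.mem_univ _)).symm
    have h6 : ∏ i : Fin (n + 1), (MvPolynomial.X i : MvPolynomial (Fin (n + 1)) ℤ) ^
        (ce.2.set k (ce.2.getD k 0 - 1)).getD (i : ℕ) 0 =
          MvPolynomial.X ⟨k, hk⟩ ^ (ce.2.getD k 0 - 1) *
          ∏ i ∈ Finset.univ.erase (⟨k, hk⟩ : Fin (n + 1)),
            (MvPolynomial.X i : MvPolynomial (Fin (n + 1)) ℤ) ^ ce.2.getD (i : ℕ) 0 := by
      rw [← Finset.mul_prod_erase _ _ (Finset.mem_univ (⟨k, hk⟩ : Fin (n + 1)))]
      congr 1
      · rw [set_getD _ _ _ _ (by omega), if_pos rfl]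
      · refine Finset.prod_congr rfl fun i hi => ?_
        rw [set_getD _ _ _ _ (by omega), if_neg]
        intro h
        exact (Finset.mem_erase.1 hi).1 (Fin.ext h)
    rw [h5, h6]
    have h7 : MvPolynomial.pderiv (⟨k, hk⟩ : Fin (n + 1))
        (∏ i ∈ Finset.univ.erase (⟨k, hk⟩ : Fin (n + 1)),
            (MvPolynomial.X i : MvPolynomial (Fin (n + 1)) ℤ) ^ ce.2.getD (i : ℕ) 0) = 0 := by
      have : ∀ s : Finset (Fin (n + 1)), (⟨k, hk⟩ : Fin (n + 1)) ∉ s →
          MvPolynomial.pderiv (⟨k, hk⟩ : Fin (n + 1))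
            (∏ i ∈ s, (MvPolynomial.X i : MvPolynomial (Fin (n + 1)) ℤ) ^ ce.2.getD (i : ℕ) 0) = 0 := by
        intro s
        induction s using Finset.induction_on with
        | empty => intro _; simp
        | insert a s ha ih2 =>
          intro hs
          rw [Finset.mem_insert, not_or] at hs
          rw [Finset.prod_insert ha, Derivation.leibniz, ih2 hs.2, Derivation.leibniz_pow,
            MvPolynomial.pderiv_X_of_ne (Ne.symm hs.1)]
          simp
      exact this _ (Finset.notMem_erase _ _)
    rw [Derivation.leibniz, h7, Derivation.leibniz_pow, MvPolynomial.pderiv_X_self]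
    push_cast
    simp only [smul_eq_mul, mul_zero, zero_add, mul_one, nsmul_eq_mul, eq_intCast]
    ring

/-! ### points of projective space -/

private theorem rep_mk {n : ℕ} (v : Fin (n + 1) → ℂ) (hv : v ≠ 0) :
    ∃ c : ℂ, c ≠ 0 ∧ (Projectivization.mk ℂ v hv).rep = fun i => c * v i := by
  have h := Projectivization.mk_rep (Projectivization.mk ℂ v hv)
  obtain ⟨a, ha⟩ := (Projectivization.mk_eq_mk_iff ℂ _ _ (Projectivization.rep_nonzero _) hv).1 h
  refine ⟨a, a.ne_zero, ?_⟩
  rw [← ha]
  rfl

theorem vanishAt_mk (n : ℕ) (P : Form) (hP : IsForm n P) (v : Fin (n + 1) → ℂ) (hv : v ≠ 0) :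
    VanishAt n P (Projectivization.mk ℂ v hv) ↔ evalC n P v = 0 := by
  obtain ⟨c, hc, h⟩ := rep_mk v hv
  obtain ⟨d, hd⟩ := hP
  unfold VanishAt
  rw [h, ← evR_C, ← evR_C, evR_smul n d P hd]
  simp [hc]

theorem mk_mem_Lam (n s : ℕ) (v : Fin (n + 1) → ℂ) (hv : v ≠ 0) :
    Projectivization.mk ℂ v hv ∈ Lam n s ↔ ∀ i : Fin (n + 1), (i : ℕ) < s → v i = 0 := by
  obtain ⟨c, hc, h⟩ := rep_mk v hv
  unfold Lam
  rw [Set.mem_ofPred_eq, h]
  simp [hc]

theorem mk_mem_Locus (n : ℕ) (L : List Form) (hL : ∀ P ∈ L, IsForm n P) (v : Fin (n + 1) → ℂ)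
    (hv : v ≠ 0) : Projectivization.mk ℂ v hv ∈ Locus n L ↔ ∀ P ∈ L, evalC n P v = 0 := by
  unfold Locus
  rw [Set.mem_ofPred_eq]
  exact forall₂_congr fun P hP => vanishAt_mk n P (hL P hP) v hv

end Pool.Agent.Work.MP_90e0ad_ag.Hs
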