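import Pool.Agent.Work.MP_90e0ad_ag.Hs.CertSound
import Pool.Agent.Work.MP_90e0ad_ag.Limit

/-!
MP_90e0ad_ag/Hs, module CertComplete (size M). Completeness of the certificate for smoothness.

Let S := {v | all ‖v_i‖ <= 2, some ‖v_i‖ >= 1, v_i = 0 for i < s} (compact). On S the continuous
function max_{s <= k <= m} ‖evalC m (der k f) v‖ (or the sum over these k of the squares) is positive,
hence >= c > 0 (IsCompact.exists_isMinOn; if S is empty, i.e. s > m, the certificate holds vacuously,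
since the coordinate equal to ±q is nonzero). Let W be the maximum (or the sum over k <= m) of wt (der k f).
For q = 2^K large enough (2^K > 2 W / c', c' the resulting lower bound for one k; with sums of squares:
some k has ‖..‖² >= c / (m + 1)) the certificate holds: given w with the two premises put
u_i := val (gvec K w i) (coordinates in [-q, q], some coordinate ±q), v := u / q ∈ S. So for some k
‖evalC m (der k f) v‖ >= c' > 2 W / q, and nsq(evalG ..) = ‖evalC m (der k f) u‖² =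
(q^(d-1) ‖evalC m (der k f) v‖)² (der_smul, val_evalG, norm_val_sq). Multiply out.
-/

namespace Pool.Agent.Work.MP_90e0ad_ag.Hs

open Pool.Agent.Work.MP_90e0ad_ag

private theorem dig_le (K w i : ℕ) : dig (2 * 2 ^ K + 1) w i ≤ 2 * 2 ^ K := by
  have : dig (2 * 2 ^ K + 1) w i < 2 * 2 ^ K + 1 := Nat.mod_lt _ (by omega)
  omega

private theorem coord_abs (K a : ℕ) (ha : a ≤ 2 * 2 ^ K) : |((a : ℝ) - 2 ^ K) / 2 ^ K| ≤ 1 := by
  have h0 : (0 : ℝ) < 2 ^ K := by positivity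
  rw [abs_div, abs_of_pos h0, div_le_one h0, abs_le]
  have h1 : (a : ℝ) ≤ 2 * 2 ^ K := by exact_mod_cast ha
  have h2 : (0 : ℝ) ≤ a := Nat.cast_nonneg a
  constructor <;> linarith

private theorem coord_one (K a : ℕ) (ha : a = 0 ∨ a = 2 * 2 ^ K) :
    |((a : ℝ) - 2 ^ K) / 2 ^ K| = 1 := by
  have h0 : (0 : ℝ) < 2 ^ K := by positivity
  rcases ha with rfl | rfl
  · rw [Nat.cast_zero, zero_sub, neg_div, div_self h0.ne', abs_neg, abs_one]
  · push_cast
    rw [show (2 : ℝ) * 2 ^ K - 2 ^ K = 2 ^ K by ring, div_self h0.ne', abs_one]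

private theorem re_aux (a b : ℝ) : ((a : ℂ) + (b : ℂ) * Complex.I).re = a := by simp

private theorem im_aux (a b : ℝ) : ((a : ℂ) + (b : ℂ) * Complex.I).im = b := by simp

private theorem gpt_re (K w : ℕ) {m : ℕ} (i : Fin (m + 1)) :
    (gpt K w i : ℂ).re = ((dig (2 * 2 ^ K + 1) w (2 * i) : ℝ) - 2 ^ K) / 2 ^ K := by
  rw [gpt_eq]
  have : (((dig (2 * 2 ^ K + 1) w (2 * i) : ℂ) - 2 ^ K) +
      ((dig (2 * 2 ^ K + 1) w (2 * i + 1) : ℂ) - 2 ^ K) * Complex.I) / 2 ^ K =
      ((((dig (2 * 2 ^ K + 1) w (2 * i) : ℝ) - 2 ^ K) / 2 ^ K : ℝ) : ℂ) +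
        ((((dig (2 * 2 ^ K + 1) w (2 * i + 1) : ℝ) - 2 ^ K) / 2 ^ K : ℝ) : ℂ) * Complex.I := by
    push_cast
    ring
  rw [this, re_aux]

private theorem gpt_im (K w : ℕ) {m : ℕ} (i : Fin (m + 1)) :
    (gpt K w i : ℂ).im = ((dig (2 * 2 ^ K + 1) w (2 * i + 1) : ℝ) - 2 ^ K) / 2 ^ K := by
  rw [gpt_eq]
  have : (((dig (2 * 2 ^ K + 1) w (2 * i) : ℂ) - 2 ^ K) +
      ((dig (2 * 2 ^ K + 1) w (2 * i + 1) : ℂ) - 2 ^ K) * Complex.I) / 2 ^ K =
      ((((dig (2 * 2 ^ K + 1) w (2 * i) : ℝ) - 2 ^ K) / 2 ^ K : ℝ) : ℂ) +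
        ((((dig (2 * 2 ^ K + 1) w (2 * i + 1) : ℝ) - 2 ^ K) / 2 ^ K : ℝ) : ℂ) * Complex.I := by
    push_cast
    ring
  rw [this, im_aux]

theorem cert_complete (m s d : ℕ) (f : Form) (hf : HasDeg m d f) (hd : d = deg0 f)
    (h : SmoothAlong m s f) : ∃ K₀ : ℕ, ∀ K ≥ K₀, Cert m s f K := by
  set S : Set (Fin (m + 1) → ℂ) :=
    {v | (∀ i, ‖v i‖ ≤ 2) ∧ (∃ i, 1 ≤ ‖v i‖) ∧ ∀ i : Fin (m + 1), (i : ℕ) < s → v i = 0} with hS
  set φ : (Fin (m + 1) → ℂ) → ℝ := fun v =>
    ∑ k : Fin (m + 1), if s ≤ (k : ℕ) then ‖evalC m (der k f) v‖ else 0 with hφ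
  have hφc : Continuous φ := by
    rw [hφ]
    refine continuous_finsetSum _ fun k _ => ?_
    split_ifs
    · exact (limit_evalC_cont m (der k f)).norm
    · exact continuous_const
  have hScl : IsClosed S := by
    have h1 : IsClosed {v : Fin (m + 1) → ℂ | ∀ i, ‖v i‖ ≤ 2} := by
      have : {v : Fin (m + 1) → ℂ | ∀ i, ‖v i‖ ≤ 2} = ⋂ i, {v | ‖v i‖ ≤ 2} := by
        ext v; simp
      rw [this]
      exact isClosed_iInter fun i => isClosed_le (continuous_apply i).norm continuous_const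
    have h2 : IsClosed {v : Fin (m + 1) → ℂ | ∃ i, 1 ≤ ‖v i‖} := by
      have : {v : Fin (m + 1) → ℂ | ∃ i, 1 ≤ ‖v i‖} = ⋃ i, {v | 1 ≤ ‖v i‖} := by
        ext v; simp
      rw [this]
      exact isClosed_iUnion_of_finite fun i => isClosed_le continuous_const (continuous_apply i).norm
    have h3 : IsClosed {v : Fin (m + 1) → ℂ | ∀ i : Fin (m + 1), (i : ℕ) < s → v i = 0} := by
      have : {v : Fin (m + 1) → ℂ | ∀ i : Fin (m + 1), (i : ℕ) < s → v i = 0} =
          ⋂ i : Fin (m + 1), ⋂ _ : (i : ℕ) < s, {v | v i = 0} := by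
        ext v; simp
      rw [this]
      exact isClosed_iInter fun i => isClosed_iInter fun _ =>
        isClosed_eq (continuous_apply i) continuous_const
    exact h1.inter (h2.inter h3)
  have hSb : S ⊆ Metric.closedBall 0 2 := by
    intro v hv
    rw [mem_closedBall_zero_iff, pi_norm_le_iff_of_nonneg (by norm_num)]
    exact hv.1
  have hSc : IsCompact S := (isCompact_closedBall _ _).of_isClosed_subset hScl hSb
  have hpos : ∀ v ∈ S, 0 < φ v := by
    rintro v ⟨-, ⟨i, hi⟩, h3⟩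
    have hv : v ≠ 0 := by
      intro h0
      rw [h0] at hi
      simp at hi
      linarith
    obtain ⟨k, hk, hne⟩ := h v hv h3
    refine Finset.sum_pos' (fun j _ => ?_) ⟨k, Finset.mem_univ _, ?_⟩
    · split_ifs
      · exact norm_nonneg _
      · exact le_rfl
    · rw [if_pos hk]
      exact norm_pos_iff.2 hne
  obtain ⟨c, hc0, hc⟩ : ∃ c > 0, ∀ v ∈ S, c ≤ φ v := by
    rcases S.eq_empty_or_nonempty with h0 | h0
    · exact ⟨1, one_pos, fun v hv => by rw [h0] at hv; exact absurd hv (Set.notMem_empty v)⟩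
    · obtain ⟨v₀, hv₀, hmin⟩ := hSc.exists_isMinOn h0 hφc.continuousOn
      exact ⟨φ v₀, hpos v₀ hv₀, fun v hv => hmin hv⟩
  set W : ℝ := ∑ k : Fin (m + 1), (wt (der k f) : ℝ) with hW
  obtain ⟨K₀, hK₀⟩ := pow_unbounded_of_one_lt (2 * W / c) (one_lt_two : (1 : ℝ) < 2)
  refine ⟨K₀, fun K hK w _ hz hone => ?_⟩
  set v : Fin (m + 1) → ℂ := gpt K w with hv
  have hvS : v ∈ S := by
    refine ⟨fun i => ?_, ?_, fun i hi => ?_⟩
    · refine (Complex.norm_le_abs_re_add_abs_im _).trans ?_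
      rw [hv, gpt_re, gpt_im]
      have h1 := coord_abs K _ (dig_le K w (2 * i))
      have h2 := coord_abs K _ (dig_le K w (2 * i + 1))
      linarith
    · obtain ⟨i, hi, h1⟩ := hone
      refine ⟨⟨i, hi⟩, ?_⟩
      rcases h1 with h1 | h1
      · have h2 := coord_one K _ h1
        rw [← h2]
        have h3 := Complex.abs_re_le_norm (v ⟨i, hi⟩)
        rw [hv, gpt_re] at h3
        exact h3
      · have h2 := coord_one K _ h1
        rw [← h2]
        have h3 := Complex.abs_im_le_norm (v ⟨i, hi⟩)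
        rw [hv, gpt_im] at h3
        exact h3
    · have h1 := hz i i.2 hi
      have h2 := norm_val_sq (gvec K w i)
      rw [h1] at h2
      have h3 : val (gvec K w i) = 0 := by
        have : ‖val (gvec K w i)‖ ^ 2 = 0 := by rw [h2]; simp
        exact norm_eq_zero.1 (pow_eq_zero_iff (two_ne_zero)|>.1 this)
      rw [hv]
      unfold gpt
      rw [h3, zero_div]
  by_contra hcon
  push Not at hcon
  have h1 : ∀ k : Fin (m + 1), 2 ^ K * (if s ≤ (k : ℕ) then ‖evalC m (der k f) v‖ else 0) ≤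
      2 * (wt (der k f) : ℝ) := by
    intro k
    split_ifs with hk
    · have h2 := hcon k k.2 hk
      rw [← hd, ← not_lt, cert_ineq m d k K w k.2 f hf] at h2
      exact not_lt.1 h2
    · rw [mul_zero]
      positivity
  have h2 : 2 ^ K * φ v ≤ 2 * W := by
    rw [hφ, hW, Finset.mul_sum, Finset.mul_sum]
    exact Finset.sum_le_sum fun k _ => h1 k
  have h3 : (2 : ℝ) ^ K₀ ≤ 2 ^ K := pow_le_pow_right₀ one_le_two hK
  have h4 : 2 * W < 2 ^ K₀ * c := by
    rwa [div_lt_iff₀ hc0] at hK₀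
  have h5 : (2 : ℝ) ^ K₀ * c ≤ 2 ^ K * φ v :=
    mul_le_mul h3 (hc v hvS) hc0.le (by positivity)
  linarith

end Pool.Agent.Work.MP_90e0ad_ag.Hs
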