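import Pool.Agent.Work.MP_90e0ad_ag.Hs.Forms
import Pool.Agent.Work.MP_90e0ad_ag.FormEst
import Pool.Agent.Work.MP_e97a4d_nt.Hyp.Smooth

/-!
MP_90e0ad_ag/Hs, module CertSound (size M). Soundness of the certificate for smoothness.

Let v ≠ 0 with v_i = 0 for i < s. All partial derivatives are homogeneous (der_smul below), so we may
scale v by a positive real number such that the maximum of all |Re v_i|, |Im v_i| is 1
(Finset.exists_max_image / Finset.sup'). Put q := 2^K and let u_i be the Gaussian integer with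
coordinates trunc(q Re v_i), trunc(q Im v_i) (rounding towards 0: sign times floor of the absolute
value, or Int.floor for nonnegative and Int.ceil for negative numbers), so |u_i| coordinates are <= q,
some coordinate is exactly ±q, u_i = 0 if v_i = 0, and |u_i/q - v_i| <= 2/q. Encode: digits
Re u_i + q, Im u_i + q in [0, 2q] in base B = 2q+1; w := Σ digits B^position < B^(2(m+1))
(use Nat.ofDigits or the function ofD of Fun with digs_ofD, ofD_lt; dig B w i is the i-th digit), so
val (gvec K w i) = u_i (val of ((x, q), (y, q)) is (x - q) + (y - q) i, nsq = |val|², norm_val_sq).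
The certificate gives k >= s with 4 wt² 4^(K (d-1)) < 4^K nsq(evalG ..), and nsq(evalG m g (gvec K w)) =
‖evalC m g u‖² (val_evalG, norm_val_sq) = q^(2(d-1)) ‖evalC m g (u/q)‖² for g := der k f (der_smul).
So 2 wt(g)/q < ‖evalC m g (u/q)‖. By evalC_sub_le (FormEst, all coordinates have norm <= 2, δ = 2/q)
‖evalC m g v - evalC m g (u/q)‖ <= wt(g) 2/q. Hence evalC m g v ≠ 0.
(If d = 0 all derivatives vanish identically and the certificate is impossible; the exponent K (d-1) is
then 0 and der_smul with d - 1 = 0 is still true.)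
-/

namespace Pool.Agent.Work.MP_90e0ad_ag.Hs

open Pool.Agent.Work.MP_90e0ad_ag

/-- homogeneity of the partial derivatives -/
theorem der_smul (m d k : ℕ) (hk : k < m + 1) (f : Form) (hf : HasDeg m d f) (c : ℂ)
    (v : Fin (m + 1) → ℂ) :
    evalC m (der k f) (fun i => c * v i) = c ^ (d - 1) * evalC m (der k f) v := by
  have h1 := poly_der m k hk f (fun ce hce => (hf ce hce).1)
  have h2 : (poly m (der k f)).IsHomogeneous (d - 1) := by
    rw [← h1]
    exact (poly_homog m d f hf).pderiv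
  have h3 := Pool.Agent.Work.MP_e97a4d_nt.Hyp.smooth_eval₂_smul (poly m (der k f)) (d - 1) h2
    (Int.castRingHom ℂ) c v
  rw [poly_eval₂, poly_eval₂, evR_C, evR_C] at h3
  exact h3

/-- the scaled Gaussian vector -/
noncomputable def gpt (K w : ℕ) {m : ℕ} (i : Fin (m + 1)) : ℂ := val (gvec K w i) / 2 ^ K

theorem gpt_eq (K w : ℕ) {m : ℕ} (i : Fin (m + 1)) : (gpt K w i : ℂ) =
    (((dig (2 * 2 ^ K + 1) w (2 * i) : ℂ) - 2 ^ K) +
      ((dig (2 * 2 ^ K + 1) w (2 * i + 1) : ℂ) - 2 ^ K) * Complex.I) / 2 ^ K := by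
  unfold gpt val gvec
  simp only
  push_cast
  ring

theorem cert_ineq (m d k K w : ℕ) (hk : k < m + 1) (f : Form) (hf : HasDeg m d f) :
    4 * wt (der k f) ^ 2 * 4 ^ (K * (d - 1)) < 4 ^ K * nsq (evalG m (der k f) (gvec K w)) ↔
      2 * (wt (der k f) : ℝ) < 2 ^ K * ‖evalC m (der k f) (gpt K w)‖ := by
  have h1 : ((nsq (evalG m (der k f) (gvec K w)) : ℕ) : ℝ) =
      (4 : ℝ) ^ (K * (d - 1)) * ‖evalC m (der k f) (gpt K w)‖ ^ 2 := by
    rw [← norm_val_sq, val_evalG]
    have h2 : (fun i : Fin (m + 1) => val (gvec K w i)) = fun i => (2 : ℂ) ^ K * gpt K w i := by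
      funext i
      unfold gpt
      field_simp
    rw [h2, der_smul m d k hk f hf, norm_mul, mul_pow, norm_pow, norm_pow]
    congr 1
    simp only [Complex.norm_ofNat]
    rw [← pow_mul, ← pow_mul, show (4 : ℝ) = 2 ^ 2 by norm_num, ← pow_mul]
    congr 1
    ring
  have h4 : (0 : ℝ) < 4 ^ (K * (d - 1)) := by positivity
  have h5 : (4 * wt (der k f) ^ 2 * 4 ^ (K * (d - 1)) < 4 ^ K * nsq (evalG m (der k f) (gvec K w))) ↔
      (4 * (wt (der k f) : ℝ) ^ 2 * 4 ^ (K * (d - 1)) <
        4 ^ K * ((nsq (evalG m (der k f) (gvec K w)) : ℕ) : ℝ)) := by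
    exact_mod_cast Iff.rfl
  rw [h5, h1]
  have h6 : (4 : ℝ) ^ K * (4 ^ (K * (d - 1)) * ‖evalC m (der k f) (gpt K w)‖ ^ 2) =
      (2 ^ K * ‖evalC m (der k f) (gpt K w)‖) ^ 2 * 4 ^ (K * (d - 1)) := by
    rw [show (4 : ℝ) ^ K = (2 ^ K) ^ 2 by rw [← pow_mul, mul_comm, pow_mul]; norm_num]
    ring
  have h7 : 4 * (wt (der k f) : ℝ) ^ 2 * 4 ^ (K * (d - 1)) =
      (2 * (wt (der k f) : ℝ)) ^ 2 * 4 ^ (K * (d - 1)) := by ring
  rw [h6, h7, mul_lt_mul_iff_left₀ h4, sq_lt_sq₀ (by positivity) (by positivity)]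

private theorem round_abs_le (q : ℕ) (x : ℝ) (hx : |x| ≤ 1) : |round ((q : ℝ) * x)| ≤ q := by
  have h1 := abs_sub_round ((q : ℝ) * x)
  have h2 : |(q : ℝ) * x| ≤ q := by
    rw [abs_mul, abs_of_nonneg (Nat.cast_nonneg q)]
    calc (q : ℝ) * |x| ≤ q * 1 := mul_le_mul_of_nonneg_left hx (Nat.cast_nonneg q)
      _ = q := mul_one _
  have h3 : |(round ((q : ℝ) * x) : ℝ)| ≤ q + 1 / 2 := by
    have h4 : (round ((q : ℝ) * x) : ℝ) = (q : ℝ) * x - ((q : ℝ) * x - round ((q : ℝ) * x)) := by ring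
    rw [h4]
    exact (abs_sub _ _).trans (add_le_add h2 h1)
  have h5 : |(round ((q : ℝ) * x) : ℝ)| < q + 1 := by linarith
  have h6 : |round ((q : ℝ) * x)| < (q : ℤ) + 1 := by exact_mod_cast h5
  omega

private theorem round_ends (q : ℕ) (x : ℝ) (hx : |x| = 1) :
    round ((q : ℝ) * x) = q ∨ round ((q : ℝ) * x) = -q := by
  rcases (abs_eq (zero_le_one)).1 hx with h | h
  · left
    rw [h, mul_one]
    exact round_natCast q
  · right
    rw [h]
    have : (q : ℝ) * -1 = ((-(q : ℤ) : ℤ) : ℝ) := by push_cast; ring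
    rw [this, round_intCast]

/-- codes of vectors of Gaussian integers in the box -/
theorem exists_code (m K : ℕ) (A B : ℕ → ℕ) (hA : ∀ i, A i ≤ 2 * 2 ^ K) (hB : ∀ i, B i ≤ 2 * 2 ^ K) :
    ∃ w < (2 * 2 ^ K + 1) ^ (2 * (m + 1)), ∀ i < m + 1,
      dig (2 * 2 ^ K + 1) w (2 * i) = A i ∧ dig (2 * 2 ^ K + 1) w (2 * i + 1) = B i := by
  set b := 2 * 2 ^ K + 1 with hb
  set l : List ℕ := (List.range (2 * (m + 1))).map fun j => if j % 2 = 0 then A (j / 2) else B (j / 2)
    with hl
  have hlen : l.length = 2 * (m + 1) := by rw [hl]; simp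
  have hlt : ∀ x ∈ l, x < b := by
    intro x hx
    obtain ⟨j, -, rfl⟩ := List.mem_map.1 hx
    split_ifs
    · have := hA (j / 2); omega
    · have := hB (j / 2); omega
  have hdig : ∀ j < 2 * (m + 1), dig b (ofD b l) j = if j % 2 = 0 then A (j / 2) else B (j / 2) := by
    intro j hj
    have h1 := digs_ofD b l hlt
    have h2 : (digs b l.length (ofD b l))[j]? = l[j]? := by rw [h1]
    rw [hlen] at h2
    unfold digs at h2
    rw [hl] at h2
    simp only [List.getElem?_map, List.getElem?_range hj, Option.map_some, Option.some.injEq] at h2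
    exact h2
  refine ⟨ofD b l, ?_, fun i hi => ⟨?_, ?_⟩⟩
  · have := ofD_lt b l hlt
    rwa [hlen] at this
  · rw [hdig _ (by omega), if_pos (by omega)]
    congr 1
    omega
  · rw [hdig _ (by omega), if_neg (by omega)]
    congr 1
    omega

theorem cert_sound (m s d K : ℕ) (f : Form) (hf : HasDeg m d f) (hd : d = deg0 f)
    (h : Cert m s f K) : SmoothAlong m s f := by
  intro v hv hvs
  -- scaling
  obtain ⟨i₀, -, hi₀⟩ := Finset.exists_max_image Finset.univ
    (fun i : Fin (m + 1) => max |(v i).re| |(v i).im|) ⟨0, Finset.mem_univ _⟩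
  set μ : ℝ := max |(v i₀).re| |(v i₀).im| with hμ
  have hμ0 : 0 < μ := by
    obtain ⟨j, hj⟩ := Function.ne_iff.1 hv
    have h1 := hi₀ j (Finset.mem_univ _)
    refine lt_of_lt_of_le ?_ h1
    rcases lt_or_eq_of_le (le_max_of_le_left (abs_nonneg (v j).re) :
      0 ≤ max |(v j).re| |(v j).im|) with h2 | h2
    · exact h2
    · exfalso
      apply hj
      have h3 : |(v j).re| ≤ 0 := by rw [h2]; exact le_max_left _ _
      have h4 : |(v j).im| ≤ 0 := by rw [h2]; exact le_max_right _ _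
      exact Complex.ext (abs_eq_zero.1 (le_antisymm h3 (abs_nonneg _)))
        (abs_eq_zero.1 (le_antisymm h4 (abs_nonneg _)))
  set x : Fin (m + 1) → ℂ := fun i => ((μ⁻¹ : ℝ) : ℂ) * v i with hx
  have hxre : ∀ i, (x i).re = μ⁻¹ * (v i).re := fun i => by rw [hx]; simp
  have hxim : ∀ i, (x i).im = μ⁻¹ * (v i).im := fun i => by rw [hx]; simp
  have hre1 : ∀ i, |(x i).re| ≤ 1 := by
    intro i
    rw [hxre, abs_mul, abs_of_pos (inv_pos.2 hμ0), inv_mul_le_iff₀ hμ0, mul_one]
    exact (le_max_left _ _).trans (hi₀ i (Finset.mem_univ _))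
  have him1 : ∀ i, |(x i).im| ≤ 1 := by
    intro i
    rw [hxim, abs_mul, abs_of_pos (inv_pos.2 hμ0), inv_mul_le_iff₀ hμ0, mul_one]
    exact (le_max_right _ _).trans (hi₀ i (Finset.mem_univ _))
  have hmax : |(x i₀).re| = 1 ∨ |(x i₀).im| = 1 := by
    rcases max_choice |(v i₀).re| |(v i₀).im| with h1 | h1
    · left
      rw [hxre, abs_mul, abs_of_pos (inv_pos.2 hμ0), ← h1, ← hμ, inv_mul_cancel₀ hμ0.ne']
    · right
      rw [hxim, abs_mul, abs_of_pos (inv_pos.2 hμ0), ← h1, ← hμ, inv_mul_cancel₀ hμ0.ne']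
  -- rounding
  set q : ℕ := 2 ^ K with hq
  have hq0 : (0 : ℝ) < q := by rw [hq]; positivity
  set ra : ℕ → ℤ := fun i => if hi : i < m + 1 then round ((q : ℝ) * (x ⟨i, hi⟩).re) else 0 with hra
  set rb : ℕ → ℤ := fun i => if hi : i < m + 1 then round ((q : ℝ) * (x ⟨i, hi⟩).im) else 0 with hrb
  have hra1 : ∀ i, |ra i| ≤ q := by
    intro i
    rw [hra]
    simp only
    split_ifs with hi
    · exact round_abs_le q _ (hre1 _)
    · simp
  have hrb1 : ∀ i, |rb i| ≤ q := by
    intro i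
    rw [hrb]
    simp only
    split_ifs with hi
    · exact round_abs_le q _ (him1 _)
    · simp
  obtain ⟨w, hw, hdig⟩ := exists_code m K (fun i => (ra i + q).toNat) (fun i => (rb i + q).toNat)
    (fun i => by have := abs_le.1 (hra1 i); show (ra i + q).toNat ≤ 2 * q; omega)
    (fun i => by have := abs_le.1 (hrb1 i); show (rb i + q).toNat ≤ 2 * q; omega)
  have hcast : ∀ z : ℤ, |z| ≤ q → (((z + q).toNat : ℕ) : ℤ) - q = z := by
    intro z hz
    have := abs_le.1 hz
    omega
  have hgpt : ∀ i : Fin (m + 1), (gpt K w i : ℂ) = ((ra i : ℂ) + (rb i : ℂ) * Complex.I) / q := by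
    intro i
    obtain ⟨h1, h2⟩ := hdig i i.2
    rw [gpt_eq, h1, h2]
    have h3 := congrArg (Int.cast : ℤ → ℂ) (hcast _ (hra1 i))
    have h4 := congrArg (Int.cast : ℤ → ℂ) (hcast _ (hrb1 i))
    push_cast at h3 h4
    have h5 : ((q : ℕ) : ℂ) = 2 ^ K := by rw [hq]; push_cast; rfl
    rw [h5] at h3 h4 ⊢
    rw [h3, h4]
  have hc := h w hw ?_ ?_
  · obtain ⟨k, hk, hsk, hineq⟩ := hc
    rw [← hd, cert_ineq m d k K w hk f hf] at hineq
    refine ⟨⟨k, hk⟩, hsk, ?_⟩
    intro h0
    -- the value at x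
    have h1 : evalC m (der k f) x = 0 := by
      have h2 := der_smul m d k hk f hf ((μ⁻¹ : ℝ) : ℂ) v
      rw [show evalC m (der k f) v = 0 from h0, mul_zero] at h2
      exact h2
    have hxn : ∀ i, ‖x i‖ ≤ 2 := fun i =>
      (Complex.norm_le_abs_re_add_abs_im _).trans (by linarith [hre1 i, him1 i])
    have hre : ∀ i : Fin (m + 1), (gpt K w i : ℂ).re = (ra i : ℝ) / q := by
      intro i
      rw [hgpt i]
      have : ((ra i : ℂ) + (rb i : ℂ) * Complex.I) / (q : ℂ) =
          (((ra i : ℝ) / q : ℝ) : ℂ) + (((rb i : ℝ) / q : ℝ) : ℂ) * Complex.I := by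
        push_cast
        ring
      rw [this]
      simp
    have him : ∀ i : Fin (m + 1), (gpt K w i : ℂ).im = (rb i : ℝ) / q := by
      intro i
      rw [hgpt i]
      have : ((ra i : ℂ) + (rb i : ℂ) * Complex.I) / (q : ℂ) =
          (((ra i : ℝ) / q : ℝ) : ℂ) + (((rb i : ℝ) / q : ℝ) : ℂ) * Complex.I := by
        push_cast
        ring
      rw [this]
      simp
    have hyn : ∀ i : Fin (m + 1), ‖(gpt K w i : ℂ)‖ ≤ 2 := by
      intro i
      refine (Complex.norm_le_abs_re_add_abs_im _).trans ?_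
      rw [hre, him, abs_div, abs_div, abs_of_pos hq0]
      have h3 : |(ra i : ℝ)| ≤ q := by exact_mod_cast hra1 i
      have h4 : |(rb i : ℝ)| ≤ q := by exact_mod_cast hrb1 i
      have h5 : |(ra i : ℝ)| / q ≤ 1 := (div_le_one hq0).2 h3
      have h6 : |(rb i : ℝ)| / q ≤ 1 := (div_le_one hq0).2 h4
      linarith
    have hdist : ∀ i : Fin (m + 1), ‖x i - gpt K w i‖ ≤ 2 / q := by
      intro i
      refine (Complex.norm_le_abs_re_add_abs_im _).trans ?_
      rw [Complex.sub_re, Complex.sub_im, hre, him]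
      have hai : ra i = round ((q : ℝ) * (x i).re) := by
        rw [hra]; simp only [i.2, dif_pos, Fin.eta]
      have hbi : rb i = round ((q : ℝ) * (x i).im) := by
        rw [hrb]; simp only [i.2, dif_pos, Fin.eta]
      have h3 : ∀ y : ℝ, |y - (round ((q : ℝ) * y) : ℝ) / q| ≤ 1 / q := by
        intro y
        have h4 := abs_sub_round ((q : ℝ) * y)
        have h5 : y - (round ((q : ℝ) * y) : ℝ) / q = ((q : ℝ) * y - round ((q : ℝ) * y)) / q := by
          field_simp
        rw [h5, abs_div, abs_of_pos hq0]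
        refine div_le_div_of_nonneg_right ?_ hq0.le
        linarith
      have h6 := h3 (x i).re
      have h7 := h3 (x i).im
      rw [hai, hbi]
      calc _ ≤ 1 / (q : ℝ) + 1 / q := add_le_add h6 h7
        _ = 2 / q := by ring
    have hsub := evalC_sub_le m (der k f) x (gpt K w) (2 / q) hxn hyn hdist
    rw [h1, zero_sub, norm_neg] at hsub
    have h8 : (2 : ℝ) ^ K = q := by rw [hq]; push_cast; rfl
    rw [h8] at hineq
    have h9 : (q : ℝ) * ‖evalC m (der k f) (gpt K w)‖ ≤ q * ((wt (der k f) : ℝ) * (2 / q)) :=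
      mul_le_mul_of_nonneg_left hsub hq0.le
    have h10 : (q : ℝ) * ((wt (der k f) : ℝ) * (2 / q)) = 2 * (wt (der k f) : ℝ) := by
      field_simp
    linarith
  · intro i hi his
    have h1 : x ⟨i, hi⟩ = 0 := by
      rw [hx]
      simp only
      rw [hvs ⟨i, hi⟩ his, mul_zero]
    have h2 : ra i = 0 := by
      rw [hra]
      simp only [hi, dif_pos]
      rw [h1]
      simp
    have h3 : rb i = 0 := by
      rw [hrb]
      simp only [hi, dif_pos]
      rw [h1]
      simp
    obtain ⟨h4, h5⟩ := hdig i hi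
    unfold gvec
    rw [h4, h5, h2, h3]
    have h6 : ((0 : ℤ) + (q : ℤ)).toNat = q := by rw [zero_add, Int.toNat_natCast]
    rw [h6]
    unfold nsq
    simp only [hq]
    simp
  · refine ⟨i₀, i₀.2, ?_⟩
    obtain ⟨h4, h5⟩ := hdig i₀ i₀.2
    rcases hmax with h6 | h6
    · left
      rw [h4]
      have hai : ra i₀ = round ((q : ℝ) * (x i₀).re) := by
        rw [hra]; simp only [i₀.2, dif_pos, Fin.eta]
      rcases round_ends q _ h6 with h7 | h7
      · right
        rw [hai, h7]
        omega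
      · left
        rw [hai, h7]
        omega
    · right
      rw [h5]
      have hbi : rb i₀ = round ((q : ℝ) * (x i₀).im) := by
        rw [hrb]; simp only [i₀.2, dif_pos, Fin.eta]
      rcases round_ends q _ h6 with h7 | h7
      · right
        rw [hbi, h7]
        omega
      · left
        rw [hbi, h7]
        omega

end Pool.Agent.Work.MP_90e0ad_ag.Hs
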