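import Pool.Agent.Work.MP_90e0ad_ag.Hs.ElimX
import Pool.Agent.Work.MP_e97a4d_nt.Hyp.ClaimA

/-!
MP_90e0ad_ag/Hs, module ClaimAX (size S-M). The degeneracy theorem claimA of Hyp/ClaimA.lean with an
explicit bound for the exponent: copy its proof, with M := (e+1)^(n+1) (monomial_count below: the number
of exponent vectors of degree e in n + 1 variables), C := 2 * 5^k (c + c₁) = cElim k .. .. (elimX instead
of elim), n! <= n^n (Nat.factorial_le_pow or induction; n = 0: 1 <= 1), and the hypothesis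
N0x n e k <= N, k = card ι * J, instead of the choice of N₀.
-/

set_option autoImplicit false

noncomputable section

namespace Pool.Agent.Work.MP_90e0ad_ag.Hs

open Pool.Agent.Work.MP_90e0ad_ag Pool.Agent.Work.MP_e97a4d_nt.Hyp

theorem monomial_count (n e : ℕ) (s : Finset (Fin (n + 1) →₀ ℕ)) (hs : ∀ d ∈ s, d.degree = e) :
    s.card ≤ (e + 1) ^ (n + 1) := by
  classical
  have h : s.card ≤ Fintype.card (Fin (n + 1) → Fin (e + 1)) := by
    have hle : ∀ d ∈ s, ∀ i, d i < e + 1 := by
      intro d hd i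
      have h1 := hs d hd
      rw [Finsupp.degree_eq_sum] at h1
      have h2 : d i ≤ ∑ i, d i := Finset.single_le_sum (fun _ _ => Nat.zero_le _) (Finset.mem_univ i)
      omega
    rw [← Fintype.card_coe s]
    refine Fintype.card_le_of_injective
      (fun d : s => fun i => (⟨d.1 i, hle d.1 d.2 i⟩ : Fin (e + 1))) ?_
    intro d d' hdd
    apply Subtype.ext
    apply Finsupp.ext
    intro i
    have := congrFun hdd i
    exact congrArg Fin.val this
  simpa using h

theorem factorial_le_self_pow (n : ℕ) : n.factorial ≤ n ^ n := by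
  exact Nat.factorial_le_pow n

/-- Degeneracy of meromorphic solutions of `∑ a_p G_i(ξ) L_p(ξ) ^ N = 0`, `p = (i, j)`. -/
theorem claimAX (n e J : ℕ) (ι : Type) [Fintype ι] (hJ : (n + 1) ^ 3 + n + 2 ≤ J) (N : ℕ)
    (hN : N0x n e (Fintype.card ι * J) ≤ N)
    (G : ι → MvPolynomial (Fin (n + 1)) ℂ) (hG : ∀ i, (G i).IsHomogeneous e)
    (L : ι × Fin J → Fin (n + 1) → ℂ) (hL : Gen L) (a : ι × Fin J → ℂ) (ha : ∀ p, a p ≠ 0)
    (ξ : Fin (n + 1) → Mero) (hξ : ¬ RatioConst ξ)
    (hrel : ∑ p : ι × Fin J, algebraMap ℂ Mero (a p) * MvPolynomial.aeval ξ (G p.1) *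
      (lin (L p) ξ) ^ N = 0) :
    ∀ i, MvPolynomial.aeval ξ (G i) = 0 := by
  classical
  set M : ℕ := (e + 1) ^ (n + 1) with hMdef
  have hM := monomial_count n e
  set k : ℕ := Fintype.card (ι × Fin J) with hk
  set c : ℝ := M * (2 * e) with hc
  set c₁ : ℝ := ((n + 1 : ℕ) : ℝ) * 2 with hc₁
  have hc0 : 0 ≤ c := by positivity
  have hc10 : 0 ≤ c₁ := by positivity
  set C : ℝ := 2 * 5 ^ k * (c + c₁) with hCdef
  have hC0 : 0 ≤ C := by positivity
  have hkc : k = Fintype.card ι * J := by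
    rw [hk, Fintype.card_prod, Fintype.card_fin]
  have hCN : C = (cElim k (M * (2 * e)) (2 * (n + 1)) : ℕ) := by
    unfold cElim
    rw [hCdef, hc, hc₁]
    push_cast
    ring
  have hNreal : ((n + 1 : ℕ) : ℝ) * (2 * n.factorial * n * C) + 1 ≤ N := by
    have h1 : ((N0x n e (Fintype.card ι * J) : ℕ) : ℝ) ≤ N := by exact_mod_cast hN
    have h2 : ((N0x n e (Fintype.card ι * J) : ℕ) : ℝ) =
        ((n + 1 : ℕ) : ℝ) * (2 * ((n ^ n : ℕ) : ℝ) * n * C) + 1 := by
      unfold N0x
      rw [← hkc, ← hMdef, hCN]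
      push_cast
      ring
    have h3 : (n.factorial : ℝ) ≤ ((n ^ n : ℕ) : ℝ) := by exact_mod_cast factorial_le_self_pow n
    have h4 : ((n + 1 : ℕ) : ℝ) * (2 * n.factorial * n * C) ≤
        ((n + 1 : ℕ) : ℝ) * (2 * ((n ^ n : ℕ) : ℝ) * n * C) := by
      gcongr
    linarith
  have hN0 : 0 < N := by
    have h1 : (0 : ℝ) < N := lt_of_lt_of_le (by positivity) hNreal
    exact_mod_cast h1
  intro i₀
  by_contra hi₀
  have hNR : (0 : ℝ) < N := by exact_mod_cast hN0
  -- scaling
  obtain ⟨l₀, hl₀⟩ : ∃ l, ξ l ≠ 0 := by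
    by_contra hcon
    push Not at hcon
    exact hξ ⟨0, fun _ => 0, fun k => by rw [hcon k, smul_zero]⟩
  set η : Fin (n + 1) → Mero := fun k => (ξ l₀)⁻¹ * ξ k with hη
  have hη1 : η l₀ = 1 := inv_mul_cancel₀ hl₀
  have hηc : ∃ k, η k ∉ Set.range (algebraMap ℂ Mero) := by
    by_contra hcon
    push Not at hcon
    choose b hb using hcon
    refine hξ ⟨ξ l₀, b, fun k => ?_⟩
    rw [Algebra.smul_def, hb k, hη]
    field_simp
  obtain ⟨E, hE, -⟩ := exists_compExp
  obtain ⟨Z⟩ := exists_sizeSys η hηc E hE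
  set ζ : Fin (n + 1) → Mero := fun k => E (η k) with hζ
  have hζ1 : ζ l₀ = 1 := by rw [hζ]; simp only [hη1, map_one]
  have hζG : ∀ i, MvPolynomial.aeval ζ (G i) =
      E ((ξ l₀)⁻¹ ^ e * MvPolynomial.aeval ξ (G i)) := by
    intro i
    rw [hζ, claimA_aeval_map, hη, claimA_aeval_smul e (G i) (hG i)]
  have hζL : ∀ p, lin (L p) ζ = E ((ξ l₀)⁻¹ * lin (L p) ξ) := by
    intro p
    rw [hζ, claimA_lin_map, hη, claimA_lin_smul]
  have hEinj : Function.Injective E := E.toRingHom.injective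
  -- the terms
  set P' : Finset (ι × Fin J) := Finset.univ.filter fun p =>
    MvPolynomial.aeval ζ (G p.1) ≠ 0 ∧ lin (L p) ζ ≠ 0 with hP'
  have hrel' : ∑ p ∈ P', (algebraMap ℂ Mero (a p) * MvPolynomial.aeval ζ (G p.1)) *
      (lin (L p) ζ) ^ N = 0 := by
    have h1 : ∑ p, (algebraMap ℂ Mero (a p) * MvPolynomial.aeval ζ (G p.1)) *
      (lin (L p) ζ) ^ N = E ((ξ l₀)⁻¹ ^ (e + N) * ∑ p : ι × Fin J,
        algebraMap ℂ Mero (a p) * MvPolynomial.aeval ξ (G p.1) * (lin (L p) ξ) ^ N) := by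
      rw [Finset.mul_sum, map_sum]
      refine Finset.sum_congr rfl fun p _ => ?_
      rw [hζG, hζL]
      conv_lhs => rw [← E.commutes (a p)]
      rw [← map_pow, ← map_mul, ← map_mul]
      congr 1
      ring
    rw [hrel, mul_zero, map_zero] at h1
    rw [← h1]
    refine Finset.sum_subset (Finset.filter_subset _ _) ?_
    intro p _ hp
    rw [hP', Finset.mem_filter] at hp
    simp only [Finset.mem_univ, true_and, not_and_or, not_not] at hp
    rcases hp with hp | hp
    · rw [hp, mul_zero, zero_mul]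
    · rw [hp, zero_pow hN0.ne', mul_zero]
  have hmem : ∀ p, p ∈ P' ↔ MvPolynomial.aeval ζ (G p.1) ≠ 0 ∧ lin (L p) ζ ≠ 0 := by
    intro p
    rw [hP', Finset.mem_filter]
    simp
  have hGi : MvPolynomial.aeval ζ (G i₀) ≠ 0 := by
    rw [hζG]
    intro h
    have h2 := (map_eq_zero_iff E hEinj).mp h
    rcases mul_eq_zero.mp h2 with h3 | h3
    · exact pow_ne_zero _ (inv_ne_zero hl₀) h3
    · exact hi₀ h3
  -- many terms
  have hcard : (n + 1) ^ 3 < P'.card := by
    set B : Finset (ι × Fin J) := Finset.univ.filter fun p => lin (L p) ζ = 0 with hB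
    have hBc : B.card ≤ n := by
      refine Gen.card_zero (hL.map (algebraMap ℂ Mero) (algebraMap ℂ Mero).injective) ζ ?_ B ?_
      · intro h
        rw [h] at hζ1
        exact zero_ne_one hζ1
      · intro p hp
        rw [hB, Finset.mem_filter] at hp
        have := hp.2
        unfold lin at this
        simpa only [Algebra.smul_def] using this
    have hsub : (Finset.univ.image fun j : Fin J => (i₀, j)) ⊆ P' ∪ B := by
      intro p hp
      rw [Finset.mem_image] at hp
      obtain ⟨j, -, rfl⟩ := hp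
      rw [Finset.mem_union]
      by_cases h : lin (L (i₀, j)) ζ = 0
      · right; rw [hB, Finset.mem_filter]; exact ⟨Finset.mem_univ _, h⟩
      · left; rw [hmem]; exact ⟨hGi, h⟩
    have h1 := Finset.card_le_card hsub
    rw [Finset.card_image_of_injective _ (fun x y h => (Prod.mk.inj h).2), Finset.card_univ,
      Fintype.card_fin] at h1
    have h2 := Finset.card_union_le P' B
    omega
  set ε : ℝ := C / N with hε
  have hε0 : 0 ≤ ε := by positivity
  have hpart := elimX k c c₁ hc0 hc10 Z N hN0 (ι × Fin J) P' (Finset.card_le_univ _)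
    (fun p => algebraMap ℂ Mero (a p) * MvPolynomial.aeval ζ (G p.1)) (fun p => lin (L p) ζ) 0
    (by
      intro p hp
      rw [hmem] at hp
      refine ⟨mul_ne_zero ?_ hp.1, hp.2, ?_, claimA_sz_lin Z (L p)⟩
      · exact fun h => ha p ((map_eq_zero_iff _ (algebraMap ℂ Mero).injective).mp h)
      · have h5 := Z.mul le_rfl (by positivity) (Z.const 0 (claimA_D_const (a p)))
          (claimA_sz_aeval Z e (G p.1) (hG p.1) M hM)
        rwa [zero_add] at h5) hrel'
  set j₀ := 0 + k with hj₀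
  have hR : ∀ x y, Z.Sz j₀ ε (lin (L x) ζ / lin (L y) ζ) →
      Z.Sz j₀ ε (lin (L y) ζ / lin (L x) ζ) := by
    intro x y h
    rw [← inv_div]
    exact Z.inv hε0 h
  have hA : 2 * Fintype.card (Pair (n + 1)) * (n + 1) < P'.card := by
    have h1 := claimA_card_pair (n + 1)
    refine lt_of_le_of_lt ?_ hcard
    calc 2 * Fintype.card (Pair (n + 1)) * (n + 1) ≤ (n + 1) ^ 2 * (n + 1) :=
          Nat.mul_le_mul_right _ h1
      _ = (n + 1) ^ 3 := by ring
  have hall : ∀ k, Z.Sz j₀ (2 * n.factorial * n * ε) (ζ k) := by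
    rcases comb P' (fun x y => Z.Sz j₀ ε (lin (L x) ζ / lin (L y) ζ)) hR hpart
      (Fintype.card (Pair (n + 1))) n hA with ⟨f, g, hfg, hs⟩ | ⟨v, hv, h, hh, hs⟩
    · set eq := Fintype.equivFin (Pair (n + 1)) with heq
      refine pairs Z L hL l₀ hζ1 (fun s => g (eq s)) (fun s => f (eq s)) ?_ j₀ ε hε0 ?_ ?_
      · intro x y hxy
        rcases x with x | x <;> rcases y with y | y
        · have h1 : g (eq x) = g (eq y) := hxy
          have := @hfg (Sum.inr (eq x)) (Sum.inr (eq y)) h1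
          rw [Sum.inr.injEq, eq.injective.eq_iff] at this
          rw [this]
        · have h1 : g (eq x) = f (eq y) := hxy
          have := @hfg (Sum.inr (eq x)) (Sum.inl (eq y)) h1
          simp at this
        · have h1 : f (eq x) = g (eq y) := hxy
          have := @hfg (Sum.inl (eq x)) (Sum.inr (eq y)) h1
          simp at this
        · have h1 : f (eq x) = f (eq y) := hxy
          have := @hfg (Sum.inl (eq x)) (Sum.inl (eq y)) h1
          rw [Sum.inl.injEq, eq.injective.eq_iff] at this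
          rw [this]
      · intro s
        exact ((hmem _).mp (hs (eq s)).2.1).2
      · intro s
        exact (hs (eq s)).2.2
    · have h1 := star Z L hL l₀ hζ1 v h hh (fun i => (hs i).2.1) j₀ ε hε0 ((hmem v).mp hv).2
        (fun i => (hs i).2.2)
      intro k
      refine Z.mono le_rfl ?_ (h1 k)
      have h2 : (1 : ℝ) ≤ n.factorial := by exact_mod_cast Nat.one_le_iff_ne_zero.mpr n.factorial_ne_zero
      have h3 : 0 ≤ (n : ℝ) * ε := by positivity
      nlinarith
  have hfin := Z.final hall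
  have h5 : ((n + 1 : ℕ) : ℝ) * (2 * n.factorial * n * ε) < 1 := by
    have h6 : ((n + 1 : ℕ) : ℝ) * (2 * n.factorial * n * ε) =
        (((n + 1 : ℕ) : ℝ) * (2 * n.factorial * n * C)) / N := by
      rw [hε]; ring
    rw [h6, div_lt_one hNR]
    linarith
  linarith

end Pool.Agent.Work.MP_90e0ad_ag.Hs
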