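import Pool.Agent.Work.MP_90e0ad_ag.Hs.ClaimAX
import Pool.Agent.Work.MP_e97a4d_nt.Thue.ClaimT

/-!
MP_90e0ad_ag/Hs, module ClaimTX (size S-M). The degeneracy theorem claimT of Thue/ClaimT.lean with an
explicit bound for the exponent: copy its proof (the auxiliary theorems claimT_* can be cited), with
M := (e+1)^(n+1) (monomial_count), C := 2 * 5^k (c₀ + c₁) with k = card (ι × Fin J) + 2 (elimX instead of
elim), n! <= n^n, and the hypothesis N0t n e (card ι * J) <= N instead of the choice of N₀: in the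
notation of that proof B <= BTx and B' <= BTx (1 + k' ((e+1)^(n+1) e + (n+1))), k' = card ι * J.
-/

set_option autoImplicit false

noncomputable section

namespace Pool.Agent.Work.MP_90e0ad_ag.Hs

open Pool.Agent.Work.MP_90e0ad_ag Pool.Agent.Work.MP_e97a4d_nt.Hyp Pool.Agent.Work.MP_e97a4d_nt.Thue

/-- Degeneracy of nonconstant meromorphic solutions of
`c ξ_t ^ (e + N) + ∑ a_p G_i(ξ) L_p(ξ) ^ N = 1`, `p = (i, j)`. -/
theorem claimTX (n e J : ℕ) (ι : Type) [Fintype ι] (hJ : (n + 1) ^ 3 + n + 4 ≤ J) (N : ℕ)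
    (hN : N0t n e (Fintype.card ι * J) ≤ N)
    (G : ι → MvPolynomial (Fin (n + 1)) ℂ) (hG : ∀ i, (G i).IsHomogeneous e)
    (L : ι × Fin J → Fin (n + 1) → ℂ) (hL : Gen L) (a : ι × Fin J → ℂ) (ha : ∀ p, a p ≠ 0)
    (c : ℂ) (t : Fin (n + 1)) (ξ : Fin (n + 1) → Mero)
    (hξ : ∃ k, ξ k ∉ Set.range (algebraMap ℂ Mero))
    (hrel : algebraMap ℂ Mero c * ξ t ^ (e + N) +
      ∑ p : ι × Fin J, algebraMap ℂ Mero (a p) * MvPolynomial.aeval ξ (G p.1) *
        (lin (L p) ξ) ^ N = 1) :
    ∀ i, MvPolynomial.aeval ξ (G i) = 0 := by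
  classical
  set M : ℕ := (e + 1) ^ (n + 1) with hMdef
  have hM := monomial_count n e
  set k : ℕ := Fintype.card (ι × Fin J) + 2 with hk
  set c₀ : ℝ := M * (2 * e) + 2 * e with hc₀
  set c₁ : ℝ := ((n + 1 : ℕ) : ℝ) * 2 with hc₁
  have hc0 : 0 ≤ c₀ := by positivity
  have hc10 : 0 ≤ c₁ := by positivity
  set C : ℝ := 2 * 5 ^ k * (c₀ + c₁) with hCdef
  have hC0 : 0 ≤ C := by positivity
  have hkc : Fintype.card (ι × Fin J) = Fintype.card ι * J := by
    rw [Fintype.card_prod, Fintype.card_fin]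
  have hCN : C = (cElim k (M * (2 * e) + 2 * e) (2 * (n + 1)) : ℕ) := by
    unfold cElim
    rw [hCdef, hc₀, hc₁]
    push_cast
    ring
  -- the constants of the last step
  set B : ℝ := 2 * n.factorial * n * (2 * C) + 2 * n * (2 * C) with hB
  have hB0 : 0 ≤ B := by positivity
  set B' : ℝ := B * (1 + Fintype.card (ι × Fin J) * (M * e + (n + 1 : ℕ))) with hB'
  have hB'0 : 0 ≤ B' := by positivity
  have h3f : (n.factorial : ℝ) ≤ ((n ^ n : ℕ) : ℝ) := by exact_mod_cast factorial_le_self_pow n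
  have hBx : B ≤ ((BTx n e (Fintype.card ι * J) : ℕ) : ℝ) := by
    have h1 : ((BTx n e (Fintype.card ι * J) : ℕ) : ℝ) =
        2 * ((n ^ n : ℕ) : ℝ) * n * (2 * C) + 2 * n * (2 * C) := by
      unfold BTx
      rw [← hkc, ← hk, ← hMdef, hCN]
      push_cast
      ring
    rw [h1, hB]
    gcongr
  have hNreal : ((n + 1 : ℕ) : ℝ) * (B + B') + 1 ≤ N := by
    have h1 : ((N0t n e (Fintype.card ι * J) : ℕ) : ℝ) ≤ N := by exact_mod_cast hN
    have h2 : ((N0t n e (Fintype.card ι * J) : ℕ) : ℝ) =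
        ((n + 1 : ℕ) : ℝ) * (((BTx n e (Fintype.card ι * J) : ℕ) : ℝ) +
          ((BTx n e (Fintype.card ι * J) : ℕ) : ℝ) *
            (1 + Fintype.card (ι × Fin J) * (M * e + (n + 1 : ℕ)))) + 1 := by
      unfold N0t
      rw [← hMdef, hkc]
      push_cast
      ring
    have h4 : ((n + 1 : ℕ) : ℝ) * (B + B') ≤
        ((n + 1 : ℕ) : ℝ) * (((BTx n e (Fintype.card ι * J) : ℕ) : ℝ) +
          ((BTx n e (Fintype.card ι * J) : ℕ) : ℝ) *
            (1 + Fintype.card (ι × Fin J) * (M * e + (n + 1 : ℕ)))) := by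
      rw [hB']
      gcongr
    linarith
  have hN0 : 0 < N := by
    have h1 : (0 : ℝ) < N := lt_of_lt_of_le (by positivity) hNreal
    exact_mod_cast h1
  intro i₀
  by_contra hi₀
  have hNR : (0 : ℝ) < N := by exact_mod_cast hN0
  obtain ⟨E, hE, -⟩ := exists_compExp
  obtain ⟨Z⟩ := exists_sizeSys ξ hξ E hE
  set ζ : Fin (n + 1) → Mero := fun k => E (ξ k) with hζ
  have hEinj : Function.Injective E := E.toRingHom.injective
  have hζG : ∀ i, MvPolynomial.aeval ζ (G i) = E (MvPolynomial.aeval ξ (G i)) := by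
    intro i
    rw [hζ, claimA_aeval_map]
  have hζL : ∀ p, lin (L p) ζ = E (lin (L p) ξ) := by
    intro p
    rw [hζ, claimA_lin_map]
  have hζrel : algebraMap ℂ Mero c * ζ t ^ (e + N) +
      ∑ p : ι × Fin J, algebraMap ℂ Mero (a p) * MvPolynomial.aeval ζ (G p.1) * (lin (L p) ζ) ^ N
        = 1 := by
    have h1 := congrArg E hrel
    rw [map_add, map_one, map_mul, map_pow, map_sum, E.commutes] at h1
    rw [← h1]
    congr 1
    refine Finset.sum_congr rfl fun p _ => ?_
    rw [hζG, hζL, map_mul, map_mul, map_pow, E.commutes]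
  obtain ⟨l₀, hl₀⟩ : ∃ l, ζ l ≠ 0 := by
    by_contra hcon
    push Not at hcon
    obtain ⟨k, hk⟩ := hξ
    apply hk
    have h1 : E (ξ k) = 0 := hcon k
    rw [(map_eq_zero_iff E hEinj).mp h1]
    exact ⟨0, map_zero _⟩
  set η : Fin (n + 1) → Mero := fun k => (ζ l₀)⁻¹ * ζ k with hη
  have hη1 : η l₀ = 1 := inv_mul_cancel₀ hl₀
  have hηζ : ∀ k, ζ k = ζ l₀ * η k := by
    intro k
    rw [hη]
    simp only
    rw [mul_inv_cancel_left₀ hl₀]
  have hηL : ∀ p, lin (L p) η = (ζ l₀)⁻¹ * lin (L p) ζ := fun p => claimA_lin_smul _ _ _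
  -- the terms
  set P' : Finset (ι × Fin J) := Finset.univ.filter fun p =>
    MvPolynomial.aeval ζ (G p.1) ≠ 0 ∧ lin (L p) ζ ≠ 0 with hP'
  have hmem : ∀ p, p ∈ P' ↔ MvPolynomial.aeval ζ (G p.1) ≠ 0 ∧ lin (L p) ζ ≠ 0 := by
    intro p
    rw [hP', Finset.mem_filter]
    simp
  have hGi : MvPolynomial.aeval ζ (G i₀) ≠ 0 := by
    rw [hζG]
    intro h
    exact hi₀ ((map_eq_zero_iff E hEinj).mp h)
  -- many terms
  have hcard : (n + 1) ^ 3 + 2 < P'.card := by
    set Bad : Finset (ι × Fin J) := Finset.univ.filter fun p => lin (L p) ζ = 0 with hBad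
    have hBc : Bad.card ≤ n := by
      refine Gen.card_zero (hL.map (algebraMap ℂ Mero) (algebraMap ℂ Mero).injective) ζ ?_ Bad ?_
      · intro h
        rw [h] at hl₀
        exact hl₀ rfl
      · intro p hp
        rw [hBad, Finset.mem_filter] at hp
        have := hp.2
        unfold lin at this
        simpa only [Algebra.smul_def] using this
    have hsub : (Finset.univ.image fun j : Fin J => (i₀, j)) ⊆ P' ∪ Bad := by
      intro p hp
      rw [Finset.mem_image] at hp
      obtain ⟨j, -, rfl⟩ := hp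
      rw [Finset.mem_union]
      by_cases h : lin (L (i₀, j)) ζ = 0
      · right; rw [hBad, Finset.mem_filter]; exact ⟨Finset.mem_univ _, h⟩
      · left; rw [hmem]; exact ⟨hGi, h⟩
    have h1 := Finset.card_le_card hsub
    rw [Finset.card_image_of_injective _ (fun x y h => (Prod.mk.inj h).2), Finset.card_univ,
      Fintype.card_fin] at h1
    have h2 := Finset.card_union_le P' Bad
    omega
  set ε : ℝ := C / N with hε
  have hε0 : 0 ≤ ε := by positivity
  -- all terms
  set g : (ι × Fin J) ⊕ Fin 2 → Mero := Sum.elim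
    (fun p => algebraMap ℂ Mero (a p) * MvPolynomial.aeval ζ (G p.1))
    (fun b => if b = 0 then algebraMap ℂ Mero c * ζ t ^ e else -1) with hg
  set lam : (ι × Fin J) ⊕ Fin 2 → Mero := Sum.elim (fun p => lin (L p) ζ)
    (fun b => if b = 0 then ζ t else 1) with hlam
  set Q : Finset ((ι × Fin J) ⊕ Fin 2) := Finset.univ.filter fun q => g q ≠ 0 ∧ lam q ≠ 0 with hQ
  have hmemQ : ∀ q, q ∈ Q ↔ g q ≠ 0 ∧ lam q ≠ 0 := by
    intro q
    rw [hQ, Finset.mem_filter]
    simp
  have haM : ∀ p, algebraMap ℂ Mero (a p) ≠ 0 := fun p h =>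
    ha p ((map_eq_zero_iff _ (algebraMap ℂ Mero).injective).mp h)
  have hinl : ∀ p, Sum.inl p ∈ Q ↔ p ∈ P' := by
    intro p
    rw [hmemQ, hmem]
    show algebraMap ℂ Mero (a p) * MvPolynomial.aeval ζ (G p.1) ≠ 0 ∧ lin (L p) ζ ≠ 0 ↔ _
    rw [mul_ne_zero_iff]
    exact ⟨fun h => ⟨h.1.2, h.2⟩, fun h => ⟨⟨haM p, h.1⟩, h.2⟩⟩
  have hrelQ : ∑ q ∈ Q, g q * lam q ^ N = 0 := by
    have h1 : ∑ q, g q * lam q ^ N = 0 := by
      rw [Fintype.sum_sum_type, Fin.sum_univ_two]
      simp only [hg, hlam, Sum.elim_inl, Sum.elim_inr, if_true, one_ne_zero, if_false, one_pow,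
        mul_one, Fin.isValue]
      rw [← sub_eq_zero] at hζrel
      rw [← hζrel]
      ring
    rw [← h1]
    refine Finset.sum_subset (Finset.filter_subset _ _) ?_
    intro q _ hq
    rw [hmemQ, not_and_or, not_not, not_not] at hq
    rcases hq with hq | hq
    · rw [hq, zero_mul]
    · rw [hq, zero_pow hN0.ne', mul_zero]
  have hQcard : Q.card ≤ k := by
    refine (Finset.card_le_univ Q).trans (le_of_eq ?_)
    rw [Fintype.card_sum, Fintype.card_fin]
  have hpart := elimX k c₀ c₁ hc0 hc10 Z N hN0 ((ι × Fin J) ⊕ Fin 2) Q hQcard g lam 0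
    (by
      intro q hq
      rw [hmemQ] at hq
      refine ⟨hq.1, hq.2, ?_, ?_⟩
      · rcases q with p | b
        · have h5 := Z.mul le_rfl (by positivity) (Z.const 0 (claimA_D_const (a p)))
            (claimA_sz_aeval Z e (G p.1) (hG p.1) M hM)
          rw [zero_add] at h5
          refine Z.mono le_rfl ?_ h5
          rw [hc₀]
          have : (0 : ℝ) ≤ 2 * e := by positivity
          linarith
        · by_cases hb : b = 0
          · have h5 := Z.mul le_rfl (by positivity) (Z.const 0 (claimA_D_const c))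
              (claimA_sz_pow Z (ζ t) 0 2 (by norm_num) (Z.base t) e)
            rw [zero_add] at h5
            have h6 : g (Sum.inr b) = algebraMap ℂ Mero c * ζ t ^ e := by
              rw [hg]
              simp [hb]
            rw [h6]
            refine Z.mono le_rfl ?_ h5
            rw [hc₀]
            have : (0 : ℝ) ≤ M * (2 * e) := by positivity
            linarith
          · have h6 : g (Sum.inr b) = algebraMap ℂ Mero (-1) := by
              rw [hg]
              simp [hb]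
            rw [h6]
            exact claimT_sz_const Z 0 hc0 (-1)
      · rcases q with p | b
        · exact claimA_sz_lin Z (L p)
        · by_cases hb : b = 0
          · have h6 : lam (Sum.inr b) = ζ t := by
              rw [hlam]
              simp [hb]
            rw [h6]
            refine Z.mono le_rfl ?_ (Z.base t)
            rw [hc₁]
            push_cast
            have : (0 : ℝ) ≤ n := by positivity
            linarith
          · have h6 : lam (Sum.inr b) = algebraMap ℂ Mero 1 := by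
              rw [hlam, map_one]
              simp [hb]
            rw [h6]
            exact claimT_sz_const Z 0 hc10 1) hrelQ
  set j₀ := 0 + k with hj₀
  -- the relation
  set R : (ι × Fin J) ⊕ Fin 2 → (ι × Fin J) ⊕ Fin 2 → Prop :=
    fun x y => Z.Sz j₀ ε (lam x / lam y) with hRdef
  set R' : ι × Fin J → ι × Fin J → Prop :=
    fun x y => Z.Sz j₀ (2 * ε) (lin (L x) η / lin (L y) η) with hR'def
  have hratio : ∀ x y, lin (L x) η / lin (L y) η = lin (L x) ζ / lin (L y) ζ := by
    intro x y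
    rw [hηL, hηL, mul_div_mul_left _ _ (inv_ne_zero hl₀)]
  have hR' : ∀ x y, R' x y → R' y x := by
    intro x y h
    show Z.Sz j₀ (2 * ε) _
    rw [← inv_div]
    exact Z.inv (by positivity) h
  have h1 : ∀ p p' : ι × Fin J, R (Sum.inl p) (Sum.inl p') → R' p p' := by
    intro p p' h
    show Z.Sz j₀ (2 * ε) _
    rw [hratio]
    exact Z.mono le_rfl (by linarith) h
  have h2 : ∀ (p p' : ι × Fin J) (b : Fin 2), Sum.inr b ∈ Q → R (Sum.inl p) (Sum.inr b) →
      R (Sum.inl p') (Sum.inr b) → R' p p' := by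
    intro p p' b hb hp hp'
    show Z.Sz j₀ (2 * ε) _
    rw [hratio]
    have hb' := ((hmemQ _).1 hb).2
    have h3 : Z.Sz j₀ ε (lin (L p) ζ / lam (Sum.inr b)) := hp
    have h4 : Z.Sz j₀ ε (lam (Sum.inr b) / lin (L p') ζ) := by
      rw [← inv_div]
      exact Z.inv hε0 hp'
    have h5 := Z.mul hε0 hε0 h3 h4
    rw [div_mul_div_cancel₀ hb'] at h5
    refine Z.mono le_rfl (by linarith) h5
  obtain ⟨P₀, hP₀sub, hP₀card, hP₀⟩ := partner P' Q (fun p hp => (hinl p).1 hp) R R' h1 h2
    (fun p hp => hpart (Sum.inl p) ((hinl p).2 hp))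
  have hA : 2 * Fintype.card (Pair (n + 1)) * (n + 1) < P₀.card := by
    have h1 := claimA_card_pair (n + 1)
    have h3 : (n + 1) ^ 3 < P₀.card := by omega
    refine lt_of_le_of_lt ?_ h3
    calc 2 * Fintype.card (Pair (n + 1)) * (n + 1) ≤ (n + 1) ^ 2 * (n + 1) :=
          Nat.mul_le_mul_right _ h1
      _ = (n + 1) ^ 3 := by ring
  have hlinη : ∀ p ∈ P', lin (L p) η ≠ 0 := by
    intro p hp
    rw [hηL]
    exact mul_ne_zero (inv_ne_zero hl₀) ((hmem p).1 hp).2
  set δ : ℝ := B / N with hδ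
  have hδ0 : 0 ≤ δ := by positivity
  have hall : ∀ k, Z.Sz j₀ δ (η k) := by
    rcases combB P' P₀ hP₀sub R' hR' hP₀
      (Fintype.card (Pair (n + 1))) n hA with ⟨f, g', hfg, hs⟩ | ⟨v, hv, h, hh, hs⟩
    · set eq := Fintype.equivFin (Pair (n + 1)) with heq
      have h3 := pairsB Z η L hL l₀ hη1 (fun s => g' (eq s)) (fun s => f (eq s)) ?_ j₀ (2 * ε)
        (by positivity) ?_ ?_
      · intro k
        refine Z.mono le_rfl ?_ (h3 k)
        rw [hδ, hε, hB, add_div]
        have h4 : 2 * (n.factorial : ℝ) * n * (2 * (C / N)) = 2 * n.factorial * n * (2 * C) / N := by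
          ring
        rw [h4]
        have h5 : 0 ≤ 2 * (n : ℝ) * (2 * C) / N := by positivity
        linarith
      · intro x y hxy
        rcases x with x | x <;> rcases y with y | y
        · have h1 : g' (eq x) = g' (eq y) := hxy
          have := @hfg (Sum.inr (eq x)) (Sum.inr (eq y)) h1
          rw [Sum.inr.injEq, eq.injective.eq_iff] at this
          rw [this]
        · have h1 : g' (eq x) = f (eq y) := hxy
          have := @hfg (Sum.inr (eq x)) (Sum.inl (eq y)) h1
          simp at this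
        · have h1 : f (eq x) = g' (eq y) := hxy
          have := @hfg (Sum.inl (eq x)) (Sum.inr (eq y)) h1
          simp at this
        · have h1 : f (eq x) = f (eq y) := hxy
          have := @hfg (Sum.inl (eq x)) (Sum.inl (eq y)) h1
          rw [Sum.inl.injEq, eq.injective.eq_iff] at this
          rw [this]
      · intro s
        exact hlinη _ (hs (eq s)).2.1
      · intro s
        exact (hs (eq s)).2.2
    · have h3 := starB Z η L hL l₀ hη1 v h hh (fun i => (hs i).2.1) j₀ (2 * ε) (by positivity)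
        (hlinη v hv) (fun i => (hs i).2.2)
      intro k
      refine Z.mono le_rfl ?_ (h3 k)
      rw [hδ, hε, hB, add_div]
      have h4 : 2 * (n : ℝ) * (2 * (C / N)) = 2 * n * (2 * C) / N := by ring
      rw [h4]
      have h5 : 0 ≤ 2 * (n.factorial : ℝ) * n * (2 * C) / N := by positivity
      linarith
  have hlast := claimT_last Z N hN0 (fun p : ι × Fin J => G p.1) (fun p => hG p.1) L a c t M hM l₀ hl₀
    η hηζ hζrel j₀ δ hδ0 hall
  have hle : (((e + N : ℕ) : ℝ) * δ + Fintype.card (ι × Fin J) * (M * (e * δ) + N * ((n + 1 : ℕ) * δ)))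
      / (e + N : ℕ) ≤ B' / N := by
    have hd : (0 : ℝ) < ((e + N : ℕ) : ℝ) := by
      have : 0 < e + N := by omega
      exact_mod_cast this
    have hNle : (N : ℝ) ≤ ((e + N : ℕ) : ℝ) := by
      push_cast
      have : (0 : ℝ) ≤ e := by positivity
      linarith
    have h1le : (1 : ℝ) ≤ ((e + N : ℕ) : ℝ) := le_trans (by exact_mod_cast hN0) hNle
    rw [div_le_iff₀ hd]
    have h3 : (M : ℝ) * (e * δ) ≤ ((e + N : ℕ) : ℝ) * (M * e * δ) := by
      have : (0 : ℝ) ≤ M * e * δ := by positivity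
      nlinarith
    have h4 : (N : ℝ) * ((n + 1 : ℕ) * δ) ≤ ((e + N : ℕ) : ℝ) * ((n + 1 : ℕ) * δ) :=
      mul_le_mul_of_nonneg_right hNle (by positivity)
    have h5 : (Fintype.card (ι × Fin J) : ℝ) * (M * (e * δ) + N * ((n + 1 : ℕ) * δ)) ≤
        Fintype.card (ι × Fin J) * (((e + N : ℕ) : ℝ) * (M * e * δ) +
          ((e + N : ℕ) : ℝ) * ((n + 1 : ℕ) * δ)) :=
      mul_le_mul_of_nonneg_left (by linarith) (by positivity)
    have h6 : B' / N = δ * (1 + Fintype.card (ι × Fin J) * (M * e + (n + 1 : ℕ))) := by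
      rw [hB', hδ]; ring
    rw [h6]
    nlinarith [h5]
  have hfinal : ∀ k, Z.Sz j₀ (B' / N + δ) (ζ k) := by
    intro k
    rw [hηζ k]
    exact Z.mul (by positivity) hδ0 (Z.mono le_rfl hle hlast) (hall k)
  have hfin := Z.final hfinal
  have h5 : ((n + 1 : ℕ) : ℝ) * (B' / N + δ) < 1 := by
    have h6 : ((n + 1 : ℕ) : ℝ) * (B' / N + δ) = (((n + 1 : ℕ) : ℝ) * (B + B')) / N := by
      rw [hδ]; ring
    rw [h6, div_lt_one hNR]
    linarith
  linarith

end Pool.Agent.Work.MP_90e0ad_ag.Hs
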