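import Pool.Agent.Work.MP_90e0ad_ag.Hs.Fun
import Pool.Agent.Work.MP_e97a4d_nt.Hyp.Elim

/-!
MP_90e0ad_ag/Hs, module ElimX (size S). The elimination theorem with explicit constant. Copy the proof of
Hyp/Elim.lean (elim_aux, whose auxiliary function elimC is private: elimC c₁ 0 c = 2 c,
elimC c₁ (k+1) c = max (2 c) (elimC c₁ k (5 c + 4 c₁))) with elimC c₁ k c replaced by
2 * 5 ^ k * (c + c₁): one needs only 2 c <= 2 * 5^(k+1) (c + c₁) and
2 * 5^k ((5 c + 4 c₁) + c₁) = 2 * 5^(k+1) (c + c₁).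
-/

set_option autoImplicit false

noncomputable section

namespace Pool.Agent.Work.MP_90e0ad_ag.Hs

open Pool.Agent.Work.MP_90e0ad_ag Pool.Agent.Work.MP_e97a4d_nt.Hyp

private def elimE (c₁ : ℝ) (k : ℕ) (c : ℝ) : ℝ := 2 * 5 ^ k * (c + c₁)

/-- logarithmic derivative of a product and of a power -/
private theorem D_mul_pow (u v : Mero) (N : ℕ) (hN : 0 < N) (hu : u ≠ 0) (hv : v ≠ 0) :
    D (u * v ^ N) = (u * v ^ N) * (D u / u + (N : Mero) * (D v / v)) := by
  obtain ⟨m, rfl⟩ : ∃ m, N = m + 1 := ⟨N - 1, by omega⟩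
  rw [Derivation.leibniz, Derivation.leibniz_pow, smul_eq_mul, smul_eq_mul, smul_eq_mul,
    nsmul_eq_mul, Nat.add_sub_cancel]
  field_simp
  ring

private theorem D_natCast (N : ℕ) : D (N : Mero) = 0 := Derivation.map_natCast D N

private theorem elim_aux (c₁ : ℝ) (hc₁ : 0 ≤ c₁) : ∀ (k : ℕ) (c : ℝ), 0 ≤ c →
    ∀ {n : ℕ} {ξ : Fin n → Mero} (Z : SizeSys ξ) (N : ℕ), 0 < N →
    ∀ (ι : Type) (Q : Finset ι), Q.card ≤ k → ∀ (g lam : ι → Mero) (j : ℕ),
      (∀ q ∈ Q, g q ≠ 0 ∧ lam q ≠ 0 ∧ Z.Sz j c (g q) ∧ Z.Sz j c₁ (lam q)) →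
      ∑ q ∈ Q, g q * lam q ^ N = 0 →
      ∀ p ∈ Q, ∃ q ∈ Q, q ≠ p ∧ Z.Sz (j + k) (elimE c₁ k c / N) (lam p / lam q) := by
  intro k
  induction k with
  | zero =>
    intro c hc n ξ Z N hN ι Q hQ g lam j hg hsum p hp
    have : Q = ∅ := Finset.card_eq_zero.1 (by omega)
    subst this
    exact absurd hp (Finset.notMem_empty p)
  | succ k ih =>
    intro c hc n ξ Z N hN ι Q hQ g lam j hg hsum p hp
    classical
    have hNR : (0 : ℝ) < N := by exact_mod_cast hN
    -- there is another index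
    have hex : ∃ e ∈ Q, e ≠ p := by
      by_contra hcon
      push Not at hcon
      have h1 : Q = {p} := Finset.eq_singleton_iff_unique_mem.2 ⟨hp, hcon⟩
      rw [h1, Finset.sum_singleton] at hsum
      obtain ⟨g1, g2, -, -⟩ := hg p hp
      exact mul_ne_zero g1 (pow_ne_zero N g2) hsum
    obtain ⟨e, he, hep⟩ := hex
    obtain ⟨ge0, le0, gSe, lSe⟩ := hg e he
    obtain ⟨gp0, lp0, gSp, lSp⟩ := hg p hp
    -- the quotient ratios
    set φ : ι → Mero := fun q => (g q / g e) * (lam q / lam e) ^ N with hφ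
    set ζ : ι → Mero := fun q => D (g q / g e) / (g q / g e) +
      (N : Mero) * (D (lam q / lam e) / (lam q / lam e)) with hζ
    have hDφ : ∀ q ∈ Q, D (φ q) = φ q * ζ q := by
      intro q hq
      obtain ⟨g1, g2, -, -⟩ := hg q hq
      exact D_mul_pow _ _ N hN (div_ne_zero g1 ge0) (div_ne_zero g2 le0)
    have hφsum : ∑ q ∈ Q, φ q = 0 := by
      have h1 : ∀ q ∈ Q, φ q = (g q * lam q ^ N) * (g e * lam e ^ N)⁻¹ := by
        intro q _
        simp only [hφ, div_pow]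
        field_simp
      rw [Finset.sum_congr rfl h1, ← Finset.sum_mul, hsum, zero_mul]
    -- sizes
    have hSzg : ∀ q ∈ Q, Z.Sz j (c + c) (g q / g e) := by
      intro q hq
      rw [div_eq_mul_inv]
      exact Z.mul hc hc (hg q hq).2.2.1 (Z.inv hc gSe)
    have hSzl : ∀ q ∈ Q, Z.Sz j (c₁ + c₁) (lam q / lam e) := by
      intro q hq
      rw [div_eq_mul_inv]
      exact Z.mul hc₁ hc₁ (hg q hq).2.2.2 (Z.inv hc₁ lSe)
    by_cases hζp : ζ p = 0
    · -- slow ratio with `e`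
      refine ⟨e, he, hep, ?_⟩
      have h1 : D (φ p) = 0 := by rw [hDφ p hp, hζp, mul_zero]
      have h2 : Z.Sz j 0 (φ p) := Z.const j h1
      have h3 : (lam p / lam e) ^ N = φ p * (g e / g p) := by
        simp only [hφ]
        field_simp
      have h4 : Z.Sz j (c + c) (g e / g p) := by
        rw [div_eq_mul_inv]
        exact Z.mul hc hc gSe (Z.inv hc gSp)
      have h5 : Z.Sz j (0 + (c + c)) ((lam p / lam e) ^ N) := by
        rw [h3]
        exact Z.mul le_rfl (by linarith) h2 h4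
      have h6 := Z.root hN h5
      refine Z.mono (by omega) ?_ h6
      have : 0 + (c + c) ≤ elimE c₁ (k + 1) c := by
        unfold elimE
        have h5 : (1 : ℝ) ≤ 5 ^ (k + 1) := one_le_pow₀ (by norm_num)
        nlinarith
      gcongr
    · -- eliminate `e`
      set Q' : Finset ι := Q.filter (fun q => ζ q ≠ 0) with hQ'
      have hζe : ζ e = 0 := by
        have h1 : D (1 : Mero) = 0 := Derivation.map_one_eq_zero D
        simp only [hζ]
        rw [div_self ge0, div_self le0, h1]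
        simp
      have hcard : Q'.card ≤ k := by
        have h1 : Q' ⊆ Q.erase e := by
          intro q hq
          rw [hQ', Finset.mem_filter] at hq
          refine Finset.mem_erase.2 ⟨?_, hq.1⟩
          rintro rfl
          exact hq.2 hζe
        have h2 := Finset.card_le_card h1
        rw [Finset.card_erase_of_mem he] at h2
        omega
      have hsum' : ∑ q ∈ Q', (g q * ζ q) * lam q ^ N = 0 := by
        have h1 : ∑ q ∈ Q, (g q * ζ q) * lam q ^ N = 0 := by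
          have h2 : D (∑ q ∈ Q, φ q) = 0 := by rw [hφsum, map_zero]
          rw [map_sum, Finset.sum_congr rfl hDφ] at h2
          have h3 : ∀ q ∈ Q, (g q * ζ q) * lam q ^ N = (φ q * ζ q) * (g e * lam e ^ N) := by
            intro q _
            simp only [hφ, div_pow]
            field_simp
          rw [Finset.sum_congr rfl h3, ← Finset.sum_mul, h2, zero_mul]
        rw [← h1, hQ']
        refine Finset.sum_filter_of_ne ?_
        intro q _ hne hz
        apply hne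
        rw [hz, mul_zero, zero_mul]
      have hc' : 0 ≤ 5 * c + 4 * c₁ := by linarith
      have hSz' : ∀ q ∈ Q', g q * ζ q ≠ 0 ∧ lam q ≠ 0 ∧
          Z.Sz (j + 1) (5 * c + 4 * c₁) (g q * ζ q) ∧ Z.Sz (j + 1) c₁ (lam q) := by
        intro q hq
        rw [hQ', Finset.mem_filter] at hq
        obtain ⟨hqQ, hζq⟩ := hq
        obtain ⟨g1, g2, g3, g4⟩ := hg q hqQ
        refine ⟨mul_ne_zero g1 hζq, g2, ?_, Z.mono (by omega) le_rfl g4⟩
        have a1 : Z.Sz (j + 1) (2 * (c + c)) (D (g q / g e) / (g q / g e)) :=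
          Z.logD (by linarith) (div_ne_zero g1 ge0) (hSzg q hqQ)
        have a2 : Z.Sz (j + 1) (2 * (c₁ + c₁)) (D (lam q / lam e) / (lam q / lam e)) :=
          Z.logD (by linarith) (div_ne_zero g2 le0) (hSzl q hqQ)
        have a3 : Z.Sz (j + 1) 0 (N : Mero) := Z.const (j + 1) (D_natCast N)
        have a4 := Z.mul le_rfl (by linarith : (0 : ℝ) ≤ 2 * (c₁ + c₁)) a3 a2
        have a5 := Z.add (by linarith : (0 : ℝ) ≤ 2 * (c + c)) (by linarith) a1 a4
        have a6 : Z.Sz (j + 1) c (g q) := Z.mono (by omega) le_rfl g3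
        have a7 := Z.mul hc (by linarith) a6 a5
        exact Z.mono le_rfl (by linarith) a7
      have hpQ' : p ∈ Q' := by
        rw [hQ', Finset.mem_filter]
        exact ⟨hp, hζp⟩
      obtain ⟨q, hq, hqp, hS⟩ := ih (5 * c + 4 * c₁) hc' Z N hN ι Q' hcard (fun q => g q * ζ q) lam
        (j + 1) hSz' hsum' p hpQ'
      rw [hQ', Finset.mem_filter] at hq
      refine ⟨q, hq.1, hqp, Z.mono (by omega) ?_ hS⟩
      have : elimE c₁ k (5 * c + 4 * c₁) ≤ elimE c₁ (k + 1) c := by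
        unfold elimE
        apply le_of_eq
        ring
      gcongr


theorem elimX (k : ℕ) (c c₁ : ℝ) (hc : 0 ≤ c) (hc₁ : 0 ≤ c₁)
    {n : ℕ} {ξ : Fin n → Mero} (Z : SizeSys ξ) (N : ℕ) (hN : 0 < N)
    (ι : Type) (Q : Finset ι) (hQ : Q.card ≤ k) (g lam : ι → Mero) (j : ℕ)
    (h : ∀ q ∈ Q, g q ≠ 0 ∧ lam q ≠ 0 ∧ Z.Sz j c (g q) ∧ Z.Sz j c₁ (lam q))
    (h0 : ∑ q ∈ Q, g q * lam q ^ N = 0) :
    ∀ p ∈ Q, ∃ q ∈ Q, q ≠ p ∧ Z.Sz (j + k) (2 * 5 ^ k * (c + c₁) / N) (lam p / lam q) :=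
  elim_aux c₁ hc₁ k c hc Z N hN ι Q hQ g lam j h h0

end Pool.Agent.Work.MP_90e0ad_ag.Hs
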