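import Pool.Agent.Work.MP_90e0ad_ag.Hs.HsDefs

/-!
MP_90e0ad_ag/Hs, module EmbX (size M). Closed embeddings of projective spaces given by homogeneous
maps, and hyperbolicity.

emb e x := mk (W x.rep). emb_mk: W (c • x) = c^δ • W x. Injectivity: W x = λ W y gives, for all i,
c_i(x) x = λ c_i(y) y; choose i with c_i(x) ≠ 0.
hyp: (⟸) g : ℂ → PP n in A: emb ∘ g is holomorphic (W ∘ F for a local lift F) with values in B, so constant,
so g is constant by injectivity. (⟹) h : ℂ → PP m in B: for every z choose g z with emb (g z) = h z, in A.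
g is holomorphic: local lift F of h at z, F z = λ W x (x := (g z).rep), R_i (F z) = λ c_i(x) x ≠ 0 for a
suitable i; near z, R_i (F w) ≠ 0 and it is a multiple of (g w).rep, so g w = mk (R_i (F w)). So g is
constant and h = emb ∘ g too.
-/

namespace Pool.Agent.Work.MP_90e0ad_ag.Hs

open Pool.Agent.Work.MP_90e0ad_ag

/-- A homogeneous differentiable map with linear inverses on charts. -/
structure EmbData (n m : ℕ) where
  W : (Fin (n + 1) → ℂ) → (Fin (m + 1) → ℂ)
  δ : ℕ
  W_ne : ∀ x, x ≠ 0 → W x ≠ 0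
  W_smul : ∀ (c : ℂ) x, W (fun i => c * x i) = fun j => c ^ δ * W x j
  W_diff : Differentiable ℂ W
  ι : Type
  R : ι → (Fin (m + 1) → ℂ) → (Fin (n + 1) → ℂ)
  R_diff : ∀ i, Differentiable ℂ (R i)
  R_smul : ∀ i (c : ℂ) u, R i (fun j => c * u j) = fun j => c * R i u j
  c : ι → (Fin (n + 1) → ℂ) → ℂ
  R_W : ∀ i x, R i (W x) = fun j => c i x * x j
  c_ne : ∀ x, x ≠ 0 → ∃ i, c i x ≠ 0

variable {n m : ℕ} (e : EmbData n m)

/-- the map of projective spaces -/
noncomputable def EmbData.emb (x : PP n) : PP m :=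
  Projectivization.mk ℂ (e.W x.rep) (e.W_ne _ x.rep_nonzero)

private theorem embx_mk {n : ℕ} (v w : Fin (n + 1) → ℂ) (hv : v ≠ 0) (hw : w ≠ 0) :
    Projectivization.mk ℂ v hv = Projectivization.mk ℂ w hw ↔
      ∃ c : ℂ, c ≠ 0 ∧ v = fun i => c * w i := by
  rw [Projectivization.mk_eq_mk_iff]
  constructor
  · rintro ⟨a, ha⟩
    exact ⟨a, a.ne_zero, by rw [← ha]; rfl⟩
  · rintro ⟨c, hc, h⟩
    exact ⟨Units.mk0 c hc, by rw [h]; rfl⟩

theorem EmbData.emb_mk (x : Fin (n + 1) → ℂ) (hx : x ≠ 0) :
    e.emb (Projectivization.mk ℂ x hx) = Projectivization.mk ℂ (e.W x) (e.W_ne x hx) := by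
  unfold EmbData.emb
  rw [embx_mk]
  obtain ⟨c, hc, h⟩ := (embx_mk _ _ (Projectivization.rep_nonzero _) hx).1
    (Projectivization.mk_rep (Projectivization.mk ℂ x hx))
  exact ⟨c ^ e.δ, pow_ne_zero _ hc, by rw [h, e.W_smul]⟩

theorem EmbData.emb_injective : Function.Injective e.emb := by
  intro x y hxy
  unfold EmbData.emb at hxy
  rw [embx_mk] at hxy
  obtain ⟨a, ha, h⟩ := hxy
  obtain ⟨i, hi⟩ := e.c_ne _ x.rep_nonzero
  have h1 := e.R_W i x.rep
  rw [h, e.R_smul, e.R_W] at h1
  rw [← Projectivization.mk_rep x, ← Projectivization.mk_rep y, embx_mk]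
  refine ⟨(e.c i x.rep)⁻¹ * (a * e.c i y.rep), ?_, ?_⟩
  · intro h0
    rcases mul_eq_zero.1 h0 with h2 | h2
    · exact inv_ne_zero hi h2
    · rcases mul_eq_zero.1 h2 with h3 | h3
      · exact ha h3
      · apply x.rep_nonzero
        funext j
        have h4 := congrFun h1 j
        simp only [h3, zero_mul, mul_zero] at h4
        exact (mul_eq_zero.1 h4.symm).resolve_left hi
  · funext j
    have h4 := congrFun h1 j
    simp only at h4
    field_simp
    rw [mul_comm (Projectivization.rep x j), ← h4]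
    ring

theorem EmbData.hyp (A : Set (PP n)) (B : Set (PP m)) (h1 : ∀ x ∈ A, e.emb x ∈ B)
    (h2 : ∀ y ∈ B, ∃ x ∈ A, e.emb x = y) : Hyperbolic n A ↔ Hyperbolic m B := by
  constructor
  · intro hA h hh hB
    choose g hgA hgh using fun z => h2 (h z) (hB z)
    have hg : IsHolo n g := by
      intro z
      obtain ⟨F, U, hU, hFd, hF⟩ := hh z
      obtain ⟨i, hi⟩ := e.c_ne _ (g z).rep_nonzero
      have key : ∀ w ∈ U, ∃ a : ℂ, a ≠ 0 ∧ e.R i (F w) = fun j => (a * e.c i (g w).rep) * (g w).rep j := by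
        intro w hw
        obtain ⟨hF0, hFw⟩ := hF w hw
        have h3 := hgh w
        rw [hFw] at h3
        unfold EmbData.emb at h3
        obtain ⟨a, ha, h4⟩ := (embx_mk _ _ _ _).1 h3.symm
        refine ⟨a, ha, ?_⟩
        rw [h4, e.R_smul, e.R_W]
        funext j
        ring
      have hzU : z ∈ U := mem_of_mem_nhds hU
      have hne : e.R i (F z) ≠ 0 := by
        obtain ⟨a, ha, h5⟩ := key z hzU
        intro h0
        rw [h5] at h0
        apply (g z).rep_nonzero
        funext j
        have := congrFun h0 j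
        simp only [Pi.zero_apply, mul_eq_zero] at this
        rcases this with h6 | h6
        · rcases h6 with h6 | h6
          · exact absurd h6 ha
          · exact absurd h6 hi
        · exact h6
      have hcont : ContinuousAt (fun w => e.R i (F w)) z :=
        ((e.R_diff i).continuous.continuousAt).comp ((hFd.differentiableAt hU).continuousAt)
      have hev : ∀ᶠ w in nhds z, e.R i (F w) ≠ 0 := hcont.eventually_ne hne
      refine ⟨fun w => e.R i (F w), U ∩ {w | e.R i (F w) ≠ 0}, Filter.inter_mem hU hev, ?_, ?_⟩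
      · exact ((e.R_diff i).comp_differentiableOn hFd).mono Set.inter_subset_left
      · rintro w ⟨hwU, hw⟩
        refine ⟨hw, ?_⟩
        obtain ⟨a, ha, h5⟩ := key w hwU
        have hc0 : a * e.c i (g w).rep ≠ 0 := by
          intro h0
          apply hw
          rw [h5]
          funext j
          rw [h0, zero_mul]
          rfl
        rw [← Projectivization.mk_rep (g w), embx_mk]
        refine ⟨(a * e.c i (g w).rep)⁻¹, inv_ne_zero hc0, ?_⟩
        funext j
        show _ = _ * e.R i (F w) j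
        rw [h5]
        simp only
        rw [inv_mul_cancel_left₀ hc0]
    intro z w
    rw [← hgh z, ← hgh w, hA g hg hgA z w]
  · intro hB g hg hgA
    have hh : IsHolo m fun z => e.emb (g z) := by
      intro z
      obtain ⟨F, U, hU, hFd, hF⟩ := hg z
      refine ⟨fun w => e.W (F w), U, hU, e.W_diff.comp_differentiableOn hFd, fun w hw => ?_⟩
      obtain ⟨hF0, hFw⟩ := hF w hw
      exact ⟨e.W_ne _ hF0, by show e.emb (g w) = _; rw [hFw, e.emb_mk]⟩
    intro z w
    exact e.emb_injective (hB _ hh (fun z => h1 _ (hgA z)) z w)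

end Pool.Agent.Work.MP_90e0ad_ag.Hs
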