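import Pool.Agent.Work.MP_90e0ad_ag.Hs.Basic

/-!
MP_90e0ad_ag/Hs, module Forms (size M): values and degrees of the forms of step B.

* All the forms are lists of monomials built from lists of indices: use evR_mon, prod_exps, ev_append,
  ev_rep, ev_cons, ev_word, word_length, exps_length, exps_sum.
* evR_mulTo: each monomial is multiplied by v_k^(e - d).
* eqDeg_zero: if all v_k^(e - d) P(v) vanish and v ≠ 0 then P(v) = 0 (some v_k ≠ 0); conversely clear.
* eOf: d <= (L.map deg0).sum < eOf L for the degree d of a nonempty form P ∈ L (deg0 P is the degree of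
  the first monomial; List.single_le_sum or List.le_sum_of_mem). For P = [] there is nothing to prove.
* gens_locus: yMon (k, l) at v is v_{M+1+k} v_l^(e-1); as v ≠ 0 some v_l ≠ 0, so v_{M+1+k} = 0 for all
  k <= M. q = k (2M+2) + l runs through all pairs (Nat.div_add_mod, Nat.mod_lt).
-/

namespace Pool.Agent.Work.MP_90e0ad_ag.Hs

open Pool.Agent.Work.MP_90e0ad_ag

/-- all monomials of P have n + 1 exponents, of sum d -/
def HasDeg (n d : ℕ) (P : Form) : Prop := ∀ ce ∈ P, ce.2.length = n + 1 ∧ ce.2.sum = d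

theorem isForm_iff (n : ℕ) (P : Form) : IsForm n P ↔ ∃ d, HasDeg n d P := Iff.rfl

theorem eOf_pos (L : List Form) : 1 ≤ eOf L := by unfold eOf; omega

/-- the degree of a form of L is smaller than eOf L -/
theorem hasDeg_lt_eOf (n : ℕ) (L : List Form) (hL : ∀ P ∈ L, IsForm n P) :
    ∀ P ∈ L, ∃ d < eOf L, HasDeg n d P := by
  intro P hP
  obtain ⟨d, hd⟩ := hL P hP
  cases P with
  | nil => exact ⟨0, eOf_pos L, fun ce hce => by simp at hce⟩
  | cons ce Q =>
    refine ⟨d, ?_, hd⟩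
    have h1 : deg0 (ce :: Q) = d := (hd ce (by simp)).2
    have h2 : deg0 (ce :: Q) ≤ (L.map deg0).sum :=
      List.le_sum_of_mem (List.mem_map.2 ⟨_, hP, rfl⟩)
    unfold eOf
    omega

variable {R : Type} [CommRing R]

private theorem mulTo_sum (n d e k : ℕ) (hk : k < n + 1) (P : Form) (hP : HasDeg n d P)
    (v : Fin (n + 1) → R) :
    (P.map fun ce => (ce.1 : R) * ev v (word ce.2 ++ rep (e - ce.2.sum) k)).sum =
      v ⟨k, hk⟩ ^ (e - d) * evR n P v := by
  induction P with
  | nil => simp [evR_nil]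
  | cons ce P ih =>
    obtain ⟨h1, h2⟩ := hP ce (by simp)
    rw [List.map_cons, List.sum_cons, ih fun x hx => hP x (List.mem_cons_of_mem _ hx), evR_cons,
      ev_append, ev_word v _ h1, ev_rep v _ k hk, h2]
    ring

theorem evR_mulTo (n d e k : ℕ) (hk : k < n + 1) (P : Form) (hP : HasDeg n d P)
    (v : Fin (n + 1) → R) :
    evR n (mulTo (n + 1) e k P) v = v ⟨k, hk⟩ ^ (e - d) * evR n P v := by
  have h := evR_mon n P (fun ce => ce.1) (fun ce => word ce.2 ++ rep (e - ce.2.sum) k) v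
  rw [← mulTo_sum n d e k hk P hP v, ← h]
  rfl

/-- the forms of eqDeg have degree e -/
theorem eqDeg_hasDeg (n e : ℕ) (L : List Form) (hL : ∀ P ∈ L, ∃ d ≤ e, HasDeg n d P) :
    ∀ Q ∈ eqDeg (n + 1) e L, HasDeg n e Q := by
  intro Q hQ
  unfold eqDeg at hQ
  obtain ⟨P, hP, hQ⟩ := List.mem_flatMap.1 hQ
  obtain ⟨k, hk, rfl⟩ := List.mem_map.1 hQ
  have hk' := List.mem_range.1 hk
  obtain ⟨d, hde, hd⟩ := hL P hP
  intro ce hce
  unfold mulTo at hce
  obtain ⟨x, hx, rfl⟩ := List.mem_map.1 hce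
  obtain ⟨h1, h2⟩ := hd x hx
  refine ⟨exps_length _ _, ?_⟩
  rw [exps_sum, List.length_append, word_length, rep_length]
  · omega
  · intro y hy
    rcases List.mem_append.1 hy with hy | hy
    · rw [← h1]; exact word_lt hy
    · rw [mem_rep hy]; exact hk'

/-- the forms of eqDeg have the same common zeros -/
theorem eqDeg_zero {K : Type} [Field K] (n e : ℕ) (L : List Form)
    (hL : ∀ P ∈ L, IsForm n P) (v : Fin (n + 1) → K) (hv : v ≠ 0) :
    (∀ Q ∈ eqDeg (n + 1) e L, evR n Q v = 0) ↔ ∀ P ∈ L, evR n P v = 0 := by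
  constructor
  · intro h P hP
    obtain ⟨d, hd⟩ := hL P hP
    obtain ⟨k, hk⟩ := Function.ne_iff.1 hv
    have h1 := h (mulTo (n + 1) e k P) (List.mem_flatMap.2 ⟨P, hP, List.mem_map.2
      ⟨k, List.mem_range.2 k.2, rfl⟩⟩)
    rw [evR_mulTo n d e k k.2 P hd] at h1
    exact (mul_eq_zero.1 h1).resolve_left (pow_ne_zero _ hk)
  · intro h Q hQ
    obtain ⟨P, hP, hQ⟩ := List.mem_flatMap.1 hQ
    obtain ⟨k, hk, rfl⟩ := List.mem_map.1 hQ
    obtain ⟨d, hd⟩ := hL P hP
    rw [evR_mulTo n d e k (List.mem_range.1 hk) P hd, h P hP, mul_zero]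

theorem evR_padTo (M : ℕ) (P : Form) (hP : ∀ ce ∈ P, ce.2.length = M + 1)
    (v : Fin (2 * M + 1 + 1) → R) :
    evR (2 * M + 1) (padTo (2 * M + 2) P) v = evR M P fun i => v (Fin.castLE (by omega) i) := by
  have h := evR_mon (2 * M + 1) P (fun ce => ce.1) (fun ce => word ce.2) v
  have h0 : padTo (2 * M + 2) P = P.map fun ce => (ce.1, exps (2 * M + 1 + 1) (word ce.2)) := rfl
  rw [h0, h]
  unfold evR
  congr 1
  refine List.map_congr_left fun ce hce => ?_
  rw [← ev_word _ _ (hP ce hce)]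
  congr 1
  unfold ev
  congr 1
  refine List.map_congr_left fun i hi => ?_
  have hi' := word_lt hi
  rw [hP ce hce] at hi'
  rw [dif_pos hi', dif_pos (by omega : i < 2 * M + 1 + 1)]
  rfl

theorem evR_yMon (M e k l : ℕ) (hk : k < M + 1) (hl : l < 2 * M + 2) (v : Fin (2 * M + 1 + 1) → R) :
    evR (2 * M + 1) (yMon M (2 * M + 2) e k l) v = v ⟨M + 1 + k, by omega⟩ * v ⟨l, hl⟩ ^ (e - 1) := by
  unfold yMon
  rw [evR_cons, evR_nil, prod_exps, ev_cons v (M + 1 + k) (by omega), ev_rep v _ l hl]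
  simp

private theorem eqDeg_eOf_hasDeg (M : ℕ) (E : List Form) (hE : ∀ P ∈ E, IsForm M P) :
    ∀ Q ∈ eqDeg (M + 1) (eOf E) E, HasDeg M (eOf E) Q := by
  refine eqDeg_hasDeg M (eOf E) E fun P hP => ?_
  obtain ⟨d, hd, h⟩ := hasDeg_lt_eOf M E hE P hP
  exact ⟨d, hd.le, h⟩

theorem gens_hasDeg (M : ℕ) (E : List Form) (hE : ∀ P ∈ E, IsForm M P) :
    ∀ G ∈ gens M E, HasDeg (2 * M + 1) (eOf E) G := by
  intro G hG
  unfold gens at hG
  rcases List.mem_append.1 hG with hG | hG
  · obtain ⟨P, hP, rfl⟩ := List.mem_map.1 hG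
    have h := eqDeg_eOf_hasDeg M E hE P hP
    intro ce hce
    obtain ⟨x, hx, rfl⟩ := List.mem_map.1 hce
    obtain ⟨h1, h2⟩ := h x hx
    refine ⟨exps_length _ _, ?_⟩
    simp only
    rw [exps_sum, word_length, h2]
    intro y hy
    have := word_lt hy
    omega
  · obtain ⟨q, hq, rfl⟩ := List.mem_map.1 hG
    have hq' := List.mem_range.1 hq
    have h1 : q / (2 * M + 2) < M + 1 := by
      rw [Nat.div_lt_iff_lt_mul (by omega)]; exact hq'
    have h2 : q % (2 * M + 2) < 2 * M + 2 := Nat.mod_lt _ (by omega)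
    intro ce hce
    unfold yMon at hce
    rw [List.mem_singleton] at hce
    subst hce
    refine ⟨exps_length _ _, ?_⟩
    simp only
    rw [exps_sum, List.length_cons, rep_length]
    · have := eOf_pos E; omega
    · intro y hy
      rcases List.mem_cons.1 hy with rfl | hy
      · omega
      · rw [mem_rep hy]; exact h2

/-- the position of y_k x_l^(e-1) in the list gens -/
theorem gens_getD (M : ℕ) (E : List Form) (k l : ℕ) (hk : k < M + 1) (hl : l < 2 * M + 2) :
    ∃ i < (gens M E).length, (gens M E).getD i [] = yMon M (2 * M + 2) (eOf E) k l := by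
  have hq : k * (2 * M + 2) + l < (M + 1) * (2 * M + 2) := by
    calc k * (2 * M + 2) + l < k * (2 * M + 2) + (2 * M + 2) := by omega
      _ = (k + 1) * (2 * M + 2) := by ring
      _ ≤ (M + 1) * (2 * M + 2) := Nat.mul_le_mul_right _ hk
  have hmem : yMon M (2 * M + 2) (eOf E) k l ∈ gens M E := by
    unfold gens
    refine List.mem_append_right _ (List.mem_map.2 ⟨k * (2 * M + 2) + l, List.mem_range.2 hq, ?_⟩)
    have h1 : (k * (2 * M + 2) + l) / (2 * M + 2) = k := by
      rw [Nat.mul_comm, Nat.mul_add_div (by omega), Nat.div_eq_of_lt hl, add_zero]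
    have h2 : (k * (2 * M + 2) + l) % (2 * M + 2) = l := by
      rw [Nat.mul_comm, Nat.mul_add_mod, Nat.mod_eq_of_lt hl]
    rw [h1, h2]
  obtain ⟨i, hi, h⟩ := List.getElem_of_mem hmem
  refine ⟨i, hi, ?_⟩
  rw [List.getD_eq_getElem _ _ hi, h]

/-- the common zeros of gens -/
theorem gens_locus {K : Type} [Field K] (M : ℕ) (E : List Form) (hE : ∀ P ∈ E, IsForm M P)
    (v : Fin (2 * M + 1 + 1) → K) (hv : v ≠ 0) :
    (∀ G ∈ gens M E, evR (2 * M + 1) G v = 0) ↔
      (∀ k : Fin (2 * M + 1 + 1), M < (k : ℕ) → v k = 0) ∧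
        ∀ P ∈ E, evR M P (fun i => v (Fin.castLE (by omega) i)) = 0 := by
  have hpad : ∀ Q ∈ eqDeg (M + 1) (eOf E) E, evR (2 * M + 1) (padTo (2 * M + 2) Q) v =
      evR M Q fun i => v (Fin.castLE (by omega) i) := fun Q hQ =>
    evR_padTo M Q (fun ce hce => (eqDeg_eOf_hasDeg M E hE Q hQ ce hce).1) v
  constructor
  · intro h
    have h1 : ∀ k : Fin (2 * M + 1 + 1), M < (k : ℕ) → v k = 0 := by
      intro k hk
      obtain ⟨l, hl⟩ := Function.ne_iff.1 hv
      have hk2 := k.2
      obtain ⟨i, hi, hi2⟩ := gens_getD M E ((k : ℕ) - (M + 1)) l (by omega) l.2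
      have h2 := h ((gens M E).getD i []) (by
        rw [List.getD_eq_getElem _ _ hi]; exact List.getElem_mem hi)
      rw [hi2, evR_yMon M (eOf E) _ l (by omega) l.2 v] at h2
      have h3 := (mul_eq_zero.1 h2).resolve_right (pow_ne_zero _ hl)
      have h4 : (⟨M + 1 + ((k : ℕ) - (M + 1)), by omega⟩ : Fin (2 * M + 1 + 1)) = k :=
        Fin.ext (by simp only; omega)
      rw [h4] at h3
      exact h3
    refine ⟨h1, ?_⟩
    have hv2 : (fun i : Fin (M + 1) => v (Fin.castLE (by omega) i)) ≠ 0 := by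
      intro h0
      apply hv
      funext k
      by_cases hk : M < (k : ℕ)
      · exact h1 k hk
      · have := congrFun h0 ⟨k, by omega⟩
        exact this
    refine (eqDeg_zero M (eOf E) E hE _ hv2).1 fun Q hQ => ?_
    rw [← hpad Q hQ]
    exact h _ (List.mem_append_left _ (List.mem_map.2 ⟨Q, hQ, rfl⟩))
  · rintro ⟨h1, h2⟩ G hG
    unfold gens at hG
    rcases List.mem_append.1 hG with hG | hG
    · obtain ⟨Q, hQ, rfl⟩ := List.mem_map.1 hG
      rw [hpad Q hQ]
      have hv2 : (fun i : Fin (M + 1) => v (Fin.castLE (by omega) i)) ≠ 0 := by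
        intro h0
        apply hv
        funext k
        by_cases hk : M < (k : ℕ)
        · exact h1 k hk
        · have := congrFun h0 ⟨k, by omega⟩
          exact this
      exact (eqDeg_zero M (eOf E) E hE _ hv2).2 h2 Q hQ
    · obtain ⟨q, hq, rfl⟩ := List.mem_map.1 hG
      have hq' := List.mem_range.1 hq
      have h3 : q / (2 * M + 2) < M + 1 := by
        rw [Nat.div_lt_iff_lt_mul (by omega)]; exact hq'
      rw [evR_yMon M _ _ _ h3 (Nat.mod_lt _ (by omega)),
        h1 _ (lt_of_lt_of_le (Nat.lt_succ_self M) (Nat.le_add_right _ _)), zero_mul]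

end Pool.Agent.Work.MP_90e0ad_ag.Hs
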