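import Pool.Agent.Work.MP_90e0ad_ag.Hs.HsDefs
import Pool.Agent.Work.MP_90e0ad_ag.Gauss

/-!
MP_90e0ad_ag/Hs: the functions computed by the reductions. Monomials are built from the lists of
the indices of their variables.
-/

namespace Pool.Agent.Work.MP_90e0ad_ag.Hs

open Pool.Agent.Work.MP_90e0ad_ag

/-- number of occurrences -/
def cnt (l : List ℕ) (i : ℕ) : ℕ := (l.map fun x => if x = i then 1 else 0).sum

/-- k times j -/
def rep (k j : ℕ) : List ℕ := (List.range k).map fun _ => j

/-- exponents (of m1 variables) of the product of the variables with the indices in l -/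
def exps (m1 : ℕ) (l : List ℕ) : List ℕ := (List.range m1).map fun i => cnt l i

/-- the indices of the variables of the monomial with exponents e (with multiplicities) -/
def word (e : List ℕ) : List ℕ := (List.range e.length).flatMap fun j => rep (e.getD j 0) j

/-- the first k digits of w in base b -/
def digs (b k w : ℕ) : List ℕ := (List.range k).map fun j => w / b ^ j % b

/-- the number with the given digits in base b -/
def ofD (b : ℕ) (l : List ℕ) : ℕ := l.foldr (fun x a => x + b * a) 0

/-! ### bringing forms to the same degree -/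

/-- multiplication by a power of the k-th variable, to reach degree e -/
def mulTo (n1 e k : ℕ) (P : Form) : Form :=
  P.map fun ce => (ce.1, exps n1 (word ce.2 ++ rep (e - ce.2.sum) k))

def eqDeg (n1 e : ℕ) (L : List Form) : List Form :=
  L.flatMap fun P => (List.range n1).map fun k => mulTo n1 e k P

/-- a degree which is at least 1 and larger than the degrees of the forms -/
def eOf (L : List Form) : ℕ := (L.map deg0).sum + 1

/-! ### step B: the hypersurface -/

/-- the same form in m1 variables -/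
def padTo (m1 : ℕ) (P : Form) : Form := P.map fun ce => (ce.1, exps m1 (word ce.2))

/-- the form y_k x_l^(e-1) in m1 variables, where y_k has index M + 1 + k -/
def yMon (M m1 e k l : ℕ) : Form := [(1, exps m1 ((M + 1 + k) :: rep (e - 1) l))]

/-- the forms of degree eOf E in 2 M + 2 variables which cut out the variety -/
def gens (M : ℕ) (E : List Form) : List Form :=
  (eqDeg (M + 1) (eOf E) E).map (padTo (2 * M + 2)) ++
    (List.range ((M + 1) * (2 * M + 2))).map fun q =>
      yMon M (2 * M + 2) (eOf E) (q / (2 * M + 2)) (q % (2 * M + 2))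

def JJ (M : ℕ) : ℕ := (2 * M + 2) ^ 3 + (2 * M + 1) + 4

/-- coefficients of the p-th linear form in m1 variables -/
def Lx (m1 p k : ℕ) : ℕ := 2 ^ (m1 ^ p * k)

/-- The form `∑_{p < |Gs| J} a_p Gs[p/J] L_p^N`, L_p the linear form with coefficients Lx m1 p. -/
def fForm (m1 J N : ℕ) (Gs : List Form) (a : List ℤ) : Form :=
  (List.range (Gs.length * J)).flatMap fun p =>
    (Gs.getD (p / J) []).flatMap fun ce =>
      (List.range (m1 ^ N)).map fun w =>
        (a.getD p 0 * ce.1 * ((2 ^ (m1 ^ p * (digs m1 N w).sum) : ℕ) : ℤ),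
          exps m1 (word ce.2 ++ digs m1 N w))

/-- The same form plus `a_{|Gs| J} x_0^(e+N)`. -/
def tForm (m1 J N e : ℕ) (Gs : List Form) (a : List ℤ) : Form :=
  (a.getD (Gs.length * J) 0, exps m1 (rep (e + N) 0)) :: fForm m1 J N Gs a

/-- the constant of the elimination -/
def cElim (k c c1 : ℕ) : ℕ := 2 * 5 ^ k * (c + c1)

/-- explicit bound for the exponent (degeneracy in projective space) -/
def N0x (n e k : ℕ) : ℕ :=
  (n + 1) * (2 * n ^ n * n * cElim k ((e + 1) ^ (n + 1) * (2 * e)) (2 * (n + 1))) + 1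

/-- explicit bound for the exponent (degeneracy for f = 1) -/
def BTx (n e k : ℕ) : ℕ :=
  (2 * n ^ n * n + 2 * n) * (2 * cElim (k + 2) ((e + 1) ^ (n + 1) * (2 * e) + 2 * e) (2 * (n + 1)))

def N0t (n e k : ℕ) : ℕ :=
  (n + 1) * (BTx n e k + BTx n e k * (1 + k * ((e + 1) ^ (n + 1) * e + (n + 1)))) + 1

/-! ### the certificate for smoothness -/

/-- the w-th vector of Gaussian integers with coordinates in the box of size 2^K, as an element of G4 -/
def gvec (K w i : ℕ) : G4 :=
  ((dig (2 * 2 ^ K + 1) w (2 * i), 2 ^ K), (dig (2 * 2 ^ K + 1) w (2 * i + 1), 2 ^ K))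

/-- Certificate at scale K for SmoothAlong m s f. -/
def Cert (m s : ℕ) (f : Form) (K : ℕ) : Prop :=
  ∀ w < (2 * 2 ^ K + 1) ^ (2 * (m + 1)),
    (∀ i < m + 1, i < s → nsq (gvec K w i) = 0) →
    (∃ i < m + 1, (dig (2 * 2 ^ K + 1) w (2 * i) = 0 ∨ dig (2 * 2 ^ K + 1) w (2 * i) = 2 * 2 ^ K) ∨
      (dig (2 * 2 ^ K + 1) w (2 * i + 1) = 0 ∨ dig (2 * 2 ^ K + 1) w (2 * i + 1) = 2 * 2 ^ K)) →
    ∃ k < m + 1, s ≤ k ∧
      4 * wt (der k f) ^ 2 * 4 ^ (K * (deg0 f - 1)) <
        4 ^ K * nsq (evalG m (der k f) (gvec K w))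

/-! ### step A: graph of the boundary forms over the Veronese variety -/

/-- index of the word with letters l (r = number of boundary forms, n1 letters) -/
def ti (n1 r : ℕ) (l : List ℕ) : ℕ := r + ofD n1 l

/-- number of variables minus one -/
def mA (n δ r : ℕ) : ℕ := r + (n + 1) ^ δ - 1

/-- y_a = H_a -/
def eqY (n δ r a : ℕ) (P : Form) : Form :=
  (1, exps (mA n δ r + 1) [a]) ::
    P.map fun ce => (-ce.1, exps (mA n δ r + 1) [ti (n + 1) r (word ce.2)])

/-- P at the point with coordinates t_{i^(δ-1) j} -/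
def eqL (n δ r i : ℕ) (P : Form) : Form :=
  P.map fun ce => (ce.1, exps (mA n δ r + 1)
    ((word ce.2).map fun j => ti (n + 1) r (j :: rep (δ - 1) i)))

/-- t_w t_{i^δ}^(δ-1) = ∏_k t_{i^(δ-1) w_k} -/
def eqV (n δ r i w : ℕ) : Form :=
  [(1, exps (mA n δ r + 1) ((r + w) :: rep (δ - 1) (ti (n + 1) r (rep δ i)))),
    (-1, exps (mA n δ r + 1) ((digs (n + 1) δ w).map fun j => ti (n + 1) r (j :: rep (δ - 1) i)))]

/-- t_w^δ = ∏_k t_{w_k^δ} -/
def eqW (n δ r w : ℕ) : Form :=
  [(1, exps (mA n δ r + 1) (rep δ (r + w))),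
    (-1, exps (mA n δ r + 1) ((digs (n + 1) δ w).map fun j => ti (n + 1) r (rep δ j)))]

/-- the equations of the image -/
def stepA (n δ : ℕ) (L H : List Form) : List Form :=
  (List.range H.length).map (fun a => eqY n δ H.length a (H.getD a [])) ++
  L.flatMap (fun P => (List.range (n + 1)).map fun i => eqL n δ H.length i P) ++
  (List.range (n + 1)).flatMap (fun i =>
    (List.range ((n + 1) ^ δ)).map fun w => eqV n δ H.length i w) ++
  (List.range ((n + 1) ^ δ)).map (fun w => eqW n δ H.length w)

end Pool.Agent.Work.MP_90e0ad_ag.Hs
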