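import Pool.Agent.Work.MP_90e0ad_ag.Stmt

/-!
MP_90e0ad_ag, definitions for the reductions to smooth hypersurfaces.
-/

namespace Pool.Agent.Work.MP_90e0ad_ag.Hs

open Pool.Agent.Work.MP_90e0ad_ag

/-- The common zero locus of the forms of L in projective n-space. -/
def Locus (n : ℕ) (L : List Form) : Set (PP n) := {x | ∀ P ∈ L, VanishAt n P x}

/-- The linear subspace of projective n-space where the first s coordinates vanish. -/
def Lam (n s : ℕ) : Set (PP n) := {x | ∀ i : Fin (n + 1), (i : ℕ) < s → x.rep i = 0}

/-- The formal partial derivative with respect to the k-th variable. -/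
def der (k : ℕ) (f : Form) : Form :=
  f.map fun ce => (ce.1 * (ce.2.getD k 0 : ℤ), ce.2.set k (ce.2.getD k 0 - 1))

/-- The partial derivatives of f with respect to the variables of index s, ..., m have no common
zero on the linear subspace where the first s coordinates vanish: the intersection of f = 0 with
this subspace is smooth (s = 0: the hypersurface f = 0 is smooth). -/
def SmoothAlong (m s : ℕ) (f : Form) : Prop :=
  ∀ v : Fin (m + 1) → ℂ, v ≠ 0 → (∀ i : Fin (m + 1), (i : ℕ) < s → v i = 0) →
    ∃ k : Fin (m + 1), s ≤ (k : ℕ) ∧ evalC m (der k f) v ≠ 0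

/-- f is a form in m + 1 variables of degree at least D m, the hypersurface f = 0 is smooth, and so
is its intersection with the linear subspace where the first s coordinates vanish (s <= m). -/
structure Good (D : ℕ → ℕ) (m s : ℕ) (f : Form) : Prop where
  hs : s ≤ m
  form : ∃ d, D m ≤ d ∧ ∀ ce ∈ f, ce.2.length = m + 1 ∧ ce.2.sum = d
  smooth : SmoothAlong m 0 f
  sect : SmoothAlong m s f

/-- The property p is decidable on the inputs satisfying v: some algorithm which halts on all inputs
gives the correct answer on these inputs. -/
def Dec {α : Type} [Primcodable α] (v p : α → Prop) : Prop :=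
  ∃ g : α → Bool, Computable g ∧ ∀ x, v x → (g x = true ↔ p x)

end Pool.Agent.Work.MP_90e0ad_ag.Hs
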