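import Pool.Agent.Work.MP_90e0ad_ag.Hs.PrimI

/-!
MP_90e0ad_ag/Hs, module PrimA (size M-L). Step A is primitive recursive. Same method as PrimF.
-/

namespace Pool.Agent.Work.MP_90e0ad_ag.Hs

open Pool.Agent.Work.MP_90e0ad_ag

section

variable {α : Type} [Primcodable α]

private theorem exps' {f : α → ℕ} {g : α → List ℕ} (hf : Primrec f) (hg : Primrec g) :
    Primrec fun a => exps (f a) (g a) := primrec_exps.comp hf hg

private theorem word' {g : α → List ℕ} (hg : Primrec g) : Primrec fun a => word (g a) :=
  primrec_word.comp hg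

private theorem rep' {f g : α → ℕ} (hf : Primrec f) (hg : Primrec g) :
    Primrec fun a => rep (f a) (g a) := primrec_rep.comp hf hg

private theorem digs' {f g h : α → ℕ} (hf : Primrec f) (hg : Primrec g) (hh : Primrec h) :
    Primrec fun a => digs (f a) (g a) (h a) := primrec_digs.comp (hf.pair (hg.pair hh))

private theorem add' {f g : α → ℕ} (hf : Primrec f) (hg : Primrec g) : Primrec fun a => f a + g a :=
  Primrec.nat_add.comp hf hg

private theorem mul' {f g : α → ℕ} (hf : Primrec f) (hg : Primrec g) : Primrec fun a => f a * g a :=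
  Primrec.nat_mul.comp hf hg

private theorem sub' {f g : α → ℕ} (hf : Primrec f) (hg : Primrec g) : Primrec fun a => f a - g a :=
  Primrec.nat_sub.comp hf hg

private theorem div' {f g : α → ℕ} (hf : Primrec f) (hg : Primrec g) : Primrec fun a => f a / g a :=
  Primrec.nat_div.comp hf hg

private theorem mod' {f g : α → ℕ} (hf : Primrec f) (hg : Primrec g) : Primrec fun a => f a % g a :=
  Primrec.nat_mod.comp hf hg

private theorem pow' {f g : α → ℕ} (hf : Primrec f) (hg : Primrec g) : Primrec fun a => f a ^ g a :=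
  primrec_pow.comp hf hg

private theorem app' {β : Type} [Primcodable β] {f g : α → List β} (hf : Primrec f) (hg : Primrec g) :
    Primrec fun a => f a ++ g a := Primrec.list_append.comp hf hg

private theorem sum' {f : α → List ℕ} (hf : Primrec f) : Primrec fun a => (f a).sum :=
  primrec_listSum.comp hf

private theorem fst' {β γ : Type} [Primcodable β] [Primcodable γ] {f : α → β × γ} (hf : Primrec f) :
    Primrec fun a => (f a).1 := Primrec.fst.comp hf

private theorem snd' {β γ : Type} [Primcodable β] [Primcodable γ] {f : α → β × γ} (hf : Primrec f) :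
    Primrec fun a => (f a).2 := Primrec.snd.comp hf

private theorem map' {β γ : Type} [Primcodable β] [Primcodable γ] {f : α → List β} {g : α → β → γ}
    (hf : Primrec f) (hg : Primrec fun q : α × β => g q.1 q.2) : Primrec fun a => (f a).map (g a) :=
  Primrec.list_map hf hg

private theorem fmap' {β γ : Type} [Primcodable β] [Primcodable γ] {f : α → List β}
    {g : α → β → List γ} (hf : Primrec f) (hg : Primrec fun q : α × β => g q.1 q.2) :
    Primrec fun a => (f a).flatMap (g a) :=
  Primrec.list_flatMap hf hg

private theorem imul' {f g : α → ℤ} (hf : Primrec f) (hg : Primrec g) : Primrec fun a => f a * g a :=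
  primrec_intMul.comp hf hg

private theorem cast' {f : α → ℕ} (hf : Primrec f) : Primrec fun a => ((f a : ℕ) : ℤ) :=
  primrec_natCast.comp hf

private theorem one' {β : Type} [Primcodable β] {f : α → β} (hf : Primrec f) :
    Primrec fun a => [f a] := Primrec.list_cons.comp hf (Primrec.const [])

end

private theorem icast1 {α : Type} [Primcodable α] {f : α → ℤ} (hf : Primrec f) :
    Primrec fun a => -(f a) := primrec_intNeg.comp hf

private theorem ti' {α : Type} [Primcodable α] {f g : α → ℕ} {l : α → List ℕ} (hf : Primrec f)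
    (hg : Primrec g) (hl : Primrec l) : Primrec fun a => ti (f a) (g a) (l a) :=
  add' hg (primrec_ofD.comp hf hl)

private theorem cons' {α β : Type} [Primcodable α] [Primcodable β] {f : α → β} {l : α → List β}
    (hf : Primrec f) (hl : Primrec l) : Primrec fun a => f a :: l a := Primrec.list_cons.comp hf hl

theorem primrec_mA : Primrec fun x : ℕ × ℕ × ℕ => mA x.1 x.2.1 x.2.2 :=
  sub' (add' (snd' Primrec.snd) (pow' (add' Primrec.fst (Primrec.const 1)) (fst' Primrec.snd)))
    (Primrec.const 1)

private theorem mA1' {α : Type} [Primcodable α] {n d r : α → ℕ} (hn : Primrec n) (hd : Primrec d)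
    (hr : Primrec r) : Primrec fun a => mA (n a) (d a) (r a) + 1 :=
  add' (primrec_mA.comp (hn.pair (hd.pair hr))) (Primrec.const 1)

private theorem eqY' {α : Type} [Primcodable α] {n d r a : α → ℕ} {P : α → Form} (hn : Primrec n)
    (hd : Primrec d) (hr : Primrec r) (ha : Primrec a) (hP : Primrec P) :
    Primrec fun x => eqY (n x) (d x) (r x) (a x) (P x) := by
  have hm := mA1' hn hd hr
  have hn1 : Primrec fun x => n x + 1 := add' hn (Primrec.const 1)
  refine cons' ((Primrec.const (1 : ℤ)).pair (exps' hm (one' ha))) (map' hP ?_)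
  exact (icast1 (fst' Primrec.snd)).pair (exps' (hm.comp Primrec.fst)
    (one' (ti' (hn1.comp Primrec.fst) (hr.comp Primrec.fst) (word' (snd' Primrec.snd)))))

private theorem eqL' {α : Type} [Primcodable α] {n d r i : α → ℕ} {P : α → Form} (hn : Primrec n)
    (hd : Primrec d) (hr : Primrec r) (hi : Primrec i) (hP : Primrec P) :
    Primrec fun x => eqL (n x) (d x) (r x) (i x) (P x) := by
  have hm := mA1' hn hd hr
  have hn1 : Primrec fun x => n x + 1 := add' hn (Primrec.const 1)
  have hd1 : Primrec fun x => d x - 1 := sub' hd (Primrec.const 1)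
  refine map' hP ((fst' Primrec.snd).pair (exps' (hm.comp Primrec.fst)
    (map' (word' (snd' Primrec.snd)) ?_)))
  have h0 : Primrec fun q : (α × (ℤ × List ℕ)) × ℕ => q.1.1 := fst' Primrec.fst
  exact ti' (hn1.comp h0) (hr.comp h0) (cons' Primrec.snd (rep' (hd1.comp h0) (hi.comp h0)))

private theorem eqV' {α : Type} [Primcodable α] {n d r i w : α → ℕ} (hn : Primrec n)
    (hd : Primrec d) (hr : Primrec r) (hi : Primrec i) (hw : Primrec w) :
    Primrec fun x => eqV (n x) (d x) (r x) (i x) (w x) := by
  have hm := mA1' hn hd hr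
  have hn1 : Primrec fun x => n x + 1 := add' hn (Primrec.const 1)
  have hd1 : Primrec fun x => d x - 1 := sub' hd (Primrec.const 1)
  refine cons' ((Primrec.const (1 : ℤ)).pair (exps' hm (cons' (add' hr hw)
    (rep' hd1 (ti' hn1 hr (rep' hd hi)))))) (one' ((Primrec.const (-1 : ℤ)).pair
      (exps' hm (map' (digs' hn1 hd hw) ?_))))
  exact ti' (hn1.comp Primrec.fst) (hr.comp Primrec.fst)
    (cons' Primrec.snd (rep' (hd1.comp Primrec.fst) (hi.comp Primrec.fst)))

private theorem eqW' {α : Type} [Primcodable α] {n d r w : α → ℕ} (hn : Primrec n)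
    (hd : Primrec d) (hr : Primrec r) (hw : Primrec w) :
    Primrec fun x => eqW (n x) (d x) (r x) (w x) := by
  have hm := mA1' hn hd hr
  have hn1 : Primrec fun x => n x + 1 := add' hn (Primrec.const 1)
  refine cons' ((Primrec.const (1 : ℤ)).pair (exps' hm (rep' hd (add' hr hw))))
    (one' ((Primrec.const (-1 : ℤ)).pair (exps' hm (map' (digs' hn1 hd hw) ?_))))
  exact ti' (hn1.comp Primrec.fst) (hr.comp Primrec.fst) (rep' (hd.comp Primrec.fst) Primrec.snd)

theorem primrec_stepA : Primrec fun x : ℕ × ℕ × List Form × List Form =>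
    stepA x.1 x.2.1 x.2.2.1 x.2.2.2 := by
  have hn : Primrec fun x : ℕ × ℕ × List Form × List Form => x.1 := Primrec.fst
  have hd : Primrec fun x : ℕ × ℕ × List Form × List Form => x.2.1 := fst' Primrec.snd
  have hL : Primrec fun x : ℕ × ℕ × List Form × List Form => x.2.2.1 := fst' (snd' Primrec.snd)
  have hH : Primrec fun x : ℕ × ℕ × List Form × List Form => x.2.2.2 := snd' (snd' Primrec.snd)
  have hr : Primrec fun x : ℕ × ℕ × List Form × List Form => x.2.2.2.length :=
    Primrec.list_length.comp hH
  have hn1 : Primrec fun x : ℕ × ℕ × List Form × List Form => x.1 + 1 := add' hn (Primrec.const 1)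
  have hp : Primrec fun x : ℕ × ℕ × List Form × List Form => (x.1 + 1) ^ x.2.1 := pow' hn1 hd
  have p1 : Primrec fun x : ℕ × ℕ × List Form × List Form => (List.range x.2.2.2.length).map
      fun a => eqY x.1 x.2.1 x.2.2.2.length a (x.2.2.2.getD a []) :=
    map' (Primrec.list_range.comp hr) (eqY' (hn.comp Primrec.fst) (hd.comp Primrec.fst)
      (hr.comp Primrec.fst) Primrec.snd ((Primrec.list_getD []).comp (hH.comp Primrec.fst) Primrec.snd))
  have p2 : Primrec fun x : ℕ × ℕ × List Form × List Form => x.2.2.1.flatMap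
      fun P => (List.range (x.1 + 1)).map fun i => eqL x.1 x.2.1 x.2.2.2.length i P := by
    refine fmap' hL (map' (Primrec.list_range.comp (hn1.comp Primrec.fst)) ?_)
    have h0 : Primrec fun q : ((ℕ × ℕ × List Form × List Form) × Form) × ℕ => q.1.1 :=
      fst' Primrec.fst
    exact eqL' (hn.comp h0) (hd.comp h0) (hr.comp h0) Primrec.snd (snd' Primrec.fst)
  have p3 : Primrec fun x : ℕ × ℕ × List Form × List Form => (List.range (x.1 + 1)).flatMap
      fun i => (List.range ((x.1 + 1) ^ x.2.1)).map fun w => eqV x.1 x.2.1 x.2.2.2.length i w := by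
    refine fmap' (Primrec.list_range.comp hn1) (map' (Primrec.list_range.comp (hp.comp Primrec.fst)) ?_)
    have h0 : Primrec fun q : ((ℕ × ℕ × List Form × List Form) × ℕ) × ℕ => q.1.1 :=
      fst' Primrec.fst
    exact eqV' (hn.comp h0) (hd.comp h0) (hr.comp h0) (snd' Primrec.fst) Primrec.snd
  have p4 : Primrec fun x : ℕ × ℕ × List Form × List Form =>
      (List.range ((x.1 + 1) ^ x.2.1)).map fun w => eqW x.1 x.2.1 x.2.2.2.length w :=
    map' (Primrec.list_range.comp hp) (eqW' (hn.comp Primrec.fst) (hd.comp Primrec.fst)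
      (hr.comp Primrec.fst) Primrec.snd)
  exact app' (app' (app' p1 p2) p3) p4

end Pool.Agent.Work.MP_90e0ad_ag.Hs
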