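import Pool.Agent.Work.MP_90e0ad_ag.Hs.PrimI

/-!
MP_90e0ad_ag/Hs, module PrimC (size M). The certificate is primitive recursive: der (List.set: write
l.set k x as (List.range l.length).map fun i => if i = k then x else l.getD i 0, or List.set via take/drop), ballLt,
bexLt, primrecPred_imp, primrec_evalG, primrec_nsq, primrec_wt, primrec_deg0, primrec_pow.
-/

namespace Pool.Agent.Work.MP_90e0ad_ag.Hs

open Pool.Agent.Work.MP_90e0ad_ag

private theorem set_eq (l : List ℕ) (k x : ℕ) :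
    l.set k x = (List.range l.length).map fun i => if i = k then x else l.getD i 0 := by
  apply List.ext_getElem
  · simp
  · intro i h1 h2
    rw [List.getElem_set]
    simp only [List.getElem_map, List.getElem_range]
    by_cases h : k = i
    · rw [if_pos h, if_pos h.symm]
    · rw [if_neg h, if_neg (Ne.symm h)]
      rw [List.getD_eq_getElem]

theorem primrec_der : Primrec₂ der := by
  have hk : Primrec fun q : (ℕ × Form) × (ℤ × List ℕ) => q.1.1 := Primrec.fst.comp Primrec.fst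
  have hc : Primrec fun q : (ℕ × Form) × (ℤ × List ℕ) => q.2.1 := Primrec.fst.comp Primrec.snd
  have he : Primrec fun q : (ℕ × Form) × (ℤ × List ℕ) => q.2.2 := Primrec.snd.comp Primrec.snd
  have hg : Primrec fun q : (ℕ × Form) × (ℤ × List ℕ) => q.2.2.getD q.1.1 0 :=
    (Primrec.list_getD 0).comp he hk
  have h1 : Primrec fun q : (ℕ × Form) × (ℤ × List ℕ) => q.2.1 * ((q.2.2.getD q.1.1 0 : ℕ) : ℤ) :=
    primrec_intMul.comp hc (primrec_natCast.comp hg)
  have h2 : Primrec fun q : (ℕ × Form) × (ℤ × List ℕ) =>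
      q.2.2.set q.1.1 (q.2.2.getD q.1.1 0 - 1) := by
    have h3 : PrimrecPred fun r : ((ℕ × Form) × (ℤ × List ℕ)) × ℕ => r.2 = r.1.1.1 :=
      Primrec.eq.comp Primrec.snd (hk.comp Primrec.fst)
    have h4 : Primrec₂ fun (q : (ℕ × Form) × (ℤ × List ℕ)) (i : ℕ) =>
        if i = q.1.1 then q.2.2.getD q.1.1 0 - 1 else q.2.2.getD i 0 :=
      Primrec.ite h3 (Primrec.nat_sub.comp (hg.comp Primrec.fst) (Primrec.const 1))
        ((Primrec.list_getD 0).comp (he.comp Primrec.fst) Primrec.snd)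
    exact (Primrec.list_map (Primrec.list_range.comp (Primrec.list_length.comp he)) h4).of_eq
      fun q => (set_eq _ _ _).symm
  exact Primrec.list_map Primrec.snd (h1.pair h2)

section

variable {α : Type} [Primcodable α]

private theorem eqp {f g : α → ℕ} (hf : Primrec f) (hg : Primrec g) :
    PrimrecPred fun a => f a = g a := Primrec.eq.comp hf hg

private theorem dig1 {B w i : α → ℕ} (hB : Primrec B) (hw : Primrec w) (hi : Primrec i) :
    Primrec fun a => dig (B a) (w a) (i a) :=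
  Primrec.nat_mod.comp (Primrec.nat_div.comp hw (primrec_pow.comp hB hi)) hB

private theorem mul1 {f g : α → ℕ} (hf : Primrec f) (hg : Primrec g) : Primrec fun a => f a * g a :=
  Primrec.nat_mul.comp hf hg

private theorem add1 {f g : α → ℕ} (hf : Primrec f) (hg : Primrec g) : Primrec fun a => f a + g a :=
  Primrec.nat_add.comp hf hg

private theorem pow1 {f g : α → ℕ} (hf : Primrec f) (hg : Primrec g) : Primrec fun a => f a ^ g a :=
  primrec_pow.comp hf hg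

private theorem B1 {K : α → ℕ} (hK : Primrec K) : Primrec fun a => 2 * 2 ^ K a + 1 :=
  add1 (mul1 (Primrec.const 2) (pow1 (Primrec.const 2) hK)) (Primrec.const 1)

private theorem gvec1 {K w i : α → ℕ} (hK : Primrec K) (hw : Primrec w) (hi : Primrec i) :
    Primrec fun a => gvec (K a) (w a) (i a) := by
  have h2 : Primrec fun a => 2 ^ K a := pow1 (Primrec.const 2) hK
  have h3 : Primrec fun a => 2 * i a := mul1 (Primrec.const 2) hi
  exact ((dig1 (B1 hK) hw h3).pair h2).pair ((dig1 (B1 hK) hw (add1 h3 (Primrec.const 1))).pair h2)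

end

theorem primrec_cert : PrimrecPred fun x : ℕ × ℕ × Form × ℕ => Cert x.1 x.2.1 x.2.2.1 x.2.2.2 := by
  unfold Cert
  have hm : Primrec fun x : ℕ × ℕ × Form × ℕ => x.1 := Primrec.fst
  have hs : Primrec fun x : ℕ × ℕ × Form × ℕ => x.2.1 := Primrec.fst.comp Primrec.snd
  have hf : Primrec fun x : ℕ × ℕ × Form × ℕ => x.2.2.1 :=
    Primrec.fst.comp (Primrec.snd.comp Primrec.snd)
  have hK : Primrec fun x : ℕ × ℕ × Form × ℕ => x.2.2.2 :=
    Primrec.snd.comp (Primrec.snd.comp Primrec.snd)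
  have hm1 : Primrec fun x : ℕ × ℕ × Form × ℕ => x.1 + 1 := add1 hm (Primrec.const 1)
  refine ballLt (pow1 (B1 hK) (mul1 (Primrec.const 2) hm1)) ?_
  -- context x, w
  have hx : Primrec fun q : (ℕ × ℕ × Form × ℕ) × ℕ => q.1 := Primrec.fst
  have c1 : PrimrecPred fun q : (ℕ × ℕ × Form × ℕ) × ℕ =>
      ∀ i < q.1.1 + 1, i < q.1.2.1 → nsq (gvec q.1.2.2.2 q.2 i) = 0 := by
    refine ballLt (hm1.comp hx) ?_
    have hxx : Primrec fun r : ((ℕ × ℕ × Form × ℕ) × ℕ) × ℕ => r.1.1 := Primrec.fst.comp Primrec.fst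
    have hw : Primrec fun r : ((ℕ × ℕ × Form × ℕ) × ℕ) × ℕ => r.1.2 := Primrec.snd.comp Primrec.fst
    exact primrecPred_imp (PrimrecRel.comp Primrec.nat_lt Primrec.snd (hs.comp hxx))
      (eqp (primrec_nsq.comp (gvec1 (hK.comp hxx) hw Primrec.snd)) (Primrec.const 0))
  have c2 : PrimrecPred fun q : (ℕ × ℕ × Form × ℕ) × ℕ =>
      ∃ i < q.1.1 + 1, (dig (2 * 2 ^ q.1.2.2.2 + 1) q.2 (2 * i) = 0 ∨
        dig (2 * 2 ^ q.1.2.2.2 + 1) q.2 (2 * i) = 2 * 2 ^ q.1.2.2.2) ∨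
      (dig (2 * 2 ^ q.1.2.2.2 + 1) q.2 (2 * i + 1) = 0 ∨
        dig (2 * 2 ^ q.1.2.2.2 + 1) q.2 (2 * i + 1) = 2 * 2 ^ q.1.2.2.2) := by
    refine bexLt (hm1.comp hx) ?_
    have hxx : Primrec fun r : ((ℕ × ℕ × Form × ℕ) × ℕ) × ℕ => r.1.1 := Primrec.fst.comp Primrec.fst
    have hw : Primrec fun r : ((ℕ × ℕ × Form × ℕ) × ℕ) × ℕ => r.1.2 := Primrec.snd.comp Primrec.fst
    have h2K : Primrec fun r : ((ℕ × ℕ × Form × ℕ) × ℕ) × ℕ => 2 * 2 ^ r.1.1.2.2.2 :=
      mul1 (Primrec.const 2) (pow1 (Primrec.const 2) (hK.comp hxx))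
    have h2i : Primrec fun r : ((ℕ × ℕ × Form × ℕ) × ℕ) × ℕ => 2 * r.2 :=
      mul1 (Primrec.const 2) Primrec.snd
    have d1 := dig1 (B1 (hK.comp hxx)) hw h2i
    have d2 := dig1 (B1 (hK.comp hxx)) hw (add1 h2i (Primrec.const 1))
    exact ((eqp d1 (Primrec.const 0)).or (eqp d1 h2K)).or ((eqp d2 (Primrec.const 0)).or (eqp d2 h2K))
  have c3 : PrimrecPred fun q : (ℕ × ℕ × Form × ℕ) × ℕ =>
      ∃ k < q.1.1 + 1, q.1.2.1 ≤ k ∧
        4 * wt (der k q.1.2.2.1) ^ 2 * 4 ^ (q.1.2.2.2 * (deg0 q.1.2.2.1 - 1)) <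
        4 ^ q.1.2.2.2 * nsq (evalG q.1.1 (der k q.1.2.2.1) (gvec q.1.2.2.2 q.2)) := by
    refine bexLt (hm1.comp hx) ?_
    have hxx : Primrec fun r : ((ℕ × ℕ × Form × ℕ) × ℕ) × ℕ => r.1.1 := Primrec.fst.comp Primrec.fst
    have hw : Primrec fun r : ((ℕ × ℕ × Form × ℕ) × ℕ) × ℕ => r.1.2 := Primrec.snd.comp Primrec.fst
    have hder : Primrec fun r : ((ℕ × ℕ × Form × ℕ) × ℕ) × ℕ => der r.2 r.1.1.2.2.1 :=
      primrec_der.comp Primrec.snd (hf.comp hxx)
    have h1 : Primrec fun r : ((ℕ × ℕ × Form × ℕ) × ℕ) × ℕ =>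
        4 * wt (der r.2 r.1.1.2.2.1) ^ 2 * 4 ^ (r.1.1.2.2.2 * (deg0 r.1.1.2.2.1 - 1)) :=
      mul1 (mul1 (Primrec.const 4) (pow1 (primrec_wt.comp hder) (Primrec.const 2)))
        (pow1 (Primrec.const 4) (mul1 (hK.comp hxx)
          (Primrec.nat_sub.comp (primrec_deg0.comp (hf.comp hxx)) (Primrec.const 1))))
    have hv : Primrec₂ fun (r : ((ℕ × ℕ × Form × ℕ) × ℕ) × ℕ) (i : ℕ) =>
        gvec r.1.1.2.2.2 r.1.2 i :=
      gvec1 ((hK.comp hxx).comp Primrec.fst) (hw.comp Primrec.fst) Primrec.snd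
    have h2 : Primrec fun r : ((ℕ × ℕ × Form × ℕ) × ℕ) × ℕ =>
        4 ^ r.1.1.2.2.2 * nsq (evalG r.1.1.1 (der r.2 r.1.1.2.2.1) (gvec r.1.1.2.2.2 r.1.2)) :=
      mul1 (pow1 (Primrec.const 4) (hK.comp hxx))
        (primrec_nsq.comp (primrec_evalG (hm.comp hxx) hder hv))
    exact (PrimrecRel.comp Primrec.nat_le (hs.comp hxx) Primrec.snd).and
      (PrimrecRel.comp Primrec.nat_lt h1 h2)
  exact primrecPred_imp c1 (primrecPred_imp c2 c3)

end Pool.Agent.Work.MP_90e0ad_ag.Hs
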