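import Pool.Agent.Work.MP_90e0ad_ag.Hs.PrimI

/-!
MP_90e0ad_ag/Hs, module PrimF (size M-L). The functions of step B are primitive recursive: compositions of
PrimI with Primrec.list_map, list_flatMap, list_range, list_append, list_length, list_getD, primrec_pow,
Primrec.nat_div, nat_mod. For nested maps carry the whole context as a pair (context, new variable);
the tactic block of PrimCond (repeat' first | with_reducible exact Primrec.fst | ... | with_reducible apply
...) works well after unfold; state composition versions of the lemmas of PrimI first, such as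
theorem exps' {f : α → ℕ} {g : α → List ℕ} (hf : Primrec f) (hg : Primrec g) : Primrec fun a => exps (f a) (g a).
-/

namespace Pool.Agent.Work.MP_90e0ad_ag.Hs

open Pool.Agent.Work.MP_90e0ad_ag

section

variable {α : Type} [Primcodable α]

private theorem exps' {f : α → ℕ} {g : α → List ℕ} (hf : Primrec f) (hg : Primrec g) :
    Primrec fun a => exps (f a) (g a) := primrec_exps.comp hf hg

private theorem word' {g : α → List ℕ} (hg : Primrec g) : Primrec fun a => word (g a) :=
  primrec_word.comp hg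

private theorem rep' {f g : α → ℕ} (hf : Primrec f) (hg : Primrec g) :
    Primrec fun a => rep (f a) (g a) := primrec_rep.comp hf hg

private theorem digs' {f g h : α → ℕ} (hf : Primrec f) (hg : Primrec g) (hh : Primrec h) :
    Primrec fun a => digs (f a) (g a) (h a) := primrec_digs.comp (hf.pair (hg.pair hh))

private theorem add' {f g : α → ℕ} (hf : Primrec f) (hg : Primrec g) : Primrec fun a => f a + g a :=
  Primrec.nat_add.comp hf hg

private theorem mul' {f g : α → ℕ} (hf : Primrec f) (hg : Primrec g) : Primrec fun a => f a * g a :=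
  Primrec.nat_mul.comp hf hg

private theorem sub' {f g : α → ℕ} (hf : Primrec f) (hg : Primrec g) : Primrec fun a => f a - g a :=
  Primrec.nat_sub.comp hf hg

private theorem div' {f g : α → ℕ} (hf : Primrec f) (hg : Primrec g) : Primrec fun a => f a / g a :=
  Primrec.nat_div.comp hf hg

private theorem mod' {f g : α → ℕ} (hf : Primrec f) (hg : Primrec g) : Primrec fun a => f a % g a :=
  Primrec.nat_mod.comp hf hg

private theorem pow' {f g : α → ℕ} (hf : Primrec f) (hg : Primrec g) : Primrec fun a => f a ^ g a :=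
  primrec_pow.comp hf hg

private theorem app' {β : Type} [Primcodable β] {f g : α → List β} (hf : Primrec f) (hg : Primrec g) :
    Primrec fun a => f a ++ g a := Primrec.list_append.comp hf hg

private theorem sum' {f : α → List ℕ} (hf : Primrec f) : Primrec fun a => (f a).sum :=
  primrec_listSum.comp hf

private theorem fst' {β γ : Type} [Primcodable β] [Primcodable γ] {f : α → β × γ} (hf : Primrec f) :
    Primrec fun a => (f a).1 := Primrec.fst.comp hf

private theorem snd' {β γ : Type} [Primcodable β] [Primcodable γ] {f : α → β × γ} (hf : Primrec f) :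
    Primrec fun a => (f a).2 := Primrec.snd.comp hf

private theorem map' {β γ : Type} [Primcodable β] [Primcodable γ] {f : α → List β} {g : α → β → γ}
    (hf : Primrec f) (hg : Primrec fun q : α × β => g q.1 q.2) : Primrec fun a => (f a).map (g a) :=
  Primrec.list_map hf hg

private theorem fmap' {β γ : Type} [Primcodable β] [Primcodable γ] {f : α → List β}
    {g : α → β → List γ} (hf : Primrec f) (hg : Primrec fun q : α × β => g q.1 q.2) :
    Primrec fun a => (f a).flatMap (g a) :=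
  Primrec.list_flatMap hf hg

private theorem imul' {f g : α → ℤ} (hf : Primrec f) (hg : Primrec g) : Primrec fun a => f a * g a :=
  primrec_intMul.comp hf hg

private theorem cast' {f : α → ℕ} (hf : Primrec f) : Primrec fun a => ((f a : ℕ) : ℤ) :=
  primrec_natCast.comp hf

private theorem one' {β : Type} [Primcodable β] {f : α → β} (hf : Primrec f) :
    Primrec fun a => [f a] := Primrec.list_cons.comp hf (Primrec.const [])

end

theorem primrec_eOf : Primrec eOf :=
  add' (sum' (map' Primrec.id (primrec_deg0.comp Primrec.snd))) (Primrec.const 1)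

private theorem primrec_mulTo : Primrec fun x : ℕ × ℕ × ℕ × Form => mulTo x.1 x.2.1 x.2.2.1 x.2.2.2 := by
  have hn : Primrec fun q : (ℕ × ℕ × ℕ × Form) × (ℤ × List ℕ) => q.1.1 := fst' Primrec.fst
  have he : Primrec fun q : (ℕ × ℕ × ℕ × Form) × (ℤ × List ℕ) => q.1.2.1 :=
    fst' (snd' Primrec.fst)
  have hk : Primrec fun q : (ℕ × ℕ × ℕ × Form) × (ℤ × List ℕ) => q.1.2.2.1 :=
    fst' (snd' (snd' Primrec.fst))
  have h2 : Primrec fun q : (ℕ × ℕ × ℕ × Form) × (ℤ × List ℕ) => q.2.2 := snd' Primrec.snd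
  exact map' (snd' (snd' Primrec.snd)) ((fst' Primrec.snd).pair
    (exps' hn (app' (word' h2) (rep' (sub' he (sum' h2)) hk))))

theorem primrec_eqDeg : Primrec fun x : ℕ × ℕ × List Form => eqDeg x.1 x.2.1 x.2.2 := by
  refine fmap' (snd' Primrec.snd) ?_
  refine map' (Primrec.list_range.comp (fst' Primrec.fst)) ?_
  exact primrec_mulTo.comp ((fst' (fst' Primrec.fst)).pair ((fst' (snd' (fst' Primrec.fst))).pair
    (Primrec.snd.pair (snd' Primrec.fst))))

private theorem primrec_padTo : Primrec fun x : ℕ × Form => padTo x.1 x.2 := by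
  refine map' Primrec.snd ?_
  exact (fst' Primrec.snd).pair (exps' (fst' Primrec.fst) (word' (snd' Primrec.snd)))

private theorem primrec_yMon : Primrec fun x : ℕ × ℕ × ℕ × ℕ × ℕ =>
    yMon x.1 x.2.1 x.2.2.1 x.2.2.2.1 x.2.2.2.2 := by
  have h1 : Primrec fun x : ℕ × ℕ × ℕ × ℕ × ℕ => x.1 := Primrec.fst
  have h2 : Primrec fun x : ℕ × ℕ × ℕ × ℕ × ℕ => x.2.1 := fst' Primrec.snd
  have h3 : Primrec fun x : ℕ × ℕ × ℕ × ℕ × ℕ => x.2.2.1 := fst' (snd' Primrec.snd)
  have h4 : Primrec fun x : ℕ × ℕ × ℕ × ℕ × ℕ => x.2.2.2.1 := fst' (snd' (snd' Primrec.snd))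
  have h5 : Primrec fun x : ℕ × ℕ × ℕ × ℕ × ℕ => x.2.2.2.2 := snd' (snd' (snd' Primrec.snd))
  exact one' ((Primrec.const (1 : ℤ)).pair (exps' h2 (Primrec.list_cons.comp
    (add' (add' h1 (Primrec.const 1)) h4) (rep' (sub' h3 (Primrec.const 1)) h5))))

theorem primrec_gens : Primrec fun x : ℕ × List Form => gens x.1 x.2 := by
  have hM1 : Primrec fun x : ℕ × List Form => x.1 + 1 := add' Primrec.fst (Primrec.const 1)
  have hM2 : Primrec fun x : ℕ × List Form => 2 * x.1 + 2 :=
    add' (mul' (Primrec.const 2) Primrec.fst) (Primrec.const 2)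
  have he : Primrec fun x : ℕ × List Form => eOf x.2 := primrec_eOf.comp Primrec.snd
  have h1 : Primrec fun x : ℕ × List Form => (eqDeg (x.1 + 1) (eOf x.2) x.2).map
      (padTo (2 * x.1 + 2)) :=
    map' (primrec_eqDeg.comp (hM1.pair (he.pair Primrec.snd)))
      (primrec_padTo.comp ((hM2.comp Primrec.fst).pair Primrec.snd))
  have hq : Primrec fun q : (ℕ × List Form) × ℕ => q.2 := Primrec.snd
  have h2 : Primrec fun x : ℕ × List Form =>
      (List.range ((x.1 + 1) * (2 * x.1 + 2))).map fun q =>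
        yMon x.1 (2 * x.1 + 2) (eOf x.2) (q / (2 * x.1 + 2)) (q % (2 * x.1 + 2)) :=
    map' (Primrec.list_range.comp (mul' hM1 hM2))
      (primrec_yMon.comp ((fst' Primrec.fst).pair ((hM2.comp Primrec.fst).pair
        ((he.comp Primrec.fst).pair ((div' hq (hM2.comp Primrec.fst)).pair
          (mod' hq (hM2.comp Primrec.fst)))))))
  exact app' h1 h2

theorem primrec_JJ : Primrec JJ := by
  have hM2 : Primrec fun x : ℕ => 2 * x + 2 :=
    add' (mul' (Primrec.const 2) Primrec.id) (Primrec.const 2)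
  have hM1 : Primrec fun x : ℕ => 2 * x + 1 :=
    add' (mul' (Primrec.const 2) Primrec.id) (Primrec.const 1)
  exact add' (add' (pow' hM2 (Primrec.const 3)) hM1) (Primrec.const 4)

theorem primrec_fForm : Primrec fun x : ℕ × ℕ × ℕ × List Form × List ℤ =>
    fForm x.1 x.2.1 x.2.2.1 x.2.2.2.1 x.2.2.2.2 := by
  have hm : Primrec fun x : ℕ × ℕ × ℕ × List Form × List ℤ => x.1 := Primrec.fst
  have hJ : Primrec fun x : ℕ × ℕ × ℕ × List Form × List ℤ => x.2.1 := fst' Primrec.snd
  have hN : Primrec fun x : ℕ × ℕ × ℕ × List Form × List ℤ => x.2.2.1 := fst' (snd' Primrec.snd)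
  have hG : Primrec fun x : ℕ × ℕ × ℕ × List Form × List ℤ => x.2.2.2.1 :=
    fst' (snd' (snd' Primrec.snd))
  have ha : Primrec fun x : ℕ × ℕ × ℕ × List Form × List ℤ => x.2.2.2.2 :=
    snd' (snd' (snd' Primrec.snd))
  refine fmap' (Primrec.list_range.comp (mul' (Primrec.list_length.comp hG) hJ)) ?_
  refine fmap' ((Primrec.list_getD []).comp (hG.comp Primrec.fst)
    (div' Primrec.snd (hJ.comp Primrec.fst))) ?_
  have hx : Primrec fun q : ((ℕ × ℕ × ℕ × List Form × List ℤ) × ℕ) × (ℤ × List ℕ) => q.1.1 :=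
    fst' Primrec.fst
  refine map' (Primrec.list_range.comp (pow' (hm.comp hx) (hN.comp hx))) ?_
  have hx2 : Primrec fun q : (((ℕ × ℕ × ℕ × List Form × List ℤ) × ℕ) × (ℤ × List ℕ)) × ℕ =>
    q.1.1.1 := fst' (fst' Primrec.fst)
  have hp2 : Primrec fun q : (((ℕ × ℕ × ℕ × List Form × List ℤ) × ℕ) × (ℤ × List ℕ)) × ℕ =>
    q.1.1.2 := snd' (fst' Primrec.fst)
  have hce : Primrec fun q : (((ℕ × ℕ × ℕ × List Form × List ℤ) × ℕ) × (ℤ × List ℕ)) × ℕ =>
    q.1.2 := snd' Primrec.fst
  have hd : Primrec fun q : (((ℕ × ℕ × ℕ × List Form × List ℤ) × ℕ) × (ℤ × List ℕ)) × ℕ =>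
    digs q.1.1.1.1 q.1.1.1.2.2.1 q.2 := digs' (hm.comp hx2) (hN.comp hx2) Primrec.snd
  exact (imul' (imul' ((Primrec.list_getD 0).comp (ha.comp hx2) hp2) (fst' hce))
    (cast' (pow' (Primrec.const 2) (mul' (pow' (hm.comp hx2) hp2) (sum' hd))))).pair
    (exps' (hm.comp hx2) (app' (word' (snd' hce)) hd))

theorem primrec_tForm : Primrec fun x : ℕ × ℕ × ℕ × ℕ × List Form × List ℤ =>
    tForm x.1 x.2.1 x.2.2.1 x.2.2.2.1 x.2.2.2.2.1 x.2.2.2.2.2 := by
  have hm : Primrec fun x : ℕ × ℕ × ℕ × ℕ × List Form × List ℤ => x.1 := Primrec.fst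
  have hJ : Primrec fun x : ℕ × ℕ × ℕ × ℕ × List Form × List ℤ => x.2.1 := fst' Primrec.snd
  have hN : Primrec fun x : ℕ × ℕ × ℕ × ℕ × List Form × List ℤ => x.2.2.1 :=
    fst' (snd' Primrec.snd)
  have he : Primrec fun x : ℕ × ℕ × ℕ × ℕ × List Form × List ℤ => x.2.2.2.1 :=
    fst' (snd' (snd' Primrec.snd))
  have hG : Primrec fun x : ℕ × ℕ × ℕ × ℕ × List Form × List ℤ => x.2.2.2.2.1 :=
    fst' (snd' (snd' (snd' Primrec.snd)))
  have ha : Primrec fun x : ℕ × ℕ × ℕ × ℕ × List Form × List ℤ => x.2.2.2.2.2 :=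
    snd' (snd' (snd' (snd' Primrec.snd)))
  exact Primrec.list_cons.comp
    (((Primrec.list_getD 0).comp ha (mul' (Primrec.list_length.comp hG) hJ)).pair
      (exps' hm (rep' (add' he hN) (Primrec.const 0))))
    (primrec_fForm.comp (hm.pair (hJ.pair (hN.pair (hG.pair ha)))))

private theorem primrec_cElim : Primrec fun x : ℕ × ℕ × ℕ => cElim x.1 x.2.1 x.2.2 :=
  mul' (mul' (Primrec.const 2) (pow' (Primrec.const 5) Primrec.fst))
    (add' (fst' Primrec.snd) (snd' Primrec.snd))

theorem primrec_N0x : Primrec fun x : ℕ × ℕ × ℕ => N0x x.1 x.2.1 x.2.2 := by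
  have hn : Primrec fun x : ℕ × ℕ × ℕ => x.1 := Primrec.fst
  have he : Primrec fun x : ℕ × ℕ × ℕ => x.2.1 := fst' Primrec.snd
  have hk : Primrec fun x : ℕ × ℕ × ℕ => x.2.2 := snd' Primrec.snd
  have hn1 : Primrec fun x : ℕ × ℕ × ℕ => x.1 + 1 := add' hn (Primrec.const 1)
  have he1 : Primrec fun x : ℕ × ℕ × ℕ => x.2.1 + 1 := add' he (Primrec.const 1)
  have h2e : Primrec fun x : ℕ × ℕ × ℕ => 2 * x.2.1 := mul' (Primrec.const 2) he
  exact add' (mul' hn1 (mul' (mul' (mul' (Primrec.const 2) (pow' hn hn)) hn)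
    (primrec_cElim.comp (hk.pair ((mul' (pow' he1 hn1) h2e).pair (mul' (Primrec.const 2) hn1))))))
    (Primrec.const 1)

private theorem primrec_BTx : Primrec fun x : ℕ × ℕ × ℕ => BTx x.1 x.2.1 x.2.2 := by
  have hn : Primrec fun x : ℕ × ℕ × ℕ => x.1 := Primrec.fst
  have he : Primrec fun x : ℕ × ℕ × ℕ => x.2.1 := fst' Primrec.snd
  have hk : Primrec fun x : ℕ × ℕ × ℕ => x.2.2 := snd' Primrec.snd
  have hn1 : Primrec fun x : ℕ × ℕ × ℕ => x.1 + 1 := add' hn (Primrec.const 1)
  have he1 : Primrec fun x : ℕ × ℕ × ℕ => x.2.1 + 1 := add' he (Primrec.const 1)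
  have h2e : Primrec fun x : ℕ × ℕ × ℕ => 2 * x.2.1 := mul' (Primrec.const 2) he
  exact mul' (add' (mul' (mul' (Primrec.const 2) (pow' hn hn)) hn) (mul' (Primrec.const 2) hn))
    (mul' (Primrec.const 2) (primrec_cElim.comp ((add' hk (Primrec.const 2)).pair
      ((add' (mul' (pow' he1 hn1) h2e) h2e).pair (mul' (Primrec.const 2) hn1)))))

theorem primrec_N0t : Primrec fun x : ℕ × ℕ × ℕ => N0t x.1 x.2.1 x.2.2 := by
  have hn : Primrec fun x : ℕ × ℕ × ℕ => x.1 := Primrec.fst
  have he : Primrec fun x : ℕ × ℕ × ℕ => x.2.1 := fst' Primrec.snd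
  have hk : Primrec fun x : ℕ × ℕ × ℕ => x.2.2 := snd' Primrec.snd
  have hn1 : Primrec fun x : ℕ × ℕ × ℕ => x.1 + 1 := add' hn (Primrec.const 1)
  have he1 : Primrec fun x : ℕ × ℕ × ℕ => x.2.1 + 1 := add' he (Primrec.const 1)
  exact add' (mul' hn1 (add' primrec_BTx (mul' primrec_BTx (add' (Primrec.const 1)
    (mul' hk (add' (mul' (pow' he1 hn1) he) hn1)))))) (Primrec.const 1)

end Pool.Agent.Work.MP_90e0ad_ag.Hs
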