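import Pool.Agent.Work.MP_90e0ad_ag.Hs.Fun
import Pool.Agent.Work.MP_90e0ad_ag.PrimMain

/-!
MP_90e0ad_ag/Hs, module PrimI (size M). The basic list functions are primitive recursive.

Use Primrec.list_map, list_range, list_flatMap, list_foldr, primrec_listSum, primrec_pow (PrimBase),
Primrec.nat_div, nat_mod, Primrec.ite with Primrec.eq, Primrec.list_getD; with_reducible apply as in
PrimCond (namespace PC has handy composition lemmas add', mul', pow', div', mod' ...).
Integers: primrec_toNat, primrec_negToNat (PrimBase) give z ↦ z.toNat and z ↦ (-z).toNat. Conversely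
natSub: (a, b) ↦ (a : ℤ) - b is primitive recursive: its code (Equiv.intEquivNat, encode of ofNat n is
2 n, of negSucc n is 2 n + 1) is if b <= a then 2 (a - b) else 2 (b - a) - 1 =: c, and the value is
decode c: use Primrec.encode_iff (Primrec f ↔ Primrec (encode ∘ f)). Then x y = natSub(x⁺ y⁺ + x⁻ y⁻, x⁺ y⁻ +
x⁻ y⁺).
-/

namespace Pool.Agent.Work.MP_90e0ad_ag.Hs

open Pool.Agent.Work.MP_90e0ad_ag

private theorem enc_int (z : ℤ) : Encodable.encode z = Equiv.intEquivNat z := rfl

theorem primrec_intSub : Primrec fun x : ℕ × ℕ => (x.1 : ℤ) - (x.2 : ℤ) := by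
  rw [← Primrec.encode_iff]
  have h1 : PrimrecPred fun x : ℕ × ℕ => x.2 ≤ x.1 := Primrec.nat_le.comp Primrec.snd Primrec.fst
  have h2 : Primrec fun x : ℕ × ℕ => 2 * (x.1 - x.2) :=
    Primrec.nat_mul.comp (Primrec.const 2) (Primrec.nat_sub.comp Primrec.fst Primrec.snd)
  have h3 : Primrec fun x : ℕ × ℕ => 2 * (x.2 - x.1) - 1 :=
    Primrec.nat_sub.comp (Primrec.nat_mul.comp (Primrec.const 2)
      (Primrec.nat_sub.comp Primrec.snd Primrec.fst)) (Primrec.const 1)
  refine (Primrec.ite h1 h2 h3).of_eq fun x => ?_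
  obtain ⟨a, b⟩ := x
  simp only
  rw [enc_int]
  split_ifs with h
  · have : (a : ℤ) - (b : ℤ) = Int.ofNat (a - b) := by
      rw [Int.ofNat_eq_natCast]
      omega
    rw [this]
    rfl
  · have : (a : ℤ) - (b : ℤ) = Int.negSucc (b - a - 1) := by
      rw [Int.negSucc_eq]
      omega
    rw [this]
    have h4 : Equiv.intEquivNat (Int.negSucc (b - a - 1)) = 2 * (b - a - 1) + 1 := rfl
    rw [h4]
    omega

theorem primrec_natCast : Primrec fun n : ℕ => (n : ℤ) :=
  (primrec_intSub.comp (Primrec.id.pair (Primrec.const 0))).of_eq fun n => by simp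

theorem primrec_intMul : Primrec₂ fun a b : ℤ => a * b := by
  have hp : Primrec fun x : ℤ × ℤ => x.1.toNat := primrec_toNat.comp Primrec.fst
  have hn : Primrec fun x : ℤ × ℤ => (-x.1).toNat := primrec_negToNat.comp Primrec.fst
  have hp' : Primrec fun x : ℤ × ℤ => x.2.toNat := primrec_toNat.comp Primrec.snd
  have hn' : Primrec fun x : ℤ × ℤ => (-x.2).toNat := primrec_negToNat.comp Primrec.snd
  refine (primrec_intSub.comp
    ((Primrec.nat_add.comp (Primrec.nat_mul.comp hp hp') (Primrec.nat_mul.comp hn hn')).pair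
      (Primrec.nat_add.comp (Primrec.nat_mul.comp hp hn') (Primrec.nat_mul.comp hn hp')))).of_eq ?_
  rintro ⟨a, b⟩
  have h1 : a = (a.toNat : ℤ) - ((-a).toNat : ℤ) := (Int.toNat_sub_toNat_neg a).symm
  have h2 : b = (b.toNat : ℤ) - ((-b).toNat : ℤ) := (Int.toNat_sub_toNat_neg b).symm
  simp only
  conv_rhs => rw [h1, h2]
  push_cast
  ring

theorem primrec_intNeg : Primrec fun a : ℤ => -a :=
  (primrec_intMul.comp (Primrec.const (-1)) Primrec.id).of_eq fun a => by simp

theorem primrec_cnt : Primrec₂ cnt := by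
  have h1 : PrimrecPred fun q : (List ℕ × ℕ) × ℕ => q.2 = q.1.2 :=
    Primrec.eq.comp Primrec.snd (Primrec.snd.comp Primrec.fst)
  have h2 : Primrec fun q : (List ℕ × ℕ) × ℕ => if q.2 = q.1.2 then 1 else 0 :=
    Primrec.ite h1 (Primrec.const 1) (Primrec.const 0)
  exact primrec_listSum.comp (Primrec.list_map Primrec.fst h2)

theorem primrec_rep : Primrec₂ rep :=
  Primrec.list_map (Primrec.list_range.comp Primrec.fst)
    (Primrec.snd.comp Primrec.fst : Primrec fun q : (ℕ × ℕ) × ℕ => q.1.2)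

theorem primrec_exps : Primrec₂ exps := by
  have h1 : Primrec fun q : (ℕ × List ℕ) × ℕ => cnt q.1.2 q.2 :=
    primrec_cnt.comp (Primrec.snd.comp Primrec.fst) Primrec.snd
  exact Primrec.list_map (Primrec.list_range.comp Primrec.fst) h1

theorem primrec_word : Primrec word := by
  have h0 : Primrec fun q : List ℕ × ℕ => q.1.getD q.2 0 :=
    (Primrec.list_getD 0).comp Primrec.fst Primrec.snd
  have h1 : Primrec fun q : List ℕ × ℕ => rep (q.1.getD q.2 0) q.2 :=
    primrec_rep.comp h0 Primrec.snd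
  exact Primrec.list_flatMap (Primrec.list_range.comp Primrec.list_length) h1

theorem primrec_digs : Primrec fun x : ℕ × ℕ × ℕ => digs x.1 x.2.1 x.2.2 := by
  have h1 : Primrec fun q : (ℕ × ℕ × ℕ) × ℕ => q.1.2.2 / q.1.1 ^ q.2 % q.1.1 :=
    Primrec.nat_mod.comp (Primrec.nat_div.comp
      (Primrec.snd.comp (Primrec.snd.comp Primrec.fst))
      (primrec_pow.comp (Primrec.fst.comp Primrec.fst) Primrec.snd)) (Primrec.fst.comp Primrec.fst)
  exact Primrec.list_map (Primrec.list_range.comp (Primrec.fst.comp Primrec.snd)) h1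

theorem primrec_ofD : Primrec₂ ofD := by
  have h1 : Primrec₂ fun (x : ℕ × List ℕ) (q : ℕ × ℕ) => q.1 + x.1 * q.2 :=
    Primrec.nat_add.comp (Primrec.fst.comp Primrec.snd)
      (Primrec.nat_mul.comp (Primrec.fst.comp Primrec.fst) (Primrec.snd.comp Primrec.snd))
  exact Primrec.list_foldr (f := fun x : ℕ × List ℕ => x.2) (g := fun _ => 0) Primrec.snd
    (Primrec.const 0) h1

end Pool.Agent.Work.MP_90e0ad_ag.Hs
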