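import Pool.Agent.Work.MP_90e0ad_ag.Hs.Fun
import Pool.Agent.Work.MP_90e0ad_ag.PrimMain

/-!
MP_90e0ad_ag/Hs, module Search (size S). Unbounded search (Partrec.rfind / Nat.rfind on the test
decode y = some b ∧ p a b; total because of h) and the test for valid inputs.
exists_search: let t a y : Bool := decide (match decode y with | some b => p a b | none => False)
(Primrec.option_casesOn, PrimrecRel.decide); Nat.rfind is total, its value is a computable
function n(a) (Computable from Partrec with total domain: Partrec.of_eq / Computable iff), g a :=
(decode (n a)).getD default, or use Option.get; Nonempty β follows from h unless α is empty (α empty: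
Primcodable α may be empty; then any function is fine, e.g. by isEmptyElim with Computable.of_eq or
Primrec.const with a case distinction).
-/

namespace Pool.Agent.Work.MP_90e0ad_ag.Hs

open Pool.Agent.Work.MP_90e0ad_ag

theorem exists_search {α β : Type} [Primcodable α] [Primcodable β] (p : α → β → Prop)
    (hp : PrimrecRel p) (h : ∀ a, ∃ b, p a b) : ∃ g : α → β, Computable g ∧ ∀ a, p a (g a) := by
  classical
  have hd : Primrec₂ fun (a : α) (b : β) => decide (p a b) := hp.decide
  let t : α → ℕ → Bool := fun a n =>
    Option.casesOn (Encodable.decode (α := β) n) false fun b => decide (p a b)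
  have ht : Primrec₂ t := by
    have h1 : Primrec fun x : α × ℕ => Encodable.decode (α := β) x.2 :=
      Primrec.decode.comp Primrec.snd
    have h2 : Primrec₂ fun (x : α × ℕ) (b : β) => decide (p x.1 b) :=
      hd.comp (Primrec.fst.comp Primrec.fst) Primrec.snd
    exact Primrec.option_casesOn h1 (Primrec.const false) h2
  have hr : Partrec fun a : α => Nat.rfind fun n => Part.some (t a n) :=
    Partrec.rfind ht.to_comp.partrec
  have hdom : ∀ a, (Nat.rfind fun n => Part.some (t a n)).Dom := by
    intro a
    obtain ⟨b, hb⟩ := h a
    rw [Nat.rfind_dom]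
    refine ⟨Encodable.encode b, ?_, fun _ => trivial⟩
    have h3 : t a (Encodable.encode b) = true := by
      simp only [t, Encodable.encodek]
      exact decide_eq_true hb
    rw [Part.mem_some_iff]
    exact h3.symm
  let n : α → ℕ := fun a => (Nat.rfind fun n => Part.some (t a n)).get (hdom a)
  have hn : Computable n := hr.of_eq fun a => (Part.some_get (hdom a)).symm
  have hspec : ∀ a, t a (n a) = true := by
    intro a
    have h4 := Nat.rfind_spec (Part.get_mem (hdom a))
    rw [Part.mem_some_iff] at h4
    exact h4.symm
  have hex : ∀ a, ∃ b : β, Encodable.decode (α := β) (n a) = some b ∧ p a b := by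
    intro a
    have h5 := hspec a
    simp only [t] at h5
    cases h6 : Encodable.decode (α := β) (n a) with
    | none => rw [h6] at h5; exact absurd h5 (by simp)
    | some b =>
      rw [h6] at h5
      exact ⟨b, rfl, of_decide_eq_true h5⟩
  choose g hg1 hg2 using hex
  refine ⟨g, ?_, hg2⟩
  rw [← Computable.option_some_iff]
  exact (Computable.decode.comp hn).of_eq fun a => hg1 a

theorem primrec_isForm : PrimrecPred fun x : ℕ × List Form => ∀ P ∈ x.2, IsForm x.1 P := by
  have h1 : Primrec fun x : ℕ × List Form => ((x.1, x.2, []) : Input) :=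
    Primrec.fst.pair (Primrec.snd.pair (Primrec.const []))
  exact (PrimrecPred.comp primrec_valid h1).of_eq fun x => by simp

theorem primrec_nonzero : PrimrecPred fun x : ℕ × List ℤ => ∀ p < x.1, x.2.getD p 0 ≠ 0 := by
  have h1 : PrimrecRel fun (x : ℕ × List ℤ) (p : ℕ) => x.2.getD p 0 ≠ 0 :=
    (PrimrecRel.comp Primrec.eq ((Primrec.list_getD 0).comp (Primrec.snd.comp Primrec.fst)
      Primrec.snd) (Primrec.const 0)).not
  exact ballLt Primrec.fst h1

end Pool.Agent.Work.MP_90e0ad_ag.Hs
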