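import Pool.Agent.Work.MP_90e0ad_ag.Hs.StepAX

/-!
MP_90e0ad_ag/Hs, module StepAM (size M): see the header of StepAX for the proof.
-/

namespace Pool.Agent.Work.MP_90e0ad_ag.Hs

open Pool.Agent.Work.MP_90e0ad_ag

private theorem len_V (δ : ℕ) (hδ : 1 ≤ δ) (i j : ℕ) : (j :: rep (δ - 1) i).length = δ := by
  rw [List.length_cons, rep_length]; omega

private theorem lt_V (n δ i j : ℕ) (hi : i < n + 1) (hj : j < n + 1) :
    ∀ y ∈ (j :: rep (δ - 1) i), y < n + 1 := by
  intro y hy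
  rcases List.mem_cons.1 hy with rfl | hy
  · exact hj
  · rw [mem_rep hy]; exact hi

private theorem ev_map_V (n δ : ℕ) (hδ : 1 ≤ δ) (H : List Form) (v : Fin (n + 1) → ℂ) (i : ℕ)
    (hi : i < n + 1) (l : List ℕ) (hl : ∀ y ∈ l, y < n + 1) :
    ev (nuW n δ H v) (l.map fun j => ti (n + 1) H.length (j :: rep (δ - 1) i)) =
      (v ⟨i, hi⟩ ^ (δ - 1)) ^ l.length * ev v l := by
  induction l with
  | nil => simp [ev_nil]
  | cons a l ih =>
    have ha := hl a (by simp)
    rw [List.map_cons, ev_cons _ _ (ti_lt n δ _ i a hδ hi ha),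
      ih fun y hy => hl y (List.mem_cons_of_mem _ hy), nuW_ti n δ H v _ (len_V δ hδ i a)
        (lt_V n δ i a hi ha), ev_cons v a ha, ev_rep v _ i hi, ev_cons v a ha, List.length_cons, pow_succ]
    ring

private theorem len_W (n δ j : ℕ) (hj : j < n + 1) : ∀ y ∈ rep δ j, y < n + 1 := fun y hy => by
  rw [mem_rep hy]; exact hj

private theorem ti_W_lt (n δ r j : ℕ) (hj : j < n + 1) : ti (n + 1) r (rep δ j) < mA n δ r + 1 :=
  ti_lt_of n δ r _ (rep_length _ _) (len_W n δ j hj)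

private theorem ev_map_W (n δ : ℕ) (H : List Form) (v : Fin (n + 1) → ℂ)
    (l : List ℕ) (hl : ∀ y ∈ l, y < n + 1) :
    ev (nuW n δ H v) (l.map fun j => ti (n + 1) H.length (rep δ j)) = ev v l ^ δ := by
  induction l with
  | nil => simp [ev_nil]
  | cons a l ih =>
    have ha := hl a (by simp)
    rw [List.map_cons, ev_cons _ _ (ti_W_lt n δ _ a ha),
      ih fun y hy => hl y (List.mem_cons_of_mem _ hy), nuW_ti n δ H v _ (rep_length _ _)
        (len_W n δ a ha), ev_cons v a ha, ev_rep v _ a ha, mul_pow]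

private theorem nuW_w (n δ : ℕ) (H : List Form) (v : Fin (n + 1) → ℂ) (w : ℕ)
    (h : H.length + w < mA n δ H.length + 1) :
    nuW n δ H v ⟨H.length + w, h⟩ = ev v (digs (n + 1) δ w) := by
  unfold nuW
  have h1 : ¬ H.length + w < H.length := by omega
  simp only [h1, if_false, Nat.add_sub_cancel_left]

private theorem evR_eqL (n δ d : ℕ) (hδ : 1 ≤ δ) (H : List Form) (v : Fin (n + 1) → ℂ) (i : ℕ)
    (hi : i < n + 1) (P : Form) (hP : HasDeg n d P) :
    evR (mA n δ H.length) (eqL n δ H.length i P) (nuW n δ H v) =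
      (v ⟨i, hi⟩ ^ (δ - 1)) ^ d * evR n P v := by
  unfold eqL
  rw [evR_mon (mA n δ H.length) P (fun ce => ce.1)
    (fun ce => (word ce.2).map fun j => ti (n + 1) H.length (j :: rep (δ - 1) i))]
  induction P with
  | nil => simp [evR_nil]
  | cons ce P ih =>
    obtain ⟨h1, h2⟩ := hP ce (by simp)
    rw [List.map_cons, List.sum_cons, ih fun x hx => hP x (List.mem_cons_of_mem _ hx), evR_cons,
      ev_map_V n δ hδ H v i hi _ (fun y hy => by rw [← h1]; exact word_lt hy), word_length, h2,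
      ev_word v _ h1]
    ring

private theorem evR_eqY (n δ a : ℕ) (H : List Form) (hH : ∀ P ∈ H, HasDeg n δ P) (ha : a < H.length)
    (v : Fin (n + 1) → ℂ) :
    evR (mA n δ H.length) (eqY n δ H.length a (H.getD a [])) (nuW n δ H v) = 0 := by
  have h0 : 0 < (n + 1) ^ δ := Nat.pos_of_ne_zero (pow_ne_zero _ (Nat.succ_ne_zero n))
  have ha2 : a < mA n δ H.length + 1 := by rw [mA_succ]; omega
  unfold eqY
  rw [evR_cons, prod_exps, ev_cons _ a ha2, ev_nil, evR_mon (mA n δ H.length) (H.getD a [])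
    (fun ce => -ce.1) (fun ce => [ti (n + 1) H.length (word ce.2)])]
  have h1 : nuW n δ H v ⟨a, ha2⟩ = evR n (H.getD a []) v := by
    unfold nuW
    simp only [ha, if_true]
    rfl
  have hd : HasDeg n δ (H.getD a []) := by
    rw [List.getD_eq_getElem _ _ ha]; exact hH _ (List.getElem_mem ha)
  rw [h1]
  generalize H.getD a [] = P at *
  have h2 : (P.map fun x => (((-x.1 : ℤ)) : ℂ) * ev (nuW n δ H v) [ti (n + 1) H.length (word x.2)]).sum =
      - evR n P v := by
    clear h1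
    induction P with
    | nil => simp [evR_nil]
    | cons ce P ih =>
      obtain ⟨h1, h2⟩ := hd ce (by simp)
      have hw : (word ce.2).length = δ := by rw [word_length, h2]
      have hw2 : ∀ y ∈ word ce.2, y < n + 1 := fun y hy => by rw [← h1]; exact word_lt hy
      rw [List.map_cons, List.sum_cons, ih fun x hx => hd x (List.mem_cons_of_mem _ hx), evR_cons,
        ev_cons _ _ (ti_lt_of n δ _ _ hw hw2), ev_nil, nuW_ti n δ H v _ hw hw2, ev_word v _ h1]
      push_cast
      ring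
  rw [h2]
  push_cast
  ring

private theorem evR_two (m : ℕ) (l l' : List ℕ) (u : Fin (m + 1) → ℂ) :
    evR m [((1 : ℤ), exps (m + 1) l), (-1, exps (m + 1) l')] u = ev u l - ev u l' := by
  rw [evR_cons, evR_cons, evR_nil, prod_exps, prod_exps]
  push_cast
  ring

private theorem evR_eqV (n δ : ℕ) (hδ : 1 ≤ δ) (H : List Form) (v : Fin (n + 1) → ℂ) (i w : ℕ)
    (hi : i < n + 1) (hw : w < (n + 1) ^ δ) :
    evR (mA n δ H.length) (eqV n δ H.length i w) (nuW n δ H v) = 0 := by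
  have hlt : H.length + w < mA n δ H.length + 1 := by rw [mA_succ]; omega
  unfold eqV
  rw [evR_two, ev_cons _ _ hlt, nuW_w, ev_rep _ _ _ (ti_W_lt n δ _ i hi),
    nuW_ti n δ H v _ (rep_length _ _) (len_W n δ i hi), ev_rep v _ i hi,
    ev_map_V n δ hδ H v i hi _ (fun y hy => digs_lt (Nat.succ_pos n) hy), digs_length,
    ← pow_mul, ← pow_mul, Nat.mul_comm δ (δ - 1)]
  ring

private theorem evR_eqW (n δ : ℕ) (H : List Form) (v : Fin (n + 1) → ℂ) (w : ℕ)
    (hw : w < (n + 1) ^ δ) :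
    evR (mA n δ H.length) (eqW n δ H.length w) (nuW n δ H v) = 0 := by
  have hlt : H.length + w < mA n δ H.length + 1 := by rw [mA_succ]; omega
  unfold eqW
  rw [evR_two, ev_rep _ _ _ hlt, nuW_w,
    ev_map_W n δ H v _ (fun y hy => digs_lt (Nat.succ_pos n) hy), sub_self]

theorem stepA_mem (n δ : ℕ) (hδ : 1 ≤ δ) (L H : List Form) (hL : ∀ P ∈ L, IsForm n P)
    (hH : ∀ P ∈ H, HasDeg n δ P) (x : PP n) :
    (nuE n δ hδ H hH).emb x ∈ Locus (mA n δ H.length) (stepA n δ L H) ↔ x ∈ Locus n L := by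
  unfold EmbData.emb
  rw [mk_mem_Locus _ _ (stepA_isForm n δ hδ L H hL hH)]
  change (∀ Q ∈ stepA n δ L H, evR (mA n δ H.length) Q (nuW n δ H x.rep) = 0) ↔
    ∀ P ∈ L, evR n P x.rep = 0
  constructor
  · intro h P hP
    obtain ⟨d, hd⟩ := hL P hP
    obtain ⟨i, hi⟩ := Function.ne_iff.1 x.rep_nonzero
    have h1 := h (eqL n δ H.length i P) (by
      unfold stepA
      refine List.mem_append_left _ (List.mem_append_left _ (List.mem_append_right _ ?_))
      exact List.mem_flatMap.2 ⟨P, hP, List.mem_map.2 ⟨i, List.mem_range.2 i.2, rfl⟩⟩)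
    rw [evR_eqL n δ d hδ H x.rep i i.2 P hd] at h1
    exact (mul_eq_zero.1 h1).resolve_left (pow_ne_zero _ (pow_ne_zero _ hi))
  · intro h Q hQ
    unfold stepA at hQ
    rcases List.mem_append.1 hQ with hQ | hQ
    · rcases List.mem_append.1 hQ with hQ | hQ
      · rcases List.mem_append.1 hQ with hQ | hQ
        · obtain ⟨a, ha, rfl⟩ := List.mem_map.1 hQ
          exact evR_eqY n δ a H hH (List.mem_range.1 ha) x.rep
        · obtain ⟨P, hP, hQ⟩ := List.mem_flatMap.1 hQ
          obtain ⟨i, hi, rfl⟩ := List.mem_map.1 hQ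
          obtain ⟨d, hd⟩ := hL P hP
          rw [evR_eqL n δ d hδ H x.rep i (List.mem_range.1 hi) P hd, h P hP, mul_zero]
      · obtain ⟨i, hi, hQ⟩ := List.mem_flatMap.1 hQ
        obtain ⟨w, hw, rfl⟩ := List.mem_map.1 hQ
        exact evR_eqV n δ hδ H x.rep i w (List.mem_range.1 hi) (List.mem_range.1 hw)
    · obtain ⟨w, hw, rfl⟩ := List.mem_map.1 hQ
      exact evR_eqW n δ H x.rep w (List.mem_range.1 hw)

theorem stepA_Lam (n δ : ℕ) (hδ : 1 ≤ δ) (H : List Form) (hH : ∀ P ∈ H, HasDeg n δ P) (x : PP n) :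
    (nuE n δ hδ H hH).emb x ∈ Lam (mA n δ H.length) H.length ↔ x ∈ Locus n H := by
  have h0 : 0 < (n + 1) ^ δ := Nat.pos_of_ne_zero (pow_ne_zero _ (Nat.succ_ne_zero n))
  have hm := mA_succ n δ H.length
  unfold EmbData.emb
  rw [mk_mem_Lam]
  change (∀ i : Fin (mA n δ H.length + 1), (i : ℕ) < H.length → nuW n δ H x.rep i = 0) ↔
    ∀ P ∈ H, evalC n P x.rep = 0
  constructor
  · intro h P hP
    obtain ⟨a, ha, rfl⟩ := List.getElem_of_mem hP
    have h1 := h ⟨a, by omega⟩ ha
    unfold nuW at h1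
    simp only [ha, if_true] at h1
    rw [List.getD_eq_getElem _ _ ha] at h1
    exact h1
  · intro h i hi
    unfold nuW
    simp only [hi, if_true]
    rw [List.getD_eq_getElem _ _ hi]
    exact h _ (List.getElem_mem hi)

end Pool.Agent.Work.MP_90e0ad_ag.Hs
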