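import Pool.Agent.Work.MP_90e0ad_ag.Hs.StepAX

/-!
MP_90e0ad_ag/Hs, module StepAS (size M): see the header of StepAX for the proof.
-/

namespace Pool.Agent.Work.MP_90e0ad_ag.Hs

open Pool.Agent.Work.MP_90e0ad_ag

private theorem rep_succ' (k j : ℕ) : rep (k + 1) j = j :: rep k j := by
  unfold rep
  rw [List.range_succ_eq_map, List.map_cons, List.map_map]
  rfl

private theorem ti_W_lt' (n δ r j : ℕ) (hj : j < n + 1) : ti (n + 1) r (rep δ j) < mA n δ r + 1 :=
  ti_lt_of n δ r _ (rep_length _ _) (fun y hy => by rw [mem_rep hy]; exact hj)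

private theorem evR_two' (m : ℕ) (l l' : List ℕ) (u : Fin (m + 1) → ℂ) :
    evR m [((1 : ℤ), exps (m + 1) l), (-1, exps (m + 1) l')] u = ev u l - ev u l' := by
  rw [evR_cons, evR_cons, evR_nil, prod_exps, prod_exps]
  push_cast
  ring

private theorem ev_map_ne {m : ℕ} (u : Fin (m + 1) → ℂ) (f : ℕ → ℕ) (a : ℕ) (l : List ℕ)
    (hf : f a < m + 1) (h : ev u ((a :: l).map f) ≠ 0) : u ⟨f a, hf⟩ ≠ 0 := by
  intro h0
  apply h
  rw [List.map_cons, ev_cons u _ hf, h0, zero_mul]

private theorem sum_map_neg' {ι : Type} (l : List ι) (f : ι → ℂ) :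
    (l.map fun x => -(f x)).sum = -(l.map f).sum := by
  induction l with
  | nil => simp
  | cons a l ih =>
    rw [List.map_cons, List.map_cons, List.sum_cons, List.sum_cons, ih]
    ring

theorem stepA_surj (n δ : ℕ) (hδ : 1 ≤ δ) (L H : List Form) (hL : ∀ P ∈ L, IsForm n P)
    (hH : ∀ P ∈ H, HasDeg n δ P) (y : PP (mA n δ H.length))
    (hy : y ∈ Locus (mA n δ H.length) (stepA n δ L H)) :
    ∃ x : PP n, (nuE n δ hδ H hH).emb x = y := by
  set u : Fin (mA n δ H.length + 1) → ℂ := y.rep with hu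
  have hm := mA_succ n δ H.length
  have hpos : 0 < (n + 1) ^ δ := Nat.pos_of_ne_zero (pow_ne_zero _ (Nat.succ_ne_zero n))
  have hQ : ∀ Q ∈ stepA n δ L H, evR (mA n δ H.length) Q u = 0 := fun Q h => hy Q h
  obtain ⟨e, rfl⟩ : ∃ e, δ = e + 1 := ⟨δ - 1, by omega⟩
  -- the equations
  have hY : ∀ a (ha : a < H.length), u ⟨a, by omega⟩ =
      ((H.getD a []).map fun ce => (ce.1 : ℂ) * ev u [ti (n + 1) H.length (word ce.2)]).sum := by
    intro a ha
    have h1 := hQ (eqY n (e + 1) H.length a (H.getD a [])) (by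
      unfold stepA
      refine List.mem_append_left _ (List.mem_append_left _ (List.mem_append_left _ ?_))
      exact List.mem_map.2 ⟨a, List.mem_range.2 ha, rfl⟩)
    unfold eqY at h1
    rw [evR_cons, prod_exps, ev_cons _ a (by omega), ev_nil, evR_mon (mA n (e + 1) H.length) (H.getD a [])
      (fun ce => -ce.1) (fun ce => [ti (n + 1) H.length (word ce.2)])] at h1
    have h2 : ((H.getD a []).map fun x => (((-x.1 : ℤ)) : ℂ) * ev u [ti (n + 1) H.length (word x.2)]).sum =
        - ((H.getD a []).map fun ce => (ce.1 : ℂ) * ev u [ti (n + 1) H.length (word ce.2)]).sum := by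
      rw [← sum_map_neg']
      congr 1
      refine List.map_congr_left fun x _ => ?_
      push_cast
      ring
    rw [h2] at h1
    push_cast at h1
    linear_combination h1
  have hV : ∀ i (hi : i < n + 1) w (hw : w < (n + 1) ^ (e + 1)),
      u ⟨H.length + w, by omega⟩ * u ⟨ti (n + 1) H.length (rep (e + 1) i), ti_W_lt' n (e + 1) H.length i hi⟩ ^ e =
        ev u ((digs (n + 1) (e + 1) w).map fun j => ti (n + 1) H.length (j :: rep e i)) := by
    intro i hi w hw
    have h1 := hQ (eqV n (e + 1) H.length i w) (by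
      unfold stepA
      refine List.mem_append_left _ (List.mem_append_right _ ?_)
      exact List.mem_flatMap.2 ⟨i, List.mem_range.2 hi, List.mem_map.2 ⟨w, List.mem_range.2 hw, rfl⟩⟩)
    unfold eqV at h1
    rw [evR_two', ev_cons _ _ (by omega), ev_rep _ _ _ (ti_W_lt' n (e + 1) H.length i hi)] at h1
    exact sub_eq_zero.1 h1
  have hW : ∀ w (hw : w < (n + 1) ^ (e + 1)), u ⟨H.length + w, by omega⟩ ^ (e + 1) =
      ev u ((digs (n + 1) (e + 1) w).map fun j => ti (n + 1) H.length (rep (e + 1) j)) := by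
    intro w hw
    have h1 := hQ (eqW n (e + 1) H.length w) (by
      unfold stepA
      refine List.mem_append_right _ ?_
      exact List.mem_map.2 ⟨w, List.mem_range.2 hw, rfl⟩)
    unfold eqW at h1
    rw [evR_two', ev_rep _ _ _ (by omega)] at h1
    exact sub_eq_zero.1 h1
  -- words of monomials of H
  have hword : ∀ a (ha : a < H.length), ∀ ce ∈ H.getD a [], (word ce.2).length = e + 1 ∧
      (∀ z ∈ word ce.2, z < n + 1) ∧ ce.2.length = n + 1 := by
    intro a ha ce hce
    rw [List.getD_eq_getElem _ _ ha] at hce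
    obtain ⟨h1, h2⟩ := hH _ (List.getElem_mem ha) ce hce
    exact ⟨by rw [word_length, h2], fun z hz => by rw [← h1]; exact word_lt hz, h1⟩
  -- some t_w is not 0
  have hex : ∃ w, ∃ hw : w < (n + 1) ^ (e + 1), u ⟨H.length + w, by omega⟩ ≠ 0 := by
    by_contra hcon
    push Not at hcon
    apply y.rep_nonzero
    have hti : ∀ l : List ℕ, l.length = e + 1 → (∀ z ∈ l, z < n + 1) → ev u [ti (n + 1) H.length l] = 0 := by
      intro l hl hl2
      have hlt := ti_lt_of n (e + 1) H.length l hl hl2
      rw [ev_cons _ _ hlt, ev_nil, mul_one]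
      have h3 : ofD (n + 1) l < (n + 1) ^ (e + 1) := by rw [← hl]; exact ofD_lt (n + 1) l hl2
      exact hcon _ h3
    funext j
    by_cases hj : (j : ℕ) < H.length
    · have h1 := hY j hj
      have h2 : ((H.getD (j : ℕ) []).map fun ce => (ce.1 : ℂ) * ev u [ti (n + 1) H.length (word ce.2)]).sum
          = 0 := by
        apply List.sum_eq_zero
        intro z hz
        obtain ⟨ce, hce, rfl⟩ := List.mem_map.1 hz
        obtain ⟨h3, h4, -⟩ := hword j hj ce hce
        rw [hti _ h3 h4, mul_zero]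
      rw [h2] at h1
      exact h1
    · have h1 := hcon ((j : ℕ) - H.length) (by have := j.2; omega)
      have h2 : (⟨H.length + ((j : ℕ) - H.length), by have := j.2; omega⟩ : Fin (mA n (e + 1) H.length + 1)) = j :=
        Fin.ext (by simp only; omega)
      rw [h2] at h1
      exact h1
  obtain ⟨w₀, hw₀, hu₀⟩ := hex
  -- the chart
  set i := w₀ % (n + 1) with hi_def
  have hi : i < n + 1 := Nat.mod_lt _ (Nat.succ_pos n)
  set b := u ⟨ti (n + 1) H.length (rep (e + 1) i), ti_W_lt' n (e + 1) H.length i hi⟩ with hb_def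
  have hb : b ≠ 0 := by
    have h1 := hW w₀ hw₀
    have h2 : u ⟨H.length + w₀, by omega⟩ ^ (e + 1) ≠ 0 := pow_ne_zero _ hu₀
    rw [h1, digs_succ] at h2
    exact ev_map_ne u (fun j => ti (n + 1) H.length (rep (e + 1) j)) i _ (ti_W_lt' n (e + 1) H.length i hi) h2
  have hVlt : ∀ j < n + 1, ti (n + 1) H.length (j :: rep e i) < mA n (e + 1) H.length + 1 := fun j hj =>
    ti_lt n (e + 1) H.length i j hδ hi hj
  set x : Fin (n + 1) → ℂ := fun j => u ⟨ti (n + 1) H.length ((j : ℕ) :: rep e i), hVlt j j.2⟩ / b with hx_def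
  have hxi : x ⟨i, hi⟩ = 1 := by
    rw [hx_def]
    simp only
    have h1 : (⟨ti (n + 1) H.length (i :: rep e i), hVlt i hi⟩ : Fin (mA n (e + 1) H.length + 1)) =
        ⟨ti (n + 1) H.length (rep (e + 1) i), ti_W_lt' n (e + 1) H.length i hi⟩ := by
      apply Fin.ext
      simp only [rep_succ']
    rw [h1]
    exact div_self hb
  have hx0 : x ≠ 0 := by
    intro h0
    rw [h0] at hxi
    exact zero_ne_one hxi
  have hxb : ∀ l : List ℕ, (∀ z ∈ l, z < n + 1) →
      ev u (l.map fun j => ti (n + 1) H.length (j :: rep e i)) = b ^ l.length * ev x l := by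
    intro l hl
    induction l with
    | nil => simp [ev_nil]
    | cons a l ih =>
      have ha := hl a (by simp)
      rw [List.map_cons, ev_cons _ _ (hVlt a ha), ih fun z hz => hl z (List.mem_cons_of_mem _ hz),
        ev_cons x a ha, List.length_cons, pow_succ]
      have h1 : u ⟨ti (n + 1) H.length (a :: rep e i), hVlt a ha⟩ = b * x ⟨a, ha⟩ := by
        rw [hx_def]
        field_simp
      rw [h1]
      ring
  have hT : ∀ w (hw : w < (n + 1) ^ (e + 1)), u ⟨H.length + w, by omega⟩ =
      b * ev x (digs (n + 1) (e + 1) w) := by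
    intro w hw
    have h1 := hV i hi w hw
    rw [hxb _ (fun z hz => digs_lt (Nat.succ_pos n) hz), digs_length] at h1
    have h2 : b ^ e ≠ 0 := pow_ne_zero _ hb
    apply mul_right_cancel₀ h2
    rw [h1, pow_succ]
    ring
  have hTl : ∀ l : List ℕ, l.length = e + 1 → (∀ z ∈ l, z < n + 1) →
      ev u [ti (n + 1) H.length l] = b * ev x l := by
    intro l hl hl2
    have hlt := ti_lt_of n (e + 1) H.length l hl hl2
    have h3 : ofD (n + 1) l < (n + 1) ^ (e + 1) := by rw [← hl]; exact ofD_lt (n + 1) l hl2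
    have h4 := hT _ h3
    have h5 : digs (n + 1) (e + 1) (ofD (n + 1) l) = l := by
      have h6 := digs_ofD (n + 1) l hl2
      rwa [hl] at h6
    rw [h5] at h4
    rw [ev_cons _ _ hlt, ev_nil, mul_one]
    exact h4
  have hfin : u = fun j => b * nuW n (e + 1) H x j := by
    funext j
    unfold nuW
    by_cases hj : (j : ℕ) < H.length
    · simp only [hj, if_true]
      have h1 := hY j hj
      have h2 : ((H.getD (j : ℕ) []).map fun ce => (ce.1 : ℂ) * ev u [ti (n + 1) H.length (word ce.2)]).sum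
          = b * evalC n (H.getD (j : ℕ) []) x := by
        have h3 : ∀ ce ∈ H.getD (j : ℕ) [], (ce.1 : ℂ) * ev u [ti (n + 1) H.length (word ce.2)] =
            b * ((ce.1 : ℂ) * ∏ i : Fin (n + 1), x i ^ ce.2.getD (i : ℕ) 0) := by
          intro ce hce
          obtain ⟨h4, h5, h6⟩ := hword j hj ce hce
          rw [hTl _ h4 h5, ev_word x _ h6]
          ring
        rw [List.map_congr_left h3, List.sum_map_mul_left]
        rfl
      rw [h2] at h1
      exact h1
    · simp only [hj, if_false]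
      have h1 := hT ((j : ℕ) - H.length) (by have := j.2; omega)
      have h2 : (⟨H.length + ((j : ℕ) - H.length), by have := j.2; omega⟩ : Fin (mA n (e + 1) H.length + 1)) = j :=
        Fin.ext (by simp only; omega)
      rw [h2] at h1
      exact h1
  refine ⟨Projectivization.mk ℂ x hx0, ?_⟩
  rw [EmbData.emb_mk, ← Projectivization.mk_rep y, Projectivization.mk_eq_mk_iff]
  refine ⟨(Units.mk0 b hb)⁻¹, ?_⟩
  change b⁻¹ • u = nuW n (e + 1) H x
  rw [hfin]
  funext j
  rw [Pi.smul_apply, smul_eq_mul, inv_mul_cancel_left₀ hb]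

end Pool.Agent.Work.MP_90e0ad_ag.Hs
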