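import Pool.Agent.Work.MP_90e0ad_ag.Hs.EmbX
import Pool.Agent.Work.MP_90e0ad_ag.Hs.Forms

/-!
MP_90e0ad_ag/Hs, modules StepAX (this file: mA_succ, ti_lt, nuE, stepA_isForm; size M), StepAM
(stepA_mem, stepA_Lam; size M), StepAS (stepA_surj; size M). Quasi-projective varieties as closed subvarieties minus a
linear section: the image of P^n under x -> (H_a(x), x_{w_0} ... x_{w_{δ-1}}), w in the words of length δ.

Coordinates of the target: r = H.length, index a < r for y_a, index r + w, w < (n+1)^δ, for t_w; the digits of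
w in base n + 1 are the letters of the word. mA n δ r + 1 = r + (n+1)^δ.
nuW x: coordinate j < r: evalC n (H.getD j []) x; coordinate r + w: ev x (digs (n+1) δ w).
nuE: W = nuW, R i u = (u_{ti (j :: rep (δ-1) i)})_j, c i x = x_i^(δ-1), ι = Fin (n+1);
R_W: t at the word j i^(δ-1) is x_j x_i^(δ-1) (digs_ofD, ev_cons, ev_rep; δ >= 1, the length of the list
is δ). W_ne: some x_i ≠ 0 and t_{i^δ} = x_i^δ. W_diff: polynomials (evalC n P and ev are differentiable: finite
sums and products). W_smul: evR_smul for H_a (degree δ), ev x of a word of length δ.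
stepA_mem: for x ∈ P^n: emb x ∈ Locus (stepA n δ L H) iff x ∈ Locus n L: eqY, eqV, eqW vanish on the image
(evR_mon; eqY: H_a(x) - Σ c ev x (word e) with digs_ofD; ev x (digs w) = ∏ over the letters); eqL for P of
degree d at emb x: ∏_{j in word} x_j x_i^(δ-1) = x_i^((δ-1) d) ∏ x_j, so it is x_i^((δ-1) d) P(x).
stepA_Lam: emb x ∈ Lam r iff H_a(x) = 0 for all a < r iff x ∈ Locus n H.
stepA_surj: u ∈ Locus (stepA n δ L H), u ≠ 0. If all t_w = 0 then y_a = 0 by eqY, so u = 0. So some t_w ≠ 0 and
by eqW t_w^δ = ∏_k t_{w_k^δ} some t_{i^δ} ≠ 0. Put b := t_{i^δ}, x_j := t_{(j i^(δ-1))} / b (x_i = 1). eqV: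
t_w b^(δ-1) = ∏_k t_{w_k i^(δ-1)} = b^δ ∏ x_{w_k}, so t_w = b ev x (digs w); eqY: y_a = Σ c t_{word e} =
b H_a(x). So u = b • nuW x and mk u = emb (mk x).
All equations are forms (exps_length, exps_sum; all indices are < mA + 1 = r + (n+1)^δ: ofD_lt).
-/

namespace Pool.Agent.Work.MP_90e0ad_ag.Hs

open Pool.Agent.Work.MP_90e0ad_ag

theorem mA_succ (n δ r : ℕ) : mA n δ r + 1 = r + (n + 1) ^ δ := by
  have h1 : 0 < (n + 1) ^ δ := Nat.pos_of_ne_zero (pow_ne_zero _ (Nat.succ_ne_zero n))
  unfold mA
  omega

/-- the map -/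
noncomputable def nuW (n δ : ℕ) (H : List Form) (x : Fin (n + 1) → ℂ) :
    Fin (mA n δ H.length + 1) → ℂ := fun j =>
  if (j : ℕ) < H.length then evalC n (H.getD (j : ℕ) []) x
  else ev x (digs (n + 1) δ ((j : ℕ) - H.length))

/-- words of length δ give indices in range -/
theorem ti_lt_of (n δ r : ℕ) (l : List ℕ) (hl : l.length = δ) (h : ∀ x ∈ l, x < n + 1) :
    ti (n + 1) r l < mA n δ r + 1 := by
  rw [mA_succ]
  unfold ti
  have := ofD_lt (n + 1) l h
  rw [hl] at this
  omega

theorem ti_lt (n δ r i j : ℕ) (hδ : 1 ≤ δ) (hi : i < n + 1) (hj : j < n + 1) :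
    ti (n + 1) r (j :: rep (δ - 1) i) < mA n δ r + 1 := by
  refine ti_lt_of n δ r _ ?_ ?_
  · rw [List.length_cons, rep_length]; omega
  · intro x hx
    rcases List.mem_cons.1 hx with rfl | hx
    · exact hj
    · rw [mem_rep hx]; exact hi

/-- value of the map at the index of a word -/
theorem nuW_ti (n δ : ℕ) (H : List Form) (x : Fin (n + 1) → ℂ) (l : List ℕ) (hl : l.length = δ)
    (h : ∀ y ∈ l, y < n + 1) (hlt : ti (n + 1) H.length l < mA n δ H.length + 1) :
    nuW n δ H x ⟨ti (n + 1) H.length l, hlt⟩ = ev x l := by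
  unfold nuW
  have h1 : ¬ ti (n + 1) H.length l < H.length := by unfold ti; omega
  have h2 : ti (n + 1) H.length l - H.length = ofD (n + 1) l := by unfold ti; omega
  simp only [h1, if_false, h2]
  rw [← hl, digs_ofD (n + 1) l h]

private theorem ev_smul (n : ℕ) (c : ℂ) (x : Fin (n + 1) → ℂ) (l : List ℕ) (h : ∀ y ∈ l, y < n + 1) :
    ev (fun i => c * x i) l = c ^ l.length * ev x l := by
  induction l with
  | nil => simp [ev_nil]
  | cons a l ih =>
    have ha := h a (by simp)
    rw [ev_cons _ a ha, ev_cons _ a ha, ih fun y hy => h y (List.mem_cons_of_mem _ hy),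
      List.length_cons, pow_succ]
    ring

private theorem ev_diff (n : ℕ) (l : List ℕ) (h : ∀ y ∈ l, y < n + 1) :
    Differentiable ℂ fun x : Fin (n + 1) → ℂ => ev x l := by
  induction l with
  | nil => simp only [ev_nil]; exact differentiable_const _
  | cons a l ih =>
    have ha := h a (by simp)
    have h1 : (fun x : Fin (n + 1) → ℂ => ev x (a :: l)) = fun x => x ⟨a, ha⟩ * ev x l := by
      funext x
      rw [ev_cons _ a ha]
    rw [h1]
    exact (differentiable_apply _).mul (ih fun y hy => h y (List.mem_cons_of_mem _ hy))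

private theorem evalC_diff (n : ℕ) (P : Form) : Differentiable ℂ fun x : Fin (n + 1) → ℂ => evalC n P x := by
  induction P with
  | nil =>
    have h1 : (fun x : Fin (n + 1) → ℂ => evalC n [] x) = fun _ => 0 := by
      funext x
      simp [evalC]
    rw [h1]
    exact differentiable_const _
  | cons ce P ih =>
    have h1 : (fun x : Fin (n + 1) → ℂ => evalC n (ce :: P) x) = fun x =>
        (ce.1 : ℂ) * (∏ i : Fin (n + 1), x i ^ ce.2.getD (i : ℕ) 0) + evalC n P x := by
      funext x
      exact evR_cons n ce P x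
    rw [h1]
    refine Differentiable.add ?_ ih
    refine Differentiable.const_mul ?_ _
    have h2 : ∀ i ∈ Finset.univ, Differentiable ℂ fun x : Fin (n + 1) → ℂ =>
        x i ^ ce.2.getD (i : ℕ) 0 := fun i _ => (differentiable_apply i).fun_pow _
    have h3 : ∀ s : Finset (Fin (n + 1)), Differentiable ℂ fun x : Fin (n + 1) → ℂ =>
        ∏ i ∈ s, x i ^ ce.2.getD (i : ℕ) 0 := by
      intro s
      induction s using Finset.induction_on with
      | empty => simp only [Finset.prod_empty]; exact differentiable_const _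
      | insert a s ha ih2 =>
        simp only [Finset.prod_insert ha]
        exact (h2 a (Finset.mem_univ _)).mul ih2
    exact h3 _

noncomputable def nuE (n δ : ℕ) (hδ : 1 ≤ δ) (H : List Form) (hH : ∀ P ∈ H, HasDeg n δ P) :
    EmbData n (mA n δ H.length) where
  W := nuW n δ H
  δ := δ
  W_ne := by
    intro x hx h0
    apply hx
    funext i
    have hr : (rep δ (i : ℕ)).length = δ := rep_length _ _
    have hr2 : ∀ y ∈ rep δ (i : ℕ), y < n + 1 := fun y hy => by rw [mem_rep hy]; exact i.2
    have h1 := nuW_ti n δ H x (rep δ i) hr hr2 (ti_lt_of n δ _ _ hr hr2)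
    rw [h0, ev_rep x δ i i.2] at h1
    have hδ0 : δ ≠ 0 := by omega
    exact (pow_eq_zero_iff hδ0).1 h1.symm
  W_smul := by
    intro c x
    funext j
    unfold nuW
    by_cases h : (j : ℕ) < H.length
    · simp only [h, if_true]
      rw [List.getD_eq_getElem _ _ h]
      exact evR_smul n δ _ (hH _ (List.getElem_mem h)) c x
    · simp only [h, if_false]
      rw [ev_smul n c x _ fun y hy => digs_lt (Nat.succ_pos n) hy, digs_length]
  W_diff := by
    rw [differentiable_pi]
    intro j
    unfold nuW
    by_cases h : (j : ℕ) < H.length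
    · simp only [h, if_true]
      exact evalC_diff n _
    · simp only [h, if_false]
      exact ev_diff n _ fun y hy => digs_lt (Nat.succ_pos n) hy
  ι := Fin (n + 1)
  R i u := fun j => u ⟨ti (n + 1) H.length ((j : ℕ) :: rep (δ - 1) i), ti_lt n δ _ i j hδ i.2 j.2⟩
  R_diff := by
    intro i
    rw [differentiable_pi]
    intro j
    exact differentiable_apply _
  R_smul := by
    intro i c u
    rfl
  c i x := x i ^ (δ - 1)
  R_W := by
    intro i x
    funext j
    have h1 : ((j : ℕ) :: rep (δ - 1) (i : ℕ)).length = δ := by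
      rw [List.length_cons, rep_length]; omega
    have h2 : ∀ y ∈ ((j : ℕ) :: rep (δ - 1) (i : ℕ)), y < n + 1 := by
      intro y hy
      rcases List.mem_cons.1 hy with rfl | hy
      · exact j.2
      · rw [mem_rep hy]; exact i.2
    rw [nuW_ti n δ H x _ h1 h2, ev_cons x j j.2, ev_rep x _ i i.2, mul_comm]
  c_ne := by
    intro x hx
    obtain ⟨i, hi⟩ := Function.ne_iff.1 hx
    exact ⟨i, pow_ne_zero _ hi⟩

theorem stepA_isForm (n δ : ℕ) (hδ : 1 ≤ δ) (L H : List Form) (hL : ∀ P ∈ L, IsForm n P)
    (hH : ∀ P ∈ H, HasDeg n δ P) : ∀ Q ∈ stepA n δ L H, IsForm (mA n δ H.length) Q := by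
  have hrep : ∀ i < n + 1, ti (n + 1) H.length (rep δ i) < mA n δ H.length + 1 := fun i hi =>
    ti_lt_of n δ _ _ (rep_length _ _) fun y hy => by rw [mem_rep hy]; exact hi
  intro Q hQ
  unfold stepA at hQ
  rcases List.mem_append.1 hQ with hQ | hQ
  · rcases List.mem_append.1 hQ with hQ | hQ
    · rcases List.mem_append.1 hQ with hQ | hQ
      · obtain ⟨a, ha, rfl⟩ := List.mem_map.1 hQ
        have ha' := List.mem_range.1 ha
        refine ⟨1, fun ce hce => ?_⟩
        unfold eqY at hce
        rcases List.mem_cons.1 hce with rfl | hce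
        · refine ⟨exps_length _ _, ?_⟩
          simp only
          rw [exps_sum]
          · rfl
          · intro x hx
            rw [List.mem_singleton] at hx
            rw [mA_succ]
            have h1 : 0 < (n + 1) ^ δ := Nat.pos_of_ne_zero (pow_ne_zero _ (Nat.succ_ne_zero n))
            omega
        · obtain ⟨x, hx, rfl⟩ := List.mem_map.1 hce
          rw [List.getD_eq_getElem _ _ ha'] at hx
          obtain ⟨h1, h2⟩ := hH _ (List.getElem_mem ha') x hx
          refine ⟨exps_length _ _, ?_⟩
          simp only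
          rw [exps_sum]
          · rfl
          · intro y hy
            rw [List.mem_singleton] at hy
            rw [hy]
            refine ti_lt_of n δ _ _ ?_ ?_
            · rw [word_length, h2]
            · intro z hz
              rw [← h1]
              exact word_lt hz
      · obtain ⟨P, hP, hQ⟩ := List.mem_flatMap.1 hQ
        obtain ⟨i, hi, rfl⟩ := List.mem_map.1 hQ
        have hi' := List.mem_range.1 hi
        obtain ⟨d, hd⟩ := hL P hP
        refine ⟨d, fun ce hce => ?_⟩
        unfold eqL at hce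
        obtain ⟨x, hx, rfl⟩ := List.mem_map.1 hce
        obtain ⟨h1, h2⟩ := hd x hx
        refine ⟨exps_length _ _, ?_⟩
        simp only
        rw [exps_sum, List.length_map, word_length, h2]
        intro y hy
        obtain ⟨j, hj, rfl⟩ := List.mem_map.1 hy
        have hj' := word_lt hj
        rw [h1] at hj'
        exact ti_lt n δ _ i j hδ hi' hj'
    · obtain ⟨i, hi, hQ⟩ := List.mem_flatMap.1 hQ
      obtain ⟨w, hw, rfl⟩ := List.mem_map.1 hQ
      have hi' := List.mem_range.1 hi
      have hw' := List.mem_range.1 hw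
      refine ⟨δ, fun ce hce => ?_⟩
      unfold eqV at hce
      rcases List.mem_cons.1 hce with rfl | hce
      · refine ⟨exps_length _ _, ?_⟩
        simp only
        rw [exps_sum, List.length_cons, rep_length]
        · omega
        · intro y hy
          rcases List.mem_cons.1 hy with rfl | hy
          · rw [mA_succ]; omega
          · rw [mem_rep hy]; exact hrep i hi'
      · rw [List.mem_singleton] at hce
        subst hce
        refine ⟨exps_length _ _, ?_⟩
        simp only
        rw [exps_sum, List.length_map, digs_length]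
        intro y hy
        obtain ⟨j, hj, rfl⟩ := List.mem_map.1 hy
        exact ti_lt n δ _ i j hδ hi' (digs_lt (Nat.succ_pos n) hj)
  · obtain ⟨w, hw, rfl⟩ := List.mem_map.1 hQ
    have hw' := List.mem_range.1 hw
    refine ⟨δ, fun ce hce => ?_⟩
    unfold eqW at hce
    rcases List.mem_cons.1 hce with rfl | hce
    · refine ⟨exps_length _ _, ?_⟩
      simp only
      rw [exps_sum, rep_length]
      intro y hy
      rw [mem_rep hy, mA_succ]
      omega
    · rw [List.mem_singleton] at hce
      subst hce
      refine ⟨exps_length _ _, ?_⟩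
      simp only
      rw [exps_sum, List.length_map, digs_length]
      intro y hy
      obtain ⟨j, hj, rfl⟩ := List.mem_map.1 hy
      exact hrep j (digs_lt (Nat.succ_pos n) hj)

end Pool.Agent.Work.MP_90e0ad_ag.Hs
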