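import Pool.Agent.Work.MP_90e0ad_ag.Hs.CoreH
import Pool.Agent.Work.MP_90e0ad_ag.Hs.CertComplete
import Pool.Agent.Work.MP_90e0ad_ag.Hs.StepAM
import Pool.Agent.Work.MP_90e0ad_ag.Hs.StepAS
import Pool.Agent.Work.MP_90e0ad_ag.Hs.PrimF
import Pool.Agent.Work.MP_90e0ad_ag.Hs.PrimC
import Pool.Agent.Work.MP_90e0ad_ag.Hs.PrimA
import Pool.Agent.Work.MP_90e0ad_ag.Hs.Search

/-!
MP_90e0ad_ag/Hs: the computable reductions (assembly, helper85).
-/

namespace Pool.Agent.Work.MP_90e0ad_ag.Hs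

open Pool.Agent.Work.MP_90e0ad_ag

theorem deg0_of_hasDeg {m d : ℕ} {f : Form} (hf : HasDeg m d f) (h : f ≠ []) : d = deg0 f := by
  cases f with
  | nil => exact absurd rfl h
  | cons ce f => exact ((hf ce (by simp)).2).symm

theorem cert_sound' (m s d K : ℕ) (f : Form) (hf : HasDeg m d f) (h : Cert m s f K) :
    SmoothAlong m s f := by
  by_cases h0 : f = []
  · subst h0
    exact cert_sound m s 0 K [] (by intro ce hce; simp at hce) rfl h
  · exact cert_sound m s d K f hf (deg0_of_hasDeg hf h0) h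

theorem cert_complete' (m s d : ℕ) (f : Form) (hf : HasDeg m d f) (h : SmoothAlong m s f) :
    ∃ K₀ : ℕ, ∀ K ≥ K₀, Cert m s f K := by
  by_cases h0 : f = []
  · subst h0
    exact cert_complete m s 0 [] (by intro ce hce; simp at hce) rfl h
  · exact cert_complete m s d f hf (deg0_of_hasDeg hf h0) h

/-- the form computed from M, E, N, a -/
def fH (x : ℕ × List Form × ℕ × List ℤ) : Form :=
  fForm (2 * x.1 + 2) (JJ x.1) x.2.2.1 (gens x.1 x.2.1) x.2.2.2

theorem primrec_two_mul_add (c : ℕ) : Primrec fun M : ℕ => 2 * M + c :=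
  Primrec.nat_add.comp (Primrec.nat_mul.comp (Primrec.const 2) Primrec.id) (Primrec.const c)

theorem primrec_fH : Primrec fH := by
  have h1 : Primrec fun x : ℕ × List Form × ℕ × List ℤ => x.1 := Primrec.fst
  have h2 : Primrec fun x : ℕ × List Form × ℕ × List ℤ => x.2.1 := Primrec.fst.comp Primrec.snd
  have h3 : Primrec fun x : ℕ × List Form × ℕ × List ℤ => x.2.2.1 :=
    Primrec.fst.comp (Primrec.snd.comp Primrec.snd)
  have h4 : Primrec fun x : ℕ × List Form × ℕ × List ℤ => x.2.2.2 :=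
    Primrec.snd.comp (Primrec.snd.comp Primrec.snd)
  have hg : Primrec fun x : ℕ × List Form × ℕ × List ℤ => gens x.1 x.2.1 :=
    primrec_gens.comp (h1.pair h2)
  exact primrec_fForm.comp (((primrec_two_mul_add 2).comp h1).pair
    ((primrec_JJ.comp h1).pair (h3.pair (hg.pair h4))))

/-- number of coefficients -/
def nP (M : ℕ) (E : List Form) : ℕ := (gens M E).length * JJ M

theorem primrec_nP : Primrec₂ nP :=
  Primrec.nat_mul.comp (Primrec.list_length.comp primrec_gens) (primrec_JJ.comp Primrec.fst)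

/-- the relation for the search -/
def relH (y : ℕ × ℕ × List Form × ℕ) (b : List ℤ × ℕ) : Prop :=
  (∀ P ∈ y.2.2.1, IsForm y.1 P) → (y.2.1 ≤ y.1 + 1 ∧ 1 ≤ y.2.2.2) →
    (∀ p < nP y.1 y.2.2.1, b.1.getD p 0 ≠ 0) ∧
      (Cert (2 * y.1 + 1) 0 (fH (y.1, y.2.2.1, y.2.2.2, b.1)) b.2 ∧
        Cert (2 * y.1 + 1) y.2.1 (fH (y.1, y.2.2.1, y.2.2.2, b.1)) b.2)

theorem primrecRel_relH : PrimrecRel relH := by
  have hM : Primrec fun q : (ℕ × ℕ × List Form × ℕ) × (List ℤ × ℕ) => q.1.1 :=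
    Primrec.fst.comp Primrec.fst
  have hs : Primrec fun q : (ℕ × ℕ × List Form × ℕ) × (List ℤ × ℕ) => q.1.2.1 :=
    Primrec.fst.comp (Primrec.snd.comp Primrec.fst)
  have hE : Primrec fun q : (ℕ × ℕ × List Form × ℕ) × (List ℤ × ℕ) => q.1.2.2.1 :=
    Primrec.fst.comp (Primrec.snd.comp (Primrec.snd.comp Primrec.fst))
  have hN : Primrec fun q : (ℕ × ℕ × List Form × ℕ) × (List ℤ × ℕ) => q.1.2.2.2 :=
    Primrec.snd.comp (Primrec.snd.comp (Primrec.snd.comp Primrec.fst))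
  have ha : Primrec fun q : (ℕ × ℕ × List Form × ℕ) × (List ℤ × ℕ) => q.2.1 :=
    Primrec.fst.comp Primrec.snd
  have hK : Primrec fun q : (ℕ × ℕ × List Form × ℕ) × (List ℤ × ℕ) => q.2.2 :=
    Primrec.snd.comp Primrec.snd
  have hf := primrec_fH.comp (hM.pair (hE.pair (hN.pair ha)))
  have hm := (primrec_two_mul_add 1).comp hM
  have c1 : PrimrecPred fun q : (ℕ × ℕ × List Form × ℕ) × (List ℤ × ℕ) =>
      ∀ P ∈ q.1.2.2.1, IsForm q.1.1 P := PrimrecPred.comp primrec_isForm (hM.pair hE)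
  have c2 : PrimrecPred fun q : (ℕ × ℕ × List Form × ℕ) × (List ℤ × ℕ) =>
      q.1.2.1 ≤ q.1.1 + 1 ∧ 1 ≤ q.1.2.2.2 :=
    (PrimrecRel.comp Primrec.nat_le hs (Primrec.nat_add.comp hM (Primrec.const 1))).and
      (PrimrecRel.comp Primrec.nat_le (Primrec.const 1) hN)
  have c3 : PrimrecPred fun q : (ℕ × ℕ × List Form × ℕ) × (List ℤ × ℕ) =>
      ∀ p < nP q.1.1 q.1.2.2.1, q.2.1.getD p 0 ≠ 0 :=
    PrimrecPred.comp primrec_nonzero ((primrec_nP.comp hM hE).pair ha)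
  have c4 : PrimrecPred fun q : (ℕ × ℕ × List Form × ℕ) × (List ℤ × ℕ) =>
      Cert (2 * q.1.1 + 1) 0 (fH (q.1.1, q.1.2.2.1, q.1.2.2.2, q.2.1)) q.2.2 :=
    PrimrecPred.comp primrec_cert (hm.pair ((Primrec.const 0).pair (hf.pair hK)))
  have c5 : PrimrecPred fun q : (ℕ × ℕ × List Form × ℕ) × (List ℤ × ℕ) =>
      Cert (2 * q.1.1 + 1) q.1.2.1 (fH (q.1.1, q.1.2.2.1, q.1.2.2.2, q.2.1)) q.2.2 :=
    PrimrecPred.comp primrec_cert (hm.pair (hs.pair (hf.pair hK)))
  exact primrecPred_imp c1 (primrecPred_imp c2 (c3.and (c4.and c5)))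

theorem fH_hasDeg (M : ℕ) (E : List Form) (hE : ∀ P ∈ E, IsForm M P) (N : ℕ) (a : List ℤ) :
    HasDeg (2 * M + 1) (eOf E + N) (fH (M, E, N, a)) :=
  fForm_hasDeg (2 * M + 1) (JJ M) N (eOf E) (gens M E) a (gens_hasDeg M E hE)

theorem relH_total (y : ℕ × ℕ × List Form × ℕ) : ∃ b, relH y b := by
  obtain ⟨M, s, E, N⟩ := y
  by_cases hE : ∀ P ∈ E, IsForm M P
  · by_cases h2 : s ≤ M + 1 ∧ 1 ≤ N
    · obtain ⟨a, ha, hsm⟩ := existsH M E hE N h2.2
      obtain ⟨K₀, hK₀⟩ := cert_complete' (2 * M + 1) 0 _ (fH (M, E, N, a))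
        (fH_hasDeg M E hE N a) (hsm 0 (Nat.zero_le _))
      obtain ⟨K₁, hK₁⟩ := cert_complete' (2 * M + 1) s _ (fH (M, E, N, a))
        (fH_hasDeg M E hE N a) (hsm s h2.1)
      exact ⟨(a, max K₀ K₁), fun _ _ => ⟨ha, hK₀ _ (le_max_left _ _), hK₁ _ (le_max_right _ _)⟩⟩
    · exact ⟨([], 0), fun _ h => absurd h h2⟩
  · exact ⟨([], 0), fun h => absurd h hE⟩

/-- the exponent -/
def NH (D : ℕ → ℕ) (x : ℕ × List Form) : ℕ :=
  N0x (2 * x.1 + 1) (eOf x.2) (nP x.1 x.2) + (D (2 * x.1 + 1) + 1)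

theorem computable_NH (D : ℕ → ℕ) (hD : Computable D) : Computable (NH D) := by
  have hM : Computable fun x : ℕ × List Form => x.1 := Computable.fst
  have hE : Computable fun x : ℕ × List Form => x.2 := Computable.snd
  have h2M : Computable fun x : ℕ × List Form => 2 * x.1 + 1 :=
    (primrec_two_mul_add 1).to_comp.comp hM
  have hN0 : Computable fun x : ℕ × List Form =>
      N0x (2 * x.1 + 1) (eOf x.2) (nP x.1 x.2) :=
    primrec_N0x.to_comp.comp (h2M.pair ((primrec_eOf.to_comp.comp hE).pair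
      (primrec_nP.to_comp.comp hM hE)))
  have h3 : Computable fun x : ℕ × List Form => D (2 * x.1 + 1) + 1 :=
    Computable.succ.comp (hD.comp h2M)
  exact (Primrec.nat_add.to_comp.comp hN0 h3 : Computable fun x : ℕ × List Form =>
    N0x (2 * x.1 + 1) (eOf x.2) (nP x.1 x.2) + (D (2 * x.1 + 1) + 1))

/-- the reduction, from a search function -/
def rH (D : ℕ → ℕ) (g : ℕ × ℕ × List Form × ℕ → List ℤ × ℕ) (x : ℕ × ℕ × List Form) : Form :=
  fH (x.1, x.2.2, NH D (x.1, x.2.2), (g (x.1, x.2.1, x.2.2, NH D (x.1, x.2.2))).1)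

theorem computable_rH (D : ℕ → ℕ) (hD : Computable D)
    (g : ℕ × ℕ × List Form × ℕ → List ℤ × ℕ) (hg : Computable g) : Computable (rH D g) := by
  have hM : Computable fun x : ℕ × ℕ × List Form => x.1 := Computable.fst
  have hs : Computable fun x : ℕ × ℕ × List Form => x.2.1 := Computable.fst.comp Computable.snd
  have hE : Computable fun x : ℕ × ℕ × List Form => x.2.2 := Computable.snd.comp Computable.snd
  have hN : Computable fun x : ℕ × ℕ × List Form => NH D (x.1, x.2.2) :=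
    (computable_NH D hD).comp (hM.pair hE)
  have hy : Computable fun x : ℕ × ℕ × List Form => (x.1, x.2.1, x.2.2, NH D (x.1, x.2.2)) :=
    hM.pair (hs.pair (hE.pair hN))
  have ha : Computable fun x : ℕ × ℕ × List Form =>
      (g (x.1, x.2.1, x.2.2, NH D (x.1, x.2.2))).1 := Computable.fst.comp (hg.comp hy)
  exact primrec_fH.to_comp.comp (hM.pair (hE.pair (hN.pair ha)))

theorem stepB_comp (D : ℕ → ℕ) (hD : Computable D) :
    ∃ r : ℕ × ℕ × List Form → Form, Computable r ∧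
      ∀ M s E, (∀ P ∈ E, IsForm M P) → s ≤ M + 1 →
        Good D (2 * M + 1) s (r (M, s, E)) ∧
        (Hyperbolic M (Locus M E \ Lam M s) ↔
          Hyperbolic (2 * M + 1) (Locus (2 * M + 1) [r (M, s, E)] \ Lam (2 * M + 1) s)) ∧
        (Hyperbolic M (Locus M E) ↔ Hyperbolic (2 * M + 1) (Locus (2 * M + 1) [r (M, s, E)])) := by
  obtain ⟨g, hg, hgp⟩ := exists_search relH primrecRel_relH relH_total
  refine ⟨rH D g, computable_rH D hD g hg, ?_⟩
  intro M s E hEf hsM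
  have hN1 : 1 ≤ NH D (M, E) := by unfold NH; exact le_add_left (Nat.le_add_left _ _)
  have hN2 : N0x (2 * M + 1) (eOf E) ((gens M E).length * JJ M) ≤ NH D (M, E) := by
    unfold NH nP; exact Nat.le_add_right _ _
  have hN3 : D (2 * M + 1) ≤ NH D (M, E) := by
    unfold NH
    exact le_add_left (Nat.le_succ _)
  have hr : rH D g (M, s, E) = fH (M, E, NH D (M, E), (g (M, s, E, NH D (M, E))).1) := rfl
  rw [hr]
  generalize NH D (M, E) = N at *
  obtain ⟨h1, h2, h3⟩ := hgp (M, s, E, N) hEf ⟨hsM, hN1⟩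
  have hd := fH_hasDeg M E hEf N (g (M, s, E, N)).1
  have hB := stepB_hyp M E hEf N hN2 (g (M, s, E, N)).1 h1
  exact ⟨⟨by omega, ⟨eOf E + N, by omega, hd⟩, cert_sound' _ _ _ _ _ hd h2,
    cert_sound' _ _ _ _ _ hd h3⟩, hB.1 s hsM, hB.2⟩

end Pool.Agent.Work.MP_90e0ad_ag.Hs
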